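import Pool.Agent.Lib.MP_7bc51d_an_s.BGeom

set_option autoImplicit false

namespace Pool.Agent.Lib.Bil

open Complex MeasureTheory Set
open scoped ComplexConjugate Topology ENNReal

variable {n : ℕ} {v : Fin n → ℂ}

theorem no_between (hv : ConvexIndependent ℝ v) {a b c : Fin n} (hca : c ≠ a) (hcb : c ≠ b)
    {s : ℝ} (h0 : 0 ≤ s) (h1 : s ≤ 1) (h : v c = v a + (s : ℂ) * (v b - v a)) : False := by
  have hmem : v c ∈ convexHull ℝ (v '' {a, b}) := by
    rw [image_pair, convexHull_pair]
    refine ⟨1 - s, s, by linarith, h0, by ring, ?_⟩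
    rw [h]
    simp only [real_smul, ofReal_sub, ofReal_one]
    ring
  have := (hv.mem_convexHull_iff {a, b} c).1 hmem
  rcases this with h | h
  · exact hca h
  · exact hcb h

theorem v_sub_ne (hv : ConvexIndependent ℝ v) {i j : Fin n} (hij : i ≠ j) : v j - v i ≠ 0 := by
  intro h
  exact hij (hv.injective (sub_eq_zero.1 h)).symm

theorem noncol (hv : ConvexIndependent ℝ v) {i j k : Fin n} (hij : i ≠ j) (hki : k ≠ i)
    (hkj : k ≠ j) : cr (v j - v i) (v k - v i) ≠ 0 := by
  intro h
  obtain ⟨t, ht⟩ := (cr_eq_zero_iff (v_sub_ne hv hij)).1 h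
  have hk : v k = v i + (t : ℂ) * (v j - v i) := by rw [← ht]; ring
  rcases lt_or_ge t 0 with h0 | h0
  · -- v i between v j and v k
    have hne : (1 - t : ℝ) ≠ 0 := by linarith
    refine no_between hv (a := j) (b := k) (c := i) hij (Ne.symm hki) (s := 1 / (1 - t))
      (by apply div_nonneg <;> linarith) ?_ ?_
    · rw [div_le_one (by linarith)]; linarith
    · rw [hk]
      have : ((1 / (1 - t) : ℝ) : ℂ) * (1 - t) = 1 := by
        rw [← ofReal_one, ← ofReal_sub, ← ofReal_mul]
        congr 1; field_simp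
      linear_combination (v j - v i) * this
  · rcases le_or_gt t 1 with h1 | h1
    · exact no_between hv hki hkj h0 h1 hk
    · refine no_between hv (a := i) (b := k) (c := j) (Ne.symm hij) (Ne.symm hkj) (s := 1 / t)
        (by positivity) ?_ ?_
      · rw [div_le_one (by linarith)]; linarith
      · rw [hk]
        have : ((1 / t : ℝ) : ℂ) * t = 1 := by
          rw [← ofReal_mul, ← ofReal_one]
          congr 1; field_simp
        linear_combination (-(v j - v i)) * this

theorem convex_KK : Convex ℝ (KK v) := convex_convexHull ℝ _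

theorem isCompact_KK : IsCompact (KK v) := (Set.finite_range v).isCompact_convexHull ℝ

theorem isClosed_KK : IsClosed (KK v) := isCompact_KK.isClosed

theorem isOpen_PP : IsOpen (PP v) := isOpen_interior

theorem convex_PP : Convex ℝ (PP v) := convex_KK.interior

theorem PP_sub_KK : PP v ⊆ KK v := interior_subset

theorem vert_mem_KK (i : Fin n) : v i ∈ KK v := subset_convexHull ℝ _ ⟨i, rfl⟩

theorem isBounded_PP : Bornology.IsBounded (PP v) := isCompact_KK.isBounded.subset PP_sub_KK

/-- Half plane containing the polygon. -/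
theorem cr_nonneg_of_mem_KK {a d : ℂ} (h : ∀ k, 0 ≤ cr d (v k - a)) {x : ℂ} (hx : x ∈ KK v) :
    0 ≤ cr d (x - a) := by
  have hconv : Convex ℝ {x : ℂ | 0 ≤ cr d (x - a)} := by
    intro x hx y hy s t hs ht hst
    simp only [mem_ofPred_eq] at hx hy ⊢
    have : s • x + t • y - a = (s : ℂ) * (x - a) + (t : ℂ) * (y - a) := by
      simp only [real_smul]
      have : (s : ℂ) + t = 1 := by rw [← ofReal_add, hst, ofReal_one]
      linear_combination a * this
    rw [this, cr_add_right, cr_smul_right, cr_smul_right]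
    positivity
  exact convexHull_min (by rintro _ ⟨k, rfl⟩; exact h k) hconv hx

theorem IsSide.ne {i j : Fin n} (h : IsSide v i j) : i ≠ j := h.1

theorem IsSide.cr_nonneg_vert {i j : Fin n} (h : IsSide v i j) (k : Fin n) :
    0 ≤ cr (v j - v i) (v k - v i) := by
  rcases eq_or_ne k i with rfl | hki
  · simp [cr_zero_right]
  · rcases eq_or_ne k j with rfl | hkj
    · rw [cr_self]
    · exact (h.2 k hki hkj).le

theorem IsSide.cr_nonneg {i j : Fin n} (h : IsSide v i j) {x : ℂ} (hx : x ∈ KK v) :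
    0 ≤ cr (v j - v i) (x - v i) := cr_nonneg_of_mem_KK h.cr_nonneg_vert hx

/-- strict positivity in the interior, for any supporting half plane -/
theorem cr_pos_of_mem_PP {a d : ℂ} (hd : d ≠ 0) (h : ∀ k, 0 ≤ cr d (v k - a)) {x : ℂ}
    (hx : x ∈ PP v) : 0 < cr d (x - a) := by
  have h0 := cr_nonneg_of_mem_KK h (PP_sub_KK hx)
  refine lt_of_le_of_ne h0 (fun h1 => ?_)
  -- move a little in direction  -i d
  have hnhds : PP v ∈ 𝓝 x := isOpen_PP.mem_nhds hx
  have hcont : Filter.Tendsto (fun s : ℝ => x - (s : ℂ) * (I * d)) (𝓝[>] 0) (𝓝 x) := by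
    have : Continuous (fun s : ℝ => x - (s : ℂ) * (I * d)) := by fun_prop
    have h2 := this.tendsto 0
    simp only [ofReal_zero, zero_mul, sub_zero] at h2
    exact h2.mono_left nhdsWithin_le_nhds
  have hev := hcont.eventually hnhds
  obtain ⟨s, hs, hs0⟩ := (hev.and self_mem_nhdsWithin).exists
  have h3 := cr_nonneg_of_mem_KK h (PP_sub_KK hs)
  have h4 : x - (s : ℂ) * (I * d) - a = (x - a) - (s : ℂ) * (I * d) := by ring
  rw [h4, cr_sub_right, cr_smul_right, ← h1] at h3
  have h5 : 0 < cr d (I * d) := by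
    simp only [cr, mul_re, mul_im, I_re, I_im]
    have : d.re ≠ 0 ∨ d.im ≠ 0 := by
      by_contra hcon
      push Not at hcon
      exact hd (Complex.ext hcon.1 hcon.2)
    rcases this with h1 | h1 <;> [have := sq_pos_of_ne_zero h1; have := sq_pos_of_ne_zero h1] <;>
      nlinarith [sq_nonneg d.re, sq_nonneg d.im]
  have : 0 < s * cr d (I * d) := mul_pos hs0 h5
  linarith

theorem IsSide.cr_pos (hv : ConvexIndependent ℝ v) {i j : Fin n} (h : IsSide v i j) {x : ℂ}
    (hx : x ∈ PP v) : 0 < cr (v j - v i) (x - v i) :=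
  cr_pos_of_mem_PP (v_sub_ne hv h.1) h.cr_nonneg_vert hx

theorem PP_nonempty (hn : 3 ≤ n) (hv : ConvexIndependent ℝ v) : (PP v).Nonempty := by
  have h01 : (⟨0, by omega⟩ : Fin n) ≠ ⟨1, by omega⟩ := by simp
  have h20 : (⟨2, by omega⟩ : Fin n) ≠ ⟨0, by omega⟩ := by simp
  have h21 : (⟨2, by omega⟩ : Fin n) ≠ ⟨1, by omega⟩ := by simp
  have hnc := noncol hv h01 h20 h21
  have hspan : affineSpan ℝ (Set.range v) = ⊤ := by
    have hai : AffineIndependent ℝ ![v ⟨0, by omega⟩, v ⟨1, by omega⟩, v ⟨2, by omega⟩] := by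
      rw [affineIndependent_iff_not_collinear_set]
      intro hcol
      obtain ⟨d, hd⟩ := (collinear_iff_of_mem (p₀ := v ⟨0, by omega⟩) (by simp)).1 hcol
      obtain ⟨r1, hr1⟩ := hd (v ⟨1, by omega⟩) (by simp)
      obtain ⟨r2, hr2⟩ := hd (v ⟨2, by omega⟩) (by simp)
      apply hnc
      rw [hr1, hr2]
      simp only [vadd_eq_add, add_sub_cancel_right, real_smul]
      rw [cr_smul_left, cr_smul_right, cr_self]; ring
    have htop : affineSpan ℝ (Set.range ![v ⟨0, by omega⟩, v ⟨1, by omega⟩, v ⟨2, by omega⟩]) = ⊤ := by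
      rw [hai.affineSpan_eq_top_iff_card_eq_finrank_add_one]
      simp [Complex.finrank_real_complex]
    rw [eq_top_iff, ← htop]
    apply affineSpan_mono
    rintro _ ⟨k, rfl⟩
    fin_cases k
    · exact ⟨_, rfl⟩
    · exact ⟨_, rfl⟩
    · exact ⟨_, rfl⟩
  exact interior_convexHull_nonempty_iff_affineSpan_eq_top.2 hspan

theorem exists_supp (hn : 3 ≤ n) (hv : ConvexIndependent ℝ v) {y : ℂ} (hy : y ∉ PP v) :
    ∃ d : ℂ, d ≠ 0 ∧ ∀ x ∈ KK v, 0 ≤ cr d (x - y) := by
  obtain ⟨f, hf0, hf⟩ := geometric_hahn_banach_of_nonempty_interior_point convex_KK hy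
    (PP_nonempty hn hv)
  have hfx : ∀ x : ℂ, f x = x.re * f 1 + x.im * f I := by
    intro x
    conv_lhs => rw [← re_add_im x, map_add]
    have h1 : ((x.re : ℝ) : ℂ) = (x.re : ℝ) • (1 : ℂ) := by simp
    have h2 : ((x.im : ℝ) : ℂ) * I = (x.im : ℝ) • I := by simp
    rw [h1, h2, map_smul, map_smul]; simp
  refine ⟨⟨-f I, f 1⟩, ?_, ?_⟩
  · intro h0
    apply hf0
    ext x
    have h1 := congrArg re h0
    have h2 := congrArg im h0
    simp at h1 h2
    rw [hfx, h1, h2]; simp
  · intro x hx
    have := hf x hx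
    rw [hfx x, hfx y] at this
    simp only [cr, sub_re, sub_im]
    linarith

theorem exists_side (hn : 3 ≤ n) (hv : ConvexIndependent ℝ v) {y : ℂ} (hyK : y ∈ KK v)
    (hy : y ∉ PP v) (hyv : y ∉ Set.range v) :
    ∃ i j, IsSide v i j ∧ ∃ s : ℝ, 0 < s ∧ s < 1 ∧ y = v i + (s : ℂ) * (v j - v i) := by
  obtain ⟨d, hd0, hd⟩ := exists_supp hn hv hy
  have hdv : ∀ k, 0 ≤ cr d (v k - y) := fun k => hd _ (vert_mem_KK k)
  -- convex combination
  obtain ⟨c, hc0, hc1, hcy⟩ : ∃ c : Fin n → ℝ, (∀ k, 0 ≤ c k) ∧ ∑ k, c k = 1 ∧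
      ∑ k, (c k : ℂ) * v k = y := by
    have := hyK
    unfold KK at this
    rw [convexHull_range_eq_exists_affineCombination] at this
    obtain ⟨s, w, hw0, hw1, hw⟩ := this
    refine ⟨fun k => if k ∈ s then w k else 0, ?_, ?_, ?_⟩
    · intro k; dsimp only; split_ifs with h
      · exact hw0 k h
      · exact le_refl 0
    · rw [← hw1]; simp
    · rw [Finset.affineCombination_eq_linear_combination s v w hw1] at hw
      rw [← hw]
      have h3 : ∀ x, (((if x ∈ s then w x else 0 : ℝ)) : ℂ) * v x =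
          if x ∈ s then (w x : ℂ) * v x else 0 := by
        intro x; split_ifs <;> simp
      simp_rw [h3]
      simp
  have hsum : ∑ k, c k * cr d (v k - y) = 0 := by
    have h1 : ∀ k, c k * cr d (v k - y) = cr d ((c k : ℂ) * v k) - c k * cr d y := by
      intro k; rw [cr_sub_right, cr_smul_right]; ring
    have h2 : ∑ k, cr d ((c k : ℂ) * v k) = cr d (∑ k, (c k : ℂ) * v k) := by
      have hlin : ∀ S : Finset (Fin n), ∑ k ∈ S, cr d ((c k : ℂ) * v k) =
          cr d (∑ k ∈ S, (c k : ℂ) * v k) := by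
        intro S
        induction S using Finset.induction_on with
        | empty => simp [cr_zero_right]
        | insert a S ha ih => rw [Finset.sum_insert ha, Finset.sum_insert ha, cr_add_right, ih]
      exact hlin _
    simp_rw [h1]
    rw [Finset.sum_sub_distrib, h2, hcy, ← Finset.sum_mul, hc1]; ring
  have hzero : ∀ k, c k * cr d (v k - y) = 0 := by
    intro k
    exact (Finset.sum_eq_zero_iff_of_nonneg (fun k _ => mul_nonneg (hc0 k) (hdv k))).1 hsum k
      (Finset.mem_univ k)
  -- an index with positive weight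
  obtain ⟨i, hi⟩ : ∃ i, 0 < c i := by
    by_contra hcon
    push Not at hcon
    have : ∑ k, c k = 0 := Finset.sum_eq_zero (fun k _ => le_antisymm (hcon k) (hc0 k))
    linarith
  obtain ⟨j, hji, hj⟩ : ∃ j, j ≠ i ∧ 0 < c j := by
    by_contra hcon
    push Not at hcon
    have h0 : ∀ k, k ≠ i → c k = 0 := fun k hk => le_antisymm (hcon k hk) (hc0 k)
    have hci : c i = 1 := by
      rw [← hc1]; exact (Finset.sum_eq_single i (fun k _ hk => h0 k hk) (by simp)).symm
    apply hyv
    refine ⟨i, ?_⟩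
    rw [← hcy, Finset.sum_eq_single i (fun k _ hk => by rw [h0 k hk]; simp) (by simp), hci]
    simp
  have hdi : cr d (v i - y) = 0 := by
    rcases mul_eq_zero.1 (hzero i) with h | h
    · linarith
    · exact h
  have hdj : cr d (v j - y) = 0 := by
    rcases mul_eq_zero.1 (hzero j) with h | h
    · linarith
    · exact h
  have hdij : cr d (v j - v i) = 0 := by
    have : v j - v i = (v j - y) - (v i - y) := by ring
    rw [this, cr_sub_right, hdi, hdj]; ring
  obtain ⟨t, ht⟩ := (cr_eq_zero_iff hd0).1 hdij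
  have ht0 : t ≠ 0 := by
    rintro rfl
    apply v_sub_ne hv (Ne.symm hji)
    rw [ht]; simp
  -- other vertices strictly on the positive side
  have hpos : ∀ k, k ≠ i → k ≠ j → 0 < cr d (v k - v i) := by
    intro k hki hkj
    have h1 : cr d (v k - v i) = cr d (v k - y) := by
      have : v k - v i = (v k - y) - (v i - y) := by ring
      rw [this, cr_sub_right, hdi]; ring
    have h2 : 0 ≤ cr d (v k - v i) := by rw [h1]; exact hdv k
    refine lt_of_le_of_ne h2 (fun h3 => ?_)
    apply noncol hv (Ne.symm hji) hki hkj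
    rw [ht, cr_smul_left, ← h3, mul_zero]
  have hck : ∀ k, k ≠ i → k ≠ j → c k = 0 := by
    intro k hki hkj
    rcases mul_eq_zero.1 (hzero k) with h | h
    · exact h
    · have h1 : cr d (v k - v i) = cr d (v k - y) := by
        have : v k - v i = (v k - y) - (v i - y) := by ring
        rw [this, cr_sub_right, hdi]; ring
      have := hpos k hki hkj
      rw [h1, h] at this
      exact absurd this (lt_irrefl 0)
  have hcij : c i + c j = 1 := by
    rw [← hc1]
    rw [← Finset.sum_subset (Finset.subset_univ {i, j})]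
    · rw [Finset.sum_pair (Ne.symm hji)]
    · intro k _ hk
      simp only [Finset.mem_insert, Finset.mem_singleton, not_or] at hk
      exact hck k hk.1 hk.2
  have hyij : y = (c i : ℂ) * v i + (c j : ℂ) * v j := by
    rw [← hcy]
    rw [← Finset.sum_subset (Finset.subset_univ {i, j})]
    · rw [Finset.sum_pair (Ne.symm hji)]
    · intro k _ hk
      simp only [Finset.mem_insert, Finset.mem_singleton, not_or] at hk
      rw [hck k hk.1 hk.2]; simp
  have hc' : ((c i : ℝ) : ℂ) = 1 - c j := by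
    rw [← ofReal_one, ← ofReal_sub]; congr 1; linarith
  have hc'' : ((c j : ℝ) : ℂ) = 1 - c i := by
    rw [hc']; ring
  rcases lt_or_gt_of_ne ht0 with h | h
  · refine ⟨j, i, ⟨hji, ?_⟩, c i, hi, by linarith, ?_⟩
    · intro k hkj hki
      have h1 : v i - v j = ((-t : ℝ) : ℂ) * d := by
        rw [ofReal_neg, neg_mul, ← ht]; ring
      have h2 : v k - v j = (v k - v i) - (v j - v i) := by ring
      rw [h1, cr_smul_left, h2, cr_sub_right, hdij, sub_zero]
      exact mul_pos (by linarith) (hpos k hki hkj)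
    · rw [hyij, hc'']; ring
  · refine ⟨i, j, ⟨Ne.symm hji, ?_⟩, c j, hj, by linarith, ?_⟩
    · intro k hki hkj
      rw [ht, cr_smul_left]
      exact mul_pos h (hpos k hki hkj)
    · rw [hyij, hc']; ring

end Pool.Agent.Lib.Bil
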