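import Pool.Agent.Lib.MP_7bc51d_an_s.BGeom
import Pool.Agent.Lib.MP_7bc51d_an_s.BPoly

set_option autoImplicit false

namespace Pool.Agent.Lib.Bil

open Complex MeasureTheory Set Filter
open scoped ComplexConjugate Topology ENNReal

variable {n : ℕ} {v : Fin n → ℂ}

/-- Strict separation of a vertex from the others. -/
theorem exists_strict_sep (hv : ConvexIndependent ℝ v) (i : Fin n) :
    ∃ d : ℂ, ∀ k, k ≠ i → 0 < cr d (v k - v i) := by
  set s : Set ℂ := convexHull ℝ (v '' {k | k ≠ i}) with hs
  have hni : v i ∉ s := by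
    intro hmem
    have := hv {k | k ≠ i} i hmem
    exact this rfl
  have hcpt : IsCompact s := ((Set.toFinite _).image v).isCompact_convexHull ℝ
  have hclosed : IsClosed s := hcpt.isClosed
  obtain ⟨f, c, h1, h2⟩ := geometric_hahn_banach_point_closed (convex_convexHull ℝ _) hclosed hni
  have hfx : ∀ x : ℂ, f x = x.re * f 1 + x.im * f I := by
    intro x
    conv_lhs => rw [← re_add_im x, map_add]
    have h1 : ((x.re : ℝ) : ℂ) = (x.re : ℝ) • (1 : ℂ) := by simp
    have h2 : ((x.im : ℝ) : ℂ) * I = (x.im : ℝ) • I := by simp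
    rw [h1, h2, map_smul, map_smul]; simp
  refine ⟨⟨f I, -f 1⟩, fun k hk => ?_⟩
  have hmem : v k ∈ s := subset_convexHull ℝ _ ⟨k, hk, rfl⟩
  have h3 := h2 _ hmem
  have h4 : f (v k - v i) = cr ⟨f I, -f 1⟩ (v k - v i) := by
    rw [hfx, cr]
    ring
  rw [← h4, map_sub]
  linarith

/-- existence of the next vertex -/
theorem exists_next (hn : 3 ≤ n) (hv : ConvexIndependent ℝ v) (i : Fin n) :
    ∃ j, IsSide v i j := by
  obtain ⟨d, hd⟩ := exists_strict_sep hv i
  have hd0 : d ≠ 0 := by
    rintro rfl
    obtain ⟨k, hk⟩ : ∃ k : Fin n, k ≠ i := by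
      have : Nontrivial (Fin n) := Fin.nontrivial_iff_two_le.2 (by omega)
      exact exists_ne i
    have := hd k hk
    rw [cr_zero_left] at this
    exact lt_irrefl _ this
  set t : Fin n → ℝ := fun k => (d.re * (v k - v i).re + d.im * (v k - v i).im) /
    cr d (v k - v i) with ht
  have hne : (Finset.univ.filter (fun k : Fin n => k ≠ i)).Nonempty := by
    have : Nontrivial (Fin n) := Fin.nontrivial_iff_two_le.2 (by omega)
    obtain ⟨k, hk⟩ := exists_ne i
    exact ⟨k, by simp [hk]⟩
  obtain ⟨j, hj, hmax⟩ := Finset.exists_max_image _ t hne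
  rw [Finset.mem_filter] at hj
  have hji : j ≠ i := hj.2
  refine ⟨j, hji.symm, fun k hki hkj => ?_⟩
  have h1 := hmax k (by simp [hki])
  have hcj := hd j hji
  have hck := hd k hki
  have hnc : cr (v j - v i) (v k - v i) ≠ 0 := noncol hv hji.symm hki hkj
  have hD : 0 < d.re ^ 2 + d.im ^ 2 := by
    have : d.re ≠ 0 ∨ d.im ≠ 0 := by
      by_contra hcon
      push Not at hcon
      exact hd0 (Complex.ext hcon.1 hcon.2)
    rcases this with h1 | h1
    · positivity
    · positivity
  have hid : (d.re ^ 2 + d.im ^ 2) * cr (v j - v i) (v k - v i) =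
      cr d (v j - v i) * cr d (v k - v i) * (t j - t k) := by
    rw [ht]
    simp only
    field_simp
    unfold cr
    ring
  have h2 : 0 ≤ (d.re ^ 2 + d.im ^ 2) * cr (v j - v i) (v k - v i) := by
    rw [hid]
    exact mul_nonneg (mul_pos hcj hck).le (sub_nonneg.2 h1)
  have h3 : 0 ≤ cr (v j - v i) (v k - v i) := by
    by_contra hcon
    push Not at hcon
    nlinarith
  exact lt_of_le_of_ne h3 hnc.symm

theorem next_unique {i j k : Fin n} (hij : IsSide v i j) (hik : IsSide v i k) : j = k := by
  by_contra hne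
  have h1 := hij.2 k hik.1.symm (Ne.symm hne)
  have h2 := hik.2 j hij.1.symm hne
  rw [cr_swap] at h2
  linarith

theorem prev_unique {i j k : Fin n} (hik : IsSide v i k) (hjk : IsSide v j k) : i = j := by
  by_contra hne
  have h1 := hik.2 j (Ne.symm hne) hjk.1
  have h2 := hjk.2 i hne hik.1
  have e1 : v k - v j = (v k - v i) - (v j - v i) := by ring
  have e2 : v i - v j = -(v j - v i) := by ring
  rw [e1, e2, cr_neg_right, cr_sub_left, cr_self] at h2
  linarith

/-- The next vertex in counterclockwise order. -/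
noncomputable def nxt (hn : 3 ≤ n) (hv : ConvexIndependent ℝ v) (i : Fin n) : Fin n :=
  (exists_next hn hv i).choose

theorem nxt_side (hn : 3 ≤ n) (hv : ConvexIndependent ℝ v) (i : Fin n) :
    IsSide v i (nxt hn hv i) := (exists_next hn hv i).choose_spec

theorem nxt_bijective (hn : 3 ≤ n) (hv : ConvexIndependent ℝ v) :
    Function.Bijective (nxt hn hv) := by
  rw [← Finite.injective_iff_bijective]
  intro i j h
  have h1 := nxt_side hn hv i
  have h2 := nxt_side hn hv j
  rw [← h] at h2
  exact prev_unique h1 h2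

end Pool.Agent.Lib.Bil
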