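import Pool.Agent.Lib.MP_7bc51d_an_s.BGeom

set_option autoImplicit false

namespace Pool.Agent.Lib.Bil

open Complex MeasureTheory Set
open scoped ComplexConjugate Topology ENNReal

variable {n : ℕ} {v : Fin n → ℂ}

/-- Domain of the time-`h` map on which the collision history is `c`. -/
def stepSet (v : Fin n → ℂ) (h : ℝ) : Option (Fin n × Fin n) → Set (ℂ × ℂ)
  | none => {p | p.1 ∈ PP v ∧ p.1 + (h : ℂ) * p.2 ∈ PP v}
  | some (i, j) => {p | IsSide v i j ∧ p.1 ∈ PP v ∧ cr p.2 (v i - p.1) < 0 ∧
      0 < cr p.2 (v j - p.1) ∧ RR v i j (p.1 + (h : ℂ) * p.2) ∈ PP v}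

/-- The time-`h` map with collision history `c`. -/
noncomputable def stepMap (v : Fin n → ℂ) (h : ℝ) : Option (Fin n × Fin n) → ℂ × ℂ → ℂ × ℂ
  | none, p => (p.1 + (h : ℂ) * p.2, p.2)
  | some (i, j), p => (RR v i j (p.1 + (h : ℂ) * p.2), rl (v j - v i) p.2)

theorem mem_stepSet_some {h : ℝ} {i j : Fin n} {p : ℂ × ℂ} :
    p ∈ stepSet v h (some (i, j)) ↔ IsSide v i j ∧ p.1 ∈ PP v ∧ cr p.2 (v i - p.1) < 0 ∧
      0 < cr p.2 (v j - p.1) ∧ RR v i j (p.1 + (h : ℂ) * p.2) ∈ PP v := Iff.rfl

/-! ### measure preservation -/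

/-- `rl a` as a linear isometry equivalence. -/
noncomputable def rlEquiv (a : ℂ) (ha : a ≠ 0) : ℂ ≃ₗᵢ[ℝ] ℂ where
  toFun := rl a
  invFun := rl a
  left_inv := rl_rl ha
  right_inv := rl_rl ha
  map_add' := rl_add a
  map_smul' := fun t w => by
    simp only [real_smul, RingHom.id_apply]
    exact rl_smul a w t
  norm_map' := fun w => norm_rl ha w

theorem mp_rl {a : ℂ} (ha : a ≠ 0) : MeasurePreserving (rl a) volume volume :=
  (rlEquiv a ha).measurePreserving

theorem mp_RR {i j : Fin n} (h : v j - v i ≠ 0) :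
    MeasurePreserving (RR v i j) volume volume := by
  have h1 : MeasurePreserving (fun x : ℂ => x - v i) volume volume :=
    measurePreserving_sub_right volume (v i)
  have h2 : MeasurePreserving (fun x : ℂ => v i + x) volume volume :=
    measurePreserving_add_left volume (v i)
  exact (h2.comp (mp_rl h)).comp h1

/-- Multiplication by a unit complex number as a linear isometry equivalence. -/
noncomputable def mulEquiv (c : ℂ) (hc : ‖c‖ = 1) : ℂ ≃ₗᵢ[ℝ] ℂ where
  toFun := fun w => c * w
  invFun := fun w => conj c * w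
  left_inv := fun w => by
    have : conj c * c = 1 := by rw [← Complex.normSq_eq_conj_mul_self, Complex.normSq_eq_norm_sq, hc]; simp
    change conj c * (c * w) = w
    rw [← mul_assoc, this, one_mul]
  right_inv := fun w => by
    have : conj c * c = 1 := by rw [← Complex.normSq_eq_conj_mul_self, Complex.normSq_eq_norm_sq, hc]; simp
    change c * (conj c * w) = w
    rw [← mul_assoc, mul_comm c, this, one_mul]
  map_add' := fun w w' => mul_add c w w'
  map_smul' := fun t w => by
    simp only [real_smul, RingHom.id_apply]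
    ring
  norm_map' := fun w => by
    change ‖c * w‖ = ‖w‖
    rw [norm_mul, hc, one_mul]

theorem mp_mul {c : ℂ} (hc : ‖c‖ = 1) : MeasurePreserving (fun w : ℂ => c * w) volume volume :=
  (mulEquiv c hc).measurePreserving

/-! ### the images are disjoint -/

end Pool.Agent.Lib.Bil
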