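import Pool.Agent.Lib.MP_7bc51d_an_s.BGeom
import Pool.Agent.Lib.MP_7bc51d_an_s.BPoly

set_option autoImplicit false

namespace Pool.Agent.Lib.Bil

open Complex MeasureTheory Set
open scoped ComplexConjugate Topology ENNReal

variable {n : ℕ} {v : Fin n → ℂ}

/-- Folding along a list of sides (the most recent reflection comes first). -/
noncomputable def Fo (v : Fin n → ℂ) : List (Fin n × Fin n) → ℂ → ℂ
  | [], x => x
  | s :: g, x => RR v s.1 s.2 (Fo v g x)

/-- Linear part of the folding. -/
noncomputable def Lo (v : Fin n → ℂ) : List (Fin n × Fin n) → ℂ → ℂ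
  | [], w => w
  | s :: g, w => rl (v s.2 - v s.1) (Lo v g w)

/-- Unfolding (inverse of the folding). -/
noncomputable def Un (v : Fin n → ℂ) : List (Fin n × Fin n) → ℂ → ℂ
  | [], x => x
  | s :: g, x => Un v g (RR v s.1 s.2 x)

/-- The list consists of sides. -/
def Val (v : Fin n → ℂ) (g : List (Fin n × Fin n)) : Prop := ∀ s ∈ g, IsSide v s.1 s.2

theorem Val.tail {s : Fin n × Fin n} {g : List (Fin n × Fin n)} (h : Val v (s :: g)) :
    Val v g := fun r hr => h r (List.mem_cons_of_mem _ hr)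

theorem Val.head {s : Fin n × Fin n} {g : List (Fin n × Fin n)} (h : Val v (s :: g)) :
    IsSide v s.1 s.2 := h s List.mem_cons_self

theorem Val.cons {s : Fin n × Fin n} {g : List (Fin n × Fin n)} (hs : IsSide v s.1 s.2)
    (h : Val v g) : Val v (s :: g) := by
  intro r hr
  rcases List.mem_cons.1 hr with rfl | hr
  · exact hs
  · exact h r hr

theorem Fo_add (g : List (Fin n × Fin n)) (x y : ℂ) : Fo v g (x + y) = Fo v g x + Lo v g y := by
  induction g with
  | nil => rfl
  | cons s g ih =>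
    change RR v s.1 s.2 (Fo v g (x + y)) = RR v s.1 s.2 (Fo v g x) + rl (v s.2 - v s.1) (Lo v g y)
    rw [ih, RR_add]

theorem Lo_smul (g : List (Fin n × Fin n)) (w : ℂ) (t : ℝ) :
    Lo v g ((t : ℂ) * w) = (t : ℂ) * Lo v g w := by
  induction g with
  | nil => rfl
  | cons s g ih =>
    change rl (v s.2 - v s.1) (Lo v g ((t : ℂ) * w)) = (t : ℂ) * rl (v s.2 - v s.1) (Lo v g w)
    rw [ih, rl_smul]

theorem norm_Lo (hv : ConvexIndependent ℝ v) {g : List (Fin n × Fin n)} (hg : Val v g) (w : ℂ) :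
    ‖Lo v g w‖ = ‖w‖ := by
  induction g with
  | nil => rfl
  | cons s g ih =>
    change ‖rl (v s.2 - v s.1) (Lo v g w)‖ = ‖w‖
    rw [norm_rl (v_sub_ne hv hg.head.1), ih hg.tail]

theorem Fo_line (g : List (Fin n × Fin n)) (x w : ℂ) (s t : ℝ) :
    Fo v g (x + (s : ℂ) * w) + (t : ℂ) * Lo v g w = Fo v g (x + ((s + t : ℝ) : ℂ) * w) := by
  rw [← Lo_smul, ← Fo_add]
  congr 1
  rw [ofReal_add]; ring

theorem Un_Fo (hv : ConvexIndependent ℝ v) {g : List (Fin n × Fin n)} (hg : Val v g) (x : ℂ) :
    Un v g (Fo v g x) = x := by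
  induction g with
  | nil => rfl
  | cons s g ih =>
    change Un v g (RR v s.1 s.2 (RR v s.1 s.2 (Fo v g x))) = x
    rw [RR_RR v (v_sub_ne hv hg.head.1), ih hg.tail]

theorem RR_line {i j : Fin n} (h : v j - v i ≠ 0) (s : ℝ) :
    RR v i j (v i + (s : ℂ) * (v j - v i)) = v i + (s : ℂ) * (v j - v i) := by
  rw [RR_add, RR_left, rl_smul, rl_self h]

theorem meet_sides (hn : 3 ≤ n) {i j k l : Fin n}
    (hij : IsSide v i j) (hkl : IsSide v k l) (hne : (i, j) ≠ (k, l)) {s s' : ℝ}
    (h0 : 0 ≤ s) (h1 : s ≤ 1)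
    (h : v i + (s : ℂ) * (v j - v i) = v k + (s' : ℂ) * (v l - v k)) :
    v i + (s : ℂ) * (v j - v i) ∈ Set.range v := by
  rcases eq_or_lt_of_le h0 with rfl | h0
  · exact ⟨i, by simp⟩
  rcases eq_or_lt_of_le h1 with rfl | h1
  · exact ⟨j, by simp⟩
  exfalso
  have hz : (1 - s) * cr (v l - v k) (v i - v k) + s * cr (v l - v k) (v j - v k) = 0 := by
    have h5 : v i + (s : ℂ) * (v j - v i) - v k = (s' : ℂ) * (v l - v k) := by
      rw [h]; ring
    have h6 : v i + (s : ℂ) * (v j - v i) - v k =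
        ((1 - s : ℝ) : ℂ) * (v i - v k) + (s : ℂ) * (v j - v k) := by
      rw [ofReal_sub, ofReal_one]; ring
    have h7 : cr (v l - v k) (v i + (s : ℂ) * (v j - v i) - v k) = 0 := by
      rw [h5, cr_smul_right, cr_self, mul_zero]
    rw [h6, cr_add_right, cr_smul_right, cr_smul_right] at h7
    exact h7
  have n1 := hkl.cr_nonneg_vert i
  have n2 := hkl.cr_nonneg_vert j
  have z1 : cr (v l - v k) (v i - v k) = 0 := by
    nlinarith [mul_nonneg (sub_nonneg.2 h1.le) n1, mul_nonneg h0.le n2]
  have z2 : cr (v l - v k) (v j - v k) = 0 := by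
    nlinarith [mul_nonneg (sub_nonneg.2 h1.le) n1, mul_nonneg h0.le n2]
  have m1 : i = k ∨ i = l := by
    by_contra hcon
    push Not at hcon
    have := hkl.2 i hcon.1 hcon.2
    linarith
  have m2 : j = k ∨ j = l := by
    by_contra hcon
    push Not at hcon
    have := hkl.2 j hcon.1 hcon.2
    linarith
  rcases m1 with rfl | rfl
  · rcases m2 with rfl | rfl
    · exact hij.1 rfl
    · exact hne rfl
  · rcases m2 with rfl | rfl
    · -- opposite orientation
      obtain ⟨m, hm1, hm2⟩ : ∃ m : Fin n, m ≠ i ∧ m ≠ j := by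
        by_contra hcon
        push Not at hcon
        have hsub : (Finset.univ : Finset (Fin n)) ⊆ {i, j} := by
          intro m _
          rw [Finset.mem_insert, Finset.mem_singleton]
          by_cases hm : m = i
          · exact Or.inl hm
          · exact Or.inr (hcon m hm)
        have hc := Finset.card_le_card hsub
        rw [Finset.card_univ, Fintype.card_fin] at hc
        have : ({i, j} : Finset (Fin n)).card ≤ 2 := Finset.card_le_two
        omega
      have q1 := hij.2 m hm1 hm2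
      have q2 := hkl.2 m hm2 hm1
      have e1 : v m - v j = (v m - v i) - (v j - v i) := by ring
      have e2 : v i - v j = -(v j - v i) := by ring
      rw [e1, e2, cr_neg_left, cr_sub_right, cr_self] at q2
      linarith
    · exact hij.1 rfl

end Pool.Agent.Lib.Bil
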