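import Pool.Agent.Lib.MP_7bc51d_an_s.BExit
import Pool.Agent.Lib.MP_7bc51d_an_s.BGeom
import Pool.Agent.Lib.MP_7bc51d_an_s.BPoly
import Pool.Agent.Lib.MP_7bc51d_an_s.BStep
import Pool.Agent.Lib.MP_7bc51d_an_s.BTraj

set_option autoImplicit false

namespace Pool.Agent.Lib.Bil

open Complex MeasureTheory Set Filter
open scoped ComplexConjugate Topology ENNReal

variable {n : ℕ} {v : Fin n → ℂ}

/-- The line through `x` with direction `w` crosses the sides of the list `g` one after the other
(the most recent crossing comes first). -/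
def Rz (v : Fin n → ℂ) : List (Fin n × Fin n) → ℂ → ℂ → Prop
  | [], _, _ => True
  | s :: g, x, w => Rz v g x w ∧ IsSide v s.1 s.2 ∧
      cr (Lo v g w) (v s.1) < cr (Lo v g w) (Fo v g x) ∧
      cr (Lo v g w) (Fo v g x) < cr (Lo v g w) (v s.2)

theorem Rz.val {g : List (Fin n × Fin n)} {x w : ℂ} (h : Rz v g x w) : Val v g := by
  induction g with
  | nil => intro s hs; simp at hs
  | cons s g ih => exact (ih h.1).cons h.2.1

theorem Lo_add (g : List (Fin n × Fin n)) (x y : ℂ) : Lo v g (x + y) = Lo v g x + Lo v g y := by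
  induction g with
  | nil => rfl
  | cons s g ih =>
    change rl (v s.2 - v s.1) (Lo v g (x + y)) = _
    rw [ih, rl_add]
    rfl

theorem Lo_neg (g : List (Fin n × Fin n)) (x : ℂ) : Lo v g (-x) = - Lo v g x := by
  have := Lo_smul (v := v) g x (-1)
  simpa using this

theorem Lo_sub (g : List (Fin n × Fin n)) (x y : ℂ) : Lo v g (x - y) = Lo v g x - Lo v g y := by
  rw [sub_eq_add_neg, Lo_add, Lo_neg, ← sub_eq_add_neg]

theorem Fo_sub (g : List (Fin n × Fin n)) (x y : ℂ) : Fo v g x - Fo v g y = Lo v g (x - y) := by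
  have h : Fo v g x = Fo v g y + Lo v g (x - y) := by rw [← Fo_add]; congr 1; ring
  rw [h, add_sub_cancel_left]

theorem continuous_Lo (g : List (Fin n × Fin n)) : Continuous (Lo v g) := by
  induction g with
  | nil => exact continuous_id
  | cons s g ih => exact (continuous_rl _).comp ih

theorem continuous_Fo (g : List (Fin n × Fin n)) : Continuous (Fo v g) := by
  induction g with
  | nil => exact continuous_id
  | cons s g ih => exact (continuous_RR v s.1 s.2).comp ih

theorem isOpen_Rz (g : List (Fin n × Fin n)) : IsOpen {p : ℂ × ℂ | Rz v g p.1 p.2} := by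
  induction g with
  | nil =>
    have : {p : ℂ × ℂ | Rz v [] p.1 p.2} = univ := by
      ext p; simp [Rz]
    rw [this]; exact isOpen_univ
  | cons s g ih =>
    have hL : Continuous (fun p : ℂ × ℂ => Lo v g p.2) := (continuous_Lo g).comp continuous_snd
    have hF : Continuous (fun p : ℂ × ℂ => Fo v g p.1) := (continuous_Fo g).comp continuous_fst
    have c1 : Continuous (fun p : ℂ × ℂ => cr (Lo v g p.2) (v s.1)) := by unfold cr; fun_prop
    have c2 : Continuous (fun p : ℂ × ℂ => cr (Lo v g p.2) (Fo v g p.1)) := by unfold cr; fun_prop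
    have c3 : Continuous (fun p : ℂ × ℂ => cr (Lo v g p.2) (v s.2)) := by unfold cr; fun_prop
    exact ih.inter ((isOpen_const (p := IsSide v s.1 s.2)).inter
      ((isOpen_lt c1 c2).inter (isOpen_lt c2 c3)))

theorem mp_Lo (hv : ConvexIndependent ℝ v) {g : List (Fin n × Fin n)} (hg : Val v g) :
    MeasurePreserving (Lo v g) volume volume := by
  induction g with
  | nil => exact MeasurePreserving.id _
  | cons s g ih => exact (mp_rl (v_sub_ne hv hg.head.1)).comp (ih hg.tail)

/-! ### reflection of locally constant heights -/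

/-! ### uniqueness of the entrance side -/

theorem side_line {i j : Fin n} {w : ℂ} {Q : ℝ}
    (h1 : cr w (v j) < Q) (h2 : Q < cr w (v i)) :
    ∃ t : ℝ, 0 < t ∧ t < 1 ∧ cr w (v i + (t : ℂ) * (v j - v i)) = Q ∧
      0 < cr (v j - v i) w := by
  have hd : 0 < cr w (v i) - cr w (v j) := by linarith
  refine ⟨(cr w (v i) - Q) / (cr w (v i) - cr w (v j)), div_pos (by linarith) hd, ?_, ?_, ?_⟩
  · rw [div_lt_one hd]; linarith
  · rw [cr_add_right, cr_smul_right, cr_sub_right]
    field_simp
    ring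
  · rw [cr_swap, cr_sub_right]; linarith

theorem enter_unique (hn : 3 ≤ n) (hv : ConvexIndependent ℝ v) {s s' : Fin n × Fin n}
    (hs : IsSide v s.1 s.2) (hs' : IsSide v s'.1 s'.2) {w : ℂ} {Q : ℝ}
    (h1 : cr w (v s.2) < Q) (h2 : Q < cr w (v s.1))
    (h1' : cr w (v s'.2) < Q) (h2' : Q < cr w (v s'.1)) : s = s' := by
  have hw : w ≠ 0 := by
    rintro rfl
    rw [cr_zero_left] at h1 h2
    exact lt_irrefl _ (h1.trans h2)
  obtain ⟨t, t0, t1, te, tw⟩ := side_line h1 h2
  obtain ⟨t', t0', t1', te', tw'⟩ := side_line h1' h2'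
  set b := v s.1 + (t : ℂ) * (v s.2 - v s.1) with hb
  set b' := v s'.1 + (t' : ℂ) * (v s'.2 - v s'.1) with hb'
  have hcr : cr w (b' - b) = 0 := by rw [cr_sub_right, te, te', sub_self]
  obtain ⟨r, hr⟩ := (cr_eq_zero_iff hw).1 hcr
  have hbK : b ∈ KK v := side_point_mem_KK t0.le t1.le
  have hbK' : b' ∈ KK v := side_point_mem_KK t0'.le t1'.le
  have k1 : 0 ≤ cr (v s.2 - v s.1) (b' - v s.1) := hs.cr_nonneg hbK'
  have k2 : 0 ≤ cr (v s'.2 - v s'.1) (b - v s'.1) := hs'.cr_nonneg hbK
  have e1 : b' - v s.1 = (r : ℂ) * w + (t : ℂ) * (v s.2 - v s.1) := by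
    rw [← hr, hb]; ring
  have e2 : b - v s'.1 = -((r : ℂ) * w) + (t' : ℂ) * (v s'.2 - v s'.1) := by
    rw [← hr, hb']; ring
  rw [e1, cr_add_right, cr_smul_right, cr_smul_right, cr_self, mul_zero, add_zero] at k1
  rw [e2, cr_add_right, cr_neg_right, cr_smul_right, cr_smul_right, cr_self, mul_zero, add_zero] at k2
  have r1 : 0 ≤ r := by
    by_contra hcon
    push Not at hcon
    nlinarith
  have r2 : r ≤ 0 := by
    by_contra hcon
    push Not at hcon
    nlinarith
  have r0 : r = 0 := le_antisymm r2 r1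
  have hbb : b' = b := by
    rw [r0, ofReal_zero, zero_mul] at hr
    exact sub_eq_zero.1 hr
  by_contra hne
  obtain ⟨l, hl⟩ := meet_sides hn hs hs' (fun h => hne (Prod.ext
      (by rw [Prod.mk.injEq] at h; exact h.1) (by rw [Prod.mk.injEq] at h; exact h.2)))
      (s' := t') t0.le t1.le (by rw [← hb, ← hb', hbb])
  -- a point of the open side is not a vertex
  by_cases hl1 : l = s.1
  · rw [hl1, ← hb] at hl
    have : (t : ℂ) * (v s.2 - v s.1) = 0 := by rw [hb] at hl; linear_combination -hl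
    rcases mul_eq_zero.1 this with h5 | h5
    · exact t0.ne' (by exact_mod_cast h5)
    · exact v_sub_ne hv hs.1 h5
  · by_cases hl2 : l = s.2
    · rw [hl2, ← hb] at hl
      have : ((1 - t : ℝ) : ℂ) * (v s.2 - v s.1) = 0 := by
        rw [hb] at hl; push_cast; linear_combination hl
      rcases mul_eq_zero.1 this with h5 | h5
      · have : 1 - t = 0 := by exact_mod_cast h5
        linarith
      · exact v_sub_ne hv hs.1 h5
    · have h5 := hs.2 l hl1 hl2
      rw [hl, ← hb] at h5
      have e3 : b - v s.1 = (t : ℂ) * (v s.2 - v s.1) := by rw [hb]; ring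
      rw [e3, cr_smul_right, cr_self, mul_zero] at h5
      exact lt_irrefl _ h5

end Pool.Agent.Lib.Bil
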