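import Pool.Agent.Lib.MP_7bc51d_an_s.BPotential

set_option autoImplicit false

namespace Pool.Agent.Lib.Bil

open Complex MeasureTheory Set Filter
open scoped ComplexConjugate Topology ENNReal Real

/-- unit vector of angle `θ` -/
noncomputable def ut (θ : ℝ) : ℂ := (Real.cos θ : ℂ) + (Real.sin θ : ℂ) * I

theorem ut_re (θ : ℝ) : (ut θ).re = Real.cos θ := by
  simp only [ut, add_re, mul_re, ofReal_re, ofReal_im, I_re, I_im]; ring
theorem ut_im (θ : ℝ) : (ut θ).im = Real.sin θ := by
  simp only [ut, add_im, mul_im, ofReal_re, ofReal_im, I_re, I_im]; ring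

theorem polar_hom (d : ℕ) {g : ℂ → ℝ}
    (hg : ∀ r : ℝ, 0 < r → ∀ w, g ((r : ℂ) * w) = r ^ d * g w) :
    ∫ w in BV, g w = (1 / ((d : ℝ) + 2)) * ∫ θ in Ioo (-π) π, g (ut θ) := by
  rw [← integral_indicator measurableSet_ball, ← Complex.integral_comp_polarCoord_symm]
  have h1 : ∫ p in polarCoord.target, p.1 • (BV.indicator g) (Complex.polarCoord.symm p) =
      ∫ p in Ioi (0 : ℝ) ×ˢ Ioo (-π) π, ((Iio (1 : ℝ)).indicator (fun r => r ^ (d + 1)) p.1) *
        g (ut p.2) := by
    rw [polarCoord_target]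
    apply setIntegral_congr_fun (measurableSet_Ioi.prod measurableSet_Ioo)
    intro p hp
    have hp0 : 0 < p.1 := hp.1
    simp only [smul_eq_mul]
    have h2 : Complex.polarCoord.symm p = (p.1 : ℂ) * ut p.2 := by
      rw [Complex.polarCoord_symm_apply, ut]
    have h3 : ‖Complex.polarCoord.symm p‖ = p.1 := by
      rw [Complex.norm_polarCoord_symm, abs_of_pos hp0]
    by_cases h4 : p.1 < 1
    · rw [indicator_of_mem (show p.1 ∈ Iio (1 : ℝ) from h4), indicator_of_mem, h2, hg _ hp0]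
      · ring
      · rw [mem_ball_zero_iff, h3]; exact h4
    · rw [indicator_of_notMem (show p.1 ∉ Iio (1 : ℝ) from h4), indicator_of_notMem]
      · ring
      · rw [mem_ball_zero_iff, h3]; exact h4
  rw [h1]
  have h5 := setIntegral_prod_mul (μ := (volume : Measure ℝ)) (ν := (volume : Measure ℝ))
    (fun r : ℝ => (Iio (1 : ℝ)).indicator (fun r => r ^ (d + 1)) r) (fun θ => g (ut θ))
    (Ioi (0 : ℝ)) (Ioo (-π) π)
  rw [← Measure.volume_eq_prod] at h5
  rw [h5]
  congr 1
  rw [setIntegral_indicator measurableSet_Iio]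
  have h6 : Ioi (0 : ℝ) ∩ Iio 1 = Ioo 0 1 := by ext; simp
  rw [h6, ← integral_Ioc_eq_integral_Ioo, ← intervalIntegral.integral_of_le zero_le_one,
    integral_pow]
  push_cast
  simp
  ring_nf

end Pool.Agent.Lib.Bil
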