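import Pool.Agent.Lib.MP_7bc51d_an_s.BGeom

set_option autoImplicit false

namespace Pool.Agent.Lib.Bil

open Complex MeasureTheory Set Filter
open scoped ComplexConjugate Topology ENNReal

variable {n : ℕ} {v : Fin n → ℂ}

/-! ### time reversal -/

theorem rl_neg (a w : ℂ) : rl a (-w) = - rl a w := by
  simp only [rl, map_neg]; ring

/-! ### generic directions -/

theorem ae_not_mem_line (d : ℂ) : ∀ᵐ w : ℂ, w ∉ (Submodule.span ℝ {d} : Submodule ℝ ℂ) := by
  have key : volume ((Submodule.span ℝ {d} : Submodule ℝ ℂ) : Set ℂ) = 0 := by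
    apply Measure.addHaar_submodule
    intro h
    have h1 : Module.finrank ℝ (Submodule.span ℝ {d} : Submodule ℝ ℂ) ≤ 1 := by
      have := finrank_span_le_card (R := ℝ) ({d} : Set ℂ)
      simpa using this
    rw [h, finrank_top, Complex.finrank_real_complex] at h1
    omega
  exact measure_eq_zero_iff_ae_notMem.1 key

/-! ### from local to global -/

end Pool.Agent.Lib.Bil
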