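import Pool.Agent.Lib.MP_7bc51d_an_s.BExit
import Pool.Agent.Lib.MP_7bc51d_an_s.BGeom
import Pool.Agent.Lib.MP_7bc51d_an_s.BGlobal
import Pool.Agent.Lib.MP_7bc51d_an_s.BPoly

set_option autoImplicit false

namespace Pool.Agent.Lib.Bil

open Complex MeasureTheory Set Filter
open scoped ComplexConjugate Topology ENNReal

variable {n : ℕ} {v : Fin n → ℂ}

theorem not_both_sides (hn : 3 ≤ n) {i j : Fin n} (hij : IsSide v i j) (hji : IsSide v j i) :
    False := by
  obtain ⟨m, hm1, hm2⟩ : ∃ m : Fin n, m ≠ i ∧ m ≠ j := by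
    by_contra hcon
    push Not at hcon
    have hsub : (Finset.univ : Finset (Fin n)) ⊆ {i, j} := by
      intro m _
      rw [Finset.mem_insert, Finset.mem_singleton]
      by_cases hm : m = i
      · exact Or.inl hm
      · exact Or.inr (hcon m hm)
    have hc := Finset.card_le_card hsub
    rw [Finset.card_univ, Fintype.card_fin] at hc
    have : ({i, j} : Finset (Fin n)).card ≤ 2 := Finset.card_le_two
    omega
  have q1 := hij.2 m hm1 hm2
  have q2 := hji.2 m hm2 hm1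
  have e1 : v m - v j = (v m - v i) - (v j - v i) := by ring
  have e2 : v i - v j = -(v j - v i) := by ring
  rw [e1, e2, cr_neg_left, cr_sub_right, cr_self] at q2
  linarith

theorem exists_side_dir (hn : 3 ≤ n) (hv : ConvexIndependent ℝ v) {x w : ℂ} (hx : x ∈ PP v)
    (hw : ∀ k, w ∉ (Submodule.span ℝ {v k - x} : Submodule ℝ ℂ)) :
    ∃ i j, IsSide v i j ∧ cr (v j - v i) w < 0 := by
  have hw0 : w ≠ 0 := by
    rintro rfl
    exact hw ⟨0, by omega⟩ (Submodule.zero_mem _)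
  obtain ⟨τ, hτ, hK, hP, _⟩ := exists_exit x w hx hw0
  have hvert : x + (τ : ℂ) * w ∉ Set.range v := by
    rintro ⟨k, hk⟩
    apply hw k
    rw [Submodule.mem_span_singleton]
    refine ⟨τ⁻¹, ?_⟩
    rw [hk, add_sub_cancel_left, real_smul, ← mul_assoc, ← ofReal_mul, inv_mul_cancel₀ hτ.ne',
      ofReal_one, one_mul]
  obtain ⟨i, j, hij, s, _, _, e1⟩ := exists_side hn hv hK hP hvert
  refine ⟨i, j, hij, ?_⟩
  have h1 := hij.cr_pos hv hx
  have h2 : x - v i = (s : ℂ) * (v j - v i) - (τ : ℂ) * w := by linear_combination e1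
  rw [h2, cr_sub_right, cr_smul_right, cr_smul_right, cr_self] at h1
  by_contra hcon
  push Not at hcon
  nlinarith

theorem two_sides (hn : 3 ≤ n) (hv : ConvexIndependent ℝ v) :
    ∃ i j k l, IsSide v i j ∧ IsSide v k l ∧ ((l ≠ i ∧ l ≠ j) ∨ (k ≠ i ∧ k ≠ j)) := by
  obtain ⟨x, hx⟩ := PP_nonempty hn hv
  have hae : ∀ᵐ w : ℂ, ∀ k, w ∉ (Submodule.span ℝ {v k - x} : Submodule ℝ ℂ) := by
    rw [ae_all_iff]
    intro k
    exact ae_not_mem_line _
  obtain ⟨w, hw⟩ := hae.exists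
  obtain ⟨i, j, hij, h1⟩ := exists_side_dir hn hv hx hw
  obtain ⟨k, l, hkl, h2⟩ := exists_side_dir hn hv hx (w := -w) (fun k hk => hw k (by
    rw [← neg_neg w]; exact Submodule.neg_mem _ hk))
  rw [cr_neg_right] at h2
  refine ⟨i, j, k, l, hij, hkl, ?_⟩
  by_contra hcon
  push Not at hcon
  obtain ⟨c1, c2⟩ := hcon
  have hkl' := hkl.1
  by_cases hli : l = i
  · by_cases hki : k = i
    · exact hkl' (hki.trans hli.symm)
    · have hkj := c2 hki
      subst hli hkj
      exact not_both_sides hn hij hkl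
  · have hlj := c1 hli
    by_cases hki : k = i
    · subst hlj hki
      linarith
    · have hkj := c2 hki
      exact hkl' (hkj.trans hlj.symm)

theorem pow_im_zero {z : ℂ} (hz : z ≠ 0) {m : ℕ} (h : (z ^ m).im = 0) :
    ∃ ζ : ℂ, ζ ^ (2 * m) = 1 ∧ z ∈ (Submodule.span ℝ {ζ} : Submodule ℝ ℂ) := by
  have hn : ‖z‖ ≠ 0 := by simpa using hz
  have hnC : (‖z‖ : ℂ) ≠ 0 := by exact_mod_cast hn
  refine ⟨z / (‖z‖ : ℂ), ?_, ?_⟩
  · rw [div_pow, div_eq_one_iff_eq (pow_ne_zero _ hnC), mul_comm, pow_mul, pow_mul]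
    have h1 : z ^ m = (((z ^ m).re : ℝ) : ℂ) := by
      apply Complex.ext
      · simp
      · simp [h]
    have h2 : (‖z‖ : ℂ) ^ m = ((‖z ^ m‖ : ℝ) : ℂ) := by
      rw [norm_pow]; push_cast; rfl
    rw [h2, h1]
    rw [← ofReal_pow, ← ofReal_pow, norm_real, Real.norm_eq_abs, sq_abs]
  · rw [Submodule.mem_span_singleton]
    refine ⟨‖z‖, ?_⟩
    rw [real_smul]
    field_simp

theorem ae_ratio : ∀ᵐ p : ℂ × ℂ, ∀ m : ℕ, 0 < m → ((p.1 / p.2) ^ m).im ≠ 0 := by
  rw [ae_all_iff]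
  intro m
  by_cases hm : 0 < m
  swap
  · exact Eventually.of_forall (fun p hp => absurd hp hm)
  have hmeas : MeasurableSet {p : ℂ × ℂ | ((p.1 / p.2) ^ m).im = 0} := by
    have : Measurable (fun p : ℂ × ℂ => ((p.1 / p.2) ^ m).im) := by fun_prop
    exact this (measurableSet_singleton 0)
  have hnull : volume {p : ℂ × ℂ | ((p.1 / p.2) ^ m).im = 0} = 0 := by
    rw [Measure.volume_eq_prod, Measure.prod_apply_symm hmeas]
    have hfin : {ζ : ℂ | ζ ^ (2 * m) = 1}.Countable := by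
      have h1 : {ζ : ℂ | ζ ^ (2 * m) = 1} ⊆ ((Polynomial.nthRoots (2 * m) (1 : ℂ)).toFinset : Set ℂ) := by
        intro ζ hζ
        simp only [Finset.mem_coe, Multiset.mem_toFinset]
        rw [Polynomial.mem_nthRoots (by omega)]
        exact hζ
      exact (Finset.countable_toSet _).mono h1
    have h2 : ∀ᵐ b : ℂ, volume ((fun a : ℂ => (a, b)) ⁻¹' {p : ℂ × ℂ | ((p.1 / p.2) ^ m).im = 0}) = 0 := by
      have hb0 : ∀ᵐ b : ℂ, b ≠ 0 := by simp [ae_iff]
      filter_upwards [hb0] with b hb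
      have h3 : ∀ᵐ a : ℂ, ∀ ζ ∈ {ζ : ℂ | ζ ^ (2 * m) = 1},
          a ∉ (Submodule.span ℝ {ζ * b} : Submodule ℝ ℂ) := by
        rw [ae_ball_iff hfin]
        intro ζ _
        exact ae_not_mem_line _
      have ha0 : ∀ᵐ a : ℂ, a ≠ 0 := by simp [ae_iff]
      rw [measure_eq_zero_iff_ae_notMem]
      filter_upwards [h3, ha0] with a ha haz hmem
      have h4 : ((a / b) ^ m).im = 0 := hmem
      obtain ⟨ζ, hζ1, hζ2⟩ := pow_im_zero (div_ne_zero haz hb) h4
      apply ha ζ hζ1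
      rw [Submodule.mem_span_singleton] at hζ2 ⊢
      obtain ⟨t, ht⟩ := hζ2
      refine ⟨t, ?_⟩
      rw [real_smul] at ht ⊢
      rw [← mul_assoc, ht]
      field_simp
    rw [lintegral_congr_ae h2]
    simp
  have h5 : ∀ᵐ p : ℂ × ℂ, p ∉ {p : ℂ × ℂ | ((p.1 / p.2) ^ m).im = 0} :=
    measure_eq_zero_iff_ae_notMem.1 hnull
  filter_upwards [h5] with p hp _
  exact hp

theorem ae_irr (n : ℕ) : ∀ᵐ v : Fin n → ℂ, ∀ i j k l : Fin n, i ≠ j → k ≠ l →
    ((l ≠ i ∧ l ≠ j) ∨ (k ≠ i ∧ k ≠ j)) →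
    ∀ m : ℕ, 0 < m → (((v j - v i) / (v l - v k)) ^ m).im ≠ 0 := by
  rw [ae_all_iff]; intro i
  rw [ae_all_iff]; intro j
  rw [ae_all_iff]; intro k
  rw [ae_all_iff]; intro l
  by_cases hij : i ≠ j
  swap
  · exact Eventually.of_forall (fun v h => absurd h hij)
  by_cases hkl : k ≠ l
  swap
  · exact Eventually.of_forall (fun v _ h => absurd h hkl)
  by_cases hd : (l ≠ i ∧ l ≠ j) ∨ (k ≠ i ∧ k ≠ j)
  swap
  · exact Eventually.of_forall (fun v _ _ h => absurd h hd)
  set L : (Fin n → ℂ) →ₗ[ℝ] ℂ × ℂ :=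
    { toFun := fun v => (v j - v i, v l - v k)
      map_add' := fun u v => by
        simp only [Pi.add_apply, Prod.mk_add_mk]
        congr 1 <;> ring
      map_smul' := fun t v => by
        simp only [Pi.smul_apply, RingHom.id_apply, Prod.smul_mk, smul_sub] } with hL
  have hsurj : Function.Surjective L := by
    rintro ⟨a, b⟩
    rcases hd with ⟨h1, h2⟩ | ⟨h1, h2⟩
    · refine ⟨Function.update (Function.update 0 j a) l
        (b + (Function.update (0 : Fin n → ℂ) j a) k), ?_⟩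
      simp only [hL, LinearMap.coe_mk, AddHom.coe_mk]
      rw [Function.update_of_ne (Ne.symm h2), Function.update_of_ne (Ne.symm h1),
        Function.update_self, Function.update_self, Function.update_of_ne hkl,
        Function.update_of_ne hij]
      simp
    · refine ⟨Function.update (Function.update 0 j a) k
        ((Function.update (0 : Fin n → ℂ) j a) l - b), ?_⟩
      simp only [hL, LinearMap.coe_mk, AddHom.coe_mk]
      rw [Function.update_of_ne (Ne.symm h2), Function.update_of_ne (Ne.symm h1),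
        Function.update_self, Function.update_self, Function.update_of_ne (Ne.symm hkl),
        Function.update_of_ne hij]
      simp
  have hmeas : MeasurableSet {p : ℂ × ℂ | ∀ m : ℕ, 0 < m → ((p.1 / p.2) ^ m).im ≠ 0} := by
    have : {p : ℂ × ℂ | ∀ m : ℕ, 0 < m → ((p.1 / p.2) ^ m).im ≠ 0} =
        ⋂ m : ℕ, ⋂ (_ : 0 < m), {p : ℂ × ℂ | ((p.1 / p.2) ^ m).im = 0}ᶜ := by
      ext p; simp
    rw [this]
    refine MeasurableSet.iInter (fun m => MeasurableSet.iInter (fun _ => ?_))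
    have h1 : Measurable (fun p : ℂ × ℂ => ((p.1 / p.2) ^ m).im) := by fun_prop
    exact (h1 (measurableSet_singleton 0)).compl
  have h6 := (ae_comp_linearMap_mem_iff L (volume : Measure (Fin n → ℂ))
    ((volume : Measure ℂ).prod (volume : Measure ℂ)) hsurj hmeas).2 ae_ratio
  filter_upwards [h6] with v hv _ _ _
  exact hv

end Pool.Agent.Lib.Bil
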