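import Pool.Agent.Lib.MP_7bc51d_an_s.BGeom

set_option autoImplicit false

namespace Pool.Agent.Lib.Bil

open Complex MeasureTheory Set Filter
open scoped ComplexConjugate Topology ENNReal

variable {n : ℕ} {v : Fin n → ℂ}

/-- `A` is invariant along the chords of direction `w`. -/
def ChordAt (v : Fin n → ℂ) (A : Set (ℂ × ℂ)) (w : ℂ) : Prop :=
  ∀ᵐ x : ℂ, x ∈ PP v → ∀ s : ℝ, x + (s : ℂ) * w ∈ PP v →
    ((x, w) ∈ A ↔ (x + (s : ℂ) * w, w) ∈ A)

end Pool.Agent.Lib.Bil
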