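import Pool.Agent.Lib.MP_7bc51d_an_s.BGeom
import Pool.Agent.Lib.MP_7bc51d_an_s.BPoly
import Pool.Agent.Lib.MP_7bc51d_an_s.BStep

set_option autoImplicit false

namespace Pool.Agent.Lib.Bil

open Complex MeasureTheory Set
open scoped ComplexConjugate Topology ENNReal

variable {n : ℕ} {v : Fin n → ℂ}

/-- Phase space (velocities of modulus less than one). -/
def DD (v : Fin n → ℂ) : Set (ℂ × ℂ) := PP v ×ˢ Metric.ball (0 : ℂ) 1

theorem measurableSet_DD : MeasurableSet (DD v) :=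
  (isOpen_PP.prod Metric.isOpen_ball).measurableSet

theorem mem_DD {p : ℂ × ℂ} : p ∈ DD v ↔ p.1 ∈ PP v ∧ ‖p.2‖ < 1 := by
  rw [DD, mem_prod, mem_ball_zero_iff]

theorem volume_DD_lt_top : volume (DD v) < ⊤ := by
  rw [DD, Measure.volume_eq_prod, Measure.prod_prod]
  exact ENNReal.mul_lt_top isBounded_PP.measure_lt_top measure_ball_lt_top

/-- One-step invariance. -/
def Inv (v : Fin n → ℂ) (A : Set (ℂ × ℂ)) : Prop :=
  ∀ h : ℝ, 0 < h → ∀ᵐ p ∂(volume : Measure (ℂ × ℂ)),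
    ∀ c, p ∈ stepSet v h c → (p ∈ A ↔ stepMap v h c p ∈ A)

end Pool.Agent.Lib.Bil
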