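import Pool.Agent.Lib.MP_7bc51d_an_s.BExit
import Pool.Agent.Lib.MP_7bc51d_an_s.BGeom
import Pool.Agent.Lib.MP_7bc51d_an_s.BLocalConst
import Pool.Agent.Lib.MP_7bc51d_an_s.BPoly
import Pool.Agent.Lib.MP_7bc51d_an_s.BStep
import Pool.Agent.Lib.MP_7bc51d_an_s.BTraj
import Pool.Agent.Lib.MP_7bc51d_an_s.BWords

set_option autoImplicit false

namespace Pool.Agent.Lib.Bil

open Complex MeasureTheory Set Filter
open scoped ComplexConjugate Topology ENNReal

variable {n : ℕ} {v : Fin n → ℂ}

/-- The invariance hypothesis at a phase point, in the form of the frozen statement. -/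
def HypAt (v : Fin n → ℂ) (A : Set (ℂ × ℂ)) (p : ℂ × ℂ) : Prop :=
  p.1 ∈ interior (convexHull ℝ (Set.range v)) → p.2 ≠ 0 →
    ∀ τ : ℝ, 0 < τ →
      p.1 + (τ : ℂ) * p.2 ∈ frontier (convexHull ℝ (Set.range v)) →
      (∀ s : ℝ, 0 ≤ s → s < τ → (p ∈ A ↔ (p.1 + (s : ℂ) * p.2, p.2) ∈ A)) ∧
      (p.1 + (τ : ℂ) * p.2 ∉ Set.range v →
        ∀ i j : Fin n, i ≠ j → p.1 + (τ : ℂ) * p.2 ∈ segment ℝ (v i) (v j) →
          ∀ σ : ℝ, 0 < σ →
            p.1 + (τ : ℂ) * p.2 + (σ : ℂ) *
                ((v j - v i) / (starRingEnd ℂ) (v j - v i) * (starRingEnd ℂ) p.2)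
              ∈ frontier (convexHull ℝ (Set.range v)) →
            ∀ r : ℝ, 0 < r → r < σ →
              (p ∈ A ↔
                (p.1 + (τ : ℂ) * p.2 + (r : ℂ) *
                    ((v j - v i) / (starRingEnd ℂ) (v j - v i) * (starRingEnd ℂ) p.2),
                  (v j - v i) / (starRingEnd ℂ) (v j - v i) * (starRingEnd ℂ) p.2) ∈ A))

theorem mem_frontier {y : ℂ} : y ∈ frontier (convexHull ℝ (Set.range v)) ↔
    y ∈ KK v ∧ y ∉ PP v := by
  change y ∈ frontier (KK v) ↔ _
  rw [isClosed_KK.frontier_eq]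
  rfl

theorem fwd_of_hyp {A : Set (ℂ × ℂ)} {p : ℂ × ℂ} (hp : HypAt v A p) (h1 : p.1 ∈ PP v)
    {s : ℝ} (hs : 0 ≤ s) (h2 : p.1 + (s : ℂ) * p.2 ∈ PP v) :
    (p ∈ A ↔ (p.1 + (s : ℂ) * p.2, p.2) ∈ A) := by
  by_cases hw : p.2 = 0
  · have : (p.1 + (s : ℂ) * p.2, p.2) = p := by
      rw [hw, mul_zero, add_zero]
      exact Prod.ext rfl hw.symm
    rw [this]
  obtain ⟨τ, hτ, hK, hP, _⟩ := exists_exit p.1 p.2 h1 hw
  refine (hp h1 hw τ hτ (mem_frontier.2 ⟨hK, hP⟩)).1 s hs ?_
  by_contra hcon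
  push Not at hcon
  apply hP
  have hmem := convex_PP (v := v) h1 h2 (a := 1 - τ / s) (b := τ / s) ?_ (by positivity) (by ring)
  · convert hmem using 1
    have hs0 : 0 < s := lt_of_lt_of_le hτ hcon
    simp only [real_smul]
    have h5 : ((τ / s : ℝ) : ℂ) * s = τ := by
      rw [← ofReal_mul]; congr 1; field_simp
    have h6 : ((1 - τ / s : ℝ) : ℂ) = 1 - ((τ / s : ℝ) : ℂ) := by
      rw [ofReal_sub, ofReal_one]
    rw [h6]
    linear_combination (-p.2) * h5
  · have hs0 : 0 < s := lt_of_lt_of_le hτ hcon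
    rw [sub_nonneg, div_le_one hs0]
    exact hcon

theorem inv_of_hyp (hv : ConvexIndependent ℝ v) {A : Set (ℂ × ℂ)}
    (H : ∀ᵐ p ∂(volume : Measure (ℂ × ℂ)), HypAt v A p) : Inv v A := by
  intro h hh
  filter_upwards [H] with p hp c hc
  match c with
  | none => exact fwd_of_hyp hp hc.1 hh.le hc.2
  | some (i, j) =>
    obtain ⟨hij, hx, h1, h2, h3⟩ := hc
    have hw : p.2 ≠ 0 := by
      intro hw
      rw [hw, cr_zero_left] at h1
      exact lt_irrefl _ h1
    have hne := v_sub_ne hv hij.1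
    obtain ⟨τ, s, hτ, hs0, hs1, hb, hout⟩ := exit_point hv hij hx h1 h2
    set b := v i + (s : ℂ) * (v j - v i) with hbdef
    set u := rl (v j - v i) p.2 with hu
    have hin : 0 < cr (v j - v i) u := by
      have := cr_rl hne (v j - v i) p.2
      rw [rl_self hne] at this
      rw [hu, this]
      linarith
    have hcrb : ∀ r : ℝ, cr (v j - v i) (b + (r : ℂ) * u - v i) = r * cr (v j - v i) u := by
      intro r
      have : b + (r : ℂ) * u - v i = (s : ℂ) * (v j - v i) + (r : ℂ) * u := by rw [hbdef]; ring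
      rw [this, cr_add_right, cr_smul_right, cr_smul_right, cr_self]
      ring
    have hbK : b ∈ KK v := side_point_mem_KK hs0.le hs1.le
    have hbP : b ∉ PP v := by
      intro hb'
      have h5 := hij.cr_pos hv hb'
      have h6 := hcrb 0
      simp only [ofReal_zero, zero_mul, add_zero] at h6
      linarith
    have hbv : b ∉ Set.range v := by
      rintro ⟨k, hk⟩
      by_cases hki : k = i
      · rw [hki, hbdef] at hk
        have : (s : ℂ) * (v j - v i) = 0 := by linear_combination -hk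
        rcases mul_eq_zero.1 this with h5 | h5
        · exact hs0.ne' (by exact_mod_cast h5)
        · exact hne h5
      · by_cases hkj : k = j
        · rw [hkj, hbdef] at hk
          have : ((1 - s : ℝ) : ℂ) * (v j - v i) = 0 := by
            push_cast; linear_combination hk
          rcases mul_eq_zero.1 this with h5 | h5
          · have : 1 - s = 0 := by exact_mod_cast h5
            linarith
          · exact hne h5
        · have h5 := hij.2 k hki hkj
          rw [hk] at h5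
          have h6 := hcrb 0
          simp only [ofReal_zero, zero_mul, add_zero] at h6
          linarith
    have hbseg : b ∈ segment ℝ (v i) (v j) := by
      refine ⟨1 - s, s, by linarith, hs0.le, by ring, ?_⟩
      simp only [real_smul, ofReal_sub, ofReal_one, hbdef]; ring
    -- the reflected end point
    have hend : RR v i j (p.1 + (h : ℂ) * p.2) = b + ((h - τ : ℝ) : ℂ) * u := by
      have : p.1 + (h : ℂ) * p.2 = b + ((h - τ : ℝ) : ℂ) * p.2 := by
        rw [← hb]; push_cast; ring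
      rw [this, RR_add, hbdef, RR_line hne, rl_smul]
    have hr : 0 < h - τ := by
      have h5 := hij.cr_pos hv h3
      rw [hend, hcrb] at h5
      by_contra hcon
      push Not at hcon
      nlinarith
    have hu0 : u ≠ 0 := by
      intro h0
      rw [h0, cr_zero_right] at hin
      exact lt_irrefl _ hin
    obtain ⟨τ₂, hτ₂, hK₂, hP₂, _⟩ := exists_exit _ u h3 hu0
    rw [hend] at hK₂ hP₂
    have e3 : b + ((h - τ : ℝ) : ℂ) * u + (τ₂ : ℂ) * u = b + ((h - τ + τ₂ : ℝ) : ℂ) * u := by
      push_cast; ring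
    rw [e3] at hK₂ hP₂
    have hfin := (hp hx hw τ hτ (mem_frontier.2 (by rw [hb]; exact ⟨hbK, hbP⟩))).2
      (by rw [hb]; exact hbv) i j hij.1 (by rw [hb]; exact hbseg) (h - τ + τ₂) (by linarith)
      (mem_frontier.2 (by rw [hb]; exact ⟨hK₂, hP₂⟩)) (h - τ) hr (by linarith)
    rw [hb] at hfin
    change (p ∈ A ↔ (RR v i j (p.1 + (h : ℂ) * p.2), u) ∈ A)
    rw [hend]
    exact hfin

theorem chord_of_hyp {A : Set (ℂ × ℂ)}
    (H : ∀ᵐ p ∂(volume : Measure (ℂ × ℂ)), HypAt v A p) : ∀ᵐ w, ChordAt v A w := by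
  have h1 : ∀ᵐ p ∂((volume : Measure ℂ).prod (volume : Measure ℂ)), HypAt v A (p.2, p.1) := by
    have h0 : MeasurePreserving (Prod.swap : ℂ × ℂ → ℂ × ℂ)
      ((volume : Measure ℂ).prod volume) ((volume : Measure ℂ).prod volume) :=
      Measure.measurePreserving_swap
    exact h0.quasiMeasurePreserving.ae H
  have h2 := Measure.ae_ae_of_ae_prod h1
  filter_upwards [h2] with w hw
  have h3 : ∀ᵐ x : ℂ, ∀ q : ℚ, HypAt v A (x + ((q : ℝ) : ℂ) * w, w) := by
    rw [ae_all_iff]
    intro q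
    exact (measurePreserving_add_right volume (((q : ℝ) : ℂ) * w)).quasiMeasurePreserving.ae hw
  filter_upwards [h3] with x hx hxP s hs
  rcases le_or_gt 0 s with h0 | h0
  · have := hx 0
    simp only [Rat.cast_zero, ofReal_zero, zero_mul, add_zero] at this
    exact fwd_of_hyp this hxP h0 hs
  · -- a rational point slightly before
    have hopen : IsOpen {q : ℝ | x + (q : ℂ) * w ∈ PP v} := isOpen_PP.preimage (by fun_prop)
    obtain ⟨ε, hε, hεb⟩ := Metric.isOpen_iff.1 hopen s hs
    obtain ⟨q, hq1, hq2⟩ := exists_rat_btwn (show s - ε < s by linarith)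
    have hqP : x + ((q : ℝ) : ℂ) * w ∈ PP v := by
      apply hεb
      rw [Metric.mem_ball, Real.dist_eq, abs_lt]
      constructor <;> linarith
    have hy := hx q
    have e1 : x + ((q : ℝ) : ℂ) * w + ((-q : ℝ) : ℂ) * w = x := by push_cast; ring
    have e2 : x + ((q : ℝ) : ℂ) * w + ((s - q : ℝ) : ℂ) * w = x + (s : ℂ) * w := by
      push_cast; ring
    have f1 := fwd_of_hyp hy hqP (s := -q) (by linarith) (by
      simp only
      rw [e1]; exact hxP)
    have f2 := fwd_of_hyp hy hqP (s := s - q) (by linarith) (by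
      simp only
      rw [e2]; exact hs)
    simp only at f1 f2
    rw [e1] at f1
    rw [e2] at f2
    exact f1.symm.trans f2

end Pool.Agent.Lib.Bil
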