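import Mathlib

set_option autoImplicit false

namespace Pool.Agent.Lib.Bil

open Complex MeasureTheory Set Filter
open scoped ComplexConjugate Topology ENNReal

variable {n : ℕ} {v : Fin n → ℂ}

/-- Component along `d`. -/
def dt (a b : ℂ) : ℝ := a.re * b.re + a.im * b.im

end Pool.Agent.Lib.Bil
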