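import Pool.Agent.Lib.MP_7bc51d_an_s.BMink

set_option autoImplicit false

namespace Pool.Agent.Lib.Bil

open Complex MeasureTheory Set Filter
open scoped ComplexConjugate Topology ENNReal

variable {n : ℕ} {v : Fin n → ℂ}

theorem esq_pos {e : ℂ} (he : e ≠ 0) : 0 < e.re ^ 2 + e.im ^ 2 := by
  have : e.re ≠ 0 ∨ e.im ≠ 0 := by
    by_contra hcon
    push Not at hcon
    exact he (Complex.ext hcon.1 hcon.2)
  rcases this with h | h <;> positivity

theorem continuous_dt (e : ℂ) : Continuous (fun z : ℂ => dt e z) := by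
  unfold dt; fun_prop

end Pool.Agent.Lib.Bil
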