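import Pool.Agent.Lib.MP_7bc51d_an_s.BGeom
import Pool.Agent.Lib.MP_7bc51d_an_s.BMink

set_option autoImplicit false

namespace Pool.Agent.Lib.Bil

open Complex MeasureTheory Set Filter
open scoped ComplexConjugate Topology ENNReal

variable {n : ℕ} {v : Fin n → ℂ}

/-- Unit ball of velocities. -/
abbrev BV : Set ℂ := Metric.ball (0 : ℂ) 1

/-- A jointly measurable function of lines bounded by one. -/
structure LF (F : ℂ → ℝ → ℝ) : Prop where
  meas : Measurable (fun p : ℂ × ℝ => F p.1 p.2)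
  bd : ∀ w Q, |F w Q| ≤ 1

/-- Primitive of `F w`. -/
noncomputable def Gp (F : ℂ → ℝ → ℝ) (w : ℂ) (Q : ℝ) : ℝ := Q * ∫ t in Ioc (0 : ℝ) 1, F w (Q * t)

theorem LF.meas2 {F : ℂ → ℝ → ℝ} (hF : LF F) (w : ℂ) : Measurable (F w) :=
  hF.meas.comp (measurable_prodMk_left (x := w))

theorem LF.ii {F : ℂ → ℝ → ℝ} (hF : LF F) (w : ℂ) (a b : ℝ) :
    IntervalIntegrable (F w) volume a b := by
  have h1 : IntervalIntegrable (fun _ : ℝ => (1 : ℝ)) volume a b := intervalIntegrable_const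
  refine h1.mono_fun (hF.meas2 w).aestronglyMeasurable ?_
  refine Eventually.of_forall (fun Q => ?_)
  simp only [Real.norm_eq_abs, abs_one]
  exact hF.bd w Q

theorem Gp_eq {F : ℂ → ℝ → ℝ} (w : ℂ) (Q : ℝ) : Gp F w Q = ∫ q in (0 : ℝ)..Q, F w q := by
  have h := intervalIntegral.mul_integral_comp_mul_left (a := 0) (b := 1) (f := F w) Q
  rw [mul_zero, mul_one] at h
  rw [← h, intervalIntegral.integral_of_le zero_le_one, Gp]

theorem Gp_sub {F : ℂ → ℝ → ℝ} (hF : LF F) (w : ℂ) (Q Q' : ℝ) :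
    Gp F w Q' - Gp F w Q = ∫ q in Q..Q', F w q := by
  rw [Gp_eq, Gp_eq]
  exact intervalIntegral.integral_interval_sub_left (hF.ii w _ _) (hF.ii w _ _)

theorem Gp_add {F : ℂ → ℝ → ℝ} (hF : LF F) (w : ℂ) (Q c s : ℝ) :
    Gp F w (Q + s * c) - Gp F w Q = ∫ s' in (0 : ℝ)..s, F w (Q + s' * c) * c := by
  rw [Gp_sub hF]
  have h := intervalIntegral.mul_integral_comp_mul_add (a := 0) (b := s) (f := F w) c Q
  have e1 : c * 0 + Q = Q := by ring
  have e2 : c * s + Q = Q + s * c := by ring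
  rw [e1, e2] at h
  rw [← h, ← intervalIntegral.integral_const_mul]
  apply intervalIntegral.integral_congr
  intro t _
  simp only
  rw [mul_comm]
  congr 2
  ring

theorem Gp_lip {F : ℂ → ℝ → ℝ} (hF : LF F) (w : ℂ) (Q Q' : ℝ) :
    |Gp F w Q' - Gp F w Q| ≤ |Q' - Q| := by
  rw [Gp_sub hF, ← Real.norm_eq_abs]
  have := intervalIntegral.norm_integral_le_of_norm_le_const (a := Q) (b := Q') (f := F w) (C := 1)
    (fun q _ => by rw [Real.norm_eq_abs]; exact hF.bd w q)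
  rwa [one_mul] at this

theorem Gp_abs {F : ℂ → ℝ → ℝ} (hF : LF F) (w : ℂ) (Q : ℝ) : |Gp F w Q| ≤ |Q| := by
  have h := Gp_lip hF w 0 Q
  have h0 : Gp F w 0 = 0 := by simp [Gp]
  rwa [h0, sub_zero, sub_zero] at h

theorem meas_cr_left (x : ℂ) : Measurable (fun w : ℂ => cr w x) := by
  apply Continuous.measurable; unfold cr; fun_prop

theorem Gp_meas {F : ℂ → ℝ → ℝ} (hF : LF F) : Measurable (fun p : ℂ × ℝ => Gp F p.1 p.2) := by
  unfold Gp
  refine measurable_snd.mul ?_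
  have h1 : Measurable (fun z : (ℂ × ℝ) × ℝ => F z.1.1 (z.1.2 * z.2)) :=
    hF.meas.comp (measurable_fst.fst.prodMk (measurable_fst.snd.mul measurable_snd))
  have h2 : StronglyMeasurable (Function.uncurry (fun (p : ℂ × ℝ) (t : ℝ) => F p.1 (p.2 * t))) :=
    h1.stronglyMeasurable
  exact h2.integral_prod_right.measurable

theorem Gp_meas_x {F : ℂ → ℝ → ℝ} (hF : LF F) (x : ℂ) :
    Measurable (fun w : ℂ => Gp F w (cr w x)) :=
  (Gp_meas hF).comp (measurable_id.prodMk (meas_cr_left x))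

theorem F_meas_x {F : ℂ → ℝ → ℝ} (hF : LF F) (x : ℂ) :
    Measurable (fun w : ℂ => F w (cr w x)) :=
  hF.meas.comp (measurable_id.prodMk (meas_cr_left x))

theorem abs_cr_le (a b : ℂ) : |cr a b| ≤ ‖a‖ * ‖b‖ := by
  rw [cr_eq_im]
  calc |(conj a * b).im| ≤ ‖conj a * b‖ := abs_im_le_norm _
    _ = ‖a‖ * ‖b‖ := by rw [norm_mul, RCLike.norm_conj]

theorem abs_dt_le (a b : ℂ) : |dt a b| ≤ ‖a‖ * ‖b‖ := by
  have : dt a b = (conj a * b).re := by
    simp only [dt, mul_re, conj_re, conj_im]; ring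
  rw [this]
  calc |(conj a * b).re| ≤ ‖conj a * b‖ := abs_re_le_norm _
    _ = ‖a‖ * ‖b‖ := by rw [norm_mul, RCLike.norm_conj]

theorem intOn_ball {g : ℂ → ℝ} (hg : Measurable g) {C : ℝ} (hb : ∀ w ∈ BV, |g w| ≤ C) :
    IntegrableOn g BV := by
  have h1 : IntegrableOn (fun _ : ℂ => C) BV :=
    integrableOn_const (measure_ball_lt_top.ne)
  refine Integrable.mono' h1 hg.aestronglyMeasurable ?_
  rw [ae_restrict_iff' measurableSet_ball]
  exact Eventually.of_forall (fun w hw => by rw [Real.norm_eq_abs]; exact hb w hw)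

theorem norm_lt_of_BV {w : ℂ} (hw : w ∈ BV) : ‖w‖ < 1 := by
  simpa using hw

end Pool.Agent.Lib.Bil
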