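import Pool.Agent.Lib.MP_7bc51d_an_s.BGeom
import Pool.Agent.Lib.MP_7bc51d_an_s.BPotential
import Pool.Agent.Lib.MP_7bc51d_an_s.BStep

set_option autoImplicit false

namespace Pool.Agent.Lib.Bil

open Complex MeasureTheory Set Filter
open scoped ComplexConjugate Topology ENNReal

variable {n : ℕ} {v : Fin n → ℂ}

theorem rl_preimage_BV {e : ℂ} (he : e ≠ 0) : rl e ⁻¹' BV = BV := by
  ext w
  simp only [mem_preimage, mem_ball_zero_iff, norm_rl he]

theorem mp_rl_BV {e : ℂ} (he : e ≠ 0) :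
    MeasurePreserving (rl e) (volume.restrict BV) (volume.restrict BV) := by
  have h := (mp_rl he).restrict_preimage (s := BV) measurableSet_ball
  rwa [rl_preimage_BV he] at h

theorem rl_emb {e : ℂ} (he : e ≠ 0) : MeasurableEmbedding (rl e) :=
  (rlEquiv e he).toHomeomorph.measurableEmbedding

theorem rl_integral {e : ℂ} (he : e ≠ 0) (g : ℂ → ℝ) :
    ∫ w in BV, g (rl e w) = ∫ w in BV, g w :=
  (mp_rl_BV he).integral_comp (rl_emb he) g

theorem antisym_integral {e : ℂ} (he : e ≠ 0) {g : ℂ → ℝ} (hg : ∀ᵐ w, g (rl e w) = - g w) :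
    ∫ w in BV, g w = 0 := by
  have h1 := rl_integral he g
  have h2 : ∫ w in BV, g (rl e w) = ∫ w in BV, - g w := by
    apply integral_congr_ae
    exact ae_restrict_of_ae hg
  rw [h2, integral_neg] at h1
  linarith

/-- Reflection symmetry of a line function at the side starting at `a` with edge vector `e`. -/
def SymAt (F : ℂ → ℝ → ℝ) (a e : ℂ) : Prop :=
  ∀ᵐ w : ℂ, ∀ᵐ τ : ℝ, τ ∈ Ioo (0 : ℝ) 1 →
    F (rl e w) (cr (rl e w) (a + (τ : ℂ) * e)) = F w (cr w (a + (τ : ℂ) * e))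

/-- Mass of the side up to parameter `t` in direction `w`. -/
noncomputable def Sm (F : ℂ → ℝ → ℝ) (a e : ℂ) (t : ℝ) (w : ℂ) : ℝ :=
  ∫ τ in (0 : ℝ)..t, F w (cr w (a + (τ : ℂ) * e))

theorem Sm_symm {F : ℂ → ℝ → ℝ} {a e : ℂ} (hs : SymAt F a e) :
    ∀ᵐ w : ℂ, ∀ t ∈ Icc (0 : ℝ) 1, Sm F a e t (rl e w) = Sm F a e t w := by
  filter_upwards [hs] with w hw t ht
  unfold Sm
  apply intervalIntegral.integral_congr_ae
  have h1 : ∀ᵐ τ : ℝ, τ ≠ 1 := by simp [ae_iff, measure_singleton]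
  filter_upwards [hw, h1] with τ h2 h3 hτ
  rw [uIoc_of_le ht.1] at hτ
  exact h2 ⟨hτ.1, lt_of_le_of_ne (hτ.2.trans ht.2) h3⟩

theorem Gp_side {F : ℂ → ℝ → ℝ} (hF : LF F) (a e w : ℂ) (t : ℝ) :
    Gp F w (cr w (a + (t : ℂ) * e)) - Gp F w (cr w a) = Sm F a e t w * cr w e := by
  rw [cr_add_right, cr_smul_right, Gp_add hF, Sm, ← intervalIntegral.integral_mul_const]
  apply intervalIntegral.integral_congr
  intro τ _
  simp only
  rw [cr_add_right, cr_smul_right]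

theorem cr_rl_left {e : ℂ} (he : e ≠ 0) (w : ℂ) : cr (rl e w) e = - cr w e := by
  have := cr_rl he w e
  rwa [rl_self he] at this

end Pool.Agent.Lib.Bil
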