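import Pool.Agent.Lib.MP_7bc51d_an_s.BExit
import Pool.Agent.Lib.MP_7bc51d_an_s.BGeom
import Pool.Agent.Lib.MP_7bc51d_an_s.BGlobal
import Pool.Agent.Lib.MP_7bc51d_an_s.BLocalConst
import Pool.Agent.Lib.MP_7bc51d_an_s.BMink
import Pool.Agent.Lib.MP_7bc51d_an_s.BPairing
import Pool.Agent.Lib.MP_7bc51d_an_s.BPoly
import Pool.Agent.Lib.MP_7bc51d_an_s.BPotential
import Pool.Agent.Lib.MP_7bc51d_an_s.BStep
import Pool.Agent.Lib.MP_7bc51d_an_s.BSymm
import Pool.Agent.Lib.MP_7bc51d_an_s.BTraj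
import Pool.Agent.Lib.MP_7bc51d_an_s.BWords

set_option autoImplicit false

namespace Pool.Agent.Lib.Bil

open Complex MeasureTheory Set Filter
open scoped ComplexConjugate Topology ENNReal

variable {n : ℕ} {v : Fin n → ℂ}

/-- Base point of the line of direction `w` and height `Q`. -/
noncomputable def bs (w : ℂ) (Q : ℝ) : ℂ := ((Q / (w.re ^ 2 + w.im ^ 2) : ℝ) : ℂ) * (I * w)

/-- Lines whose chord is almost everywhere in `A`. -/
def Lset (v : Fin n → ℂ) (A : Set (ℂ × ℂ)) : Set (ℂ × ℝ) :=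
  {p | volume {s : ℝ | bs p.1 p.2 + (s : ℂ) * p.1 ∈ PP v ∧
    (bs p.1 p.2 + (s : ℂ) * p.1, p.1) ∉ A} = 0}

/-- The line function of `A`. -/
noncomputable def FA (v : Fin n → ℂ) (A : Set (ℂ × ℂ)) (w : ℂ) (Q : ℝ) : ℝ :=
  (Lset v A).indicator 1 (w, Q)

theorem measurableSet_Lset {A : Set (ℂ × ℂ)} (hA : MeasurableSet A) :
    MeasurableSet (Lset v A) := by
  have hb : Measurable (fun z : (ℂ × ℝ) × ℝ => bs z.1.1 z.1.2 + (z.2 : ℂ) * z.1.1) := by
    unfold bs
    have h1 : Measurable (fun z : (ℂ × ℝ) × ℝ => z.1.1) := measurable_fst.fst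
    have h2 : Measurable (fun z : (ℂ × ℝ) × ℝ => z.1.2) := measurable_fst.snd
    have h3 : Measurable (fun z : (ℂ × ℝ) × ℝ => z.1.1.re) := measurable_re.comp h1
    have h4 : Measurable (fun z : (ℂ × ℝ) × ℝ => z.1.1.im) := measurable_im.comp h1
    have h5 : Measurable (fun z : (ℂ × ℝ) × ℝ => z.1.2 / (z.1.1.re ^ 2 + z.1.1.im ^ 2)) :=
      h2.div ((h3.pow_const 2).add (h4.pow_const 2))
    exact ((measurable_ofReal.comp h5).mul (measurable_const.mul h1)).add
      ((measurable_ofReal.comp measurable_snd).mul h1)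
  have hS : MeasurableSet {z : (ℂ × ℝ) × ℝ | bs z.1.1 z.1.2 + (z.2 : ℂ) * z.1.1 ∈ PP v ∧
      (bs z.1.1 z.1.2 + (z.2 : ℂ) * z.1.1, z.1.1) ∉ A} :=
    (isOpen_PP.measurableSet.preimage hb).inter
      ((hA.preimage (hb.prodMk measurable_fst.fst)).compl)
  have h2 := measurable_measure_prodMk_left (ν := (volume : Measure ℝ)) hS
  exact h2 (measurableSet_singleton 0)

theorem LF_FA {A : Set (ℂ × ℂ)} (hA : MeasurableSet A) : LF (FA v A) where
  meas := by
    have h : Measurable ((Lset v A).indicator (1 : ℂ × ℝ → ℝ)) :=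
      measurable_one.indicator (measurableSet_Lset hA)
    exact h
  bd := by
    intro w Q
    unfold FA
    by_cases h : (w, Q) ∈ Lset v A
    · rw [indicator_of_mem h]; simp
    · rw [indicator_of_notMem h]; simp

theorem bs_eq {w x : ℂ} (hw : w ≠ 0) :
    bs w (cr w x) + ((dt w x / (w.re ^ 2 + w.im ^ 2) : ℝ) : ℂ) * w = x := by
  have h := (esq_pos hw).ne'
  unfold bs
  apply Complex.ext
  · simp only [add_re, mul_re, ofReal_re, ofReal_im, I_re, I_im, mul_im, cr, dt]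
    field_simp
    ring
  · simp only [add_im, mul_re, ofReal_re, ofReal_im, I_re, I_im, mul_im, cr, dt]
    field_simp
    ring

theorem Lset_iff {A : Set (ℂ × ℂ)} {w x : ℂ} (hw : w ≠ 0) (hx : x ∈ PP v)
    (hg : ∀ s : ℝ, x + (s : ℂ) * w ∈ PP v → ((x, w) ∈ A ↔ (x + (s : ℂ) * w, w) ∈ A)) :
    (w, cr w x) ∈ Lset v A ↔ (x, w) ∈ A := by
  set s0 : ℝ := dt w x / (w.re ^ 2 + w.im ^ 2) with hs0
  have hbs : ∀ s : ℝ, bs w (cr w x) + (s : ℂ) * w = x + ((s - s0 : ℝ) : ℂ) * w := by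
    intro s
    have := bs_eq (w := w) (x := x) hw
    rw [← hs0] at this
    push_cast
    linear_combination this
  have hset : (w, cr w x) ∈ Lset v A ↔ volume {s : ℝ | x + ((s - s0 : ℝ) : ℂ) * w ∈ PP v ∧
      (x + ((s - s0 : ℝ) : ℂ) * w, w) ∉ A} = 0 := by
    unfold Lset
    simp only [mem_ofPred_eq, hbs]
  rw [hset]
  constructor
  · intro h0
    by_contra hcon
    have hopen : IsOpen {s : ℝ | x + ((s - s0 : ℝ) : ℂ) * w ∈ PP v} :=
      isOpen_PP.preimage (by fun_prop)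
    have hpos := hopen.measure_pos volume ⟨s0, by
      simp only [mem_ofPred_eq, sub_self, ofReal_zero, zero_mul, add_zero]; exact hx⟩
    apply hpos.ne'
    apply measure_mono_null _ h0
    intro s hs
    exact ⟨hs, fun hcon2 => hcon ((hg _ hs).2 hcon2)⟩
  · intro hA
    have : {s : ℝ | x + ((s - s0 : ℝ) : ℂ) * w ∈ PP v ∧
      (x + ((s - s0 : ℝ) : ℂ) * w, w) ∉ A} = ∅ := by
      ext s
      simp only [mem_ofPred_eq, mem_empty_iff_false, iff_false, not_and, not_not]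
      intro hs
      exact (hg _ hs).1 hA
    rw [this, measure_empty]

/-- oblique coordinates -/
theorem ae_obl {a e w : ℂ} (h : cr e w ≠ 0) {p : ℂ → Prop} (hp : ∀ᵐ y, p y) :
    ∀ᵐ τ : ℝ, ∀ᵐ s : ℝ, p (a + (τ : ℂ) * e - (s : ℂ) * w) := by
  let L : ℂ →ₗ[ℝ] ℂ :=
    { toFun := fun z => (z.re : ℂ) * e - (z.im : ℂ) * w
      map_add' := fun x y => by
        simp only [add_re, add_im, ofReal_add]; ring
      map_smul' := fun t x => by
        simp only [real_smul, RingHom.id_apply, mul_re, mul_im, ofReal_re, ofReal_im, zero_mul,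
          sub_zero, add_zero, ofReal_mul]
        ring }
  have hL : ∀ z, L z = (z.re : ℂ) * e - (z.im : ℂ) * w := fun z => rfl
  have hLinj : Function.Injective L := by
    rw [injective_iff_map_eq_zero]
    intro z hz
    rw [hL] at hz
    have h1 : cr e ((z.re : ℂ) * e - (z.im : ℂ) * w) = 0 := by rw [hz, cr_zero_right]
    have h2 : cr w ((z.re : ℂ) * e - (z.im : ℂ) * w) = 0 := by rw [hz, cr_zero_right]
    rw [cr_sub_right, cr_smul_right, cr_smul_right, cr_self] at h1 h2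
    have h3 : z.im = 0 := by
      have : z.im * cr e w = 0 := by linarith
      exact (mul_eq_zero.1 this).resolve_right h
    have h4 : z.re = 0 := by
      have h5 : cr w e ≠ 0 := by rw [cr_swap]; exact neg_ne_zero.2 h
      have : z.re * cr w e = 0 := by linarith
      exact (mul_eq_zero.1 this).resolve_right h5
    exact Complex.ext h4 h3
  have hdet : LinearMap.det L ≠ 0 := by
    have hb : Function.Bijective L := ⟨hLinj, LinearMap.injective_iff_surjective.1 hLinj⟩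
    have := (LinearEquiv.ofBijective L hb).isUnit_det'
    exact this.ne_zero
  have h1 : ∀ᵐ y : ℂ, p (a + y) :=
    (measurePreserving_add_left volume a).quasiMeasurePreserving.ae hp
  have h2 : ∀ᵐ z : ℂ, p (a + L z) := by
    rw [ae_iff] at h1 ⊢
    have h3 := Measure.addHaar_preimage_linearMap (volume : Measure ℂ) hdet {y | ¬ p (a + y)}
    rw [h1, mul_zero] at h3
    exact h3
  have h3 : ∀ᵐ z : ℝ × ℝ ∂((volume : Measure ℝ).prod (volume : Measure ℝ)),
      p (a + L (Complex.measurableEquivRealProd.symm z)) :=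
    Complex.volume_preserving_equiv_real_prod.symm.quasiMeasurePreserving.ae h2
  filter_upwards [Measure.ae_ae_of_ae_prod h3] with τ hτ
  filter_upwards [hτ] with s hs
  rw [hL, Complex.measurableEquivRealProd_symm_apply] at hs
  simp only at hs
  rw [← add_sub_assoc] at hs
  exact hs

theorem FA_eq {A : Set (ℂ × ℂ)} {w x : ℂ} (hw : w ≠ 0) (hx : x ∈ PP v)
    (hg : ∀ s : ℝ, x + (s : ℂ) * w ∈ PP v → ((x, w) ∈ A ↔ (x + (s : ℂ) * w, w) ∈ A)) :
    FA v A w (cr w x) = A.indicator 1 (x, w) := by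
  have h := Lset_iff hw hx hg
  unfold FA
  by_cases h1 : (x, w) ∈ A
  · rw [indicator_of_mem (h.2 h1), indicator_of_mem h1]; rfl
  · rw [indicator_of_notMem (fun h2 => h1 (h.1 h2)), indicator_of_notMem h1]

theorem FA_ae {A : Set (ℂ × ℂ)} (hch : ∀ᵐ w, ChordAt v A w) :
    ∀ᵐ w, ∀ᵐ x, x ∈ PP v → FA v A w (cr w x) = A.indicator 1 (x, w) := by
  have h0 : ∀ᵐ w : ℂ, w ≠ 0 := by simp [ae_iff, measure_singleton]
  filter_upwards [hch, h0] with w hw hw0
  filter_upwards [hw] with x hx hxP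
  exact FA_eq hw0 hxP (hx hxP)

theorem sym_half (hn : 3 ≤ n) (hv : ConvexIndependent ℝ v) {A : Set (ℂ × ℂ)}
    (hI : Inv v A) (hch : ∀ᵐ w, ChordAt v A w) {i j : Fin n} (hij : IsSide v i j) :
    ∀ᵐ w : ℂ, cr (v j - v i) w < 0 → ∀ᵐ τ : ℝ, τ ∈ Ioo (0 : ℝ) 1 →
      FA v A (rl (v j - v i) w) (cr (rl (v j - v i) w) (v i + (τ : ℂ) * (v j - v i))) =
        FA v A w (cr w (v i + (τ : ℂ) * (v j - v i))) := by
  have hne := v_sub_ne hv hij.1
  set e := v j - v i with he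
  have h1 : ∀ᵐ p ∂((volume : Measure ℂ).prod (volume : Measure ℂ)), ∀ N : ℕ,
      (p.2, p.1) ∈ stepSet v (1 / ((N : ℝ) + 1)) (some (i, j)) →
      ((p.2, p.1) ∈ A ↔ stepMap v (1 / ((N : ℝ) + 1)) (some (i, j)) (p.2, p.1) ∈ A) := by
    rw [ae_all_iff]
    intro N
    have h0 : MeasurePreserving (Prod.swap : ℂ × ℂ → ℂ × ℂ)
      ((volume : Measure ℂ).prod volume) ((volume : Measure ℂ).prod volume) :=
      Measure.measurePreserving_swap
    have h2 := h0.quasiMeasurePreserving.ae (hI (1 / ((N : ℝ) + 1)) (by positivity))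
    filter_upwards [h2] with p hp
    exact hp (some (i, j))
  have h2 := Measure.ae_ae_of_ae_prod h1
  have h3 := (mp_rl hne).quasiMeasurePreserving.ae hch
  filter_upwards [h2, hch, h3] with w g1 g2 g3 hw
  have hw0 : w ≠ 0 := by
    rintro rfl
    rw [cr_zero_right] at hw
    exact lt_irrefl _ hw
  have hrw0 : rl e w ≠ 0 := by
    intro h0
    have := norm_rl hne w
    rw [h0, norm_zero] at this
    exact hw0 (norm_eq_zero.1 this.symm)
  have hin : 0 < cr e (rl e w) := by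
    have := cr_rl hne e w
    rw [rl_self hne] at this
    rw [this]; linarith
  have hin2 : 0 < cr e (-w) := by rw [cr_neg_right]; linarith
  -- all properties of the point `x`
  have k1 : ∀ᵐ x : ℂ, (∀ N : ℕ, (x, w) ∈ stepSet v (1 / ((N : ℝ) + 1)) (some (i, j)) →
      ((x, w) ∈ A ↔ stepMap v (1 / ((N : ℝ) + 1)) (some (i, j)) (x, w) ∈ A)) ∧
      (x ∈ PP v → ∀ s : ℝ, x + (s : ℂ) * w ∈ PP v → ((x, w) ∈ A ↔ (x + (s : ℂ) * w, w) ∈ A)) ∧
      (∀ N : ℕ, RR v i j (x + ((1 / ((N : ℝ) + 1) : ℝ) : ℂ) * w) ∈ PP v → ∀ s : ℝ,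
        RR v i j (x + ((1 / ((N : ℝ) + 1) : ℝ) : ℂ) * w) + (s : ℂ) * rl e w ∈ PP v →
        ((RR v i j (x + ((1 / ((N : ℝ) + 1) : ℝ) : ℂ) * w), rl e w) ∈ A ↔
          (RR v i j (x + ((1 / ((N : ℝ) + 1) : ℝ) : ℂ) * w) + (s : ℂ) * rl e w, rl e w) ∈ A)) := by
    have a3 : ∀ᵐ x : ℂ, ∀ N : ℕ, RR v i j (x + ((1 / ((N : ℝ) + 1) : ℝ) : ℂ) * w) ∈ PP v →
        ∀ s : ℝ, RR v i j (x + ((1 / ((N : ℝ) + 1) : ℝ) : ℂ) * w) + (s : ℂ) * rl e w ∈ PP v →
        ((RR v i j (x + ((1 / ((N : ℝ) + 1) : ℝ) : ℂ) * w), rl e w) ∈ A ↔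
          (RR v i j (x + ((1 / ((N : ℝ) + 1) : ℝ) : ℂ) * w) + (s : ℂ) * rl e w, rl e w) ∈ A) := by
      rw [ae_all_iff]
      intro N
      have hf : MeasurePreserving (fun x : ℂ => RR v i j (x + ((1 / ((N : ℝ) + 1) : ℝ) : ℂ) * w))
          volume volume :=
        (mp_RR hne).comp (measurePreserving_add_right volume _)
      exact hf.quasiMeasurePreserving.ae g3
    filter_upwards [g1, g2, a3] with x b1 b2 b3
    exact ⟨b1, b2, b3⟩
  have k2 := ae_obl (a := v i) (e := e) (w := w) hw.ne k1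
  filter_upwards [k2] with τ hτ hτI
  obtain ⟨ε, hε, i1⟩ := inward hn hv hij hτI.1 hτI.2 hin
  obtain ⟨ε', hε', i2⟩ := inward hn hv hij hτI.1 hτI.2 hin2
  rw [← he] at i1 i2
  obtain ⟨N, hN⟩ := exists_nat_one_div_lt (lt_min hε hε')
  set h : ℝ := 1 / ((N : ℝ) + 1) with hh
  have hh0 : 0 < h := by positivity
  have e1 : h < ε := hN.trans_le (min_le_left _ _)
  have e2 : h < ε' := hN.trans_le (min_le_right _ _)
  set b := v i + (τ : ℂ) * e with hb
  obtain ⟨s, hs, hs1⟩ : ∃ s ∈ Ioo 0 h, (∀ N : ℕ, (b - (s : ℂ) * w, w) ∈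
      stepSet v (1 / ((N : ℝ) + 1)) (some (i, j)) →
      ((b - (s : ℂ) * w, w) ∈ A ↔
        stepMap v (1 / ((N : ℝ) + 1)) (some (i, j)) (b - (s : ℂ) * w, w) ∈ A)) ∧
      (b - (s : ℂ) * w ∈ PP v → ∀ s' : ℝ, b - (s : ℂ) * w + (s' : ℂ) * w ∈ PP v →
        ((b - (s : ℂ) * w, w) ∈ A ↔ (b - (s : ℂ) * w + (s' : ℂ) * w, w) ∈ A)) ∧
      (∀ N : ℕ, RR v i j (b - (s : ℂ) * w + ((1 / ((N : ℝ) + 1) : ℝ) : ℂ) * w) ∈ PP v → ∀ s' : ℝ,
        RR v i j (b - (s : ℂ) * w + ((1 / ((N : ℝ) + 1) : ℝ) : ℂ) * w) + (s' : ℂ) * rl e w ∈ PP v →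
        ((RR v i j (b - (s : ℂ) * w + ((1 / ((N : ℝ) + 1) : ℝ) : ℂ) * w), rl e w) ∈ A ↔
          (RR v i j (b - (s : ℂ) * w + ((1 / ((N : ℝ) + 1) : ℝ) : ℂ) * w) + (s' : ℂ) * rl e w,
            rl e w) ∈ A)) := by
    by_contra hcon
    have hpos : volume (Ioo 0 h) ≠ 0 := by
      rw [Real.volume_Ioo, ne_eq, ENNReal.ofReal_eq_zero, not_le]; linarith
    apply hpos
    apply measure_mono_null _ hτ
    intro s hs hcon2
    exact hcon ⟨s, hs, hcon2⟩
  obtain ⟨c1, c2, c3⟩ := hs1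
  have hxP : b - (s : ℂ) * w ∈ PP v := by
    have := i2 s hs.1 (hs.2.trans e2).le
    rwa [mul_neg, ← sub_eq_add_neg] at this
  have hpush : RR v i j (b - (s : ℂ) * w + (h : ℂ) * w) = b + ((h - s : ℝ) : ℂ) * rl e w := by
    have : b - (s : ℂ) * w + (h : ℂ) * w = b + ((h - s : ℝ) : ℂ) * w := by push_cast; ring
    rw [this, RR_add, hb, he, RR_line hne, rl_smul]
  have hyP : b + ((h - s : ℝ) : ℂ) * rl e w ∈ PP v :=
    i1 (h - s) (by linarith [hs.2]) (by linarith [hs.1])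
  have hcw : cr w e = - cr e w := cr_swap _ _
  have hstep : (b - (s : ℂ) * w, w) ∈ stepSet v h (some (i, j)) := by
    rw [mem_stepSet_some]
    refine ⟨hij, hxP, ?_, ?_, ?_⟩
    · have : v i - (b - (s : ℂ) * w) = (s : ℂ) * w - (τ : ℂ) * e := by rw [hb]; ring
      simp only
      rw [this, cr_sub_right, cr_smul_right, cr_smul_right, cr_self, hcw]
      have := hτI.1
      nlinarith
    · have : v j - (b - (s : ℂ) * w) = (s : ℂ) * w + ((1 - τ : ℝ) : ℂ) * e := by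
        rw [hb, he]; push_cast; ring
      simp only
      rw [this, cr_add_right, cr_smul_right, cr_smul_right, cr_self, hcw]
      have := hτI.2
      nlinarith
    · simp only
      rw [hpush]; exact hyP
  have q1 : FA v A w (cr w b) = A.indicator 1 (b - (s : ℂ) * w, w) := by
    rw [← FA_eq hw0 hxP (c2 hxP), cr_sub_right, cr_smul_right, cr_self, mul_zero, sub_zero]
  have q2 : FA v A (rl e w) (cr (rl e w) b) =
      A.indicator 1 (b + ((h - s : ℝ) : ℂ) * rl e w, rl e w) := by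
    have c3' := c3 N
    rw [← hh, hpush] at c3'
    rw [← FA_eq hrw0 hyP (c3' hyP), cr_add_right _ b, cr_smul_right, cr_self, mul_zero, add_zero]
  have q3 := c1 N hstep
  rw [← hh] at q3
  have q4 : stepMap v h (some (i, j)) (b - (s : ℂ) * w, w) =
      (b + ((h - s : ℝ) : ℂ) * rl e w, rl e w) := by
    change (RR v i j (b - (s : ℂ) * w + (h : ℂ) * w), rl (v j - v i) w) = _
    rw [hpush]
  rw [q4] at q3
  rw [q1, q2]
  by_cases h5 : (b - (s : ℂ) * w, w) ∈ A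
  · rw [indicator_of_mem h5, indicator_of_mem (q3.1 h5)]; rfl
  · rw [indicator_of_notMem h5, indicator_of_notMem (fun h6 => h5 (q3.2 h6))]

theorem symAt_FA (hn : 3 ≤ n) (hv : ConvexIndependent ℝ v) {A : Set (ℂ × ℂ)}
    (hI : Inv v A) (hch : ∀ᵐ w, ChordAt v A w) {i j : Fin n} (hij : IsSide v i j) :
    SymAt (FA v A) (v i) (v j - v i) := by
  have hne := v_sub_ne hv hij.1
  have h1 := sym_half hn hv hI hch hij
  have h2 := (mp_rl hne).quasiMeasurePreserving.ae h1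
  unfold SymAt
  filter_upwards [h1, h2, ae_not_mem_line (v j - v i)] with w g1 g2 g3
  rcases lt_trichotomy (cr (v j - v i) w) 0 with h | h | h
  · exact g1 h
  · exfalso
    apply g3
    obtain ⟨t, ht⟩ := (cr_eq_zero_iff hne).1 h
    rw [Submodule.mem_span_singleton]
    exact ⟨t, by rw [real_smul]; exact ht.symm⟩
  · have h3 := cr_rl hne (v j - v i) w
    rw [rl_self hne] at h3
    have h4 := g2 (by rw [h3]; linarith)
    filter_upwards [h4] with τ hτ hτI
    have h5 := hτ hτI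
    rw [rl_rl hne] at h5
    exact h5.symm

end Pool.Agent.Lib.Bil
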