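import Pool.Agent.Lib.MP_7bc51d_an_s.BGeom
import Pool.Agent.Lib.MP_7bc51d_an_s.BGreen
import Pool.Agent.Lib.MP_7bc51d_an_s.BLineFn
import Pool.Agent.Lib.MP_7bc51d_an_s.BPairing

set_option autoImplicit false

namespace Pool.Agent.Lib.Bil

open Complex MeasureTheory Set Filter
open scoped ComplexConjugate Topology ENNReal

variable {n : ℕ} {v : Fin n → ℂ}

/-- Coordinates (height, time) adapted to the direction `w`. -/
noncomputable def chi (w : ℂ) (z : ℝ × ℝ) : ℂ := bs w z.1 + (z.2 : ℂ) * w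

theorem normsq_eq (w : ℂ) : w.re ^ 2 + w.im ^ 2 = ‖w‖ ^ 2 := by
  rw [← Complex.normSq_eq_norm_sq, Complex.normSq_apply]; ring

theorem cr_bs {w : ℂ} (hw : w ≠ 0) (Q : ℝ) : cr w (bs w Q) = Q := by
  have h := (esq_pos hw).ne'
  unfold bs
  rw [cr_smul_right]
  have : cr w (I * w) = w.re ^ 2 + w.im ^ 2 := by
    simp only [cr, mul_re, mul_im, I_re, I_im]; ring
  rw [this]
  field_simp

theorem cr_chi {w : ℂ} (hw : w ≠ 0) (z : ℝ × ℝ) : cr w (chi w z) = z.1 := by
  unfold chi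
  rw [cr_add_right, cr_bs hw, cr_smul_right, cr_self, mul_zero, add_zero]

theorem mp_scale {r : ℝ} (hr : 0 < r) :
    MeasurePreserving (fun z : ℝ × ℝ => (r * z.2, r⁻¹ * z.1)) volume volume := by
  have h1 : MeasurePreserving (Prod.swap : ℝ × ℝ → ℝ × ℝ) volume volume :=
    Measure.measurePreserving_swap
  refine ⟨by fun_prop, ?_⟩
  have h2 : (fun z : ℝ × ℝ => (r * z.2, r⁻¹ * z.1)) =
      Prod.map (fun a => r * a) (fun a => r⁻¹ * a) ∘ Prod.swap := by
    funext z; rfl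
  rw [h2, ← Measure.map_map (by fun_prop) (by fun_prop), h1.map_eq, Measure.volume_eq_prod,
    ← Measure.map_prod_map _ _ (by fun_prop) (by fun_prop), Real.map_volume_mul_left hr.ne',
    Real.map_volume_mul_left (inv_pos.2 hr).ne', inv_inv, Measure.prod_smul_left,
    Measure.prod_smul_right, smul_smul, abs_of_pos hr, abs_of_pos (inv_pos.2 hr),
    ← ENNReal.ofReal_mul (by positivity), inv_mul_cancel₀ hr.ne', ENNReal.ofReal_one, one_smul]

theorem mp_chi {w : ℂ} (hw : w ≠ 0) : MeasurePreserving (chi w) volume volume := by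
  have hnw : 0 < ‖w‖ := norm_pos_iff.2 hw
  have he1 : ‖w / (‖w‖ : ℂ)‖ = 1 := by
    rw [norm_div, norm_real, norm_norm, div_self hnw.ne']
  have h : chi w = eta (w / (‖w‖ : ℂ)) ∘ (fun z : ℝ × ℝ => (‖w‖ * z.2, ‖w‖⁻¹ * z.1)) := by
    funext z
    simp only [chi, bs, eta, Function.comp, normsq_eq]
    have h0 : (‖w‖ : ℂ) ≠ 0 := by exact_mod_cast hnw.ne'
    push_cast
    field_simp
    ring
  rw [h]
  exact (mp_eta he1).comp (mp_scale hnw)

/-- Reflection of heights at the side `(i,j)`. -/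
noncomputable def rfh (v : Fin n → ℂ) (s : Fin n × Fin n) (w : ℂ) (Q : ℝ) : ℝ :=
  cr (rl (v s.2 - v s.1) w) (v s.1) + cr w (v s.1) - Q

theorem rfh_eq (s : Fin n × Fin n) (hne : v s.2 - v s.1 ≠ 0) (w x : ℂ) :
    cr (rl (v s.2 - v s.1) w) (RR v s.1 s.2 x) = rfh v s w (cr w x) := by
  unfold RR rfh
  rw [cr_add_right, cr_rl hne, cr_sub_right]
  ring

end Pool.Agent.Lib.Bil
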