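import Mathlib

set_option autoImplicit false

namespace Pool.Agent.Lib.Bil

open Complex MeasureTheory Set Filter
open scoped ComplexConjugate Topology ENNReal Real

/-- Scaling a property known in the unit ball. -/
theorem ae_of_ae_ball {D : ℂ → Prop} (hD : ∀ z : ℂ, ∀ r : ℝ, 0 < r → (D z ↔ D ((r : ℂ) * z)))
    (h : ∀ᵐ w : ℂ, ‖w‖ < 1 → D w) : ∀ᵐ w : ℂ, D w := by
  have h1 : ∀ N : ℕ, ∀ᵐ w : ℂ, ‖w‖ < (N : ℝ) + 1 → D w := by
    intro N
    have hN : (0 : ℝ) < (N : ℝ) + 1 := by positivity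
    have hr : (((N : ℝ) + 1)⁻¹ : ℝ) ≠ 0 := by positivity
    have h2 := Measure.addHaar_preimage_smul (volume : Measure ℂ) hr
      {w : ℂ | ¬ (‖w‖ < 1 → D w)}
    have h3 : volume {w : ℂ | ¬ (‖w‖ < 1 → D w)} = 0 := h
    rw [h3, mul_zero] at h2
    have h4 : ∀ᵐ w : ℂ, ‖(((N : ℝ) + 1)⁻¹ : ℝ) • w‖ < 1 → D ((((N : ℝ) + 1)⁻¹ : ℝ) • w) := h2
    filter_upwards [h4] with w hw hwN
    have h5 := hw (by
      rw [norm_smul, Real.norm_eq_abs, abs_of_pos (by positivity), inv_mul_lt_iff₀ hN, mul_one]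
      exact hwN)
    rw [real_smul] at h5
    exact (hD w _ (by positivity)).2 h5
  rw [← ae_all_iff] at h1
  filter_upwards [h1] with w hw
  obtain ⟨N, hN⟩ := exists_nat_gt ‖w‖
  exact hw N (by linarith)

end Pool.Agent.Lib.Bil
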