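import Pool.Agent.Lib.MP_7bc51d_an_s.BPotential

set_option autoImplicit false

namespace Pool.Agent.Lib.Bil

open Complex MeasureTheory Set Filter
open scoped ComplexConjugate Topology ENNReal Real

variable {n : ℕ} {v : Fin n → ℂ}

theorem vol_BV : (volume BV).toReal = π := by
  rw [Complex.volume_ball]
  simp

end Pool.Agent.Lib.Bil
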