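import Pool.Agent.Lib.MP_7bc51d_an_s.BGeom
import Pool.Agent.Lib.MP_7bc51d_an_s.BPotential
import Pool.Agent.Lib.MP_7bc51d_an_s.BSymm

namespace Pool.Agent.Lib.Bil
end Pool.Agent.Lib.Bil

/-!
# Vertex energy of invariant sets of polygonal billiards: definitions and row statements
-/

set_option autoImplicit false

namespace Pool.Agent.Lib.BilD

open Complex MeasureTheory Set Filter Topology
open scoped ComplexConjugate
open Pool.Agent.Lib.Bil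

variable {n : ℕ}

/-- The counterclockwise sides. -/
noncomputable def SD (v : Fin n → ℂ) : Finset (Fin n × Fin n) := by
  classical exact Finset.univ.filter (fun s => IsSide v s.1 s.2)

theorem mem_SD {v : Fin n → ℂ} {s : Fin n × Fin n} : s ∈ SD v ↔ IsSide v s.1 s.2 := by
  classical
  unfold SD
  simp

/-- Edge vector of the side `s`. -/
def ed (v : Fin n → ℂ) (s : Fin n × Fin n) : ℂ := v s.2 - v s.1

/-- Signed distance to the line of the side `s` (positive inside the polygon). -/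
noncomputable def ds (v : Fin n → ℂ) (s : Fin n × Fin n) (x : ℂ) : ℝ :=
  cr (ed v s) (x - v s.1) / ‖ed v s‖

/-- Reflection at the line of the side `s`. -/
noncomputable def Rs (v : Fin n → ℂ) (s : Fin n × Fin n) (x : ℂ) : ℂ := RR v s.1 s.2 x

/-- Mirror image of the open polygon at the side `s`. -/
def OO (v : Fin n → ℂ) (s : Fin n × Fin n) : Set ℂ := {x | Rs v s x ∈ PP v}

/-- The line function `F`, as a function on the phase space, extended by reflection. -/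
noncomputable def gx (v : Fin n → ℂ) (F : ℂ → ℝ → ℝ) (x w : ℂ) : ℝ :=
  (PP v).indicator (fun x => F w (cr w x)) x +
    ∑ s ∈ SD v, (OO v s).indicator
      (fun x => F (rl (ed v s) w) (cr (rl (ed v s) w) (Rs v s x))) x

/-- Angular modes. -/
noncomputable def em (m : ℕ) (w : ℂ) : ℂ := (conj w / (‖w‖ : ℂ)) ^ m

/-- Modes of the extended function. -/
noncomputable def am (v : Fin n → ℂ) (F : ℂ → ℝ → ℝ) (m : ℕ) (x : ℂ) : ℂ :=
  ∫ w in BV, (gx v F x w : ℂ) * em m w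

/-- Smooth bump of radius `ε`, height `ε⁻²`. -/
noncomputable def et (ε : ℝ) (h : ℂ) : ℝ := (ε ^ 2)⁻¹ * Real.smoothTransition (1 - ‖h‖ ^ 2 / ε ^ 2)

noncomputable def dz (u : ℂ → ℂ) (x : ℂ) : ℂ := (fderiv ℝ u x 1 - I * fderiv ℝ u x I) / 2

noncomputable def dzb (u : ℂ → ℂ) (x : ℂ) : ℂ := (fderiv ℝ u x 1 + I * fderiv ℝ u x I) / 2

/-- Boundary density of the energy identity. -/
noncomputable def Jf (W : ℂ → ℝ) (u : ℂ → ℂ) (x : ℂ) : ℝ :=
  (fderiv ℝ W x I) * (conj (u x) * fderiv ℝ u x 1).im -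
    (fderiv ℝ W x 1) * (conj (u x) * fderiv ℝ u x I).im

/-- Points of the closed polygon away from the vertices. -/
def Gd (v : Fin n → ℂ) (C ε : ℝ) : Set ℂ :=
  {x | (∀ s ∈ SD v, 0 ≤ ds v s x) ∧ ∀ k, C * ε ≤ ‖x - v k‖}

/-- Interior type. -/
def Int1 (v : Fin n → ℂ) (ε : ℝ) : Set ℂ := {x | ∀ s ∈ SD v, 2 * ε ≤ ds v s x}

/-- Near the side `s` and far from all other side lines (an open set). -/
def Nr (v : Fin n → ℂ) (ε : ℝ) (s : Fin n × Fin n) : Set ℂ :=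
  {x | |ds v s x| < 2 * ε ∧ ∀ t ∈ SD v, t ≠ s → 9 * ε < ds v t x}

/-- Geometry of the polygon at scale `ε < e0`. -/
structure Geo (v : Fin n → ℂ) (C e0 : ℝ) : Prop where
  C1 : 1 ≤ C
  e0p : 0 < e0
  e01 : e0 ≤ 1
  edn : ∀ s ∈ SD v, ed v s ≠ 0
  pp : ∀ x, x ∈ PP v ↔ ∀ s ∈ SD v, 0 < ds v s x
  dic : ∀ ε, 0 < ε → ε < e0 → ∀ x ∈ Gd v C ε, x ∈ Int1 v ε ∨ ∃ s ∈ SD v, x ∈ Nr v ε s
  far : ∀ ε, 0 < ε → ε < e0 → ∀ s ∈ SD v, ∀ k, k ≠ s.1 → k ≠ s.2 → ∀ x, ds v s x < 10 * ε →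
    4 * C * ε ≤ ‖x - v k‖
  onside : ∀ s ∈ SD v, ∀ x, ds v s x = 0 → (∀ t ∈ SD v, t ≠ s → 0 < ds v t x) →
    ∃ τ ∈ Ioo (0 : ℝ) 1, x = v s.1 + (τ : ℂ) * ed v s

/-- All admissible line functions: measurable, values in `[0,1]`, symmetric at the sides. -/
structure LFS (v : Fin n → ℂ) (F : ℂ → ℝ → ℝ) : Prop where
  lf : LF F
  nn : ∀ w Q, 0 ≤ F w Q
  sym : ∀ s ∈ SD v, SymAt F (v s.1) (ed v s)

/-! ### Row statements -/

/-- (GEO) -/
def StGeo : Prop := ∀ (n : ℕ), 3 ≤ n → ∀ v : Fin n → ℂ, ConvexIndependent ℝ v →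
  ∃ C e0 : ℝ, Geo v C e0

/-- (EI) energy identity on the polygon. -/
def StEI : Prop := ∀ (n : ℕ), 3 ≤ n → ∀ v : Fin n → ℂ, ConvexIndependent ℝ v →
  ∀ (u : ℂ → ℂ) (W : ℂ → ℝ), ContDiff ℝ 2 u → ContDiff ℝ 1 W →
    (∀ s ∈ SD v, ∀ t ∈ Ioo (0 : ℝ) 1,
      W (v s.1 + (t : ℂ) * ed v s) * (conj (u (v s.1 + (t : ℂ) * ed v s)) *
        fderiv ℝ u (v s.1 + (t : ℂ) * ed v s) (ed v s)).im = 0) →
    (∫ x in PP v, W x * ‖dz u x‖ ^ 2) - (∫ x in PP v, W x * ‖dzb u x‖ ^ 2) =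
      2⁻¹ * ∫ x in PP v, Jf W u x

end Pool.Agent.Lib.BilD
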