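import Pool.Agent.Lib.MP_7bc51d_an_s.BGeom
import Pool.Agent.Lib.MP_7bc51d_an_s.ModeSchwarz

namespace Pool.Agent.Lib.Bil
end Pool.Agent.Lib.Bil

set_option autoImplicit false

namespace Pool.Agent.Lib.BilH

open Complex MeasureTheory Set Filter
open scoped ComplexConjugate Topology ENNReal
open Pool.Agent.Lib.Bil

/-- Local picture at a point `y` of a side with direction `e`; the values of `K` on the side lie on
a line of direction `l`. -/
structure SideAt (K : ℂ → ℂ) (P : Set ℂ) (y e l : ℂ) (ρ : ℝ) : Prop where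
  he : e ≠ 0
  hl : l ≠ 0
  hρ : 0 < ρ
  half : ∀ x ∈ Metric.ball y ρ, (x ∈ P ↔ 0 < cr e (x - y))
  line : ∀ t : ℝ, y + (t : ℂ) * e ∈ Metric.ball y ρ → ∃ s : ℝ, K (y + (t : ℂ) * e) - K y = s * l

theorem cr_self_mul (e z : ℂ) : cr e (e * z) = (e.re ^ 2 + e.im ^ 2) * z.im := by
  simp only [cr, mul_re, mul_im]
  ring

theorem cr_div {e : ℂ} (he : e ≠ 0) (x : ℂ) : cr e x = (e.re ^ 2 + e.im ^ 2) * (x / e).im := by
  rw [← cr_self_mul, mul_div_cancel₀ _ he]

theorem esq_pos' {e : ℂ} (he : e ≠ 0) : 0 < e.re ^ 2 + e.im ^ 2 := by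
  have : e.re ≠ 0 ∨ e.im ≠ 0 := by
    by_contra hcon
    push Not at hcon
    exact he (Complex.ext hcon.1 hcon.2)
  rcases this with h | h <;> positivity

theorem im_div_pos {e : ℂ} (he : e ≠ 0) {x : ℂ} : 0 < (x / e).im ↔ 0 < cr e x := by
  rw [cr_div he]
  have := esq_pos' he
  constructor
  · intro h; positivity
  · intro h
    by_contra hcon
    push Not at hcon
    nlinarith

theorem im_div_neg {e : ℂ} (he : e ≠ 0) {x : ℂ} : (x / e).im < 0 ↔ cr e x < 0 := by
  rw [cr_div he]
  have := esq_pos' he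
  constructor
  · intro h; nlinarith
  · intro h
    by_contra hcon
    push Not at hcon
    have := mul_nonneg this.le hcon
    linarith

theorem local_ext {K : ℂ → ℂ} {P : Set ℂ} {y e l : ℂ} {ρ : ℝ} (hK : Continuous K)
    (hP : IsOpen P) (hd : DifferentiableOn ℂ K P) (hs : SideAt K P y e l ρ) :
    ∃ G : ℂ → ℂ, DifferentiableOn ℂ G (Metric.ball y ρ) ∧
      (∀ x ∈ Metric.ball y ρ, 0 < cr e (x - y) → G x = deriv K x) ∧
      (∀ x ∈ Metric.ball y ρ, cr e (x - y) < 0 → ‖G x‖ = ‖deriv K (y + rl e (x - y))‖) := by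
  have he := hs.he
  have hl := hs.hl
  have hne : 0 < ‖e‖ := norm_pos_iff.2 he
  set r : ℝ := ρ / ‖e‖ with hr
  set k : ℂ → ℂ := fun z => (K (y + e * z) - K y) / l with hk
  have hball : ∀ z ∈ Metric.ball (0 : ℂ) r, y + e * z ∈ Metric.ball y ρ := by
    intro z hz
    rw [mem_ball_zero_iff, hr, lt_div_iff₀ hne] at hz
    rw [mem_ball_iff_norm, add_sub_cancel_left, norm_mul, mul_comm]
    exact hz
  have hballinv : ∀ x ∈ Metric.ball y ρ, (x - y) / e ∈ Metric.ball (0 : ℂ) r := by
    intro x hx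
    rw [mem_ball_iff_norm] at hx
    rw [mem_ball_zero_iff, norm_div, hr]
    gcongr
  have hpt : ∀ x, y + e * ((x - y) / e) = x := by
    intro x
    field_simp
    ring
  have hkd : ∀ z ∈ Metric.ball (0 : ℂ) r, 0 < z.im →
      HasDerivAt k (e * deriv K (y + e * z) / l) z := by
    intro z hz him
    have h1 : y + e * z ∈ P := by
      rw [hs.half _ (hball z hz), add_sub_cancel_left, cr_self_mul]
      exact mul_pos (esq_pos' he) him
    have h2 : DifferentiableAt ℂ K (y + e * z) := hd.differentiableAt (hP.mem_nhds h1)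
    have h3 : HasDerivAt (fun z : ℂ => y + e * z) e z := by
      simpa using (hasDerivAt_id z).const_mul e |>.const_add y
    have h4 := HasDerivAt.comp z h2.hasDerivAt h3
    have h5 := (h4.sub_const (K y)).div_const l
    rw [mul_comm] at h5
    exact h5
  obtain ⟨G1, hG1, hup, hdn⟩ := schwarz (k := k) (r := r)
    (by
      apply Continuous.continuousOn
      rw [hk]
      exact ((hK.comp (by fun_prop)).sub continuous_const).div_const l)
    (fun z hz him => (hkd z hz him).differentiableAt)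
    (by
      intro z hz him
      have hz2 : z = (z.re : ℂ) := by
        apply Complex.ext
        · simp
        · simpa using him
      have h1 := hball z hz
      rw [hz2, mul_comm] at h1
      obtain ⟨s, hs1⟩ := hs.line z.re h1
      have h2 : k z = s := by
        rw [hk]
        simp only
        conv_lhs => rw [hz2, mul_comm e]
        rw [hs1]
        field_simp
      rw [h2, ofReal_im])
  refine ⟨fun x => (l / e) * deriv G1 ((x - y) / e), ?_, ?_, ?_⟩
  · have h1 : DifferentiableOn ℂ (deriv G1) (Metric.ball (0 : ℂ) r) :=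
      hG1.deriv Metric.isOpen_ball
    have h2 : DifferentiableOn ℂ (fun x : ℂ => (x - y) / e) (Metric.ball y ρ) := by
      intro x _
      exact ((differentiableAt_id.sub_const y).div_const e).differentiableWithinAt
    exact (h1.comp h2 hballinv).const_mul _
  · intro x hx hpos
    have hz := hballinv x hx
    have him : 0 < ((x - y) / e).im := (im_div_pos he).2 hpos
    have h1 : G1 =ᶠ[𝓝 ((x - y) / e)] k := by
      have : {z : ℂ | 0 < z.im} ∈ 𝓝 ((x - y) / e) :=
        (isOpen_lt continuous_const continuous_im).mem_nhds him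
      filter_upwards [this] with z hz
      exact hup z (le_of_lt hz)
    simp only
    rw [h1.deriv_eq, (hkd _ hz him).deriv, hpt]
    field_simp
  · intro x hx hneg
    have hz := hballinv x hx
    have him : ((x - y) / e).im < 0 := (im_div_neg he).2 hneg
    have h1 : G1 =ᶠ[𝓝 ((x - y) / e)] (conj ∘ k ∘ conj) := by
      have : {z : ℂ | z.im < 0} ∈ 𝓝 ((x - y) / e) :=
        (isOpen_lt continuous_im continuous_const).mem_nhds him
      filter_upwards [this] with z hz
      exact hdn z hz
    have hzc : conj ((x - y) / e) ∈ Metric.ball (0 : ℂ) r := by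
      rw [mem_ball_zero_iff] at hz ⊢
      rwa [RCLike.norm_conj]
    have hdk := hkd _ hzc (by rw [conj_im]; linarith)
    have hpt2 : y + e * conj ((x - y) / e) = y + rl e (x - y) := by
      have hce : conj e ≠ 0 := by simpa using he
      simp only [rl, map_div₀]
      field_simp
    rw [hpt2] at hdk
    simp only
    rw [h1.deriv_eq, deriv_conj_conj]
    simp only [Function.comp]
    rw [hdk.deriv, norm_mul, RCLike.norm_conj, norm_div, norm_div, norm_mul]
    have : ‖l‖ ≠ 0 := norm_ne_zero_iff.2 hl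
    field_simp

theorem rl_line {e z : ℂ} (he : e ≠ 0) (h : cr e z = 0) : rl e z = z := by
  obtain ⟨t, ht⟩ := (cr_eq_zero_iff he).1 h
  rw [ht, rl_smul, rl_self he]

/-- If the weighted derivative of `K` approaches its local supremum at a point of a side, the
supremum is attained in `P` nearby. -/
theorem local_max {K : ℂ → ℂ} {P : Set ℂ} {y e l : ℂ} {ρ : ℝ} (hK : Continuous K)
    (hP : IsOpen P) (hd : DifferentiableOn ℂ K P) (hs : SideAt K P y e l ρ)
    {a : ℂ} (ha : a ≠ y) (hal : cr e (a - y) = 0) {ε M : ℝ}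
    (hM : ∀ x ∈ P ∩ Metric.ball y ρ, ‖deriv K x‖ * ‖x - a‖ ^ ε ≤ M)
    (happ : ∀ δ > 0, ∀ η > 0, ∃ x ∈ P ∩ Metric.ball y δ, M - η < ‖deriv K x‖ * ‖x - a‖ ^ ε) :
    ∃ x ∈ P ∩ Metric.ball y ρ, ‖deriv K x‖ * ‖x - a‖ ^ ε = M := by
  obtain ⟨G, hG, hGup, hGdn⟩ := local_ext hK hP hd hs
  have he := hs.he
  have hya : y - a ≠ 0 := sub_ne_zero.2 ha.symm
  have hnya : 0 < ‖y - a‖ := norm_pos_iff.2 hya
  set ρ' : ℝ := min ρ ‖y - a‖ with hρ'
  have hρ'0 : 0 < ρ' := lt_min hs.hρ hnya
  have hsub : Metric.ball y ρ' ⊆ Metric.ball y ρ := Metric.ball_subset_ball (min_le_left _ _)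
  set C : ℝ := ‖y - a‖ ^ ε with hC
  have hC0 : 0 < C := Real.rpow_pos_of_pos hnya _
  set q : ℂ → ℂ := fun x => (x - a) / (y - a) with hq
  set Ψ : ℂ → ℂ := fun x => G x * (q x) ^ (ε : ℂ) with hΨ
  have hslit : ∀ x ∈ Metric.ball y ρ', q x ∈ slitPlane := by
    intro x hx
    have h1 : q x = 1 + (x - y) / (y - a) := by
      rw [hq]; simp only; field_simp; ring
    have h2 : ‖(x - y) / (y - a)‖ < 1 := by
      rw [norm_div, div_lt_one hnya]
      rw [mem_ball_iff_norm] at hx
      exact hx.trans_le (min_le_right _ _)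
    rw [h1]
    left
    rw [add_re, one_re]
    have h3 := abs_re_le_norm ((x - y) / (y - a))
    have h4 := neg_abs_le ((x - y) / (y - a)).re
    linarith
  have hΨd : DifferentiableOn ℂ Ψ (Metric.ball y ρ') := by
    refine (hG.mono hsub).mul ?_
    intro x hx
    have h1 : DifferentiableAt ℂ q x := (differentiableAt_id.sub_const a).div_const _
    exact (h1.cpow_const (hslit x hx)).differentiableWithinAt
  have hΨn : ∀ x, ‖Ψ x‖ * C = ‖G x‖ * ‖x - a‖ ^ ε := by
    intro x
    rw [hΨ]
    simp only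
    rw [norm_mul, Complex.norm_cpow_real, hq]
    simp only
    rw [norm_div, Real.div_rpow (norm_nonneg _) (norm_nonneg _), ← hC]
    field_simp
  have hσ : ∀ x, y + rl e (x - y) - a = rl e (x - a) := by
    intro x
    have h1 : rl e (y - a) = y - a := by
      apply rl_line he
      have : y - a = -(a - y) := by ring
      rw [this, cr_neg_right, hal, neg_zero]
    have h2 : x - a = (x - y) + (y - a) := by ring
    rw [h2, rl_add, h1]
    ring
  have hle1 : ∀ x ∈ Metric.ball y ρ', cr e (x - y) ≠ 0 → ‖Ψ x‖ ≤ M / C := by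
    intro x hx hne
    rw [le_div_iff₀ hC0, hΨn]
    rcases lt_or_gt_of_ne hne with h | h
    · rw [hGdn x (hsub hx) h, ← norm_rl he (x - a), ← hσ]
      apply hM
      have hmem : y + rl e (x - y) ∈ Metric.ball y ρ := by
        rw [mem_ball_iff_norm, add_sub_cancel_left, norm_rl he]
        have := hsub hx
        rwa [mem_ball_iff_norm] at this
      refine ⟨?_, hmem⟩
      rw [hs.half _ hmem, add_sub_cancel_left]
      have h1 := cr_rl he e (x - y)
      rw [rl_self he] at h1
      rw [h1]; linarith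
    · rw [hGup x (hsub hx) h]
      exact hM x ⟨(hs.half x (hsub hx)).2 h, hsub hx⟩
  have hle : ∀ x ∈ Metric.ball y ρ', ‖Ψ x‖ ≤ M / C := by
    intro x hx
    by_cases hne : cr e (x - y) = 0
    · -- approach from above
      have hcont : ContinuousAt Ψ x :=
        hΨd.continuousOn.continuousAt (Metric.isOpen_ball.mem_nhds hx)
      have h1 : Tendsto (fun t : ℝ => x + (t : ℂ) * (I * e)) (𝓝[>] 0) (𝓝 x) := by
        have h2 : Continuous (fun t : ℝ => x + (t : ℂ) * (I * e)) := by fun_prop
        have h3 := h2.tendsto 0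
        simp only [ofReal_zero, zero_mul, add_zero] at h3
        exact h3.mono_left nhdsWithin_le_nhds
      have h2 : Tendsto (fun t : ℝ => ‖Ψ (x + (t : ℂ) * (I * e))‖) (𝓝[>] 0) (𝓝 ‖Ψ x‖) :=
        (hcont.tendsto.comp h1).norm
      refine le_of_tendsto h2 ?_
      have h3 : ∀ᶠ t : ℝ in 𝓝[>] 0, x + (t : ℂ) * (I * e) ∈ Metric.ball y ρ' :=
        h1.eventually (Metric.isOpen_ball.mem_nhds hx)
      filter_upwards [h3, self_mem_nhdsWithin] with t ht ht0
      apply hle1 _ ht
      have e1 : x + (t : ℂ) * (I * e) - y = (x - y) + (t : ℂ) * (I * e) := by ring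
      rw [e1, cr_add_right, hne, cr_smul_right]
      have e2 : cr e (I * e) = e.re ^ 2 + e.im ^ 2 := by
        simp only [cr, mul_re, mul_im, I_re, I_im]; ring
      rw [e2]
      have := esq_pos' he
      have ht1 : 0 < t := ht0
      positivity
    · exact hle1 x hx hne
  have hge : M / C ≤ ‖Ψ y‖ := by
    by_contra hcon
    push Not at hcon
    have hcont : ContinuousAt Ψ y :=
      hΨd.continuousOn.continuousAt (Metric.isOpen_ball.mem_nhds (Metric.mem_ball_self hρ'0))
    set m : ℝ := (‖Ψ y‖ + M / C) / 2 with hm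
    have h1 : ‖Ψ y‖ < m := by rw [hm]; linarith
    have h2 : m < M / C := by rw [hm]; linarith
    have h3 : ∀ᶠ x in 𝓝 y, ‖Ψ x‖ < m := hcont.norm.eventually (gt_mem_nhds h1)
    obtain ⟨δ, hδ, hδb⟩ := Metric.eventually_nhds_iff_ball.1 h3
    obtain ⟨x, hx, hxM⟩ := happ (min δ ρ') (lt_min hδ hρ'0) (M - m * C) (by
      rw [lt_div_iff₀ hC0] at h2
      linarith)
    have hx1 : x ∈ Metric.ball y δ := Metric.ball_subset_ball (min_le_left _ _) hx.2
    have hx2 : x ∈ Metric.ball y ρ' := Metric.ball_subset_ball (min_le_right _ _) hx.2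
    have h4 := hδb x hx1
    have h5 : 0 < cr e (x - y) := (hs.half x (hsub hx2)).1 hx.1
    have h6 := hΨn x
    rw [hGup x (hsub hx2) h5] at h6
    have h7 : ‖Ψ x‖ * C < m * C := by gcongr
    linarith
  have hmax : IsMaxOn (norm ∘ Ψ) (Metric.ball y ρ') y := by
    intro x hx
    exact (hle x hx).trans hge
  have hconst := eqOn_of_isPreconnected_of_isMaxOn_norm
    (convex_ball y ρ').isPreconnected Metric.isOpen_ball hΨd (Metric.mem_ball_self hρ'0) hmax
  -- a point of `P` near `y`
  have hee : 0 < ‖e‖ := norm_pos_iff.2 he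
  set t : ℝ := ρ' / (2 * ‖e‖) with ht
  have ht0 : 0 < t := by positivity
  set x : ℂ := y + (t : ℂ) * (I * e) with hx
  have hxb : x ∈ Metric.ball y ρ' := by
    rw [hx, mem_ball_iff_norm, add_sub_cancel_left, norm_mul, norm_mul, norm_I, one_mul,
      norm_real, Real.norm_eq_abs, abs_of_pos ht0, ht]
    have : ρ' / (2 * ‖e‖) * ‖e‖ = ρ' / 2 := by field_simp
    rw [this]; linarith
  have hxc : 0 < cr e (x - y) := by
    rw [hx, add_sub_cancel_left, cr_smul_right]
    have e2 : cr e (I * e) = e.re ^ 2 + e.im ^ 2 := by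
      simp only [cr, mul_re, mul_im, I_re, I_im]; ring
    rw [e2]
    have := esq_pos' he
    positivity
  refine ⟨x, ⟨(hs.half x (hsub hxb)).2 hxc, hsub hxb⟩, ?_⟩
  rw [← hGup x (hsub hxb) hxc, ← hΨn x, hconst hxb]
  simp only [Function.const]
  have h8 : ‖Ψ y‖ = M / C := le_antisymm (hle y (Metric.mem_ball_self hρ'0)) hge
  rw [h8]
  field_simp

end Pool.Agent.Lib.BilH
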