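import Pool.Agent.Lib.MP_7bc51d_an_s.BExit
import Pool.Agent.Lib.MP_7bc51d_an_s.BGeom
import Pool.Agent.Lib.MP_7bc51d_an_s.BPoly
import Pool.Agent.Lib.MP_7bc51d_an_s.ModeSide

namespace Pool.Agent.Lib.Bil
end Pool.Agent.Lib.Bil

set_option autoImplicit false

namespace Pool.Agent.Lib.BilH

open Complex MeasureTheory Set Filter
open scoped ComplexConjugate Topology ENNReal
open Pool.Agent.Lib.Bil

variable {n : ℕ} {v : Fin n → ℂ}

/-- Near a point of an open side the polygon is a half plane. -/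
theorem half_plane (hn : 3 ≤ n) (hv : ConvexIndependent ℝ v) {i j : Fin n} (hij : IsSide v i j)
    {s : ℝ} (hs0 : 0 < s) (hs1 : s < 1) {y : ℂ} (hy : y = v i + (s : ℂ) * (v j - v i)) :
    ∃ ρ > 0, ∀ x ∈ Metric.ball y ρ, (x ∈ PP v ↔ 0 < cr (v j - v i) (x - y)) := by
  obtain ⟨z0, hz0⟩ := PP_nonempty hn hv
  set e := v j - v i with he
  have hne : e ≠ 0 := v_sub_ne hv hij.1
  have hcr : ∀ x, cr e (x - y) = cr e (x - v i) := by
    intro x
    have : x - y = (x - v i) - (s : ℂ) * e := by rw [hy]; ring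
    rw [this, cr_sub_right, cr_smul_right, cr_self]; ring
  have hz0pos : 0 < cr e (z0 - y) := by
    rw [hcr]; exact hij.cr_pos hv hz0
  set D : ℝ := cr e (z0 - y) with hD
  set lam : ℂ → ℝ := fun x => cr e (x - y) / D with hlam
  set b : ℂ → ℂ := fun x => (x - y - (lam x : ℂ) * (z0 - y)) / ((1 - lam x : ℝ) : ℂ) with hb
  have hlamc : Continuous lam := by
    rw [hlam]
    have : Continuous (fun x : ℂ => cr e (x - y)) := by unfold cr; fun_prop
    exact this.div_const D
  have hlamy : lam y = 0 := by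
    rw [hlam]; simp [cr_zero_right]
  have hbc : ContinuousAt b y := by
    rw [hb]
    apply ContinuousAt.div
    · have : Continuous (fun x : ℂ => x - y - (lam x : ℂ) * (z0 - y)) := by
        have := continuous_ofReal.comp hlamc
        fun_prop
      exact this.continuousAt
    · have : Continuous (fun x : ℂ => ((1 - lam x : ℝ) : ℂ)) := by
        exact continuous_ofReal.comp (continuous_const.sub hlamc)
      exact this.continuousAt
    · rw [hlamy]; simp
  have hby : b y = 0 := by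
    rw [hb]; simp [hlamy]
  have htc : ContinuousAt (fun x => (b x / e).re) y :=
    continuous_re.continuousAt.comp (hbc.div_const e)
  have hty : (b y / e).re = 0 := by rw [hby]; simp
  have h1 : ∀ᶠ x in 𝓝 y, lam x < 1 :=
    hlamc.continuousAt.eventually (gt_mem_nhds (by rw [hlamy]; norm_num))
  have h2 : ∀ᶠ x in 𝓝 y, -s < (b x / e).re :=
    htc.eventually (lt_mem_nhds (by simp only [hty]; linarith))
  have h3 : ∀ᶠ x in 𝓝 y, (b x / e).re < 1 - s :=
    htc.eventually (gt_mem_nhds (by simp only [hty]; linarith))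
  obtain ⟨ρ, hρ, hρb⟩ := Metric.eventually_nhds_iff_ball.1 (h1.and (h2.and h3))
  refine ⟨ρ, hρ, ?_⟩
  intro x hx
  constructor
  · intro hxP
    rw [hcr]
    exact hij.cr_pos hv hxP
  · intro hpos
    obtain ⟨g1, g2, g3⟩ := hρb x hx
    have hl0 : 0 < lam x := by rw [hlam]; exact div_pos hpos hz0pos
    have hlc : ((1 - lam x : ℝ) : ℂ) ≠ 0 := by
      rw [Ne, ofReal_eq_zero]; linarith
    have hcrb : cr e (b x) = 0 := by
      have h4 : ((1 - lam x : ℝ) : ℂ) * b x = x - y - (lam x : ℂ) * (z0 - y) := by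
        rw [hb]; field_simp
      have h5 : cr e (((1 - lam x : ℝ) : ℂ) * b x) = 0 := by
        rw [h4, cr_sub_right, cr_smul_right, ← hD, hlam]
        simp only
        rw [div_mul_cancel₀ _ hz0pos.ne', sub_self]
      rw [cr_smul_right] at h5
      exact (mul_eq_zero.1 h5).resolve_left (by linarith)
    obtain ⟨t, ht⟩ := (cr_eq_zero_iff hne).1 hcrb
    have htr : (b x / e).re = t := by
      rw [ht]
      rw [mul_div_assoc, div_self hne, mul_one, ofReal_re]
    rw [htr] at g2 g3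
    have hbK : y + b x ∈ KK v := by
      have h6 : y + b x = v i + ((s + t : ℝ) : ℂ) * (v j - v i) := by
        rw [ht, hy, he]; push_cast; ring
      rw [h6]
      exact side_point_mem_KK (by linarith) (by linarith)
    have hx2 : x = (1 - lam x) • (y + b x) + (lam x) • z0 := by
      simp only [real_smul]
      have h4 : ((1 - lam x : ℝ) : ℂ) * b x = x - y - (lam x : ℂ) * (z0 - y) := by
        rw [hb]; field_simp
      rw [mul_add, h4]
      push_cast
      ring
    rw [hx2]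
    exact convex_KK.combo_self_interior_mem_interior hbK hz0 (by linarith) hl0 (by ring)

theorem SideAt.mono {K : ℂ → ℂ} {P : Set ℂ} {y e l : ℂ} {ρ ρ' : ℝ} (h : SideAt K P y e l ρ)
    (h0 : 0 < ρ') (h1 : ρ' ≤ ρ) : SideAt K P y e l ρ' where
  he := h.he
  hl := h.hl
  hρ := h0
  half := fun x hx => h.half x (Metric.ball_subset_ball h1 hx)
  line := fun t ht => h.line t (Metric.ball_subset_ball h1 ht)

/-- The values of `K` on each side lie on a line. -/
def SideLines (v : Fin n → ℂ) (K : ℂ → ℂ) (L : Fin n → Fin n → ℂ) : Prop :=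
  ∀ i j, IsSide v i j → L i j ≠ 0 ∧ ∀ s ∈ Icc (0 : ℝ) 1, ∃ t : ℝ,
    K (v i + (s : ℂ) * (v j - v i)) - K (v i) = t * L i j

theorem sideAt_of_lines (hn : 3 ≤ n) (hv : ConvexIndependent ℝ v) {K : ℂ → ℂ}
    {L : Fin n → Fin n → ℂ} (hL : SideLines v K L) {y : ℂ} (hyK : y ∈ KK v) (hyP : y ∉ PP v)
    (hyv : y ∉ Set.range v) :
    ∃ i j, IsSide v i j ∧ ∃ ρ, SideAt K (PP v) y (v j - v i) (L i j) ρ ∧ cr (v j - v i) (y - v i) = 0 := by
  obtain ⟨i, j, hij, s, hs0, hs1, hy⟩ := exists_side hn hv hyK hyP hyv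
  obtain ⟨ρ1, hρ1, hh⟩ := half_plane hn hv hij hs0 hs1 hy
  have hne : v j - v i ≠ 0 := v_sub_ne hv hij.1
  have hnn : 0 < ‖v j - v i‖ := norm_pos_iff.2 hne
  set ρ : ℝ := min ρ1 (min s (1 - s) * ‖v j - v i‖) with hρ
  have hρ0 : 0 < ρ := lt_min hρ1 (mul_pos (lt_min hs0 (by linarith)) hnn)
  refine ⟨i, j, hij, ρ, ⟨hne, (hL i j hij).1, hρ0, ?_, ?_⟩, ?_⟩
  · intro x hx
    exact hh x (Metric.ball_subset_ball (min_le_left _ _) hx)
  · intro t ht
    rw [mem_ball_iff_norm, add_sub_cancel_left, norm_mul, norm_real, Real.norm_eq_abs] at ht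
    have h1 : |t| * ‖v j - v i‖ < min s (1 - s) * ‖v j - v i‖ := ht.trans_le (min_le_right _ _)
    have h2 : |t| < min s (1 - s) := lt_of_mul_lt_mul_right h1 hnn.le
    obtain ⟨h3, h4⟩ := abs_lt.1 h2
    have h5 := min_le_left s (1 - s)
    have h6 := min_le_right s (1 - s)
    obtain ⟨a, ha⟩ := (hL i j hij).2 (s + t) ⟨by linarith, by linarith⟩
    obtain ⟨a', ha'⟩ := (hL i j hij).2 s ⟨by linarith, by linarith⟩
    refine ⟨a - a', ?_⟩
    have e1 : y + (t : ℂ) * (v j - v i) = v i + ((s + t : ℝ) : ℂ) * (v j - v i) := by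
      rw [hy]; push_cast; ring
    rw [e1]
    conv_lhs => rw [hy]
    push_cast at ha ⊢
    linear_combination ha - ha'
  · rw [hy]
    have : v i + (s : ℂ) * (v j - v i) - v i = (s : ℂ) * (v j - v i) := by ring
    rw [this, cr_smul_right, cr_self, mul_zero]

end Pool.Agent.Lib.BilH
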