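import Pool.Agent.Lib.MP_7bc51d_an_s.BPotential
import Pool.Agent.Lib.MP_7bc51d_an_s.BStep
import Pool.Agent.Lib.MP_7bc51d_an_s.DenseBasic
import Pool.Agent.Lib.MP_7bc51d_an_s.DenseDefs
import Pool.Agent.Lib.MP_7bc51d_an_s.ModeLadder

namespace Pool.Agent.Lib.Bil
end Pool.Agent.Lib.Bil
namespace Pool.Agent.Lib.BilD
end Pool.Agent.Lib.BilD
namespace Pool.Agent.Lib.BilH
end Pool.Agent.Lib.BilH

set_option autoImplicit false

/-!
Row BES: Bessel's inequality for the angular harmonics on the unit disc of velocities, and the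
Bessel inequalities for the mollified modes.
-/

namespace Pool.Agent.Lib.BilD.Bes85

open Complex MeasureTheory Set Filter
open scoped ComplexConjugate Topology ENNReal
open Pool.Agent.Lib.Bil Pool.Agent.Lib.BilH Pool.Agent.Lib.BilD

/-- Angular harmonics. -/
noncomputable def ps (k : ℕ) (w : ℂ) : ℂ := (conj w / (‖w‖ : ℂ)) ^ k

theorem measurable_ps (k : ℕ) : Measurable (ps k) := by
  unfold ps
  have h1 : Measurable (fun w : ℂ => conj w) := continuous_conj.measurable
  have h2 : Measurable (fun w : ℂ => ((‖w‖ : ℝ) : ℂ)) :=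
    Complex.measurable_ofReal.comp measurable_norm
  exact (h1.div h2).pow_const k

theorem norm_ps {w : ℂ} (hw : w ≠ 0) (k : ℕ) : ‖ps k w‖ = 1 := by
  unfold ps
  rw [norm_pow, norm_div, RCLike.norm_conj, norm_real, norm_norm,
    div_self (norm_ne_zero_iff.2 hw), one_pow]

theorem norm_ps_le (k : ℕ) (w : ℂ) : ‖ps k w‖ ≤ 1 := by
  rcases eq_or_ne w 0 with rfl | hw
  · unfold ps
    rw [map_zero, zero_div, norm_pow, norm_zero]
    exact pow_le_one₀ le_rfl zero_le_one
  · exact (norm_ps hw k).le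

theorem ps_zero (w : ℂ) : ps 0 w = 1 := by unfold ps; rw [pow_zero]

theorem ps_rot (k : ℕ) {u : ℂ} (hu : ‖u‖ = 1) (w : ℂ) : ps k (u * w) = conj u ^ k * ps k w := by
  unfold ps
  rw [norm_mul, hu, one_mul, map_mul, mul_div_assoc, mul_pow]

theorem ps_mul_conj {k l : ℕ} (hkl : l ≤ k) {w : ℂ} (hw : w ≠ 0) :
    ps k w * conj (ps l w) = ps (k - l) w := by
  obtain ⟨m, rfl⟩ := Nat.exists_eq_add_of_le hkl
  have h1 : ps (l + m) w = ps m w * ps l w := by
    unfold ps
    rw [pow_add, mul_comm]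
  have h2 : ps l w * conj (ps l w) = 1 := by
    rw [mul_conj, normSq_eq_norm_sq, norm_ps hw, one_pow, ofReal_one]
  rw [h1, mul_assoc, h2, mul_one, Nat.add_sub_cancel_left]

theorem preimage_rot_BV {u : ℂ} (hu : ‖u‖ = 1) : (fun w : ℂ => u * w) ⁻¹' BV = BV := by
  ext w
  simp only [mem_preimage, Metric.mem_ball, dist_zero_right, norm_mul, hu, one_mul]

theorem int_ps {m : ℕ} (hm : m ≠ 0) : ∫ w in BV, ps m w = 0 := by
  set u : ℂ := cexp (((Real.pi / m : ℝ) : ℂ) * I) with hu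
  have hu1 : ‖u‖ = 1 := norm_exp_ofReal_mul_I _
  have hum : conj u ^ m = -1 := by
    rw [← map_pow, hu, ← Complex.exp_nat_mul]
    have hm' : (m : ℂ) ≠ 0 := by exact_mod_cast hm
    have e : (m : ℂ) * (((Real.pi / m : ℝ) : ℂ) * I) = Real.pi * I := by
      push_cast
      field_simp
    rw [e, exp_pi_mul_I, map_neg, map_one]
  have h1 : ∫ w in BV, ps m (u * w) = ∫ w in BV, ps m w := by
    have h2 := (mp_mul hu1).setIntegral_preimage_emb
      (mulEquiv u hu1).toHomeomorph.measurableEmbedding (ps m) BV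
    rwa [preimage_rot_BV hu1] at h2
  have h3 : ∫ w in BV, ps m (u * w) = - ∫ w in BV, ps m w := by
    have e : ∀ w : ℂ, ps m (u * w) = - ps m w := by
      intro w
      rw [ps_rot m hu1, hum]; ring
    simp_rw [e]
    rw [integral_neg]
  have h4 : ∫ w in BV, ps m w = - ∫ w in BV, ps m w := h1.symm.trans h3
  have h5 : (2 : ℂ) * ∫ w in BV, ps m w = 0 := by linear_combination h4
  exact (mul_eq_zero.1 h5).resolve_left two_ne_zero

theorem ae_ne_zero : ∀ᵐ w : ℂ ∂(volume.restrict BV), w ≠ 0 := by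
  apply ae_restrict_of_ae
  simp [ae_iff, measure_singleton]

theorem int_ps_conj (k l : ℕ) : ∫ w in BV, ps k w * conj (ps l w) =
    if k = l then (Real.pi : ℂ) else 0 := by
  have key : ∀ {k l : ℕ}, l ≤ k → ∫ w in BV, ps k w * conj (ps l w) =
      if k = l then (Real.pi : ℂ) else 0 := by
    intro k l hkl
    have h1 : ∫ w in BV, ps k w * conj (ps l w) = ∫ w in BV, ps (k - l) w := by
      apply integral_congr_ae
      filter_upwards [ae_ne_zero] with w hw
      exact ps_mul_conj hkl hw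
    rw [h1]
    split_ifs with h
    · rw [h, Nat.sub_self]
      simp_rw [ps_zero]
      rw [setIntegral_const]
      simp [Measure.real, Complex.volume_ball]
    · exact int_ps (by omega)
  rcases le_total l k with h | h
  · exact key h
  · have h1 := key h
    have h2 : ∫ w in BV, ps k w * conj (ps l w) = conj (∫ w in BV, ps l w * conj (ps k w)) := by
      rw [← integral_conj]
      apply integral_congr_ae
      refine Eventually.of_forall (fun w => ?_)
      simp only [map_mul, conj_conj]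
      ring
    rw [h2, h1]
    split_ifs with h3 h4 h4
    · rw [conj_ofReal]
    · exact absurd h3.symm h4
    · exact absurd h4.symm h3
    · rw [map_zero]

/-- Bessel's inequality. -/
theorem bessel {g : ℂ → ℝ} (hg : Measurable g) {B : ℝ} (hb : ∀ w ∈ BV, |g w| ≤ B)
    (S : Finset ℕ) :
    ∑ k ∈ S, ‖∫ w in BV, ((g w : ℝ) : ℂ) * ps k w‖ ^ 2 ≤ Real.pi * ∫ w in BV, g w ^ 2 := by
  set c : ℕ → ℂ := fun k => ∫ w in BV, ((g w : ℝ) : ℂ) * ps k w with hc
  have hgc : Measurable (fun w => ((g w : ℝ) : ℂ)) := Complex.measurable_ofReal.comp hg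
  have hgps : ∀ k, IntegrableOn (fun w => ((g w : ℝ) : ℂ) * ps k w) BV := by
    intro k
    refine cintOn_ball (hgc.mul (measurable_ps k)) (C := B) (fun w hw => ?_)
    rw [norm_mul, norm_real, Real.norm_eq_abs]
    calc |g w| * ‖ps k w‖ ≤ B * 1 :=
          mul_le_mul (hb w hw) (norm_ps_le k w) (norm_nonneg _) ((abs_nonneg _).trans (hb w hw))
      _ = B := mul_one B
  have hpp : ∀ k l, IntegrableOn (fun w => ps k w * conj (ps l w)) BV := by
    intro k l
    refine cintOn_ball ((measurable_ps k).mul (continuous_conj.measurable.comp (measurable_ps l)))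
      (C := 1) (fun w _ => ?_)
    rw [norm_mul, RCLike.norm_conj]
    calc _ ≤ (1 : ℝ) * 1 := mul_le_mul (norm_ps_le k w) (norm_ps_le l w) (norm_nonneg _) one_pos.le
      _ = 1 := one_mul 1
  set T : ℂ → ℂ := fun w => ∑ k ∈ S, c k * conj (ps k w) with hT
  have hpi : (0 : ℝ) < Real.pi := Real.pi_pos
  -- the three integrals
  have i1 : ∫ w in BV, ((g w : ℝ) : ℂ) * conj (T w) = ((∑ k ∈ S, ‖c k‖ ^ 2 : ℝ) : ℂ) := by
    have e : ∀ w, ((g w : ℝ) : ℂ) * conj (T w) =
        ∑ k ∈ S, conj (c k) * (((g w : ℝ) : ℂ) * ps k w) := by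
      intro w
      simp only [hT, map_sum, map_mul, conj_conj, Finset.mul_sum]
      refine Finset.sum_congr rfl (fun k _ => ?_)
      ring
    simp_rw [e]
    rw [integral_finsetSum _ (fun k _ => (hgps k).const_mul _)]
    push_cast
    refine Finset.sum_congr rfl (fun k _ => ?_)
    rw [integral_const_mul]
    show conj (c k) * c k = _
    rw [mul_comm, mul_conj, normSq_eq_norm_sq]
    push_cast
    rfl
  have i2 : ∫ w in BV, T w * conj (T w) = ((Real.pi * ∑ k ∈ S, ‖c k‖ ^ 2 : ℝ) : ℂ) := by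
    have e : ∀ w, T w * conj (T w) =
        ∑ k ∈ S, ∑ l ∈ S, (c k * conj (c l)) * (ps l w * conj (ps k w)) := by
      intro w
      simp only [hT, map_sum, map_mul, conj_conj]
      rw [Finset.sum_mul_sum]
      refine Finset.sum_congr rfl (fun k _ => Finset.sum_congr rfl (fun l _ => ?_))
      ring
    simp_rw [e]
    rw [integral_finsetSum _ (fun k _ => integrable_finsetSum _
      (fun l _ => (hpp l k).const_mul _))]
    push_cast
    rw [Finset.mul_sum]
    refine Finset.sum_congr rfl (fun k hk => ?_)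
    rw [integral_finsetSum _ (fun l _ => (hpp l k).const_mul _)]
    simp_rw [integral_const_mul, int_ps_conj]
    rw [Finset.sum_eq_single k]
    · rw [if_pos rfl, mul_conj, normSq_eq_norm_sq]
      push_cast
      ring
    · intro l _ hl
      rw [if_neg hl, mul_zero]
    · intro h; exact absurd hk h
  have hTm : Measurable T := by
    apply Finset.measurable_fun_sum
    intro k _
    exact measurable_const.mul (continuous_conj.measurable.comp (measurable_ps k))
  have hTb : ∀ w, ‖T w‖ ≤ ∑ k ∈ S, ‖c k‖ := by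
    intro w
    refine (norm_sum_le _ _).trans (Finset.sum_le_sum (fun k _ => ?_))
    rw [norm_mul, RCLike.norm_conj]
    calc _ ≤ ‖c k‖ * 1 := mul_le_mul_of_nonneg_left (norm_ps_le k w) (norm_nonneg _)
      _ = _ := mul_one _
  -- positivity
  have hpos : 0 ≤ ∫ w in BV, ‖((g w : ℝ) : ℂ) - ((Real.pi⁻¹ : ℝ) : ℂ) * T w‖ ^ 2 :=
    integral_nonneg (fun w => by positivity)
  have hB0 : ∀ w ∈ BV, 0 ≤ B := fun w hw => (abs_nonneg _).trans (hb w hw)
  have hi1 : IntegrableOn (fun w => g w ^ 2) BV := by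
    refine intOn_ball (hg.pow_const 2) (C := B ^ 2) (fun w hw => ?_)
    rw [abs_of_nonneg (by positivity), ← sq_abs]
    have := hb w hw
    gcongr
  have hi2 : IntegrableOn (fun w => (((g w : ℝ) : ℂ) * conj (T w)).re) BV := by
    refine intOn_ball (measurable_re.comp
      (hgc.mul (continuous_conj.measurable.comp hTm))) (C := B * ∑ k ∈ S, ‖c k‖) (fun w hw => ?_)
    refine (abs_re_le_norm _).trans ?_
    rw [norm_mul, norm_real, Real.norm_eq_abs, RCLike.norm_conj]
    exact mul_le_mul (hb w hw) (hTb w) (norm_nonneg _) (hB0 w hw)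
  have hi3 : IntegrableOn (fun w => ‖T w‖ ^ 2) BV := by
    refine intOn_ball (hTm.norm.pow_const 2) (C := (∑ k ∈ S, ‖c k‖) ^ 2) (fun w _ => ?_)
    rw [abs_of_nonneg (by positivity)]
    have := hTb w
    gcongr
  have e2 : ∀ w, ‖((g w : ℝ) : ℂ) - ((Real.pi⁻¹ : ℝ) : ℂ) * T w‖ ^ 2 =
      g w ^ 2 - 2 * Real.pi⁻¹ * (((g w : ℝ) : ℂ) * conj (T w)).re +
        Real.pi⁻¹ ^ 2 * ‖T w‖ ^ 2 := by
    intro w
    rw [← normSq_eq_norm_sq, ← normSq_eq_norm_sq, normSq_apply, normSq_apply]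
    simp only [sub_re, sub_im, ofReal_re, ofReal_im, re_ofReal_mul, im_ofReal_mul, conj_re]
    ring
  simp_rw [e2] at hpos
  have e6 : ∫ w in BV, (g w ^ 2 - 2 * Real.pi⁻¹ * (((g w : ℝ) : ℂ) * conj (T w)).re +
      Real.pi⁻¹ ^ 2 * ‖T w‖ ^ 2) = (∫ w in BV, g w ^ 2) -
        2 * Real.pi⁻¹ * (∫ w in BV, (((g w : ℝ) : ℂ) * conj (T w)).re) +
        Real.pi⁻¹ ^ 2 * ∫ w in BV, ‖T w‖ ^ 2 := by
    have a1 := hi2.const_mul (2 * Real.pi⁻¹)
    have a2 := hi3.const_mul (Real.pi⁻¹ ^ 2)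
    have a3 := integral_add (hi1.sub a1) a2
    have a4 := integral_sub hi1 a1
    simp only [Pi.sub_apply] at a3
    rw [a3, a4, integral_const_mul, integral_const_mul]
  rw [e6] at hpos
  have j1 : ∫ w in BV, (((g w : ℝ) : ℂ) * conj (T w)).re = ∑ k ∈ S, ‖c k‖ ^ 2 := by
    have hint : IntegrableOn (fun w => ((g w : ℝ) : ℂ) * conj (T w)) BV := by
      refine cintOn_ball (hgc.mul (continuous_conj.measurable.comp hTm))
        (C := B * ∑ k ∈ S, ‖c k‖) (fun w hw => ?_)
      rw [norm_mul, norm_real, Real.norm_eq_abs, RCLike.norm_conj]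
      exact mul_le_mul (hb w hw) (hTb w) (norm_nonneg _) (hB0 w hw)
    have := integral_re hint
    simp only [RCLike.re_eq_complex_re] at this
    rw [this, i1, ofReal_re]
  have j2 : ∫ w in BV, ‖T w‖ ^ 2 = Real.pi * ∑ k ∈ S, ‖c k‖ ^ 2 := by
    have e3 : ∀ w, T w * conj (T w) = ((‖T w‖ ^ 2 : ℝ) : ℂ) := by
      intro w
      rw [mul_conj, normSq_eq_norm_sq]
    simp_rw [e3] at i2
    rw [integral_complex_ofReal] at i2
    exact_mod_cast i2
  rw [j1, j2] at hpos
  have h5 : 0 ≤ Real.pi * (∫ w in BV, g w ^ 2) - ∑ k ∈ S, ‖c k‖ ^ 2 := by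
    have h6 := mul_nonneg hpi.le hpos
    have e4 : Real.pi * ((∫ w in BV, g w ^ 2) - 2 * Real.pi⁻¹ * ∑ k ∈ S, ‖c k‖ ^ 2 +
        Real.pi⁻¹ ^ 2 * (Real.pi * ∑ k ∈ S, ‖c k‖ ^ 2)) =
        Real.pi * (∫ w in BV, g w ^ 2) - ∑ k ∈ S, ‖c k‖ ^ 2 := by
      field_simp
      ring
    linarith
  linarith

variable {n : ℕ} {v : Fin n → ℂ} {F : ℂ → ℝ → ℝ}

/-! ### Pointwise form -/

/-! ### Cauchy–Schwarz and the sum -/

theorem fderiv_et_zero' {ε : ℝ} (hε : 0 < ε) {h : ℂ} (hh : ε ≤ ‖h‖) : fderiv ℝ (et ε) h = 0 := by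
  apply IsLocalMin.fderiv_eq_zero
  exact Eventually.of_forall (fun z => by rw [BilD.et_zero hε hh]; exact et_nonneg ε z)

theorem norm_clm_le (L : ℂ →L[ℝ] ℂ) : ‖L‖ ≤ ‖L 1‖ + ‖L I‖ := by
  refine L.opNorm_le_bound (by positivity) (fun z => ?_)
  have h1 : L z = z.re • L 1 + z.im • L I := by
    conv_lhs => rw [← re_add_im z]
    rw [map_add]
    congr 1
    · rw [← map_smul]; simp
    · rw [← map_smul]; simp
  rw [h1]
  refine (norm_add_le _ _).trans ?_
  rw [norm_smul, norm_smul, Real.norm_eq_abs, Real.norm_eq_abs]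
  have h2 := abs_re_le_norm z
  have h3 := abs_im_le_norm z
  have h4 := mul_le_mul_of_nonneg_right h2 (norm_nonneg (L 1))
  have h5 := mul_le_mul_of_nonneg_right h3 (norm_nonneg (L I))
  nlinarith [h4, h5]

end Pool.Agent.Lib.BilD.Bes85
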