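import Pool.Agent.Lib.MP_7bc51d_an_s.BGeom
import Pool.Agent.Lib.MP_7bc51d_an_s.BGlobal
import Pool.Agent.Lib.MP_7bc51d_an_s.BGreen
import Pool.Agent.Lib.MP_7bc51d_an_s.BNext
import Pool.Agent.Lib.MP_7bc51d_an_s.BPoly
import Pool.Agent.Lib.MP_7bc51d_an_s.DenseDefs

namespace Pool.Agent.Lib.Bil
end Pool.Agent.Lib.Bil

/-!
# Energy identity on the polygon (row EI)
-/

set_option autoImplicit false

namespace Pool.Agent.Lib.BilD

open Complex MeasureTheory Set Filter Topology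
open scoped ComplexConjugate
open Pool.Agent.Lib.Bil

variable {n : ℕ} {v : Fin n → ℂ}

namespace EI17

theorem intOn_cont {f : ℂ → ℝ} (hf : Continuous f) : IntegrableOn f (PP v) :=
  (hf.continuousOn.integrableOn_compact isCompact_KK).mono_set PP_sub_KK

/-- Stokes' theorem on the polygon in a fixed direction. -/
theorem green_C1 (hn : 3 ≤ n) (hv : ConvexIndependent ℝ v) {w : ℂ}
    (hw : ∀ i, cr w (v (nxt hn hv i) - v i) ≠ 0) {K : ℂ → ℝ} (hK : ContDiff ℝ 1 K) :
    ∫ x in PP v, fderiv ℝ K x w =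
      ∑ i, ∫ τ in (0 : ℝ)..1, K (v i + (τ : ℂ) * (v (nxt hn hv i) - v i)) *
        cr w (v (nxt hn hv i) - v i) := by
  have hw0 : w ≠ 0 := by
    rintro rfl
    have i0 : Fin n := ⟨0, by omega⟩
    exact hw i0 (cr_zero_left _)
  have hc : Continuous (fun y => fderiv ℝ K y w) :=
    (hK.continuous_fderiv one_ne_zero).clm_apply continuous_const
  obtain ⟨C, hC⟩ := (isCompact_KK (v := v)).exists_bound_of_continuousOn hc.continuousOn
  have h := green hn hv hw0 (fun i hcon => hw i (by rw [cr_sub_right, hcon, sub_self]))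
    (F := fun _ => 1) measurable_const (fun _ => by simp) (K := K)
    (k := fun y => fderiv ℝ K y w) hK.continuous hc.measurable (C := C)
    (fun y hy => by rw [← Real.norm_eq_abs]; exact hC y (PP_sub_KK hy)) ?_
  · simpa using h
  · intro y s
    symm
    have hd : ∀ s' : ℝ, HasDerivAt (fun s' : ℝ => K (y + (s' : ℂ) * w))
        (fderiv ℝ K (y + (s' : ℂ) * w) w) s' := by
      intro s'
      have h1 : HasDerivAt (fun s' : ℝ => y + (s' : ℂ) * w) w s' := by
        have h2 : HasDerivAt (fun s' : ℝ => (s' : ℂ)) 1 s' := Complex.ofRealCLM.hasDerivAt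
        simpa using (h2.mul_const w).const_add y
      exact ((hK.differentiable one_ne_zero) _).hasFDerivAt.comp_hasDerivAt s' h1
    have h3 : Continuous (fun s' : ℝ => fderiv ℝ K (y + (s' : ℂ) * w) w) :=
      hc.comp (by fun_prop)
    rw [intervalIntegral.integral_eq_sub_of_hasDerivAt (fun s' _ => hd s')
      (h3.intervalIntegrable _ _)]
    simp

/-- The boundary form. -/
noncomputable def B (W : ℂ → ℝ) (u : ℂ → ℂ) (h x : ℂ) : ℝ :=
  W x * (conj (u x) * fderiv ℝ u x h).im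

theorem fd_lin (u : ℂ → ℂ) (x w : ℂ) :
    fderiv ℝ u x w = (w.re : ℂ) * fderiv ℝ u x 1 + (w.im : ℂ) * fderiv ℝ u x I := by
  have h1 : w = (w.re : ℝ) • (1 : ℂ) + (w.im : ℝ) • I := by
    simp [re_add_im]
  conv_lhs => rw [h1]
  rw [map_add, map_smul, map_smul]
  simp

theorem fd_linR (u : ℂ → ℝ) (x w : ℂ) :
    fderiv ℝ u x w = w.re * fderiv ℝ u x 1 + w.im * fderiv ℝ u x I := by
  have h1 : w = (w.re : ℝ) • (1 : ℂ) + (w.im : ℝ) • I := by
    simp [re_add_im]
  conv_lhs => rw [h1]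
  rw [map_add, map_smul, map_smul]
  simp

theorem hasFDeriv_fd {u : ℂ → ℂ} (hu : ContDiff ℝ 2 u) (h x : ℂ) :
    HasFDerivAt (fun y => fderiv ℝ u y h) ((fderiv ℝ (fderiv ℝ u) x).flip h) x := by
  have h1 : ContDiff ℝ 1 (fderiv ℝ u) := hu.fderiv_right (by norm_num)
  have h2 : HasFDerivAt (fderiv ℝ u) (fderiv ℝ (fderiv ℝ u) x) x :=
    ((h1.differentiable one_ne_zero) x).hasFDerivAt
  have h3 := h2.clm_apply (hasFDerivAt_const h x)
  refine h3.congr_fderiv ?_
  ext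
  all_goals simp

theorem hasFDeriv_B {W : ℂ → ℝ} {u : ℂ → ℂ} (hu : ContDiff ℝ 2 u) (hW : ContDiff ℝ 1 W)
    (h x : ℂ) :
    HasFDerivAt (B W u h) (W x • (imCLM.comp (conj (u x) • ((fderiv ℝ (fderiv ℝ u) x).flip h) +
      (fderiv ℝ u x h) • ((conjCLE : ℂ →L[ℝ] ℂ).comp (fderiv ℝ u x)))) +
      ((conj (u x) * fderiv ℝ u x h).im) • fderiv ℝ W x) x := by
  have h1 : HasFDerivAt u (fderiv ℝ u x) x :=
    ((hu.differentiable two_ne_zero) x).hasFDerivAt
  have h2 : HasFDerivAt (fun y => conj (u y)) ((conjCLE : ℂ →L[ℝ] ℂ).comp (fderiv ℝ u x)) x :=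
    (conjCLE : ℂ →L[ℝ] ℂ).hasFDerivAt.comp x h1
  have h3 := h2.mul (hasFDeriv_fd hu h x)
  have h4 := imCLM.hasFDerivAt.comp x h3
  have h5 : HasFDerivAt W (fderiv ℝ W x) x :=
    ((hW.differentiable one_ne_zero) x).hasFDerivAt
  exact h5.mul h4

theorem contDiff_B {W : ℂ → ℝ} {u : ℂ → ℂ} (hu : ContDiff ℝ 2 u) (hW : ContDiff ℝ 1 W)
    (h : ℂ) : ContDiff ℝ 1 (B W u h) := by
  have h1 : ContDiff ℝ 1 (fderiv ℝ u) := hu.fderiv_right (by norm_num)
  have h2 : ContDiff ℝ 1 (fun y => fderiv ℝ u y h) := h1.clm_apply contDiff_const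
  have h3 : ContDiff ℝ 1 u := hu.of_le (by norm_num)
  have h4 : ContDiff ℝ 1 (fun y => conj (u y)) := (conjCLE : ℂ →L[ℝ] ℂ).contDiff.comp h3
  exact hW.mul (imCLM.contDiff.comp (h4.mul h2))

theorem fd_B {W : ℂ → ℝ} {u : ℂ → ℂ} (hu : ContDiff ℝ 2 u) (hW : ContDiff ℝ 1 W)
    (h w x : ℂ) :
    fderiv ℝ (B W u h) x w = W x * (conj (u x) * fderiv ℝ (fderiv ℝ u) x w h +
      fderiv ℝ u x h * conj (fderiv ℝ u x w)).im +
      (conj (u x) * fderiv ℝ u x h).im * fderiv ℝ W x w := by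
  rw [(hasFDeriv_B hu hW h x).fderiv]
  simp
  ring

theorem sym2 {u : ℂ → ℂ} (hu : ContDiff ℝ 2 u) (x h w : ℂ) :
    fderiv ℝ (fderiv ℝ u) x w h = fderiv ℝ (fderiv ℝ u) x h w := by
  have := (hu.contDiffAt (x := x)).isSymmSndFDerivAt (by simp)
  exact this w h

theorem curl {W : ℂ → ℝ} {u : ℂ → ℂ} (hu : ContDiff ℝ 2 u) (hW : ContDiff ℝ 1 W)
    (w1 w2 x : ℂ) :
    fderiv ℝ (B W u w2) x w1 - fderiv ℝ (B W u w1) x w2 =
      cr w1 w2 * (2 * (W x * (conj (fderiv ℝ u x 1) * fderiv ℝ u x I).im) - Jf W u x) := by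
  rw [fd_B hu hW, fd_B hu hW, sym2 hu x w2 w1, fd_lin u x w1, fd_lin u x w2, fd_linR W x w1,
    fd_linR W x w2, Jf, cr]
  simp only [mul_im, add_im, add_re, mul_re, conj_re, conj_im, map_add, map_mul, ofReal_re,
    ofReal_im, conj_ofReal]
  ring

theorem jac (u : ℂ → ℂ) (x : ℂ) :
    ‖dz u x‖ ^ 2 - ‖dzb u x‖ ^ 2 = (conj (fderiv ℝ u x 1) * fderiv ℝ u x I).im := by
  rw [← normSq_eq_norm_sq, ← normSq_eq_norm_sq, dz, dzb]
  simp only [normSq_apply, mul_im, mul_re, conj_re, conj_im, div_re, div_im, sub_re, sub_im,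
    add_re, add_im, I_re, I_im]
  norm_num
  ring

/-- Two directions which are not parallel to each other nor to the sides. -/
theorem exists_dirs (hn : 3 ≤ n) (hv : ConvexIndependent ℝ v) :
    ∃ w1 w2 : ℂ, cr w1 w2 ≠ 0 ∧ (∀ i, cr w1 (v (nxt hn hv i) - v i) ≠ 0) ∧
      (∀ i, cr w2 (v (nxt hn hv i) - v i) ≠ 0) := by
  have hne : ∀ i, v (nxt hn hv i) - v i ≠ 0 := fun i => v_sub_ne hv (nxt_side hn hv i).ne
  have hgen : ∀ᵐ w : ℂ, ∀ i, w ∉ (Submodule.span ℝ {v (nxt hn hv i) - v i} : Submodule ℝ ℂ) := by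
    rw [ae_all_iff]; intro i
    exact ae_not_mem_line _
  have key : ∀ w : ℂ, (∀ i, w ∉ (Submodule.span ℝ {v (nxt hn hv i) - v i} : Submodule ℝ ℂ)) →
      ∀ i, cr w (v (nxt hn hv i) - v i) ≠ 0 := by
    intro w hw i h2
    rw [cr_swap, neg_eq_zero] at h2
    obtain ⟨t, ht⟩ := (cr_eq_zero_iff (hne i)).1 h2
    apply hw i
    rw [Submodule.mem_span_singleton]
    exact ⟨t, by rw [real_smul, ht]⟩
  obtain ⟨w1, hw1⟩ := hgen.exists
  have h1 := key w1 hw1
  have hw10 : w1 ≠ 0 := by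
    rintro rfl
    have i0 : Fin n := ⟨0, by omega⟩
    exact h1 i0 (cr_zero_left _)
  obtain ⟨w2, hw2, hw2'⟩ := (hgen.and (ae_not_mem_line w1)).exists
  refine ⟨w1, w2, fun hcon => ?_, h1, key w2 hw2⟩
  obtain ⟨t, ht⟩ := (cr_eq_zero_iff hw10).1 hcon
  apply hw2'
  rw [Submodule.mem_span_singleton]
  exact ⟨t, by rw [real_smul, ht]⟩

end EI17

open EI17

theorem ei17 : StEI := by
  intro n hn v hv u W hu hW hbd
  obtain ⟨w1, w2, h12, hw1, hw2⟩ := exists_dirs hn hv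
  have hu1 : ContDiff ℝ 1 u := hu.of_le (by norm_num)
  have hcfd : ∀ h : ℂ, Continuous (fun x => fderiv ℝ u x h) := fun h =>
    (hu1.continuous_fderiv one_ne_zero).clm_apply continuous_const
  have hcfW : ∀ h : ℂ, Continuous (fun x => fderiv ℝ W x h) := fun h =>
    (hW.continuous_fderiv one_ne_zero).clm_apply continuous_const
  have hcu : Continuous u := hu.continuous
  have hcW : Continuous W := hW.continuous
  have hcB : ∀ h w : ℂ, Continuous (fun x => fderiv ℝ (B W u h) x w) := fun h w =>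
    ((contDiff_B hu hW h).continuous_fderiv one_ne_zero).clm_apply continuous_const
  have e1 := green_C1 hn hv hw1 (contDiff_B hu hW w2)
  have e2 := green_C1 hn hv hw2 (contDiff_B hu hW w1)
  -- the boundary terms cancel
  have hb : ∀ i : Fin n, (∫ τ in (0 : ℝ)..1, B W u w2 (v i + (τ : ℂ) * (v (nxt hn hv i) - v i)) *
        cr w1 (v (nxt hn hv i) - v i)) =
      ∫ τ in (0 : ℝ)..1, B W u w1 (v i + (τ : ℂ) * (v (nxt hn hv i) - v i)) *
        cr w2 (v (nxt hn hv i) - v i) := by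
    intro i
    apply intervalIntegral.integral_congr_ae
    have h1 : ∀ᵐ τ : ℝ, τ ≠ 1 := by simp [ae_iff, measure_singleton]
    filter_upwards [h1] with τ h3 hτ
    rw [uIoc_of_le zero_le_one] at hτ
    have h4 := hbd (i, nxt hn hv i) (mem_SD.2 (nxt_side hn hv i)) τ
      ⟨hτ.1, lt_of_le_of_ne hτ.2 h3⟩
    simp only [ed] at h4
    set e : ℂ := v (nxt hn hv i) - v i with he
    set y : ℂ := v i + (τ : ℂ) * e with hy
    have h5 : B W u w2 y * cr w1 e - B W u w1 y * cr w2 e =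
        cr w1 w2 * (W y * (conj (u y) * fderiv ℝ u y e).im) := by
      rw [B, B, fd_lin u y w1, fd_lin u y w2, fd_lin u y e]
      simp only [cr, mul_im, add_im, add_re, mul_re, conj_re, conj_im, ofReal_re, ofReal_im]
      ring
    rw [h4, mul_zero] at h5
    linarith
  have e3 : ∫ x in PP v, (fderiv ℝ (B W u w2) x w1 - fderiv ℝ (B W u w1) x w2) = 0 := by
    rw [integral_sub (intOn_cont (hcB w2 w1)) (intOn_cont (hcB w1 w2)), e1, e2,
      Finset.sum_congr rfl (fun i _ => hb i), sub_self]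
  simp_rw [curl hu hW] at e3
  rw [integral_const_mul, mul_eq_zero, or_iff_right h12] at e3
  have hcJ : Continuous (fun x => Jf W u x) := by
    unfold Jf
    have := hcfd 1
    have := hcfd I
    have := hcfW 1
    have := hcfW I
    have := Complex.continuous_conj
    fun_prop
  have hcz : Continuous (fun x => W x * ‖dz u x‖ ^ 2) := by
    unfold dz
    have := hcfd 1
    have := hcfd I
    fun_prop
  have hczb : Continuous (fun x => W x * ‖dzb u x‖ ^ 2) := by
    unfold dzb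
    have := hcfd 1
    have := hcfd I
    fun_prop
  have hcj : Continuous (fun x => W x * (conj (fderiv ℝ u x 1) * fderiv ℝ u x I).im) := by
    have := hcfd 1
    have := hcfd I
    fun_prop
  rw [integral_sub ((intOn_cont hcj).const_mul 2) (intOn_cont hcJ), integral_const_mul,
    sub_eq_zero] at e3
  rw [← e3, ← integral_sub (intOn_cont hcz) (intOn_cont hczb)]
  rw [← mul_assoc, inv_mul_cancel₀ (by norm_num : (2 : ℝ) ≠ 0), one_mul]
  congr 1
  funext x
  rw [← mul_sub, jac]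

end Pool.Agent.Lib.BilD
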