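import Pool.Agent.Lib.MP_7bc51d_an_s.DenseBasic
import Pool.Agent.Lib.MP_7bc51d_an_s.DenseBes85
import Pool.Agent.Lib.MP_7bc51d_an_s.DenseDefs

namespace Pool.Agent.Lib.Bil
end Pool.Agent.Lib.Bil
namespace Pool.Agent.Lib.BilD
end Pool.Agent.Lib.BilD
namespace Pool.Agent.Lib.BilH
end Pool.Agent.Lib.BilH

/-!
# Vertex energy bounded by the oscillation of the invariant function in annuli at the vertices
-/

set_option autoImplicit false

namespace Pool.Agent.Lib.BilD.Erg45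

open Complex MeasureTheory Set Filter Topology
open scoped ComplexConjugate ENNReal
open Pool.Agent.Lib.Bil Pool.Agent.Lib.BilH Pool.Agent.Lib.BilD

variable {n : ℕ} {v : Fin n → ℂ} {F : ℂ → ℝ → ℝ} {C e0 ε : ℝ}

/-- Derivative in the position of the mollified function, the direction being kept fixed. -/
noncomputable def dg (v : Fin n → ℂ) (F : ℂ → ℝ → ℝ) (ε : ℝ) (x w h : ℂ) : ℝ :=
  ∫ y, gx v F y w * fderiv ℝ (et ε) (x - y) h

/-- Squared length of the position gradient. -/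
noncomputable def hq (v : Fin n → ℂ) (F : ℂ → ℝ → ℝ) (ε : ℝ) (x w : ℂ) : ℝ :=
  dg v F ε x w 1 ^ 2 + dg v F ε x w I ^ 2

theorem mom_bound (hF : LFS v F) {ψ : ℂ → ℝ} {c : ℝ} (hb : ∀ y, |ψ y| ≤ c) (hε : 0 < ε)
    {x : ℂ} (h0 : ∀ y, y ∉ Metric.ball x ε → ψ y = 0) (w : ℂ) :
    |∫ y, gx v F y w * ψ y| ≤ ((n : ℝ) ^ 2 + 1) * c * (Real.pi * ε ^ 2) := by
  have e2 : (∫ y, gx v F y w * ψ y) = ∫ y in Metric.ball x ε, gx v F y w * ψ y := by
    rw [← integral_indicator measurableSet_ball]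
    refine integral_congr_ae (Eventually.of_forall (fun y => ?_))
    by_cases hy : y ∈ Metric.ball x ε
    · simp only [indicator_of_mem hy]
    · simp only [indicator_of_notMem hy, h0 y hy, mul_zero]
  have hvol : (volume : Measure ℂ).real (Metric.ball x ε) = Real.pi * ε ^ 2 := by
    rw [Measure.real, Complex.volume_ball, ENNReal.toReal_mul, ENNReal.toReal_pow,
      ENNReal.toReal_ofReal hε.le, mul_comm]
    rfl
  rw [e2, ← Real.norm_eq_abs]
  have h := norm_setIntegral_le_of_norm_le_const (μ := volume) (s := Metric.ball x ε)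
    (f := fun y => gx v F y w * ψ y) (C := ((n : ℝ) ^ 2 + 1) * c) measure_ball_lt_top
    (fun y _ => by
      rw [Real.norm_eq_abs, abs_mul, abs_of_nonneg (gx_nonneg hF y w)]
      exact mul_le_mul (gx_le hF y w) (hb y) (abs_nonneg _) (by positivity))
  rw [hvol] at h
  exact h

theorem det_cont (ε : ℝ) (h : ℂ) : Continuous (fun z => fderiv ℝ (et ε) z h) :=
  ((et_contDiff ε).continuous_fderiv (by simp)).clm_apply continuous_const

theorem det_out (hε : 0 < ε) {x y : ℂ} (hy : y ∉ Metric.ball x ε) (h : ℂ) :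
    fderiv ℝ (et ε) (x - y) h = 0 := by
  rw [Metric.mem_ball, dist_comm, dist_eq_norm, not_lt] at hy
  rw [Bes85.fderiv_et_zero' hε hy]
  rfl

theorem dg_bound : ∃ K : ℝ, 0 < K ∧ ∀ (F : ℂ → ℝ → ℝ), LFS v F → ∀ ε : ℝ, 0 < ε →
    ∀ x w h : ℂ, |dg v F ε x w h| ≤ K / ε * ‖h‖ := by
  obtain ⟨K, hK, hKb⟩ := exists_fderiv_et_bound
  have hpi := Real.pi_pos
  refine ⟨((n : ℝ) ^ 2 + 1) * K * Real.pi, by positivity, fun F hF ε hε x w h => ?_⟩
  have h1 := mom_bound (v := v) hF (ψ := fun y => fderiv ℝ (et ε) (x - y) h)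
    (c := K / ε ^ 3 * ‖h‖) (fun y => hKb ε hε _ _) hε (fun y hy => det_out hε hy h) w
  refine h1.trans (le_of_eq ?_)
  field_simp

theorem hq_nonneg (x w : ℂ) : 0 ≤ hq v F ε x w := by unfold hq; positivity

theorem hq_bound : ∃ K : ℝ, 0 < K ∧ ∀ (F : ℂ → ℝ → ℝ), LFS v F → ∀ ε : ℝ, 0 < ε →
    ∀ x w : ℂ, hq v F ε x w ≤ K / ε ^ 2 := by
  obtain ⟨K, hK, hKb⟩ := dg_bound (v := v)
  refine ⟨2 * K ^ 2, by positivity, fun F hF ε hε x w => ?_⟩
  have h1 := hKb F hF ε hε x w 1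
  have h2 := hKb F hF ε hε x w I
  rw [norm_one, mul_one] at h1
  rw [norm_I, mul_one] at h2
  have h3 : dg v F ε x w 1 ^ 2 ≤ (K / ε) ^ 2 := by
    rw [← sq_abs]; exact pow_le_pow_left₀ (abs_nonneg _) h1 2
  have h4 : dg v F ε x w I ^ 2 ≤ (K / ε) ^ 2 := by
    rw [← sq_abs]; exact pow_le_pow_left₀ (abs_nonneg _) h2 2
  unfold hq
  calc _ ≤ (K / ε) ^ 2 + (K / ε) ^ 2 := add_le_add h3 h4
    _ = _ := by ring

theorem dg_meas2 (hF : LFS v F) (h : ℂ) : Measurable (fun p : ℂ × ℂ => dg v F ε p.1 p.2 h) := by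
  have h1 : Measurable (fun p : (ℂ × ℂ) × ℂ => gx v F p.2 p.1.2 *
      fderiv ℝ (et ε) (p.1.1 - p.2) h) :=
    ((gx_meas hF.lf).comp (measurable_snd.prodMk measurable_fst.snd)).mul
      ((det_cont ε h).measurable.comp (measurable_fst.fst.sub measurable_snd))
  have h2 : StronglyMeasurable (Function.uncurry (fun (p : ℂ × ℂ) (y : ℂ) => gx v F y p.2 *
      fderiv ℝ (et ε) (p.1 - y) h)) := h1.stronglyMeasurable
  exact h2.integral_prod_right.measurable

theorem hq_meas2 (hF : LFS v F) : Measurable (fun p : ℂ × ℂ => hq v F ε p.1 p.2) :=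
  ((dg_meas2 hF 1).pow_const 2).add ((dg_meas2 hF I).pow_const 2)

end Pool.Agent.Lib.BilD.Erg45
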