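import Pool.Agent.Lib.MP_7bc51d_an_s.BGeneric
import Pool.Agent.Lib.MP_7bc51d_an_s.BGeom
import Pool.Agent.Lib.MP_7bc51d_an_s.BNext
import Pool.Agent.Lib.MP_7bc51d_an_s.BPoly

namespace Pool.Agent.Lib.Bil
end Pool.Agent.Lib.Bil

set_option autoImplicit false

/-!
Local geometry of a convex polygon off the vertices: a small ball lies in the polygon or meets
exactly one side.
-/

namespace Pool.Agent.Lib.BilD.Geo85

open Complex MeasureTheory Set Filter
open scoped ComplexConjugate Topology ENNReal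
open Pool.Agent.Lib.Bil

variable {n : ℕ} {v : Fin n → ℂ}

/-- A point strictly to the left of all sides lies in the open polygon. -/
theorem mem_PP_of_cr (hn : 3 ≤ n) (hv : ConvexIndependent ℝ v) {y : ℂ}
    (h : ∀ i, 0 < cr (v (nxt hn hv i) - v i) (y - v i)) : y ∈ PP v := by
  obtain ⟨z, hz⟩ := PP_nonempty hn hv
  have hseg : IsPreconnected (segment ℝ z y) := (convex_segment z y).isPreconnected
  refine hseg.subset_of_closure_inter_subset isOpen_PP ⟨z, left_mem_segment ℝ z y, hz⟩ ?_
    (right_mem_segment ℝ z y)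
  rintro p ⟨hpc, hp⟩
  have hpK : p ∈ KK v := closure_minimal PP_sub_KK isClosed_KK hpc
  by_contra hpP
  obtain ⟨a, b, ha, hb, hab, rfl⟩ := hp
  have hpos : ∀ i, 0 < cr (v (nxt hn hv i) - v i) (a • z + b • y - v i) := by
    intro i
    have e : a • z + b • y - v i = (a : ℂ) * (z - v i) + (b : ℂ) * (y - v i) := by
      have h1 : (a : ℂ) + (b : ℂ) = 1 := by rw [← ofReal_add, hab, ofReal_one]
      simp only [real_smul]
      linear_combination (v i) * h1
    rw [e, cr_add_right, cr_smul_right, cr_smul_right]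
    have h1 := (nxt_side hn hv i).cr_pos hv hz
    have h2 := h i
    rcases eq_or_lt_of_le ha with h3 | h3
    · have hb1 : b = 1 := by linarith
      rw [← h3, hb1]; linarith
    · have := mul_pos h3 h1
      have := mul_nonneg hb h2.le
      linarith
  by_cases hpv : a • z + b • y ∈ Set.range v
  · obtain ⟨i, hi⟩ := hpv
    have h1 := hpos i
    rw [← hi, sub_self, cr_zero_right] at h1
    exact lt_irrefl _ h1
  · obtain ⟨i, j, hij, s, hs0, hs1, hs⟩ := exists_side hn hv hpK hpP hpv
    have hj : j = nxt hn hv i := next_unique hij (nxt_side hn hv i)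
    have h1 := hpos i
    rw [hs, ← hj, add_sub_cancel_left, cr_smul_right, cr_self, mul_zero] at h1
    exact lt_irrefl _ h1

/-- Two different sides have at most one common vertex. -/
theorem common_vertex (hn : 3 ≤ n) (hv : ConvexIndependent ℝ v) {i l : Fin n} (hil : i ≠ l) :
    ∃ j, ∀ k, k ≠ j → (k ≠ i ∧ k ≠ nxt hn hv i) ∨ (k ≠ l ∧ k ≠ nxt hn hv l) := by
  have hinj := (nxt_bijective hn hv).1
  by_cases h1 : l = nxt hn hv i
  · refine ⟨l, fun k hk => ?_⟩
    by_cases h2 : k = nxt hn hv l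
    · left
      refine ⟨fun h3 => ?_, h1 ▸ hk⟩
      have a1 := nxt_side hn hv i
      have a2 := nxt_side hn hv l
      rw [← h1] at a1
      rw [← h2, h3] at a2
      exact not_both_sides hn a1 a2
    · exact Or.inr ⟨hk, h2⟩
  · refine ⟨i, fun k hk => ?_⟩
    by_cases h2 : k = nxt hn hv i
    · right
      refine ⟨fun h3 => h1 (h3 ▸ h2), fun h3 => hil (hinj (h2 ▸ h3))⟩
    · exact Or.inl ⟨hk, h2⟩

theorem near_vertex (hn : 3 ≤ n) (hv : ConvexIndependent ℝ v) : ∃ C : ℝ, 0 < C ∧
    ∀ i l : Fin n, i ≠ l → ∃ j, ∀ x ∈ KK v, ‖x - v j‖ ≤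
      C * (cr (v (nxt hn hv i) - v i) (x - v i) + cr (v (nxt hn hv l) - v l) (x - v l)) := by
  -- lower bound for the distances of the vertices to the sides
  obtain ⟨c, hc, hcb⟩ : ∃ c : ℝ, 0 < c ∧ ∀ i k : Fin n, k ≠ i → k ≠ nxt hn hv i →
      c ≤ cr (v (nxt hn hv i) - v i) (v k - v i) := by
    have hfin : ∃ c : ℝ, 0 < c ∧ ∀ q ∈ (Finset.univ : Finset (Fin n × Fin n)), q.2 ≠ q.1 →
        q.2 ≠ nxt hn hv q.1 → c ≤ cr (v (nxt hn hv q.1) - v q.1) (v q.2 - v q.1) := by
      induction (Finset.univ : Finset (Fin n × Fin n)) using Finset.induction with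
      | empty => exact ⟨1, one_pos, fun q hq => absurd hq (Finset.notMem_empty q)⟩
      | insert q S _ ih =>
        obtain ⟨c, hc, hS⟩ := ih
        by_cases hq : q.2 ≠ q.1 ∧ q.2 ≠ nxt hn hv q.1
        · have h1 := (nxt_side hn hv q.1).2 q.2 hq.1 hq.2
          refine ⟨min c (cr (v (nxt hn hv q.1) - v q.1) (v q.2 - v q.1)), lt_min hc h1,
            fun r hr h2 h3 => ?_⟩
          rcases Finset.mem_insert.1 hr with rfl | hr
          · exact min_le_right _ _
          · exact (min_le_left _ _).trans (hS r hr h2 h3)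
        · refine ⟨c, hc, fun r hr h2 h3 => ?_⟩
          rcases Finset.mem_insert.1 hr with rfl | hr
          · exact absurd ⟨h2, h3⟩ hq
          · exact hS r hr h2 h3
    obtain ⟨c, hc, h⟩ := hfin
    exact ⟨c, hc, fun i k => h (i, k) (Finset.mem_univ _)⟩
  obtain ⟨D, hD, hDb⟩ : ∃ D : ℝ, 0 < D ∧ ∀ j k : Fin n, ‖v k - v j‖ ≤ D := by
    refine ⟨∑ q : Fin n × Fin n, ‖v q.2 - v q.1‖ + 1, by positivity, fun j k => ?_⟩
    have := Finset.single_le_sum (f := fun q : Fin n × Fin n => ‖v q.2 - v q.1‖)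
      (fun q _ => norm_nonneg _) (Finset.mem_univ (j, k))
    simp only at this
    linarith
  refine ⟨D / c, div_pos hD hc, fun i l hil => ?_⟩
  obtain ⟨j, hj⟩ := common_vertex hn hv hil
  refine ⟨j, fun x hx => ?_⟩
  set f : ℂ → ℝ := fun x => ‖x - v j‖ - D / c * (cr (v (nxt hn hv i) - v i) (x - v i) +
    cr (v (nxt hn hv l) - v l) (x - v l)) with hf
  have hconv : Convex ℝ {x : ℂ | f x ≤ 0} := by
    intro x hx y hy a b ha hb hab
    simp only [mem_ofPred_eq, hf] at hx hy ⊢
    have h1 : (a : ℂ) + (b : ℂ) = 1 := by rw [← ofReal_add, hab, ofReal_one]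
    have e : ∀ p : ℂ, a • x + b • y - p = (a : ℂ) * (x - p) + (b : ℂ) * (y - p) := by
      intro p
      simp only [real_smul]
      linear_combination p * h1
    rw [e, e, e]
    simp only [cr_add_right, cr_smul_right]
    have h2 : ‖(a : ℂ) * (x - v j) + (b : ℂ) * (y - v j)‖ ≤ a * ‖x - v j‖ + b * ‖y - v j‖ := by
      refine (norm_add_le _ _).trans ?_
      rw [norm_mul, norm_mul, norm_real, norm_real, Real.norm_eq_abs, Real.norm_eq_abs,
        abs_of_nonneg ha, abs_of_nonneg hb]
    have h3 := mul_nonneg ha (sub_nonneg.2 hx)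
    have h4 := mul_nonneg hb (sub_nonneg.2 hy)
    nlinarith [h2, h3, h4]
  have hvert : ∀ k, f (v k) ≤ 0 := by
    intro k
    have p1 := (nxt_side hn hv i).cr_nonneg_vert k
    have p2 := (nxt_side hn hv l).cr_nonneg_vert k
    have hDc : 0 < D / c := div_pos hD hc
    simp only [hf]
    rcases eq_or_ne k j with rfl | hk
    · rw [sub_self, norm_zero]
      have := mul_nonneg hDc.le (add_nonneg p1 p2)
      linarith
    · have h1 : c ≤ cr (v (nxt hn hv i) - v i) (v k - v i) +
          cr (v (nxt hn hv l) - v l) (v k - v l) := by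
        rcases hj k hk with h2 | h2
        · have := hcb i k h2.1 h2.2; linarith
        · have := hcb l k h2.1 h2.2; linarith
      have h2 := mul_le_mul_of_nonneg_left h1 hDc.le
      have h3 : D / c * c = D := by field_simp
      have h4 := hDb j k
      linarith
  have hmem : x ∈ {x : ℂ | f x ≤ 0} :=
    convexHull_min (by rintro _ ⟨k, rfl⟩; exact hvert k) hconv hx
  have : f x ≤ 0 := hmem
  simp only [hf] at this
  linarith

end Pool.Agent.Lib.BilD.Geo85
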