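import Pool.Agent.Lib.MP_7bc51d_an_s.BGeom
import Pool.Agent.Lib.MP_7bc51d_an_s.BNext
import Pool.Agent.Lib.MP_7bc51d_an_s.BPoly
import Pool.Agent.Lib.MP_7bc51d_an_s.BPotential
import Pool.Agent.Lib.MP_7bc51d_an_s.DenseDefs
import Pool.Agent.Lib.MP_7bc51d_an_s.DenseGeo85

namespace Pool.Agent.Lib.Bil
end Pool.Agent.Lib.Bil
namespace Pool.Agent.Lib.BilD
end Pool.Agent.Lib.BilD

/-!
# Row GEO: geometry of a convex polygon at a small scale
-/

set_option autoImplicit false

namespace Pool.Agent.Lib.BilD.Geo40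

open Complex MeasureTheory Set Filter Topology
open scoped ComplexConjugate
open Pool.Agent.Lib.Bil Pool.Agent.Lib.BilD

variable {n : ℕ} {v : Fin n → ℂ}

theorem side_nxt (hn : 3 ≤ n) (hv : ConvexIndependent ℝ v) {s : Fin n × Fin n} (hs : s ∈ SD v) :
    s.2 = nxt hn hv s.1 := next_unique (mem_SD.1 hs) (nxt_side hn hv s.1)

theorem nxt_mem (hn : 3 ≤ n) (hv : ConvexIndependent ℝ v) (i : Fin n) :
    (i, nxt hn hv i) ∈ SD v := mem_SD.2 (nxt_side hn hv i)

theorem ed_ne (hv : ConvexIndependent ℝ v) {s : Fin n × Fin n} (hs : s ∈ SD v) :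
    ed v s ≠ 0 := v_sub_ne hv (mem_SD.1 hs).ne

theorem ed_pos (hv : ConvexIndependent ℝ v) {s : Fin n × Fin n} (hs : s ∈ SD v) :
    0 < ‖ed v s‖ := norm_pos_iff.2 (ed_ne hv hs)

theorem ds_pos_iff (hv : ConvexIndependent ℝ v) {s : Fin n × Fin n} (hs : s ∈ SD v) (x : ℂ) :
    0 < ds v s x ↔ 0 < cr (v s.2 - v s.1) (x - v s.1) := by
  unfold ds
  rw [div_pos_iff_of_pos_right (ed_pos hv hs)]
  rfl

theorem cr_eq (hv : ConvexIndependent ℝ v) {s : Fin n × Fin n} (hs : s ∈ SD v) (x : ℂ) :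
    cr (v s.2 - v s.1) (x - v s.1) = ds v s x * ‖ed v s‖ := by
  unfold ds
  rw [div_mul_cancel₀ _ (ed_pos hv hs).ne']
  rfl

theorem pp (hn : 3 ≤ n) (hv : ConvexIndependent ℝ v) (x : ℂ) :
    x ∈ PP v ↔ ∀ s ∈ SD v, 0 < ds v s x := by
  constructor
  · intro hx s hs
    rw [ds_pos_iff hv hs]
    exact (mem_SD.1 hs).cr_pos hv hx
  · intro h
    refine Geo85.mem_PP_of_cr hn hv (fun i => ?_)
    exact (ds_pos_iff hv (nxt_mem hn hv i) x).1 (h _ (nxt_mem hn hv i))

/-- The distance function is `1`-Lipschitz. -/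
theorem ds_lip (hv : ConvexIndependent ℝ v) {s : Fin n × Fin n} (hs : s ∈ SD v) (x y : ℂ) :
    |ds v s x - ds v s y| ≤ ‖x - y‖ := by
  have h0 := ed_pos hv hs
  have e : ds v s x - ds v s y = cr (ed v s) (x - y) / ‖ed v s‖ := by
    unfold ds
    rw [← sub_div]
    congr 1
    simp only [cr, sub_re, sub_im]
    ring
  rw [e, abs_div, abs_of_pos h0, div_le_iff₀ h0, mul_comm]
  exact abs_cr_le _ _

/-- A point with nonnegative distances lies in the closed polygon. -/
theorem mem_KK (hn : 3 ≤ n) (hv : ConvexIndependent ℝ v) {x : ℂ}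
    (h : ∀ s ∈ SD v, 0 ≤ ds v s x) : x ∈ KK v := by
  obtain ⟨z, hz⟩ := PP_nonempty hn hv
  have hzp := (pp hn hv z).1 hz
  have hcont : Tendsto (fun t : ℝ => x + (t : ℂ) * (z - x)) (𝓝[>] 0) (𝓝 x) := by
    have : Continuous (fun t : ℝ => x + (t : ℂ) * (z - x)) := by fun_prop
    have h2 := this.tendsto 0
    simp only [ofReal_zero, zero_mul, add_zero] at h2
    exact h2.mono_left nhdsWithin_le_nhds
  refine isClosed_KK.mem_of_tendsto hcont ?_
  have hlt : ∀ᶠ t : ℝ in 𝓝[>] 0, t < 1 := by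
    have : ∀ᶠ t : ℝ in 𝓝 0, t < 1 := eventually_lt_nhds one_pos
    exact this.filter_mono nhdsWithin_le_nhds
  filter_upwards [self_mem_nhdsWithin, hlt] with t ht ht1
  rw [mem_Ioi] at ht
  refine PP_sub_KK ((pp hn hv _).2 (fun s hs => ?_))
  have e : ds v s (x + (t : ℂ) * (z - x)) = (1 - t) * ds v s x + t * ds v s z := by
    unfold ds
    rw [← mul_div_assoc, ← mul_div_assoc, ← add_div]
    congr 1
    simp only [cr, sub_re, sub_im, add_re, add_im, mul_re, mul_im, ofReal_re, ofReal_im]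
    ring
  rw [e]
  have h1 := mul_nonneg (sub_nonneg.2 ht1.le) (h s hs)
  have h2 := mul_pos ht (hzp s hs)
  linarith

/-- Every vertex lies on a side different from a given one. -/
theorem other_side (hn : 3 ≤ n) (hv : ConvexIndependent ℝ v) (s : Fin n × Fin n) (k : Fin n) :
    ∃ t ∈ SD v, t ≠ s ∧ ds v t (v k) = 0 := by
  by_cases h : (k, nxt hn hv k) = s
  · obtain ⟨i, hi⟩ := (nxt_bijective hn hv).2 k
    refine ⟨(i, nxt hn hv i), nxt_mem hn hv i, ?_, ?_⟩
    · rintro h1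
      rw [← h, Prod.mk.injEq] at h1
      have h2 := (nxt_side hn hv i).ne
      rw [hi] at h2
      exact h2 h1.1
    · unfold ds ed
      simp only
      rw [hi, cr_self, zero_div]
  · refine ⟨(k, nxt hn hv k), nxt_mem hn hv k, h, ?_⟩
    unfold ds
    simp only
    rw [sub_self, cr_zero_right, zero_div]

theorem onside (hn : 3 ≤ n) (hv : ConvexIndependent ℝ v) {s : Fin n × Fin n} (hs : s ∈ SD v)
    {x : ℂ} (hx : ds v s x = 0) (hoth : ∀ t ∈ SD v, t ≠ s → 0 < ds v t x) :
    ∃ τ ∈ Ioo (0 : ℝ) 1, x = v s.1 + (τ : ℂ) * ed v s := by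
  have hK : x ∈ KK v := mem_KK hn hv (fun t ht => by
    rcases eq_or_ne t s with rfl | h
    · exact hx.ge
    · exact (hoth t ht h).le)
  have hP : x ∉ PP v := fun h => by
    have := (pp hn hv x).1 h s hs
    rw [hx] at this
    exact lt_irrefl _ this
  have hV : x ∉ Set.range v := by
    rintro ⟨k, rfl⟩
    obtain ⟨t, ht, hts, h0⟩ := other_side hn hv s k
    have := hoth t ht hts
    rw [h0] at this
    exact lt_irrefl _ this
  obtain ⟨i, j, hij, τ, h0, h1, hτ⟩ := exists_side hn hv hK hP hV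
  have hmem : (i, j) ∈ SD v := mem_SD.2 hij
  have hz : ds v (i, j) x = 0 := by
    unfold ds ed
    simp only
    rw [hτ, add_sub_cancel_left, cr_smul_right, cr_self, mul_zero, zero_div]
  have he : (i, j) = s := by
    by_contra hne
    have := hoth _ hmem hne
    rw [hz] at this
    exact lt_irrefl _ this
  refine ⟨τ, ⟨h0, h1⟩, ?_⟩
  rw [← he]
  exact hτ

/-- A positive lower bound for the distances of the vertices to the sides. -/
theorem exists_low (hv : ConvexIndependent ℝ v) : ∃ c : ℝ, 0 < c ∧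
    ∀ s ∈ SD v, ∀ k, k ≠ s.1 → k ≠ s.2 → c ≤ ds v s (v k) := by
  have hfin : ∃ c : ℝ, 0 < c ∧ ∀ q ∈ (Finset.univ : Finset ((Fin n × Fin n) × Fin n)),
      q.1 ∈ SD v → q.2 ≠ q.1.1 → q.2 ≠ q.1.2 → c ≤ ds v q.1 (v q.2) := by
    induction (Finset.univ : Finset ((Fin n × Fin n) × Fin n)) using Finset.induction with
    | empty => exact ⟨1, one_pos, fun q hq => absurd hq (Finset.notMem_empty q)⟩
    | insert q S _ ih =>
      obtain ⟨c, hc, hS⟩ := ih
      by_cases hq : q.1 ∈ SD v ∧ q.2 ≠ q.1.1 ∧ q.2 ≠ q.1.2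
      · have h1 : 0 < ds v q.1 (v q.2) :=
          (ds_pos_iff hv hq.1 _).2 ((mem_SD.1 hq.1).2 q.2 hq.2.1 hq.2.2)
        refine ⟨min c (ds v q.1 (v q.2)), lt_min hc h1, fun r hr h2 h3 h4 => ?_⟩
        rcases Finset.mem_insert.1 hr with rfl | hr
        · exact min_le_right _ _
        · exact (min_le_left _ _).trans (hS r hr h2 h3 h4)
      · refine ⟨c, hc, fun r hr h2 h3 h4 => ?_⟩
        rcases Finset.mem_insert.1 hr with rfl | hr
        · exact absurd ⟨h2, h3, h4⟩ hq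
        · exact hS r hr h2 h3 h4
  obtain ⟨c, hc, h⟩ := hfin
  exact ⟨c, hc, fun s hs k h1 h2 => h (s, k) (Finset.mem_univ _) hs h1 h2⟩

/-- Row GEO. -/
theorem row : StGeo := by
  intro n hn v hv
  obtain ⟨A, hA, hnear⟩ := Geo85.near_vertex hn hv
  obtain ⟨c, hc, hlow⟩ := exists_low hv
  set E : ℝ := ∑ s ∈ SD v, ‖ed v s‖ + 1 with hE
  have hE0 : 0 < E := by positivity
  have hEb : ∀ s ∈ SD v, ‖ed v s‖ ≤ E := by
    intro s hs
    have := Finset.single_le_sum (f := fun s => ‖ed v s‖) (fun q _ => norm_nonneg _) hs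
    linarith
  set C : ℝ := 12 * (A * E) + 1 with hC
  have hAE : 0 < A * E := mul_pos hA hE0
  have hC1 : 1 ≤ C := by linarith
  have hden : 0 < 10 + 4 * C := by linarith
  refine ⟨C, min 1 (c / (10 + 4 * C)), hC1, lt_min one_pos (div_pos hc hden), min_le_left _ _,
    fun s hs => ed_ne hv hs, pp hn hv, ?_, ?_, fun s hs x hx ho => onside hn hv hs hx ho⟩
  · intro ε hε hε0 x hx
    by_cases hall : ∀ s ∈ SD v, 2 * ε ≤ ds v s x
    · exact Or.inl hall
    · right
      push Not at hall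
      obtain ⟨s, hs, hsx⟩ := hall
      refine ⟨s, hs, ?_, fun t ht hts => ?_⟩
      · rw [abs_of_nonneg (hx.1 s hs)]
        exact hsx
      · by_contra hcon
        push Not at hcon
        have hne : s.1 ≠ t.1 := by
          intro h
          apply hts
          have h1 := side_nxt hn hv hs
          have h2 := side_nxt hn hv ht
          rw [← h, ← h1] at h2
          exact Prod.ext h.symm h2
        obtain ⟨j, hj⟩ := hnear s.1 t.1 hne
        have h1 := hj x (mem_KK hn hv hx.1)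
        rw [← side_nxt hn hv hs, ← side_nxt hn hv ht, cr_eq hv hs, cr_eq hv ht] at h1
        have h2 : ds v s x * ‖ed v s‖ ≤ 2 * ε * E :=
          mul_le_mul hsx.le (hEb s hs) (norm_nonneg _) (by linarith)
        have h3 : ds v t x * ‖ed v t‖ ≤ 9 * ε * E :=
          mul_le_mul hcon (hEb t ht) (norm_nonneg _) (by linarith)
        have h4 := mul_le_mul_of_nonneg_left (add_le_add h2 h3) hA.le
        have h5 := hx.2 j
        have h6 : 0 < A * E * ε := mul_pos hAE hε
        have h7 : C * ε = 12 * (A * E * ε) + ε := by rw [hC]; ring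
        have h8 : A * (2 * ε * E + 9 * ε * E) = 11 * (A * E * ε) := by ring
        linarith
  · intro ε hε hε0 s hs k hk1 hk2 x hx
    have h1 := hlow s hs k hk1 hk2
    have h2 := ds_lip hv hs (v k) x
    have h3 := le_abs_self (ds v s (v k) - ds v s x)
    have h4 : ε * (10 + 4 * C) < c := by
      have := hε0.trans_le (min_le_right _ _)
      rwa [lt_div_iff₀ hden] at this
    have h5 : ‖v k - x‖ = ‖x - v k‖ := norm_sub_rev _ _
    have h6 : ε * (10 + 4 * C) = 10 * ε + 4 * C * ε := by ring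
    linarith

end Pool.Agent.Lib.BilD.Geo40
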