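import Pool.Agent.Lib.MP_7bc51d_an_s.BGeom
import Pool.Agent.Lib.MP_7bc51d_an_s.BLine
import Pool.Agent.Lib.MP_7bc51d_an_s.BLineFn
import Pool.Agent.Lib.MP_7bc51d_an_s.DenseDefs

namespace Pool.Agent.Lib.Bil
end Pool.Agent.Lib.Bil
namespace Pool.Agent.Lib.BilD
end Pool.Agent.Lib.BilD

/-!
# Weak invariance of the extended function at good points (row TI)
-/

set_option autoImplicit false

namespace Pool.Agent.Lib.BilD.TI33

open Complex MeasureTheory Set Filter Topology
open scoped ComplexConjugate ContDiff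
open Pool.Agent.Lib.Bil Pool.Agent.Lib.BilD

variable {n : ℕ} {v : Fin n → ℂ}

/-! ### The bump -/

/-! ### Integrals along lines -/

/-! ### Geometry -/

theorem abs_cr_le33 (a b : ℂ) : |cr a b| ≤ ‖a‖ * ‖b‖ := by
  rw [cr_eq_im]
  refine (abs_im_le_norm _).trans ?_
  rw [norm_mul, RCLike.norm_conj]

theorem ds_lip33 {s : Fin n × Fin n} (he : ed v s ≠ 0) (x y : ℂ) :
    |ds v s x - ds v s y| ≤ ‖x - y‖ := by
  have hn : 0 < ‖ed v s‖ := norm_pos_iff.2 he
  unfold ds
  rw [← sub_div, abs_div, abs_norm, div_le_iff₀ hn, ← cr_sub_right]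
  have : x - v s.1 - (y - v s.1) = x - y := by ring
  rw [this, mul_comm]
  exact abs_cr_le33 _ _

theorem ds_Rs33 {s : Fin n × Fin n} (he : ed v s ≠ 0) (x : ℂ) :
    ds v s (Rs v s x) = - ds v s x := by
  unfold ds Rs RR
  rw [add_sub_cancel_left]
  have h := cr_rl he (ed v s) (x - v s.1)
  rw [rl_self he] at h
  change cr (ed v s) (rl (ed v s) (x - v s.1)) / ‖ed v s‖ = _
  rw [h, neg_div]

theorem norm_Rs_sub33 {s : Fin n × Fin n} (he : ed v s ≠ 0) (x : ℂ) :
    ‖Rs v s x - x‖ = 2 * |ds v s x| := by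
  have hc : conj (ed v s) ≠ 0 := by simpa using he
  have hn : 0 < ‖ed v s‖ := norm_pos_iff.2 he
  have h1 : Rs v s x - x = (-2 * I * (cr (ed v s) (x - v s.1) : ℂ)) / conj (ed v s) := by
    change v s.1 + rl (ed v s) (x - v s.1) - x = _
    rw [eq_div_iff hc]
    have h2 : v s.1 + rl (ed v s) (x - v s.1) - x =
        ed v s / conj (ed v s) * conj (x - v s.1) - (x - v s.1) := by
      unfold rl; ring
    rw [h2, sub_mul, mul_comm (ed v s / conj (ed v s)) _, mul_assoc, div_mul_cancel₀ _ hc]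
    apply Complex.ext
    · simp only [cr, mul_re, mul_im, sub_re, sub_im, conj_re, conj_im, neg_re, neg_im, ofReal_re,
        ofReal_im, I_re, I_im, re_ofNat, im_ofNat]
      ring
    · simp only [cr, mul_re, mul_im, sub_re, sub_im, conj_re, conj_im, neg_re, neg_im, ofReal_re,
        ofReal_im, I_re, I_im, re_ofNat, im_ofNat]
      ring
  rw [h1, norm_div, RCLike.norm_conj]
  unfold ds
  rw [abs_div, abs_norm, norm_mul, norm_mul, norm_neg, norm_real, norm_I, Real.norm_eq_abs]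
  simp only [Complex.norm_ofNat, mul_one]
  ring

theorem ds_comb33 (s : Fin n × Fin n) {a b : ℝ} (hab : a + b = 1) (x y : ℂ) :
    ds v s ((a : ℂ) * x + (b : ℂ) * y) = a * ds v s x + b * ds v s y := by
  unfold ds
  have h : (a : ℂ) * x + (b : ℂ) * y - v s.1 =
      (a : ℂ) * (x - v s.1) + (b : ℂ) * (y - v s.1) := by
    have : (a : ℂ) + (b : ℂ) = 1 := by exact_mod_cast hab
    linear_combination (v s.1) * this
  rw [h, cr_add_right, cr_smul_right, cr_smul_right]
  ring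

theorem not_mem_OO33 {C e0 : ℝ} (hg : Geo v C e0) {t : Fin n × Fin n} (ht : t ∈ SD v) {y : ℂ}
    (hy : 0 < ds v t y) : y ∉ OO v t := by
  intro h
  have h1 := (hg.pp _).1 h t ht
  rw [ds_Rs33 (hg.edn t ht)] at h1
  linarith

/-- The value on the positive side. -/
theorem gx_pos33 {C e0 : ℝ} (hg : Geo v C e0) (F : ℂ → ℝ → ℝ) {y : ℂ}
    (hy : ∀ t ∈ SD v, 0 < ds v t y) (w : ℂ) : gx v F y w = F w (cr w y) := by
  unfold gx
  rw [indicator_of_mem ((hg.pp y).2 hy), Finset.sum_eq_zero, add_zero]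
  intro t ht
  exact indicator_of_notMem (not_mem_OO33 hg ht (hy t ht)) _

/-- The value on the negative side. -/
theorem gx_neg33 {C e0 : ℝ} (hg : Geo v C e0) (F : ℂ → ℝ → ℝ) {s : Fin n × Fin n} (hs : s ∈ SD v)
    {y : ℂ} (hy0 : ds v s y < 0) (hy1 : ∀ t ∈ SD v, t ≠ s → 0 < ds v t y)
    (hy2 : Rs v s y ∈ PP v) (w : ℂ) :
    gx v F y w = F (rl (ed v s) w) (rfh v s w (cr w y)) := by
  unfold gx
  have h1 : y ∉ PP v := fun h => by
    have := (hg.pp y).1 h s hs
    linarith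
  rw [indicator_of_notMem h1, zero_add, Finset.sum_eq_single s]
  · have h2 : y ∈ OO v s := hy2
    rw [indicator_of_mem h2]
    have h3 := rfh_eq (v := v) s (hg.edn s hs) w y
    change F (rl (ed v s) w) (cr (rl (ed v s) w) (RR v s.1 s.2 y)) = _
    rw [← h3]
    rfl
  · intro t ht hts
    exact indicator_of_notMem (not_mem_OO33 hg ht (hy1 t ht hts)) _
  · intro h
    exact absurd hs h

theorem norm_lt_of33 {C e0 : ℝ} (hg : Geo v C e0) {ε : ℝ} {x y : ℂ} (hxy : ‖x - y‖ ≤ ε)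
    {t : Fin n × Fin n} (ht : t ∈ SD v) : ds v t x - ε ≤ ds v t y := by
  have h := ds_lip33 (hg.edn t ht) x y
  have h2 := (abs_le.1 h).2
  linarith

theorem ae_ds_ne33 {C e0 : ℝ} (hg : Geo v C e0) {s : Fin n × Fin n} (hs : s ∈ SD v) {w : ℂ}
    (hc : cr (ed v s) w ≠ 0) (Q : ℝ) : ∀ᵐ r : ℝ, ds v s (chi w (Q, r)) ≠ 0 := by
  have hn : ‖ed v s‖ ≠ 0 := norm_ne_zero_iff.2 (hg.edn s hs)
  have h1 : ({r : ℝ | ¬ ds v s (chi w (Q, r)) ≠ 0}).Subsingleton := by
    intro a ha b hb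
    simp only [ne_eq, not_not, mem_ofPred_eq] at ha hb
    unfold ds at ha hb
    rw [div_eq_zero_iff] at ha hb
    have ha' := ha.resolve_right hn
    have hb' := hb.resolve_right hn
    unfold chi at ha' hb'
    rw [cr_sub_right, cr_add_right, cr_smul_right] at ha' hb'
    have h2 : (a - b) * cr (ed v s) w = 0 := by
      simp only at ha' hb'
      linarith
    have h3 := (mul_eq_zero.1 h2).resolve_right hc
    linarith
  exact h1.measure_zero volume

end Pool.Agent.Lib.BilD.TI33
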