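import Pool.Agent.Lib.MP_7bc51d_an_s.BGeom
import Pool.Agent.Lib.MP_7bc51d_an_s.BLine
import Pool.Agent.Lib.MP_7bc51d_an_s.BTraj
import Pool.Agent.Lib.MP_7bc51d_an_s.DenseDefs
import Pool.Agent.Lib.MP_7bc51d_an_s.DenseTI33

namespace Pool.Agent.Lib.Bil
end Pool.Agent.Lib.Bil
namespace Pool.Agent.Lib.BilD
end Pool.Agent.Lib.BilD
namespace Pool.Agent.Lib.BilD.Erg45
end Pool.Agent.Lib.BilD.Erg45
namespace Pool.Agent.Lib.BilD.TI33
end Pool.Agent.Lib.BilD.TI33

/-!
# The position gradient of the mollified function is constant along the billiard flow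
-/

set_option autoImplicit false

namespace Pool.Agent.Lib.BilD.Inv45

open Complex MeasureTheory Set Filter Topology
open scoped ComplexConjugate ENNReal
open Pool.Agent.Lib.Bil Pool.Agent.Lib.BilD Pool.Agent.Lib.BilD.TI33 Pool.Agent.Lib.BilD.Erg45

variable {n : ℕ} {v : Fin n → ℂ} {F : ℂ → ℝ → ℝ} {C e0 ε : ℝ}

theorem const_int (hg : Geo v C e0) (F : ℂ → ℝ → ℝ) (hε : 0 < ε) {x : ℂ}
    (hx : x ∈ Int1 v ε) {w : ℂ} (hw : w ≠ 0) (Q : ℝ) :
    ∃ c : ℝ, ∀ᵐ s : ℝ, ‖x - chi w (Q, s)‖ ≤ 5 / 4 * ε → gx v F (chi w (Q, s)) w = c := by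
  refine ⟨F w Q, Eventually.of_forall (fun s hs => ?_)⟩
  have h1 : ∀ t ∈ SD v, 0 < ds v t (chi w (Q, s)) := by
    intro t ht
    have := norm_lt_of33 hg hs ht
    have := hx t ht
    linarith
  rw [gx_pos33 hg F h1, cr_chi hw]

theorem const_side (hg : Geo v C e0) {F : ℂ → ℝ → ℝ} {ε : ℝ} (hε : 0 < ε)
    {x : ℂ} {s : Fin n × Fin n} (hs : s ∈ SD v) (hx : x ∈ Nr v ε s) {w : ℂ} (hw : w ≠ 0)
    (hc : cr (ed v s) w ≠ 0)
    (hsym : ∀ᵐ τ : ℝ, τ ∈ Ioo (0 : ℝ) 1 →
      F (rl (ed v s) w) (cr (rl (ed v s) w) (v s.1 + (τ : ℂ) * ed v s)) =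
        F w (cr w (v s.1 + (τ : ℂ) * ed v s))) :
    ∀ᵐ Q : ℝ, ∃ c : ℝ, ∀ᵐ r : ℝ, ‖x - chi w (Q, r)‖ ≤ 5 / 4 * ε →
      gx v F (chi w (Q, r)) w = c := by
  have he := hg.edn s hs
  have hc' : cr w (ed v s) ≠ 0 := by rw [cr_swap]; exact neg_ne_zero.2 hc
  have hq : Measure.QuasiMeasurePreserving (fun q : ℝ => (q - cr w (v s.1)) / cr w (ed v s))
      volume volume := by
    have g1 : Measure.QuasiMeasurePreserving (fun q : ℝ => q - cr w (v s.1)) volume volume :=
      (measurePreserving_sub_right volume (cr w (v s.1))).quasiMeasurePreserving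
    have g2 : Measure.QuasiMeasurePreserving (fun q : ℝ => (cr w (ed v s))⁻¹ * q)
        volume volume := by
      refine ⟨by fun_prop, ?_⟩
      rw [Real.map_volume_mul_left (inv_ne_zero hc')]
      exact Measure.smul_absolutelyContinuous
    have g3 := g2.comp g1
    have g4 : (fun q : ℝ => (q - cr w (v s.1)) / cr w (ed v s)) =
        (fun q : ℝ => (cr w (ed v s))⁻¹ * q) ∘ (fun q : ℝ => q - cr w (v s.1)) := by
      funext q
      simp only [Function.comp]
      rw [div_eq_inv_mul]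
    rw [g4]
    exact g3
  filter_upwards [hq.ae hsym] with Q hQ
  -- other sides are far away
  have hoth : ∀ y : ℂ, ‖x - y‖ ≤ 5 / 4 * ε → ∀ t ∈ SD v, t ≠ s → 31 / 4 * ε < ds v t y := by
    intro y hy t ht hts
    have h1 := norm_lt_of33 hg hy ht
    have h2 := hx.2 t ht hts
    linarith
  have hsmall : ∀ y : ℂ, ‖x - y‖ ≤ 5 / 4 * ε → |ds v s y| < 13 / 4 * ε := by
    intro y hy
    have h1 := abs_le.1 (ds_lip33 he x y)
    have h2 := abs_lt.1 hx.1
    rw [abs_lt]
    constructor <;> linarith [h1.1, h1.2, h2.1, h2.2]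
  have hpos : ∀ y : ℂ, ‖x - y‖ ≤ 5 / 4 * ε → 0 < ds v s y → gx v F y w = F w (cr w y) := by
    intro y hy h0
    apply gx_pos33 hg
    intro t ht
    by_cases hts : t = s
    · rw [hts]; exact h0
    · have := hoth y hy t ht hts
      linarith
  have hneg : ∀ y : ℂ, ‖x - y‖ ≤ 5 / 4 * ε → ds v s y < 0 →
      gx v F y w = F (rl (ed v s) w) (rfh v s w (cr w y)) := by
    intro y hy h0
    apply gx_neg33 hg F hs h0
    · intro t ht hts
      have := hoth y hy t ht hts
      linarith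
    · rw [hg.pp]
      intro t ht
      by_cases hts : t = s
      · rw [hts, ds_Rs33 he]; linarith
      · have h1 := abs_le.1 (ds_lip33 (hg.edn t ht) (Rs v s y) y)
        rw [norm_Rs_sub33 he] at h1
        have h2 := hsmall y hy
        have h3 := hoth y hy t ht hts
        linarith [h1.1]
  classical
  by_cases hex : ∃ r : ℝ, ‖x - chi w (Q, r)‖ ≤ 5 / 4 * ε ∧ 0 < ds v s (chi w (Q, r))
  · obtain ⟨r2, hr2, hd2⟩ := hex
    refine ⟨F w Q, ?_⟩
    filter_upwards [ae_ds_ne33 hg hs hc Q] with r hr hr1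
    rcases lt_or_gt_of_ne hr with h0 | h0
    · rw [hneg _ hr1 h0, cr_chi hw]
      -- the crossing point
      set y1 := chi w (Q, r) with hy1
      set y2 := chi w (Q, r2) with hy2
      set d1 := ds v s y1 with hd1'
      set d2 := ds v s y2 with hd2'
      have hd : 0 < d2 - d1 := by linarith
      set a : ℝ := d2 / (d2 - d1) with ha
      set b : ℝ := -d1 / (d2 - d1) with hb
      have hab : a + b = 1 := by
        rw [ha, hb]; field_simp; ring
      have ha0 : 0 ≤ a := by rw [ha]; exact div_nonneg hd2.le hd.le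
      have hb0 : 0 ≤ b := by rw [hb]; exact div_nonneg (by linarith) hd.le
      set z : ℂ := (a : ℂ) * y1 + (b : ℂ) * y2 with hz
      have hz0 : ds v s z = 0 := by
        rw [hz, ds_comb33 s hab, ← hd1', ← hd2', ha, hb]
        field_simp
        ring
      have hzx : ‖x - z‖ ≤ 5 / 4 * ε := by
        have h1 : x - z = (a : ℂ) * (x - y1) + (b : ℂ) * (x - y2) := by
          have : (a : ℂ) + (b : ℂ) = 1 := by exact_mod_cast hab
          rw [hz]
          linear_combination (-x) * this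
        rw [h1]
        refine (norm_add_le _ _).trans ?_
        rw [norm_mul, norm_mul, norm_real, norm_real, Real.norm_of_nonneg ha0,
          Real.norm_of_nonneg hb0]
        have h2 := mul_le_mul_of_nonneg_left hr1 ha0
        have h3 := mul_le_mul_of_nonneg_left hr2 hb0
        calc a * ‖x - y1‖ + b * ‖x - y2‖ ≤ a * (5 / 4 * ε) + b * (5 / 4 * ε) :=
              add_le_add h2 h3
          _ = 5 / 4 * ε := by rw [← add_mul, hab, one_mul]
      have hzQ : cr w z = Q := by
        rw [hz, cr_add_right, cr_smul_right, cr_smul_right, hy1, hy2, cr_chi hw, cr_chi hw]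
        simp only
        rw [← add_mul, hab, one_mul]
      obtain ⟨τ, hτ, hτz⟩ := hg.onside s hs z hz0 (fun t ht hts => by
        have := hoth z hzx t ht hts
        linarith)
      have hτQ : (Q - cr w (v s.1)) / cr w (ed v s) = τ := by
        rw [← hzQ, hτz, cr_add_right, cr_smul_right, add_sub_cancel_left]
        field_simp
      rw [hτQ] at hQ
      have h5 := hQ hτ
      rw [← hτz, hzQ] at h5
      rw [← h5]
      congr 1
      have h6 := rfh_eq (v := v) s he w z
      rw [hzQ] at h6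
      rw [← h6]
      have h7 : RR v s.1 s.2 z = z := by
        rw [hτz]
        exact RR_line he τ
      rw [h7]
      rfl
    · rw [hpos _ hr1 h0, cr_chi hw]
  · push Not at hex
    refine ⟨F (rl (ed v s) w) (rfh v s w Q), ?_⟩
    filter_upwards [ae_ds_ne33 hg hs hc Q] with r hr hr1
    have h0 : ds v s (chi w (Q, r)) < 0 := lt_of_le_of_ne (hex r hr1) hr
    rw [hneg _ hr1 h0, cr_chi hw]

end Pool.Agent.Lib.BilD.Inv45
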