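import Pool.Agent.Lib.MP_7bc51d_an_s.DenseBasic
import Pool.Agent.Lib.MP_7bc51d_an_s.DenseDefs

namespace Pool.Agent.Lib.Bil
end Pool.Agent.Lib.Bil
namespace Pool.Agent.Lib.BilD
end Pool.Agent.Lib.BilD

set_option autoImplicit false

namespace Pool.Agent.Lib.BilD.Lim89

open Complex MeasureTheory Set Filter Topology
open scoped ComplexConjugate
open Pool.Agent.Lib.Bil Pool.Agent.Lib.BilD

variable {n : ℕ} {v : Fin n → ℂ} {F : ℂ → ℝ → ℝ} {C e0 ε : ℝ}

/-! ### the bump -/

/-- total mass of the bump -/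
noncomputable def Z0 : ℝ := ∫ y, et 1 y

theorem et_cont (ε : ℝ) : Continuous (et ε) := (et_contDiff ε).continuous

theorem et_int (hε : 0 < ε) : Integrable (et ε) :=
  (et_cont ε).integrable_of_hasCompactSupport (et_compact hε)

theorem Z0_pos : 0 < Z0 := by
  unfold Z0
  rw [integral_pos_iff_support_of_nonneg (et_nonneg 1) (et_int one_pos), et_supp one_pos]
  exact Metric.measure_ball_pos _ _ one_pos

theorem et_total (hε : 0 < ε) : ∫ y, et ε y = Z0 := by
  have h1 : ∫ y, et ε y = ∫ y, (ε ^ 2)⁻¹ * et 1 ((ε⁻¹ : ℝ) • y) :=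
    integral_congr_ae (Eventually.of_forall (fun y => et_scale hε y))
  rw [h1, integral_const_mul, Measure.integral_comp_inv_smul, Complex.finrank_real_complex,
    abs_of_pos (by positivity), smul_eq_mul, ← mul_assoc, inv_mul_cancel₀ (by positivity), one_mul]
  rfl

theorem et_total_sub (hε : 0 < ε) (z : ℂ) : ∫ y, et ε (y - z) = Z0 := by
  rw [integral_sub_right_eq_self (et ε) z, et_total hε]

theorem et_sub_comm (ε : ℝ) (y z : ℂ) : et ε (y - z) = et ε (z - y) := by
  rw [← et_neg, neg_sub]

theorem et_int_sub (hε : 0 < ε) (z : ℂ) : Integrable (fun y => et ε (y - z)) :=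
  (et_int hε).comp_sub_right z

theorem et_total_sub' (hε : 0 < ε) (z : ℂ) : ∫ y, et ε (z - y) = Z0 := by
  rw [← et_total_sub hε z]
  exact integral_congr_ae (Eventually.of_forall (fun y => et_sub_comm ε z y))

/-! ### test functions -/

/-- integration by parts -/
theorem K2 {φ u : ℂ → ℝ} (hφ : ContDiff ℝ 1 φ) (hφc : HasCompactSupport φ) (hu : ContDiff ℝ 1 u)
    (h : ℂ) : ∫ y, fderiv ℝ φ y h * u y = - ∫ y, fderiv ℝ u y h * φ y := by
  have h1 : ∫ y, u y * fderiv ℝ φ y h = - ∫ y, fderiv ℝ u y h * φ y := by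
    have c1 : Continuous (fun y => fderiv ℝ φ y h) :=
      (hφ.continuous_fderiv one_ne_zero).clm_apply continuous_const
    have c2 : Continuous (fun y => fderiv ℝ u y h) :=
      (hu.continuous_fderiv one_ne_zero).clm_apply continuous_const
    have s1 : HasCompactSupport (fun y => fderiv ℝ φ y h) := hφc.fderiv_apply ℝ h
    apply integral_mul_fderiv_eq_neg_fderiv_mul_of_integrable
    · exact (c2.mul hφ.continuous).integrable_of_hasCompactSupport hφc.mul_left
    · exact (hu.continuous.mul c1).integrable_of_hasCompactSupport s1.mul_left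
    · exact (hu.continuous.mul hφ.continuous).integrable_of_hasCompactSupport hφc.mul_left
    · exact fun x _ => hu.differentiable one_ne_zero x
    · exact fun x _ => hφ.differentiable one_ne_zero x
  rw [← h1]
  exact integral_congr_ae (Eventually.of_forall (fun y => mul_comm _ _))

/-! ### the mode 0 -/

/-! ### the derivative of the mollification vanishes -/

/-- the test function -/
noncomputable def ph (d : ℝ) (x0 y : ℂ) : ℝ := et d (x0 - y)

theorem ph_contDiff (d : ℝ) (x0 : ℂ) : ContDiff ℝ 2 (ph d x0) :=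
  ((et_contDiff d).of_le (WithTop.coe_le_coe.2 le_top)).comp
    (contDiff_const.sub contDiff_id)

theorem ph_zero {d : ℝ} (hd : 0 < d) {x0 y : ℂ} (hy : y ∉ Metric.closedBall x0 d) :
    ph d x0 y = 0 := by
  rw [Metric.mem_closedBall, dist_eq_norm, not_le, ← norm_neg, neg_sub] at hy
  exact et_zero hd hy.le

theorem ph_compact {d : ℝ} (hd : 0 < d) (x0 : ℂ) : HasCompactSupport (ph d x0) :=
  HasCompactSupport.intro (isCompact_closedBall x0 d) (fun _ hy => ph_zero hd hy)

theorem ph_nonneg (d : ℝ) (x0 y : ℂ) : 0 ≤ ph d x0 y := et_nonneg _ _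

theorem fderiv_ph (d : ℝ) (x0 y h : ℂ) :
    fderiv ℝ (ph d x0) y h = - fderiv ℝ (et d) (x0 - y) h := by
  have h1 : HasFDerivAt (fun y : ℂ => x0 - y) (-(ContinuousLinearMap.id ℝ ℂ)) y :=
    (hasFDerivAt_id y).const_sub x0
  have h2 : HasFDerivAt (et d) (fderiv ℝ (et d) (x0 - y)) (x0 - y) :=
    ((et_contDiff d).differentiable (by simp) _).hasFDerivAt
  have h3 := (h2.comp y h1).fderiv
  have h4 : fderiv ℝ (ph d x0) y = (fderiv ℝ (et d) (x0 - y)).comp
      (-(ContinuousLinearMap.id ℝ ℂ)) := h3
  rw [h4]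
  simp

theorem amgm {a p D t : ℝ} (ha : |a| ≤ 2 * D) (hp : 0 ≤ p) (ht : 0 < t) :
    |a| * p ≤ t * p ^ 2 + 1 / t * D ^ 2 := by
  have h3 : |a| * p ≤ 2 * D * p := mul_le_mul_of_nonneg_right ha hp
  have h4 : t * p ^ 2 + 1 / t * D ^ 2 - 2 * D * p = (t * p - D) ^ 2 / t := by
    field_simp
    ring
  have h5 : 0 ≤ (t * p - D) ^ 2 / t := by positivity
  linarith

/-! ### the mode 0 is constant -/

/-- difference of the mollification and the value -/
theorem leb_est {g : ℂ → ℝ} (hg : Integrable g) (x : ℂ) {d : ℝ} (hd : 0 < d) :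
    |(∫ z, et d (x - z) * g z) - Z0 * g x| ≤
      Real.pi * ⨍ y in Metric.closedBall x d, ‖g y - g x‖ := by
  have hb : (volume (Metric.closedBall x d)).toReal = Real.pi * d ^ 2 := by
    rw [Complex.volume_closedBall]
    simp [ENNReal.toReal_mul, hd.le, mul_comm]
  have hlt : volume (Metric.closedBall x d) ≠ ⊤ := (isCompact_closedBall x d).measure_lt_top.ne
  have hi1 : Integrable (fun z => et d (x - z) * g z) := by
    refine Integrable.mono (hg.const_mul ((d ^ 2)⁻¹)) ?_ (Eventually.of_forall (fun z => ?_))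
    · exact (((et_cont d).comp (continuous_const.sub continuous_id)).aestronglyMeasurable).mul
        hg.aestronglyMeasurable
    · rw [norm_mul, norm_mul, Real.norm_eq_abs, Real.norm_eq_abs, abs_of_nonneg (et_nonneg d _),
        Real.norm_eq_abs, abs_of_nonneg (show 0 ≤ (d ^ 2)⁻¹ by positivity)]
      exact mul_le_mul_of_nonneg_right (et_le d _) (abs_nonneg _)
  have hi2 : Integrable (fun z => et d (x - z) * g x) := by
    have h1 : Integrable (fun z => et d (z - x) * g x) := (et_int_sub hd x).mul_const _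
    refine h1.congr (Eventually.of_forall (fun z => ?_))
    simp only
    rw [et_sub_comm]
  have e1 : Z0 * g x = ∫ z, et d (x - z) * g x := by
    rw [integral_mul_const, et_total_sub' hd]
  have hi3 : IntegrableOn (fun y => ‖g y - g x‖) (Metric.closedBall x d) :=
    (hg.integrableOn.sub (integrableOn_const hlt)).norm
  have hi4 : IntegrableOn (fun y => (d ^ 2)⁻¹ * ‖g y - g x‖) (Metric.closedBall x d) :=
    hi3.const_mul _
  rw [e1, ← integral_sub hi1 hi2]
  have h1 : |∫ z, (et d (x - z) * g z - et d (x - z) * g x)| ≤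
      ∫ z, (Metric.closedBall x d).indicator (fun y => (d ^ 2)⁻¹ * ‖g y - g x‖) z := by
    rw [← Real.norm_eq_abs]
    refine norm_integral_le_of_norm_le (hi4.integrable_indicator
      Metric.isClosed_closedBall.measurableSet) (Eventually.of_forall (fun z => ?_))
    rw [← mul_sub, norm_mul, Real.norm_eq_abs, abs_of_nonneg (et_nonneg d _)]
    by_cases hz : z ∈ Metric.closedBall x d
    · rw [indicator_of_mem hz]
      exact mul_le_mul_of_nonneg_right (et_le d _) (norm_nonneg _)
    · rw [indicator_of_notMem hz]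
      rw [Metric.mem_closedBall, dist_eq_norm, not_le, ← norm_neg, neg_sub] at hz
      rw [et_zero hd hz.le, zero_mul]
  rw [integral_indicator Metric.isClosed_closedBall.measurableSet, integral_const_mul] at h1
  refine h1.trans (le_of_eq ?_)
  rw [setAverage_eq, Measure.real, hb, smul_eq_mul]
  field_simp

end Pool.Agent.Lib.BilD.Lim89
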