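import Pool.Agent.Lib.MP_7bc51d_an_s.BGeom
import Pool.Agent.Lib.MP_7bc51d_an_s.BStep
import Pool.Agent.Lib.MP_7bc51d_an_s.DenseDefs

namespace Pool.Agent.Lib.Bil
end Pool.Agent.Lib.Bil
namespace Pool.Agent.Lib.BilD
end Pool.Agent.Lib.BilD

/-!
Row REFL: reflection of the mollified modes at a side.
-/

set_option autoImplicit false

namespace Pool.Agent.Lib.BilD.Refl5

open Complex MeasureTheory Set Filter Topology
open scoped ComplexConjugate
open Pool.Agent.Lib.Bil Pool.Agent.Lib.BilD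

variable {n : ℕ} {v : Fin n → ℂ}

theorem Rs_def (s : Fin n × Fin n) (x : ℂ) : Rs v s x = v s.1 + rl (ed v s) (x - v s.1) := rfl

theorem Rs_Rs {s : Fin n × Fin n} (h : ed v s ≠ 0) (x : ℂ) : Rs v s (Rs v s x) = x :=
  RR_RR v h x

theorem mp_Rs {s : Fin n × Fin n} (h : ed v s ≠ 0) :
    MeasurePreserving (Rs v s) volume volume := mp_RR h

theorem norm_Rs_sub {s : Fin n × Fin n} (h : ed v s ≠ 0) (x y : ℂ) :
    ‖Rs v s x - Rs v s y‖ = ‖x - y‖ := by
  rw [Rs_def, Rs_def]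
  have : v s.1 + rl (ed v s) (x - v s.1) - (v s.1 + rl (ed v s) (y - v s.1)) =
      rl (ed v s) (x - y) := by
    rw [add_sub_add_left_eq_sub, ← rl_sub]; congr 1; ring
  rw [this, norm_rl h]

theorem ds_sub_le {s : Fin n × Fin n} (x y : ℂ) : |ds v s x - ds v s y| ≤ ‖x - y‖ := by
  unfold ds
  by_cases h : ed v s = 0
  · rw [h, cr_zero_left, cr_zero_left]; simp
  have hn : 0 < ‖ed v s‖ := norm_pos_iff.2 h
  rw [← sub_div, ← cr_sub_right, sub_sub_sub_cancel_right, abs_div, abs_norm,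
    div_le_iff₀ hn]
  rw [cr_eq_im]
  calc |(conj (ed v s) * (x - y)).im| ≤ ‖conj (ed v s) * (x - y)‖ := abs_im_le_norm _
    _ = ‖x - y‖ * ‖ed v s‖ := by rw [norm_mul, RCLike.norm_conj, mul_comm]

theorem ds_Rs {s : Fin n × Fin n} (h : ed v s ≠ 0) (x : ℂ) : ds v s (Rs v s x) = - ds v s x := by
  unfold ds
  rw [Rs_def, add_sub_cancel_left, ← neg_div]
  congr 1
  have := cr_rl h (ed v s) (x - v s.1)
  rwa [rl_self h] at this

theorem sub_Rs {s : Fin n × Fin n} (h : ed v s ≠ 0) (x : ℂ) :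
    ‖x - Rs v s x‖ = 2 * |ds v s x| := by
  have hn : 0 < ‖ed v s‖ := norm_pos_iff.2 h
  have hc : conj (ed v s) ≠ 0 := by simpa using h
  rw [Rs_def]
  set e := ed v s with he
  set z := x - v s.1 with hz
  have e1 : x - (v s.1 + rl e z) = z - rl e z := by rw [hz]; ring
  have e2 : z - rl e z = (2 * ((cr e z : ℝ) : ℂ) * I) / conj e := by
    rw [cr_eq_im, rl]
    have h3 : ((2 * (conj e * z).im : ℝ) : ℂ) * I = conj e * z - conj (conj e * z) := by
      rw [Complex.sub_conj]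
    push_cast at h3
    rw [h3, map_mul, conj_conj]
    field_simp
  rw [e1, e2, norm_div, norm_mul, norm_mul, norm_I, mul_one, norm_real, RCLike.norm_conj,
    Real.norm_eq_abs]
  unfold ds
  rw [abs_div, abs_norm, ← hz, ← he]
  rw [Complex.norm_ofNat]
  ring

theorem Nr_ball {C e0 ε : ℝ} (G : Geo v C e0) (hε : 0 < ε) {s : Fin n × Fin n} (hs : s ∈ SD v)
    {x : ℂ} (hx : x ∈ Nr v ε s) {y : ℂ} (hy : ‖x - y‖ < ε) :
    (∀ t ∈ SD v, t ≠ s → 0 < ds v t y) ∧ (∀ t ∈ SD v, t ≠ s → 0 < ds v t (Rs v s y)) := by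
  have key : ∀ t ∈ SD v, t ≠ s → 8 * ε < ds v t y := by
    intro t ht hts
    have h1 := hx.2 t ht hts
    have h2 := (abs_le.1 (ds_sub_le (v := v) (s := t) x y)).2
    linarith
  refine ⟨fun t ht hts => by have := key t ht hts; linarith, fun t ht hts => ?_⟩
  have h1 := key t ht hts
  have h2 := (abs_le.1 (ds_sub_le (v := v) (s := t) y (Rs v s y))).2
  have h3 := sub_Rs (G.edn s hs) y
  have h4 : |ds v s y| < 3 * ε := by
    have h5 := ds_sub_le (v := v) (s := s) x y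
    have h6 := hx.1
    rw [abs_le] at h5
    rw [abs_lt] at h6 ⊢
    constructor <;> linarith
  linarith

theorem em_rl {e : ℂ} (he : e ≠ 0) (m : ℕ) (w : ℂ) :
    em m (rl e w) = (conj e / e) ^ m * conj (em m w) := by
  unfold em
  rw [norm_rl he]
  have h1 : conj (rl e w) = conj e / e * w := by
    simp only [rl, map_mul, map_div₀, conj_conj]
  rw [h1, map_pow, map_div₀, conj_conj, conj_ofReal, mul_div_assoc, mul_pow]

theorem et_zero {ε : ℝ} (hε : 0 < ε) {h : ℂ} (hh : ε ≤ ‖h‖) : et ε h = 0 := by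
  unfold et
  have h1 : 1 ≤ ‖h‖ ^ 2 / ε ^ 2 := by
    rw [one_le_div (by positivity)]
    exact pow_le_pow_left₀ hε.le hh 2
  rw [Real.smoothTransition.zero_of_nonpos (by linarith), mul_zero]

theorem et_norm {ε : ℝ} {h h' : ℂ} (hh : ‖h‖ = ‖h'‖) : et ε h = et ε h' := by
  unfold et
  rw [hh]

end Pool.Agent.Lib.BilD.Refl5
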