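import Pool.Agent.Lib.MP_7bc51d_an_s.BGeom
import Pool.Agent.Lib.MP_7bc51d_an_s.DenseDefs

namespace Pool.Agent.Lib.Bil
end Pool.Agent.Lib.Bil
namespace Pool.Agent.Lib.BilD
end Pool.Agent.Lib.BilD
namespace Pool.Agent.Lib.BilD.Refl5
end Pool.Agent.Lib.BilD.Refl5

/-!
Row SIDE: the mollified modes satisfy the boundary condition of the energy identity.
-/

set_option autoImplicit false

namespace Pool.Agent.Lib.BilD.Side5

open Complex MeasureTheory Set Filter Topology
open scoped ComplexConjugate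
open Pool.Agent.Lib.Bil Pool.Agent.Lib.BilD Pool.Agent.Lib.BilD.Refl5

variable {n : ℕ} {v : Fin n → ℂ}

theorem Nr_open (ε : ℝ) (s : Fin n × Fin n) : IsOpen (Nr v ε s) := by
  have hds : ∀ t : Fin n × Fin n, Continuous (ds v t) := by
    intro t
    unfold ds cr
    fun_prop
  have h1 : IsOpen {x | |ds v s x| < 2 * ε} := isOpen_lt (hds s).abs continuous_const
  have h2 : IsOpen (⋂ t ∈ (SD v).filter (fun t => t ≠ s), {x | 9 * ε < ds v t x}) :=
    isOpen_biInter_finset (fun t _ => isOpen_lt continuous_const (hds t))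
  have h3 : Nr v ε s = {x | |ds v s x| < 2 * ε} ∩
      ⋂ t ∈ (SD v).filter (fun t => t ≠ s), {x | 9 * ε < ds v t x} := by
    ext x
    simp only [Nr, mem_ofPred_eq, mem_inter_iff, mem_iInter, Finset.mem_filter, and_imp]
  rw [h3]
  exact h1.inter h2

/-- The boundary condition from the reflection symmetry. -/
theorem im_zero {u : ℂ → ℂ} {x e c : ℂ} (hu : DifferentiableAt ℝ u x) (hc : ‖c‖ = 1)
    (h : ∀ᶠ t : ℝ in 𝓝 0, u (x + (t : ℂ) * e) = c * conj (u (x + (t : ℂ) * e))) :
    (conj (u x) * fderiv ℝ u x e).im = 0 := by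
  have h0 : u x = c * conj (u x) := by
    have := h.self_of_nhds
    simpa using this
  have hd : HasDerivAt (fun t : ℝ => u (x + (t : ℂ) * e)) (fderiv ℝ u x e) 0 := by
    have h1 : HasDerivAt (fun t : ℝ => x + (t : ℂ) * e) e 0 := by
      have := ((hasDerivAt_id (0 : ℝ)).ofReal_comp.mul_const e).const_add x
      simpa using this
    have h2 : HasFDerivAt u (fderiv ℝ u x) (x + ((0 : ℝ) : ℂ) * e) := by
      simpa using hu.hasFDerivAt
    exact h2.comp_hasDerivAt 0 h1
  have hd2 : HasDerivAt (fun t : ℝ => c * conj (u (x + (t : ℂ) * e)))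
      (c * conj (fderiv ℝ u x e)) 0 := by
    have h1 : HasDerivAt (fun t : ℝ => conj (u (x + (t : ℂ) * e))) (conj (fderiv ℝ u x e)) 0 :=
      hd.star
    exact h1.const_mul c
  have heq : fderiv ℝ u x e = c * conj (fderiv ℝ u x e) := by
    have h3 := hd2.congr_of_eventuallyEq h
    exact hd.unique h3
  set D := fderiv ℝ u x e with hD
  have hcc : conj c * c = 1 := by
    rw [← Complex.normSq_eq_conj_mul_self, Complex.normSq_eq_norm_sq, hc]; simp
  have h5 : conj (u x) * D = conj (conj (u x) * D) := by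
    calc conj (u x) * D = conj (c * conj (u x)) * (c * conj D) := by rw [← h0, ← heq]
      _ = (conj c * c) * conj (conj (u x) * D) := by
        simp only [map_mul, conj_conj]; ring
      _ = conj (conj (u x) * D) := by rw [hcc, one_mul]
  exact Complex.conj_eq_iff_im.1 h5.symm

end Pool.Agent.Lib.BilD.Side5
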