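import Pool.Agent.Lib.MP_7bc51d_an_s.BGeom
import Pool.Agent.Lib.MP_7bc51d_an_s.BPoly
import Pool.Agent.Lib.MP_7bc51d_an_s.DenseDefs

namespace Pool.Agent.Lib.Bil
end Pool.Agent.Lib.Bil
namespace Pool.Agent.Lib.BilD
end Pool.Agent.Lib.BilD

set_option autoImplicit false

namespace Pool.Agent.Lib.BilD.Tel74

open Complex MeasureTheory Set Filter Topology
open scoped ComplexConjugate
open Pool.Agent.Lib.Bil Pool.Agent.Lib.BilD

variable {n : ℕ} {v : Fin n → ℂ} {F : ℂ → ℝ → ℝ} {C e0 ε : ℝ}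

theorem dz_cont {u : ℂ → ℂ} (hu : ContDiff ℝ 2 u) : Continuous (dz u) := by
  have h : Continuous (fderiv ℝ u) := hu.continuous_fderiv (by norm_num)
  unfold dz
  have h1 : Continuous (fun x => fderiv ℝ u x 1) := h.clm_apply continuous_const
  have h2 : Continuous (fun x => fderiv ℝ u x I) := h.clm_apply continuous_const
  fun_prop

theorem dzb_cont {u : ℂ → ℂ} (hu : ContDiff ℝ 2 u) : Continuous (dzb u) := by
  have h : Continuous (fderiv ℝ u) := hu.continuous_fderiv (by norm_num)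
  unfold dzb
  have h1 : Continuous (fun x => fderiv ℝ u x 1) := h.clm_apply continuous_const
  have h2 : Continuous (fun x => fderiv ℝ u x I) := h.clm_apply continuous_const
  fun_prop

theorem dz_le {u : ℂ → ℂ} (x : ℂ) : ‖dz u x‖ ≤ ‖fderiv ℝ u x‖ := by
  unfold dz
  have h1 : ‖fderiv ℝ u x 1‖ ≤ ‖fderiv ℝ u x‖ := by
    have := (fderiv ℝ u x).le_opNorm 1
    simpa using this
  have h2 : ‖fderiv ℝ u x I‖ ≤ ‖fderiv ℝ u x‖ := by
    have := (fderiv ℝ u x).le_opNorm I
    simpa using this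
  have h3 : ‖fderiv ℝ u x 1 - I * fderiv ℝ u x I‖ ≤ ‖fderiv ℝ u x 1‖ + ‖fderiv ℝ u x I‖ := by
    refine (norm_sub_le _ _).trans ?_
    rw [norm_mul, norm_I, one_mul]
  rw [norm_div]
  simp only [RCLike.norm_ofNat]
  linarith

theorem intOn_cont {g : ℂ → ℝ} (hg : Continuous g) : IntegrableOn g (PP v) := by
  have h1 : IntegrableOn g (KK v) := hg.continuousOn.integrableOn_compact isCompact_KK
  exact h1.mono_set PP_sub_KK

end Pool.Agent.Lib.BilD.Tel74
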