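import Pool.Agent.Lib.MP_7bc51d_an_s.BCode
import Pool.Agent.Lib.MP_7bc51d_an_s.BGeom
import Pool.Agent.Lib.MP_7bc51d_an_s.BTraj

namespace Pool.Agent.Lib.Bil
end Pool.Agent.Lib.Bil
namespace Pool.Agent.Lib.BilD
end Pool.Agent.Lib.BilD

/-!
# Ergodicity: anisotropic distance to the vertices and cutoff in phase space (definitions, rows)
-/

set_option autoImplicit false

namespace Pool.Agent.Lib.BilE

open Complex MeasureTheory Set Filter Topology
open scoped ComplexConjugate ENNReal
open Pool.Agent.Lib.Bil Pool.Agent.Lib.BilD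

variable {n : ℕ}

/-- Time of the last crossing of the code `g` (the most recent side comes first). -/
noncomputable def tau (v : Fin n → ℂ) (x w : ℂ) : List (Fin n × Fin n) → ℝ
  | [] => 0
  | s :: g => - cr (v s.2 - v s.1) (Fo v g x - v s.1) / cr (v s.2 - v s.1) (Lo v g w)

/-- Cost of reaching the vertex `l` from `(x, w)`: `a` times the distance travelled to the chord `g`
plus `b` times the distance of the line of this chord to the vertex. -/
noncomputable def cst (v : Fin n → ℂ) (a b : ℝ) (x w : ℂ) (g : List (Fin n × Fin n))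
    (l : Fin n) : ℝ :=
  a * (tau v x w g * ‖w‖) + b * (|cr (Lo v g w) (v l - Fo v g x)| / ‖w‖)

/-- All costs, forward and backward in time. -/
def Cst (v : Fin n → ℂ) (a b : ℝ) (x w : ℂ) : Set ℝ :=
  {c | ∃ (g : List (Fin n × Fin n)) (l : Fin n),
    (Rz v g x w ∧ c = cst v a b x w g l) ∨ (Rz v g x (-w) ∧ c = cst v a b x (-w) g l)}

/-- Anisotropic distance to the vertices. -/
noncomputable def Da (v : Fin n → ℂ) (a b : ℝ) (x w : ℂ) : ℝ := sInf (Cst v a b x w)

/-! ### Row statements -/

end Pool.Agent.Lib.BilE
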