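import Pool.Agent.Lib.MP_7bc51d_an_s.BCode
import Pool.Agent.Lib.MP_7bc51d_an_s.BExit
import Pool.Agent.Lib.MP_7bc51d_an_s.BGeom
import Pool.Agent.Lib.MP_7bc51d_an_s.BPoly
import Pool.Agent.Lib.MP_7bc51d_an_s.BTraj
import Pool.Agent.Lib.MP_7bc51d_an_s.ErgCutDefs5
import Pool.Agent.Lib.MP_7bc51d_an_s.ErgTau5

namespace Pool.Agent.Lib.Bil
end Pool.Agent.Lib.Bil
namespace Pool.Agent.Lib.BilD
end Pool.Agent.Lib.BilD
namespace Pool.Agent.Lib.BilE
end Pool.Agent.Lib.BilE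
namespace Pool.Agent.Lib.BilE.Tau5
end Pool.Agent.Lib.BilE.Tau5

/-!
# The anisotropic distance to the vertices: Lipschitz properties
-/

set_option autoImplicit false

namespace Pool.Agent.Lib.BilE.CutA5

open Complex MeasureTheory Set Filter Topology
open scoped ComplexConjugate ENNReal
open Pool.Agent.Lib.Bil Pool.Agent.Lib.BilD Pool.Agent.Lib.BilE Pool.Agent.Lib.BilE.Tau5

variable {n : ℕ} {v : Fin n → ℂ} {a b : ℝ}

/-! ### words -/

theorem Fo_app (g : List (Fin n × Fin n)) (s : Fin n × Fin n) (x : ℂ) :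
    Fo v (g ++ [s]) x = Fo v g (RR v s.1 s.2 x) := by
  induction g with
  | nil => rfl
  | cons t g ih =>
    change RR v t.1 t.2 (Fo v (g ++ [s]) x) = RR v t.1 t.2 (Fo v g (RR v s.1 s.2 x))
    rw [ih]

theorem Lo_app (g : List (Fin n × Fin n)) (s : Fin n × Fin n) (x : ℂ) :
    Lo v (g ++ [s]) x = Lo v g (rl (v s.2 - v s.1) x) := by
  induction g with
  | nil => rfl
  | cons t g ih =>
    change rl (v t.2 - v t.1) (Lo v (g ++ [s]) x) = rl (v t.2 - v t.1) (Lo v g _)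
    rw [ih]

theorem Rz_app1 (g : List (Fin n × Fin n)) (s : Fin n × Fin n) (x w : ℂ) :
    Rz v (g ++ [s]) x w ↔ (IsSide v s.1 s.2 ∧ cr w (v s.1) < cr w x ∧ cr w x < cr w (v s.2)) ∧
      Rz v g (RR v s.1 s.2 x) (rl (v s.2 - v s.1) w) := by
  induction g with
  | nil =>
    change (Rz v [] x w ∧ IsSide v s.1 s.2 ∧ cr w (v s.1) < cr w x ∧ cr w x < cr w (v s.2)) ↔ _
    simp [Rz]
  | cons t g ih =>
    change (Rz v (g ++ [s]) x w ∧ IsSide v t.1 t.2 ∧
      cr (Lo v (g ++ [s]) w) (v t.1) < cr (Lo v (g ++ [s]) w) (Fo v (g ++ [s]) x) ∧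
      cr (Lo v (g ++ [s]) w) (Fo v (g ++ [s]) x) < cr (Lo v (g ++ [s]) w) (v t.2)) ↔ _
    rw [ih, Fo_app, Lo_app]
    change _ ↔ _ ∧ (Rz v g (RR v s.1 s.2 x) (rl (v s.2 - v s.1) w) ∧ IsSide v t.1 t.2 ∧ _ ∧ _)
    tauto

theorem cr_line' (g : List (Fin n × Fin n)) (x w : ℂ) (t : ℝ) :
    cr (Lo v g w) (Fo v g (x + (t : ℂ) * w)) = cr (Lo v g w) (Fo v g x) := by
  have h := Fo_line (v := v) g x w 0 t
  rw [ofReal_zero, zero_mul, add_zero, zero_add] at h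
  rw [← h, cr_add_right, cr_smul_right, cr_self, mul_zero, add_zero]

theorem Rz_line' (g : List (Fin n × Fin n)) (x w : ℂ) (t : ℝ) :
    Rz v g (x + (t : ℂ) * w) w ↔ Rz v g x w := by
  induction g with
  | nil => exact Iff.rfl
  | cons s g ih =>
    change (Rz v g (x + (t : ℂ) * w) w ∧ _ ∧ _ ∧ _) ↔ (Rz v g x w ∧ _ ∧ _ ∧ _)
    rw [ih, cr_line']

theorem abs_cr_Lo (hv : ConvexIndependent ℝ v) {g : List (Fin n × Fin n)} (hg : Val v g)
    (x y : ℂ) : |cr (Lo v g x) (Lo v g y)| = |cr x y| := by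
  induction g with
  | nil => rfl
  | cons s g ih =>
    change |cr (rl (v s.2 - v s.1) (Lo v g x)) (rl (v s.2 - v s.1) (Lo v g y))| = _
    rw [cr_rl (v_sub_ne hv hg.head.1), abs_neg, ih hg.tail]

theorem abs_cr_le (x y : ℂ) : |cr x y| ≤ ‖x‖ * ‖y‖ := by
  rw [cr_eq_im]
  refine (abs_im_le_norm _).trans ?_
  rw [norm_mul, norm_conj]

theorem tau_line {s : Fin n × Fin n} {g : List (Fin n × Fin n)} {x w : ℂ}
    (h : cr (v s.2 - v s.1) (Lo v g w) ≠ 0) (t : ℝ) :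
    tau v (x + (t : ℂ) * w) w (s :: g) = tau v x w (s :: g) - t := by
  have h1 := Fo_line (v := v) g x w 0 t
  rw [ofReal_zero, zero_mul, add_zero, zero_add] at h1
  change -cr (v s.2 - v s.1) (Fo v g (x + (t : ℂ) * w) - v s.1) / _ =
    -cr (v s.2 - v s.1) (Fo v g x - v s.1) / _ - t
  rw [← h1, cr_sub_right, cr_sub_right, cr_add_right, cr_smul_right]
  field_simp
  ring

theorem tau_app {g : List (Fin n × Fin n)} (hg : g ≠ []) (s : Fin n × Fin n) (x w : ℂ) :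
    tau v x w (g ++ [s]) = tau v (RR v s.1 s.2 x) (rl (v s.2 - v s.1) w) g := by
  cases g with
  | nil => exact absurd rfl hg
  | cons t g =>
    change -cr (v t.2 - v t.1) (Fo v (g ++ [s]) x - v t.1) /
      cr (v t.2 - v t.1) (Lo v (g ++ [s]) w) = _
    rw [Fo_app, Lo_app]
    rfl

theorem tau_nonneg (hv : ConvexIndependent ℝ v) {g : List (Fin n × Fin n)} {x w : ℂ}
    (hx : x ∈ KK v) (h : Rz v g x w) : 0 ≤ tau v x w g := by
  rcases List.eq_nil_or_concat g with rfl | ⟨u, s, rfl⟩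
  · exact le_refl _
  · rw [List.concat_eq_append] at h ⊢
    have h1 : Rz v [s] x w := (Rz_app u [s] x w h).1
    have h2 : 0 ≤ tau v x w [s] := by
      have h3 := (cross hv h1).2
      change 0 ≤ -cr (v s.2 - v s.1) (x - v s.1) / cr (v s.2 - v s.1) w
      have h4 := h1.2.1.cr_nonneg hx
      exact div_nonneg_of_nonpos (by linarith) h3.le
    exact h2.trans (chain hv u h).1

/-! ### the infimum -/

theorem cst_nonneg (hv : ConvexIndependent ℝ v) (ha : 0 ≤ a) (hb : 0 ≤ b)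
    {g : List (Fin n × Fin n)} {x w : ℂ} (hx : x ∈ KK v) (h : Rz v g x w) (l : Fin n) :
    0 ≤ cst v a b x w g l := by
  unfold cst
  have := tau_nonneg hv hx h
  positivity

theorem Cst_nonneg (hv : ConvexIndependent ℝ v) (ha : 0 ≤ a) (hb : 0 ≤ b) {x w : ℂ}
    (hx : x ∈ KK v) {c : ℝ} (hc : c ∈ Cst v a b x w) : 0 ≤ c := by
  obtain ⟨g, l, ⟨h1, rfl⟩ | ⟨h1, rfl⟩⟩ := hc
  · exact cst_nonneg hv ha hb hx h1 l
  · exact cst_nonneg hv ha hb hx h1 l

theorem Cst_bdd (hv : ConvexIndependent ℝ v) (ha : 0 ≤ a) (hb : 0 ≤ b) {x w : ℂ}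
    (hx : x ∈ KK v) : BddBelow (Cst v a b x w) := ⟨0, fun _ hc => Cst_nonneg hv ha hb hx hc⟩

theorem Cst_nonempty (hn : 3 ≤ n) (x w : ℂ) : (Cst v a b x w).Nonempty :=
  ⟨_, [], ⟨0, by omega⟩, Or.inl ⟨trivial, rfl⟩⟩

theorem Da_nonneg (hn : 3 ≤ n) (hv : ConvexIndependent ℝ v) (ha : 0 ≤ a) (hb : 0 ≤ b) {x w : ℂ}
    (hx : x ∈ KK v) : 0 ≤ Da v a b x w :=
  le_csInf (Cst_nonempty hn x w) (fun _ hc => Cst_nonneg hv ha hb hx hc)

theorem Da_le (hv : ConvexIndependent ℝ v) (ha : 0 ≤ a) (hb : 0 ≤ b) {x w : ℂ}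
    (hx : x ∈ KK v) {c : ℝ} (hc : c ∈ Cst v a b x w) : Da v a b x w ≤ c :=
  csInf_le (Cst_bdd hv ha hb hx) hc

theorem Da_le_add (hn : 3 ≤ n) (hv : ConvexIndependent ℝ v) (ha : 0 ≤ a) (hb : 0 ≤ b)
    {x w y w' : ℂ} (hy : y ∈ KK v) {δ : ℝ}
    (h : ∀ c ∈ Cst v a b x w, ∃ c' ∈ Cst v a b y w', c' ≤ c + δ) :
    Da v a b y w' ≤ Da v a b x w + δ := by
  rw [← sub_le_iff_le_add]
  refine le_csInf (Cst_nonempty hn x w) (fun c hc => ?_)
  obtain ⟨c', hc', h1⟩ := h c hc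
  have := Da_le hv ha hb hy hc'
  linarith

/-! ### along the flow -/

theorem cst_line (ha : 0 ≤ a) {g : List (Fin n × Fin n)} {x w : ℂ} (h : Rz v g x w) (l : Fin n)
    (hv : ConvexIndependent ℝ v) (t : ℝ) :
    cst v a b (x + (t : ℂ) * w) w g l ≤ cst v a b x w g l + a * (|t| * ‖w‖) := by
  unfold cst
  have h1 : cr (Lo v g w) (v l - Fo v g (x + (t : ℂ) * w)) =
      cr (Lo v g w) (v l - Fo v g x) := by
    rw [cr_sub_right, cr_sub_right, cr_line']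
  rw [h1]
  have h2 : tau v (x + (t : ℂ) * w) w g ≤ tau v x w g + |t| := by
    cases g with
    | nil =>
      change (0 : ℝ) ≤ 0 + |t|
      rw [zero_add]; exact abs_nonneg _
    | cons s g =>
      rw [tau_line (cross hv h).2.ne]
      have := neg_abs_le t
      linarith
  have h3 : a * (tau v (x + (t : ℂ) * w) w g * ‖w‖) ≤ a * ((tau v x w g + |t|) * ‖w‖) := by
    gcongr
  linarith [h3]

theorem flow1 (hn : 3 ≤ n) (hv : ConvexIndependent ℝ v) (ha : 0 ≤ a) (hb : 0 ≤ b) {x w : ℂ}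
    {t : ℝ} (hy : x + (t : ℂ) * w ∈ KK v) :
    Da v a b (x + (t : ℂ) * w) w ≤ Da v a b x w + a * (|t| * ‖w‖) := by
  refine Da_le_add hn hv ha hb hy (fun c hc => ?_)
  obtain ⟨g, l, ⟨h1, rfl⟩ | ⟨h1, rfl⟩⟩ := hc
  · exact ⟨_, ⟨g, l, Or.inl ⟨(Rz_line' g x w t).2 h1, rfl⟩⟩, cst_line ha h1 l hv t⟩
  · have e1 : x + (t : ℂ) * w = x + ((-t : ℝ) : ℂ) * (-w) := by push_cast; ring
    refine ⟨cst v a b (x + (t : ℂ) * w) (-w) g l, ⟨g, l, Or.inr ⟨?_, rfl⟩⟩, ?_⟩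
    · rw [e1]; exact (Rz_line' g x (-w) (-t)).2 h1
    · have := cst_line (b := b) ha h1 l hv (-t)
      rw [← e1, abs_neg, norm_neg] at this
      exact this

theorem flow (hn : 3 ≤ n) (hv : ConvexIndependent ℝ v) (ha : 0 ≤ a) (hb : 0 ≤ b) {x w : ℂ}
    {t : ℝ} (hx : x ∈ KK v) (hy : x + (t : ℂ) * w ∈ KK v) :
    |Da v a b (x + (t : ℂ) * w) w - Da v a b x w| ≤ a * (|t| * ‖w‖) := by
  rw [abs_le]
  have h1 := flow1 hn hv ha hb hy
  have e1 : x + (t : ℂ) * w + ((-t : ℝ) : ℂ) * w = x := by push_cast; ring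
  have h2 := flow1 (x := x + (t : ℂ) * w) (w := w) (t := -t) hn hv ha hb (by rw [e1]; exact hx)
  rw [e1, abs_neg] at h2
  constructor <;> linarith

/-! ### across the flow -/

theorem tau_diff (hv : ConvexIndependent ℝ v) {R : ℝ} (hR : ∀ p ∈ KK v, ∀ q ∈ KK v, ‖p - q‖ ≤ R)
    {g : List (Fin n × Fin n)} {x y w : ℂ} (hx : x ∈ KK v) (hy : y ∈ KK v)
    (h1 : Rz v g x w) (h2 : Rz v g y w) :
    tau v y w g * ‖w‖ ≤ tau v x w g * ‖w‖ + 2 * R := by
  cases g with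
  | nil =>
    have := hR x hx x hx
    rw [sub_self, norm_zero] at this
    change (0 : ℝ) * ‖w‖ ≤ 0 * ‖w‖ + 2 * R
    linarith
  | cons s g =>
    have b1 := hR _ (Bp_KK hv h2) _ (Bp_KK hv h1)
    have e1 : Bp v y w (s :: g) - Bp v x w (s :: g) =
        Lo v (s :: g) ((y + (tau v y w (s :: g) : ℂ) * w) - (x + (tau v x w (s :: g) : ℂ) * w)) := by
      unfold Bp
      rw [Fo_sub]
    rw [e1, norm_Lo hv h1.val] at b1
    have b2 := hR x hx y hy
    have e2 : ((tau v y w (s :: g) - tau v x w (s :: g) : ℝ) : ℂ) * w =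
        ((y + (tau v y w (s :: g) : ℂ) * w) - (x + (tau v x w (s :: g) : ℂ) * w)) + (x - y) := by
      push_cast; ring
    have b3 : ‖((tau v y w (s :: g) - tau v x w (s :: g) : ℝ) : ℂ) * w‖ ≤ R + R := by
      rw [e2]; exact (norm_add_le _ _).trans (add_le_add b1 b2)
    rw [norm_mul, norm_real, Real.norm_eq_abs] at b3
    have b4 : (tau v y w (s :: g) - tau v x w (s :: g)) * ‖w‖ ≤
        |tau v y w (s :: g) - tau v x w (s :: g)| * ‖w‖ :=
      mul_le_mul_of_nonneg_right (le_abs_self _) (norm_nonneg _)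
    linarith

/-- Longest common initial word. -/
theorem split (x y w : ℂ) (g : List (Fin n × Fin n)) : Rz v g x w → Rz v g y w ∨
    ∃ (u g1 : List (Fin n × Fin n)) (s : Fin n × Fin n), g = u ++ s :: g1 ∧ Rz v (s :: g1) x w ∧
      Rz v g1 y w ∧ ¬ Rz v (s :: g1) y w := by
  induction g with
  | nil => intro _; exact Or.inl trivial
  | cons s g ih =>
    intro h
    rcases ih h.1 with h1 | ⟨u, g1, s', e, h1, h2, h3⟩
    · by_cases h2 : Rz v (s :: g) y w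
      · exact Or.inl h2
      · exact Or.inr ⟨[], g, s, rfl, h, h1, h2⟩
    · exact Or.inr ⟨s :: u, g1, s', by rw [e]; rfl, h1, h2, h3⟩

theorem cost_across (hv : ConvexIndependent ℝ v) (ha : 0 ≤ a) (hb : 0 ≤ b) {R : ℝ}
    (hR : ∀ p ∈ KK v, ∀ q ∈ KK v, ‖p - q‖ ≤ R) {x y w : ℂ} (hw : w ≠ 0) (hx : x ∈ KK v)
    (hy : y ∈ KK v) {g : List (Fin n × Fin n)} (h : Rz v g x w) (l : Fin n) :
    ∃ (g' : List (Fin n × Fin n)) (l' : Fin n), Rz v g' y w ∧
      cst v a b y w g' l' ≤ cst v a b x w g l + (b * (|cr w (x - y)| / ‖w‖) + a * (2 * R)) := by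
  have hwn : 0 < ‖w‖ := norm_pos_iff.2 hw
  have hoff : ∀ g, Val v g → |cr (Lo v g w) (Fo v g x - Fo v g y)| / ‖w‖ ≤
      |cr w (x - y)| / ‖w‖ := by
    intro g hg
    rw [Fo_sub, abs_cr_Lo hv hg]
  rcases split x y w g h with h1 | ⟨u, g1, s, rfl, h1, h2, h3⟩
  · refine ⟨g, l, h1, ?_⟩
    unfold cst
    have a1 := tau_diff hv hR hx hy h h1
    have a2 : |cr (Lo v g w) (v l - Fo v g y)| / ‖w‖ ≤
        |cr (Lo v g w) (v l - Fo v g x)| / ‖w‖ + |cr w (x - y)| / ‖w‖ := by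
      have e : v l - Fo v g y = (v l - Fo v g x) + (Fo v g x - Fo v g y) := by ring
      rw [e, cr_add_right]
      calc |cr (Lo v g w) (v l - Fo v g x) + cr (Lo v g w) (Fo v g x - Fo v g y)| / ‖w‖
          ≤ (|cr (Lo v g w) (v l - Fo v g x)| + |cr (Lo v g w) (Fo v g x - Fo v g y)|) / ‖w‖ := by
            gcongr; exact abs_add_le _ _
        _ = _ := add_div _ _ _
        _ ≤ _ := add_le_add le_rfl (hoff g h.val)
    calc _ ≤ a * (tau v x w g * ‖w‖ + 2 * R) +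
          b * (|cr (Lo v g w) (v l - Fo v g x)| / ‖w‖ + |cr w (x - y)| / ‖w‖) := by gcongr
      _ = _ := by ring
  · -- a vertex lies between the two lines
    obtain ⟨-, r2, r3, r4⟩ := h1
    have h1' : Rz v (s :: g1) x w := (Rz_app u (s :: g1) x w h).1
    have hval : Val v g1 := h2.val
    have hbtw : ∃ l', |cr (Lo v g1 w) (v l' - Fo v g1 y)| ≤
        |cr (Lo v g1 w) (Fo v g1 x - Fo v g1 y)| := by
      by_cases c1 : cr (Lo v g1 w) (v s.1) < cr (Lo v g1 w) (Fo v g1 y)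
      · have c2 : ¬ cr (Lo v g1 w) (Fo v g1 y) < cr (Lo v g1 w) (v s.2) := fun c2 =>
          h3 ⟨h2, r2, c1, c2⟩
        push Not at c2
        refine ⟨s.2, ?_⟩
        rw [cr_sub_right, cr_sub_right, abs_of_nonpos (by linarith), abs_of_nonpos (by linarith)]
        linarith
      · push Not at c1
        refine ⟨s.1, ?_⟩
        rw [cr_sub_right, cr_sub_right, abs_of_nonneg (by linarith), abs_of_nonneg (by linarith)]
        linarith
    obtain ⟨l', hl'⟩ := hbtw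
    refine ⟨g1, l', h2, ?_⟩
    unfold cst
    have a1 := tau_diff hv hR hx hy h1'.1 h2
    have a3 : tau v x w g1 ≤ tau v x w (u ++ s :: g1) := by
      refine le_trans ?_ (chain hv u h).1
      cases g1 with
      | nil => exact tau_nonneg hv hx h1'
      | cons s' g2 => exact tau_le hv h1'
    have a4 : |cr (Lo v g1 w) (v l' - Fo v g1 y)| / ‖w‖ ≤ |cr w (x - y)| / ‖w‖ := by
      refine le_trans ?_ (hoff g1 hval)
      gcongr
    have a5 : 0 ≤ |cr (Lo v (u ++ s :: g1) w) (v l - Fo v (u ++ s :: g1) x)| / ‖w‖ := by positivity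
    calc a * (tau v y w g1 * ‖w‖) + b * (|cr (Lo v g1 w) (v l' - Fo v g1 y)| / ‖w‖)
        ≤ a * (tau v x w g1 * ‖w‖ + 2 * R) + b * (|cr w (x - y)| / ‖w‖) := by gcongr
      _ ≤ a * (tau v x w (u ++ s :: g1) * ‖w‖ + 2 * R) + b * (|cr w (x - y)| / ‖w‖) := by gcongr
      _ ≤ _ := by
        have := mul_nonneg hb a5
        linarith

theorem across0 (hn : 3 ≤ n) (hv : ConvexIndependent ℝ v) (ha : 0 ≤ a) (hb : 0 ≤ b) {R : ℝ}
    (hR : ∀ p ∈ KK v, ∀ q ∈ KK v, ‖p - q‖ ≤ R) {x y w : ℂ} (hw : w ≠ 0) (hx : x ∈ KK v)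
    (hy : y ∈ KK v) :
    Da v a b y w ≤ Da v a b x w + (b * (|cr w (x - y)| / ‖w‖) + a * (2 * R)) := by
  refine Da_le_add hn hv ha hb hy (fun c hc => ?_)
  obtain ⟨g, l, ⟨h1, rfl⟩ | ⟨h1, rfl⟩⟩ := hc
  · obtain ⟨g', l', h2, h3⟩ := cost_across hv ha hb hR hw hx hy h1 l
    exact ⟨_, ⟨g', l', Or.inl ⟨h2, rfl⟩⟩, h3⟩
  · obtain ⟨g', l', h2, h3⟩ := cost_across hv ha hb hR (neg_ne_zero.2 hw) hx hy h1 l
    rw [cr_neg_left, abs_neg, norm_neg] at h3
    exact ⟨_, ⟨g', l', Or.inr ⟨h2, rfl⟩⟩, h3⟩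

/-! ### at a side -/

/-- At an interior point of a side the two directions related by reflection have the same
distance: outgoing direction. -/
theorem side1 (hn : 3 ≤ n) (hv : ConvexIndependent ℝ v) (ha : 0 ≤ a) (hb : 0 ≤ b)
    {s : Fin n × Fin n} (hs : IsSide v s.1 s.2) {θ : ℝ} (h0 : 0 < θ) (h1 : θ < 1) {w : ℂ}
    (hw : cr (v s.2 - v s.1) w < 0) :
    Cst v a b (v s.1 + (θ : ℂ) * (v s.2 - v s.1)) (rl (v s.2 - v s.1) w) =
      Cst v a b (v s.1 + (θ : ℂ) * (v s.2 - v s.1)) w := by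
  have hne := v_sub_ne hv hs.1
  set p := v s.1 + (θ : ℂ) * (v s.2 - v s.1) with hp
  have hpK : p ∈ KK v := side_point_mem_KK h0.le h1.le
  have hRp : RR v s.1 s.2 p = p := RR_line hne θ
  -- crossing of `s` from `p`
  have hz : ∀ u : ℂ, cr (v s.2 - v s.1) u < 0 →
      cr u (v s.1) < cr u p ∧ cr u p < cr u (v s.2) := by
    intro u hu
    have e1 : cr u (v s.2 - v s.1) = - cr (v s.2 - v s.1) u := cr_swap _ _
    have e2 : cr u p = cr u (v s.1) + θ * cr u (v s.2 - v s.1) := by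
      rw [hp, cr_add_right, cr_smul_right]
    have e3 : cr u (v s.2) = cr u (v s.1) + cr u (v s.2 - v s.1) := by rw [cr_sub_right]; ring
    constructor
    · rw [e2]; have := mul_pos h0 (show 0 < cr u (v s.2 - v s.1) by linarith); linarith
    · rw [e2, e3]
      have := mul_pos (sub_pos.2 h1) (show 0 < cr u (v s.2 - v s.1) by linarith)
      linarith
  have htau0 : ∀ u : ℂ, cr (v s.2 - v s.1) u < 0 → tau v p u [s] = 0 := by
    intro u _
    change -cr (v s.2 - v s.1) (p - v s.1) / _ = 0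
    rw [hp, add_sub_cancel_left, cr_smul_right, cr_self, mul_zero, neg_zero, zero_div]
  -- transfer of costs: forward word `g` of `(p, rl u)` is the word `g ++ [s]` of `(p, u)`
  have key : ∀ u : ℂ, cr (v s.2 - v s.1) u < 0 → ∀ g l,
      (Rz v g p (rl (v s.2 - v s.1) u) → Rz v (g ++ [s]) p u ∧
        cst v a b p u (g ++ [s]) l = cst v a b p (rl (v s.2 - v s.1) u) g l) := by
    intro u hu g l hg
    refine ⟨(Rz_app1 g s p u).2 ⟨⟨hs, (hz u hu).1, (hz u hu).2⟩, by rw [hRp]; exact hg⟩, ?_⟩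
    unfold cst
    rw [Fo_app, Lo_app, hRp, norm_rl hne]
    congr 3
    cases g with
    | nil => exact htau0 u hu
    | cons t g => rw [tau_app (by simp), hRp]
  have key2 : ∀ u : ℂ, cr (v s.2 - v s.1) u < 0 → ∀ g, Rz v g p u →
      (g = [] ∨ ∃ g', g = g' ++ [s] ∧ Rz v g' p (rl (v s.2 - v s.1) u)) := by
    intro u hu g hg
    rcases List.eq_nil_or_concat g with rfl | ⟨g', s', rfl⟩
    · exact Or.inl rfl
    · right
      rw [List.concat_eq_append] at hg ⊢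
      obtain ⟨⟨q1, q2, q3⟩, q4⟩ := (Rz_app1 g' s' p u).1 hg
      have hss : s' = s := by
        have c1 := (hz u hu)
        have := exit_unique hv q1 hs (x := p) (w := u) (by rw [cr_sub_right]; linarith)
          (by rw [cr_sub_right]; linarith) (by rw [cr_sub_right]; linarith)
          (by rw [cr_sub_right]; linarith)
        exact Prod.ext this.1 this.2
      subst hss
      rw [hRp] at q4
      exact ⟨g', rfl, q4⟩
  have hinw : cr (v s.2 - v s.1) (-(rl (v s.2 - v s.1) w)) < 0 := by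
    have h2 := cr_rl hne (v s.2 - v s.1) w
    rw [rl_self hne] at h2
    rw [cr_neg_right, h2]; linarith
  have hrr : rl (v s.2 - v s.1) (-(rl (v s.2 - v s.1) w)) = -w := by
    have : ∀ z : ℂ, rl (v s.2 - v s.1) (-z) = - rl (v s.2 - v s.1) z := by
      intro z; simp [rl]
    rw [this, rl_rl hne]
  have hnil : ∀ (u u' : ℂ) (l : Fin n), (∀ z : ℂ, |cr u' z| = |cr u z|) → ‖u'‖ = ‖u‖ →
      cst v a b p u' [] l = cst v a b p u [] l := by
    intro u u' l h2 h3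
    unfold cst
    change a * (0 * ‖u'‖) + b * (|cr u' (v l - p)| / ‖u'‖) =
      a * (0 * ‖u‖) + b * (|cr u (v l - p)| / ‖u‖)
    rw [h2, h3]
  ext c
  constructor
  · rintro ⟨g, l, ⟨hg, rfl⟩ | ⟨hg, rfl⟩⟩
    · obtain ⟨k1, k2⟩ := key w hw g l hg
      exact ⟨g ++ [s], l, Or.inl ⟨k1, k2.symm⟩⟩
    · rcases key2 _ hinw g hg with rfl | ⟨g', rfl, hg'⟩
      · -- own line of the reflected direction: word `[s]` of `(p, w)`
        obtain ⟨k1, k2⟩ := key w hw [] l trivial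
        refine ⟨[s], l, Or.inl ⟨k1, ?_⟩⟩
        rw [show ([s] : List (Fin n × Fin n)) = [] ++ [s] from rfl, k2]
        refine hnil _ _ l (fun z => by rw [cr_neg_left, abs_neg]) (norm_neg _)
      · obtain ⟨-, k2⟩ := key _ hinw g' l (by rw [hrr]; rwa [hrr] at hg')
        rw [hrr] at hg' k2
        exact ⟨g', l, Or.inr ⟨hg', k2⟩⟩
  · rintro ⟨g, l, ⟨hg, rfl⟩ | ⟨hg, rfl⟩⟩
    · rcases key2 w hw g hg with rfl | ⟨g', rfl, hg'⟩
      · obtain ⟨k1, k2⟩ := key _ hinw [] l trivial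
        refine ⟨[s], l, Or.inr ⟨k1, ?_⟩⟩
        rw [show ([s] : List (Fin n × Fin n)) = [] ++ [s] from rfl, k2, hrr]
        refine hnil _ _ l (fun z => ?_) ?_
        · rw [cr_neg_left, abs_neg]
        · rw [norm_neg]
      · obtain ⟨-, k2⟩ := key w hw g' l hg'
        exact ⟨g', l, Or.inl ⟨hg', k2⟩⟩
    · have hg2 : Rz v g p (rl (v s.2 - v s.1) (-(rl (v s.2 - v s.1) w))) := by rw [hrr]; exact hg
      obtain ⟨k1, k2⟩ := key _ hinw g l hg2
      rw [hrr] at k2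
      exact ⟨g ++ [s], l, Or.inr ⟨k1, k2.symm⟩⟩

theorem side (hn : 3 ≤ n) (hv : ConvexIndependent ℝ v) (ha : 0 ≤ a) (hb : 0 ≤ b)
    {s : Fin n × Fin n} (hs : IsSide v s.1 s.2) {θ : ℝ} (h0 : 0 < θ) (h1 : θ < 1) (w : ℂ) :
    Da v a b (v s.1 + (θ : ℂ) * (v s.2 - v s.1)) (rl (v s.2 - v s.1) w) =
      Da v a b (v s.1 + (θ : ℂ) * (v s.2 - v s.1)) w := by
  have hne := v_sub_ne hv hs.1
  rcases lt_trichotomy (cr (v s.2 - v s.1) w) 0 with h | h | h
  · unfold Da; rw [side1 hn hv ha hb hs h0 h1 h]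
  · obtain ⟨t, ht⟩ := (cr_eq_zero_iff hne).1 h
    rw [ht, rl_smul, rl_self hne]
  · have h2 := cr_rl hne (v s.2 - v s.1) w
    rw [rl_self hne] at h2
    have := side1 hn hv ha hb hs h0 h1 (w := rl (v s.2 - v s.1) w) (by rw [h2]; linarith)
    rw [rl_rl hne] at this
    unfold Da; rw [this]

end Pool.Agent.Lib.BilE.CutA5
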