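import Pool.Agent.Lib.MP_7bc51d_an_s.BWords
import Pool.Agent.Lib.MP_7bc51d_an_s.DenseDefs

namespace Pool.Agent.Lib.Bil
end Pool.Agent.Lib.Bil
namespace Pool.Agent.Lib.BilD
end Pool.Agent.Lib.BilD

/-!
# Rare returns to the vertices imply ergodicity: definitions and row statements
-/

set_option autoImplicit false

namespace Pool.Agent.Lib.BilE

open Complex MeasureTheory Set Filter Topology
open scoped ComplexConjugate
open Pool.Agent.Lib.Bil Pool.Agent.Lib.BilD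

variable {n : ℕ}

/-- Homogeneous line functions. -/
def Hg (F : ℂ → ℝ → ℝ) : Prop := ∀ r : ℝ, 0 < r → ∀ (w : ℂ) (Q : ℝ), F ((r : ℂ) * w) (r * Q) = F w Q

/-- Derivative in `x`, direction `h`, of the mollified extended function (direction `w` fixed). -/
noncomputable def gd (v : Fin n → ℂ) (F : ℂ → ℝ → ℝ) (ε : ℝ) (x w h : ℂ) : ℝ :=
  ∫ y, gx v F y w * fderiv ℝ (et ε) (x - y) h

/-- Squared length of the `x`-gradient of the mollified extended function. -/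
noncomputable def hh (v : Fin n → ℂ) (F : ℂ → ℝ → ℝ) (ε : ℝ) (p : ℂ × ℂ) : ℝ :=
  gd v F ε p.1 p.2 1 ^ 2 + gd v F ε p.1 p.2 I ^ 2

/-- Total gradient energy. -/
noncomputable def Me (v : Fin n → ℂ) (F : ℂ → ℝ → ℝ) (ε : ℝ) : ℝ :=
  ∫ p in DD v, hh v F ε p

/-- Time reversal. -/
def rv (F : ℂ → ℝ → ℝ) : ℂ → ℝ → ℝ := fun w Q => F (-w) (-Q)

/-! ### Row statements -/

/-- (MASS) -/
def StMass : Prop := ∀ (n : ℕ) (v : Fin n → ℂ) (C e0 : ℝ), Geo v C e0 → ∀ F, LFS v F →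
  ∀ η > 0, ∃ r0 > 0, ∀ ε, 0 < ε → ε < r0 → ε ^ 2 * Me v F ε ≤ η

/-- (HB) bounds and measurability of `hh`. -/
def StHB : Prop := ∀ (n : ℕ) (v : Fin n → ℂ) (C e0 : ℝ), Geo v C e0 →
  ∃ B : ℝ, 0 < B ∧ ∀ F, LFS v F → ∀ ε, 0 < ε → Measurable (hh v F ε) ∧
    (∀ p, 0 ≤ hh v F ε p ∧ hh v F ε p ≤ B / ε ^ 2) ∧
    (∀ x w : ℂ, hh v (rv F) ε (x, w) = hh v F ε (x, -w)) ∧
    (Hg F → ∀ (x w : ℂ) (r : ℝ), 0 < r → hh v F ε (x, (r : ℂ) * w) = hh v F ε (x, w))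

end Pool.Agent.Lib.BilE
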