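import Pool.Agent.Lib.MP_7bc51d_an_s.BGeom
import Pool.Agent.Lib.MP_7bc51d_an_s.BPotential

namespace Pool.Agent.Lib.Bil
end Pool.Agent.Lib.Bil

set_option autoImplicit false

namespace Pool.Agent.Lib.BilM

open Complex MeasureTheory Set Filter
open scoped ComplexConjugate Topology ENNReal
open Pool.Agent.Lib.Bil

variable {n : ℕ} {v : Fin n → ℂ}

theorem meas_F_comp {F : ℂ → ℝ → ℝ} (hF : LF F) (ρ : ℂ) :
    Measurable (fun p : ℂ × ℂ => F (ρ * p.1) (cr (ρ * p.1) p.2)) := by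
  have hc1 : Measurable (fun p : ℂ × ℂ => cr (ρ * p.1) p.2) := by
    apply Continuous.measurable; unfold cr; fun_prop
  exact hF.meas.comp ((measurable_fst.const_mul ρ).prodMk hc1)

theorem meas_F_comp1 {F : ℂ → ℝ → ℝ} (hF : LF F) :
    Measurable (fun p : ℂ × ℂ => F p.1 (cr p.1 p.2)) := by
  simpa using meas_F_comp hF 1

end Pool.Agent.Lib.BilM
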