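import Pool.Agent.Lib.MP_7bc51d_an_s.BGeom
import Pool.Agent.Lib.MP_7bc51d_an_s.BLineFn
import Pool.Agent.Lib.MP_7bc51d_an_s.BLocalConst
import Pool.Agent.Lib.MP_7bc51d_an_s.BPoly
import Pool.Agent.Lib.MP_7bc51d_an_s.BPotential
import Pool.Agent.Lib.MP_7bc51d_an_s.MargL2Rot

namespace Pool.Agent.Lib.Bil
end Pool.Agent.Lib.Bil

set_option autoImplicit false

namespace Pool.Agent.Lib.BilM

open Complex MeasureTheory Set Filter
open scoped ComplexConjugate Topology ENNReal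
open Pool.Agent.Lib.Bil

variable {n : ℕ} {v : Fin n → ℂ}

theorem ind_diff_cases {A B : Set (ℂ × ℂ)} {c : ℝ} {P : Set ℂ}
    (h : ∀ᵐ p : ℂ × ℂ, p.1 ∈ P → A.indicator (1 : ℂ × ℂ → ℝ) p - B.indicator 1 p = c) (X : Set ℂ) :
    volume ({p : ℂ × ℂ | ¬ (p ∈ A ↔ p ∈ B)} ∩ (P ×ˢ X)) = 0 ∨
    (volume (A ∩ (P ×ˢ X)) = 0 ∧ volume ((P ×ˢ X) \ B) = 0) ∨
    (volume ((P ×ˢ X) \ A) = 0 ∧ volume (B ∩ (P ×ˢ X)) = 0) := by
  have e : ∀ (D : Set (ℂ × ℂ)) (p : ℂ × ℂ), D.indicator (1 : ℂ × ℂ → ℝ) p = 1 ∧ p ∈ D ∨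
      D.indicator (1 : ℂ × ℂ → ℝ) p = 0 ∧ p ∉ D := by
    intro D p
    by_cases hp : p ∈ D
    · left; exact ⟨by rw [indicator_of_mem hp]; rfl, hp⟩
    · right; exact ⟨indicator_of_notMem hp _, hp⟩
  by_cases h1 : c = 1
  · right; right
    constructor
    · rw [measure_eq_zero_iff_ae_notMem]
      filter_upwards [h] with p hp hpm
      have h2 := hp hpm.1.1
      rcases e A p with ⟨k1, k2⟩ | ⟨k1, k2⟩
      · exact hpm.2 k2
      · rcases e B p with ⟨k3, k4⟩ | ⟨k3, k4⟩ <;> rw [k1, k3, h1] at h2 <;> norm_num at h2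
    · rw [measure_eq_zero_iff_ae_notMem]
      filter_upwards [h] with p hp hpm
      have h2 := hp hpm.2.1
      rcases e A p with ⟨k1, k2⟩ | ⟨k1, k2⟩ <;> rcases e B p with ⟨k3, k4⟩ | ⟨k3, k4⟩
      · rw [k1, k3, h1] at h2; norm_num at h2
      · exact k4 hpm.1
      · rw [k1, k3, h1] at h2; norm_num at h2
      · rw [k1, k3, h1] at h2; norm_num at h2
  · by_cases h2 : c = -1
    · right; left
      constructor
      · rw [measure_eq_zero_iff_ae_notMem]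
        filter_upwards [h] with p hp hpm
        have h3 := hp hpm.2.1
        rcases e A p with ⟨k1, k2⟩ | ⟨k1, k2⟩ <;> rcases e B p with ⟨k3, k4⟩ | ⟨k3, k4⟩
        · rw [k1, k3, h2] at h3; norm_num at h3
        · rw [k1, k3, h2] at h3; norm_num at h3
        · exact k2 hpm.1
        · exact k2 hpm.1
      · rw [measure_eq_zero_iff_ae_notMem]
        filter_upwards [h] with p hp hpm
        have h3 := hp hpm.1.1
        rcases e A p with ⟨k1, k2⟩ | ⟨k1, k2⟩ <;> rcases e B p with ⟨k3, k4⟩ | ⟨k3, k4⟩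
        · exact hpm.2 k4
        · rw [k1, k3, h2] at h3; norm_num at h3
        · exact hpm.2 k4
        · rw [k1, k3, h2] at h3; norm_num at h3
    · left
      rw [measure_eq_zero_iff_ae_notMem]
      filter_upwards [h] with p hp hpm
      have h3 := hp hpm.2.1
      rcases e A p with ⟨k1, k2⟩ | ⟨k1, k2⟩ <;> rcases e B p with ⟨k3, k4⟩ | ⟨k3, k4⟩
      · exact hpm.1 ⟨fun _ => k4, fun _ => k2⟩
      · rw [k1, k3] at h3; exact h1 (by linarith)
      · rw [k1, k3] at h3; exact h2 (by linarith)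
      · exact hpm.1 ⟨fun h => absurd h k2, fun h => absurd h k4⟩

theorem meas_F_swap {F : ℂ → ℝ → ℝ} (hF : LF F) :
    Measurable (fun p : ℂ × ℂ => F p.2 (cr p.2 p.1)) :=
  (meas_F_comp1 hF).comp measurable_swap

theorem ae_prod_FA {D : Set (ℂ × ℂ)} (hD : MeasurableSet D) (hch : ∀ᵐ w, ChordAt v D w) :
    ∀ᵐ p ∂((volume : Measure ℂ).prod (volume : Measure ℂ)),
      p.1 ∈ PP v → FA v D p.2 (cr p.2 p.1) = D.indicator (1 : ℂ × ℂ → ℝ) p := by
  have g1 := FA_ae hch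
  have hPm2 : MeasurableSet {p : ℂ × ℂ | p.2 ∈ PP v} :=
    isOpen_PP.measurableSet.preimage measurable_snd
  have m1 := meas_F_comp1 (LF_FA (v := v) hD)
  have m2 : Measurable (fun p : ℂ × ℂ => D.indicator (1 : ℂ × ℂ → ℝ) (p.2, p.1)) :=
    (measurable_one.indicator hD).comp (measurable_snd.prodMk measurable_fst)
  have hm : MeasurableSet {p : ℂ × ℂ | p.2 ∈ PP v →
      FA v D p.1 (cr p.1 p.2) = D.indicator (1 : ℂ × ℂ → ℝ) (p.2, p.1)} :=
    hPm2.imp (measurableSet_eq_fun m1 m2)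
  have g2 : ∀ᵐ p ∂((volume : Measure ℂ).prod (volume : Measure ℂ)), p.2 ∈ PP v →
      FA v D p.1 (cr p.1 p.2) = D.indicator (1 : ℂ × ℂ → ℝ) (p.2, p.1) := by
    rw [Measure.ae_prod_iff_ae_ae hm]
    exact g1
  have h0 : MeasurePreserving (Prod.swap : ℂ × ℂ → ℂ × ℂ)
    ((volume : Measure ℂ).prod volume) ((volume : Measure ℂ).prod volume) :=
    Measure.measurePreserving_swap
  exact h0.quasiMeasurePreserving.ae g2

end Pool.Agent.Lib.BilM
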