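import Pool.Agent.Lib.MP_7bc51d_an_s.BCone
import Pool.Agent.Lib.MP_7bc51d_an_s.BGeom
import Pool.Agent.Lib.MP_7bc51d_an_s.BPotential
import Pool.Agent.Lib.MP_7bc51d_an_s.BRot
import Pool.Agent.Lib.MP_7bc51d_an_s.ModeLadder

namespace Pool.Agent.Lib.Bil
end Pool.Agent.Lib.Bil

set_option autoImplicit false

namespace Pool.Agent.Lib.BilH

open Complex MeasureTheory Set Filter
open scoped ComplexConjugate Topology ENNReal Real
open Pool.Agent.Lib.Bil

variable {n : ℕ} {v : Fin n → ℂ}

theorem polar_homC (d : ℕ) {g : ℂ → ℂ}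
    (hg : ∀ r : ℝ, 0 < r → ∀ w, g ((r : ℂ) * w) = (r : ℂ) ^ d * g w) :
    ∫ w in BV, g w = (1 / ((d : ℂ) + 2)) * ∫ θ in Ioo (-π) π, g (ut θ) := by
  rw [← integral_indicator measurableSet_ball, ← Complex.integral_comp_polarCoord_symm]
  have h1 : ∫ p in polarCoord.target, p.1 • (BV.indicator g) (Complex.polarCoord.symm p) =
      ∫ p in Ioi (0 : ℝ) ×ˢ Ioo (-π) π,
        (((Iio (1 : ℝ)).indicator (fun r => r ^ (d + 1)) p.1 : ℝ) : ℂ) * g (ut p.2) := by
    rw [polarCoord_target]
    apply setIntegral_congr_fun (measurableSet_Ioi.prod measurableSet_Ioo)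
    intro p hp
    have hp0 : 0 < p.1 := hp.1
    simp only [real_smul]
    have h2 : Complex.polarCoord.symm p = (p.1 : ℂ) * ut p.2 := by
      rw [Complex.polarCoord_symm_apply, ut]
    have h3 : ‖Complex.polarCoord.symm p‖ = p.1 := by
      rw [Complex.norm_polarCoord_symm, abs_of_pos hp0]
    by_cases h4 : p.1 < 1
    · rw [indicator_of_mem (show p.1 ∈ Iio (1 : ℝ) from h4), indicator_of_mem, h2, hg _ hp0]
      · push_cast
        ring
      · rw [mem_ball_zero_iff, h3]; exact h4
    · rw [indicator_of_notMem (show p.1 ∉ Iio (1 : ℝ) from h4), indicator_of_notMem]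
      · simp
      · rw [mem_ball_zero_iff, h3]; exact h4
  rw [h1]
  have h5 := setIntegral_prod_mul (μ := (volume : Measure ℝ)) (ν := (volume : Measure ℝ))
    (fun r : ℝ => (((Iio (1 : ℝ)).indicator (fun r => r ^ (d + 1)) r : ℝ) : ℂ))
    (fun θ => g (ut θ)) (Ioi (0 : ℝ)) (Ioo (-π) π)
  rw [← Measure.volume_eq_prod] at h5
  rw [h5]
  congr 1
  rw [integral_complex_ofReal, setIntegral_indicator measurableSet_Iio]
  have h6 : Ioi (0 : ℝ) ∩ Iio 1 = Ioo 0 1 := by ext; simp
  rw [h6, ← integral_Ioc_eq_integral_Ioo, ← intervalIntegral.integral_of_le zero_le_one,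
    integral_pow]
  push_cast
  simp
  ring_nf

theorem ut_norm (θ : ℝ) : ut θ * conj (ut θ) = 1 := by
  rw [mul_conj, Complex.normSq_apply, ut_re, ut_im]
  have := Real.cos_sq_add_sin_sq θ
  rw [← sq, ← sq, this, ofReal_one]

theorem ut_exp (θ : ℝ) : ut θ = cexp ((θ : ℂ) * I) := by
  rw [Complex.exp_mul_I, ut, ofReal_cos, ofReal_sin]

/-- Line functions used here are homogeneous of degree zero. -/
def Hom0 (F : ℂ → ℝ → ℝ) : Prop :=
  ∀ r : ℝ, 0 < r → ∀ (w : ℂ) (Q : ℝ), F ((r : ℂ) * w) (r * Q) = F w Q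

theorem cm_shift {F : ℂ → ℝ → ℝ} (hh : Hom0 F) (k : ℕ) (x : ℂ) :
    cm F (fun w => w * ph (k + 1) w) x = (((k : ℂ) + 2) / ((k : ℂ) + 4)) * cm F (ph k) x := by
  have h1 : cm F (fun w => w * ph (k + 1) w) x = (1 / (((k + 2 : ℕ) : ℂ) + 2)) *
      ∫ θ in Ioo (-π) π, ((F (ut θ) (cr (ut θ) x) : ℝ) : ℂ) * (ut θ * ph (k + 1) (ut θ)) := by
    unfold cm
    apply polar_homC (k + 2)
    intro r hr w
    rw [cr_smul_left, hh r hr]
    unfold ph
    simp only [map_mul, conj_ofReal]
    ring
  have h2 : cm F (ph k) x = (1 / ((k : ℂ) + 2)) *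
      ∫ θ in Ioo (-π) π, ((F (ut θ) (cr (ut θ) x) : ℝ) : ℂ) * ph k (ut θ) := by
    unfold cm
    apply polar_homC k
    intro r hr w
    rw [cr_smul_left, hh r hr]
    unfold ph
    rw [map_mul, conj_ofReal]
    ring
  have h3 : ∀ θ : ℝ, ut θ * ph (k + 1) (ut θ) = ph k (ut θ) := by
    intro θ
    unfold ph
    rw [pow_succ]
    have := ut_norm θ
    linear_combination (conj (ut θ)) ^ k * this
  simp_rw [h3] at h1
  rw [h1, h2]
  have h4 : ((k : ℂ) + 2) ≠ 0 := by
    have : ((k + 2 : ℕ) : ℂ) ≠ 0 := by exact_mod_cast (by omega : k + 2 ≠ 0)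
    push_cast at this
    exact this
  have h5 : ((k : ℂ) + 4) ≠ 0 := by
    have : ((k + 4 : ℕ) : ℂ) ≠ 0 := by exact_mod_cast (by omega : k + 4 ≠ 0)
    push_cast at this
    exact this
  have h6 : (((k + 2 : ℕ) : ℂ) + 2) = (k : ℂ) + 4 := by push_cast; ring
  rw [h6]
  field_simp

theorem fourier_complete {f : ℝ → ℝ} (hf : Measurable f) {C : ℝ} (hb : ∀ θ, |f θ| ≤ C)
    (h0 : ∀ k : ℕ, ∫ θ in Ioo (-π) π, ((f θ : ℝ) : ℂ) * conj (ut θ) ^ k = 0) :
    ∫ θ in Ioo (-π) π, (f θ) ^ 2 = 0 := by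
  have hab : -π < π := by linarith [Real.pi_pos]
  have hfin : IsFiniteMeasure ((volume : Measure ℝ).restrict (Ioc (-π) π)) := by
    constructor
    rw [Measure.restrict_apply_univ]
    exact measure_Ioc_lt_top
  have hL2 : MemLp (fun θ => ((f θ : ℝ) : ℂ)) 2 (volume.restrict (Ioc (-π) π)) := by
    refine MemLp.of_bound (measurable_ofReal.comp hf).aestronglyMeasurable C
      (Eventually.of_forall (fun θ => ?_))
    rw [norm_real, Real.norm_eq_abs]
    exact hb θ
  have hs := hasSum_sq_fourierCoeffOn hab hL2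
  have hc : ∀ i : ℤ, fourierCoeffOn hab (fun θ => ((f θ : ℝ) : ℂ)) i = 0 := by
    intro i
    rw [fourierCoeffOn_eq_integral]
    have key : ∫ x in (-π)..π, (fourier (-i) : C(AddCircle (π - -π), ℂ)) (x : AddCircle (π - -π)) •
        ((f x : ℝ) : ℂ) = 0 := by
      rw [intervalIntegral.integral_of_le hab.le, integral_Ioc_eq_integral_Ioo]
      have h1 : ∀ x : ℝ, (fourier (-i) : C(AddCircle (π - -π), ℂ)) (x : AddCircle (π - -π)) =
          cexp (-(i : ℂ) * (x : ℂ) * I) := by
        intro x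
        rw [fourier_coe_apply]
        congr 1
        push_cast
        have : (π : ℂ) ≠ 0 := by exact_mod_cast Real.pi_ne_zero
        field_simp
        ring
      simp_rw [h1]
      rcases le_total 0 i with hi | hi
      · obtain ⟨k, rfl⟩ := Int.eq_ofNat_of_zero_le hi
        rw [← h0 k]
        apply setIntegral_congr_fun measurableSet_Ioo
        intro x _
        simp only [smul_eq_mul]
        rw [ut_exp, ← Complex.exp_conj, ← Complex.exp_nat_mul, mul_comm]
        congr 2
        rw [map_mul, conj_I, conj_ofReal]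
        push_cast
        ring
      · obtain ⟨k, hk⟩ := Int.eq_ofNat_of_zero_le (neg_nonneg.2 hi)
        have hik : (i : ℂ) = -(k : ℂ) := by
          have : i = -(k : ℤ) := by linarith
          rw [this]; push_cast; ring
        have h2 : conj (∫ θ in Ioo (-π) π, ((f θ : ℝ) : ℂ) * conj (ut θ) ^ k) = 0 := by
          rw [h0 k, map_zero]
        rw [← integral_conj] at h2
        rw [← h2]
        apply setIntegral_congr_fun measurableSet_Ioo
        intro x _
        simp only [smul_eq_mul, map_mul, map_pow, conj_conj, conj_ofReal]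
        rw [ut_exp, ← Complex.exp_nat_mul, mul_comm, hik]
        congr 2
        ring
    rw [key, smul_zero]
  simp only [hc, norm_zero, ne_eq, OfNat.ofNat_ne_zero, not_false_eq_true, zero_pow] at hs
  have h3 := hs.unique hasSum_zero
  have h4 : (π - -π)⁻¹ ≠ 0 := by
    have := Real.pi_pos
    have h5 : π - -π = 2 * π := by ring
    rw [h5]
    positivity
  rw [smul_eq_mul] at h3
  have h5 := (mul_eq_zero.1 h3).resolve_left h4
  rw [intervalIntegral.integral_of_le hab.le, integral_Ioc_eq_integral_Ioo] at h5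
  rw [← h5]
  apply setIntegral_congr_fun measurableSet_Ioo
  intro θ _
  simp only
  rw [norm_real, Real.norm_eq_abs, sq_abs]

theorem ut_meas : Measurable ut := by
  have : ut = fun θ : ℝ => cexp ((θ : ℂ) * I) := by
    funext θ; exact ut_exp θ
  rw [this]
  apply Continuous.measurable
  fun_prop

/-- Completeness of the monomials for homogeneous functions. -/
theorem complete {ψ : ℂ → ℝ} (hm : Measurable ψ) {C : ℝ} (hb : ∀ w, |ψ w| ≤ C)
    (hh : ∀ r : ℝ, 0 < r → ∀ w, ψ ((r : ℂ) * w) = ψ w)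
    (h0 : ∀ k : ℕ, ∫ w in BV, ((ψ w : ℝ) : ℂ) * ph k w = 0) : ∀ᵐ w : ℂ, ψ w = 0 := by
  have h1 : ∫ θ in Ioo (-π) π, (ψ (ut θ)) ^ 2 = 0 := by
    apply fourier_complete (hm.comp ut_meas) (C := C) (fun θ => hb _)
    intro k
    have h2 := h0 k
    rw [polar_homC k (fun r hr w => by
      rw [hh r hr]
      unfold ph
      rw [map_mul, conj_ofReal]
      ring)] at h2
    have h4 : (1 / ((k : ℂ) + 2)) ≠ 0 := by
      apply one_div_ne_zero
      have : ((k + 2 : ℕ) : ℂ) ≠ 0 := by exact_mod_cast (by omega : k + 2 ≠ 0)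
      push_cast at this
      exact this
    exact (mul_eq_zero.1 h2).resolve_left h4
  have h2 : ∫ w in BV, (ψ w) ^ 2 = 0 := by
    rw [polar_hom 0 (fun r hr w => by rw [hh r hr]; ring), h1, mul_zero]
  have h3 : IntegrableOn (fun w => (ψ w) ^ 2) BV := by
    refine intOn_ball (hm.pow_const 2) (C := C ^ 2) ?_
    intro w _
    rw [abs_pow]
    have := hb w
    gcongr
  have h4 : ∀ᵐ w ∂(volume.restrict BV), (ψ w) ^ 2 = 0 := by
    have := (setIntegral_eq_zero_iff_of_nonneg_ae (μ := (volume : Measure ℂ)) (s := BV)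
      (f := fun w => (ψ w) ^ 2) (Eventually.of_forall (fun w => sq_nonneg _)) h3).1 h2
    exact this
  rw [ae_restrict_iff' measurableSet_ball] at h4
  apply ae_of_ae_ball (D := fun w => ψ w = 0) (fun z r hr => by rw [hh r hr])
  filter_upwards [h4] with w hw hwn
  exact pow_eq_zero_iff (two_ne_zero) |>.1 (hw (by simpa using hwn))

theorem neg_preimage_BV : (fun w : ℂ => -w) ⁻¹' BV = BV := by
  ext w
  simp only [mem_preimage, mem_ball_zero_iff, norm_neg]

theorem neg_integral (g : ℂ → ℂ) : ∫ w in BV, g (-w) = ∫ w in BV, g w := by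
  have h := (Measure.measurePreserving_neg (volume : Measure ℂ)).restrict_preimage (s := BV)
    measurableSet_ball
  have h2 : (Neg.neg : ℂ → ℂ) ⁻¹' BV = BV := neg_preimage_BV
  rw [h2] at h
  exact h.integral_comp (MeasurableEquiv.neg ℂ).measurableEmbedding g

/-- Parity version of completeness. -/
theorem parity_complete {F : ℂ → ℝ → ℝ} (hF : LF F) (hh : Hom0 F) (p : ℕ) {x : ℂ}
    (h0 : ∀ k : ℕ, (Even k ↔ Even p) → cm F (ph k) x = 0) :
    ∀ᵐ w : ℂ, F w (cr w x) + (-1) ^ p * F (-w) (cr (-w) x) = 0 := by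
  have hmx := F_meas_x hF x
  have hmn : Measurable (fun w : ℂ => F (-w) (cr (-w) x)) := hmx.comp measurable_neg
  have habs : |((-1 : ℝ)) ^ p| = 1 := by rw [abs_pow, abs_neg, abs_one, one_pow]
  apply complete (ψ := fun w => F w (cr w x) + (-1) ^ p * F (-w) (cr (-w) x)) (C := 2)
  · exact hmx.add (hmn.const_mul _)
  · intro w
    refine (abs_add_le _ _).trans ?_
    rw [abs_mul, habs, one_mul]
    have := hF.bd w (cr w x)
    have := hF.bd (-w) (cr (-w) x)
    linarith
  · intro r hr w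
    have e1 : -((r : ℂ) * w) = (r : ℂ) * (-w) := by ring
    rw [e1, cr_smul_left, cr_smul_left, hh r hr, hh r hr]
  · intro k
    have hi1 := cm_int hF (ph_meas k) (C := 1) (fun w hw => ph_norm k hw) x
    have hi2 : IntegrableOn (fun w => ((F (-w) (cr (-w) x) : ℝ) : ℂ) * ph k w) BV := by
      refine cintOn_ball ((measurable_ofReal.comp hmn).mul (ph_meas k)) (C := 1) ?_
      intro w hw
      rw [norm_mul, norm_real, Real.norm_eq_abs]
      have h1 := hF.bd (-w) (cr (-w) x)
      have h2 := ph_norm k hw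
      calc _ ≤ (1 : ℝ) * 1 := by gcongr
        _ = 1 := one_mul 1
    have h1 : ∫ w in BV, ((F (-w) (cr (-w) x) : ℝ) : ℂ) * ph k w = (-1) ^ k * cm F (ph k) x := by
      have h2 := neg_integral (fun w => ((F w (cr w x) : ℝ) : ℂ) * ph k w)
      have h3 : ∀ w : ℂ, ph k (-w) = (-1) ^ k * ph k w := by
        intro w
        unfold ph
        rw [map_neg, neg_pow]
      simp only [h3] at h2
      unfold cm
      rw [← h2, ← integral_const_mul]
      apply integral_congr_ae
      refine Eventually.of_forall (fun w => ?_)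
      simp only
      have h4 : ((-1 : ℂ) ^ k) * ((-1 : ℂ) ^ k) = 1 := by
        rw [← mul_pow]; norm_num
      linear_combination (-(((F (-w) (cr (-w) x) : ℝ) : ℂ) * ph k w)) * h4
    have h2 : ∫ w in BV, ((F w (cr w x) + (-1) ^ p * F (-w) (cr (-w) x) : ℝ) : ℂ) * ph k w =
        cm F (ph k) x + (-1) ^ p * ((-1) ^ k * cm F (ph k) x) := by
      rw [← h1, ← integral_const_mul]
      unfold cm
      rw [← integral_add hi1 (hi2.const_mul _)]
      apply integral_congr_ae
      refine Eventually.of_forall (fun w => ?_)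
      simp only
      push_cast
      ring
    rw [h2]
    by_cases hk : Even k ↔ Even p
    · rw [h0 k hk]; ring
    · have h3 : (-1 : ℂ) ^ p * (-1) ^ k = -1 := by
        rcases Nat.even_or_odd p with hp | hp
        · have hk2 : ¬ Even k := fun h => hk ⟨fun _ => hp, fun _ => h⟩
          rw [Nat.not_even_iff_odd] at hk2
          rw [hp.neg_one_pow, hk2.neg_one_pow, one_mul]
        · have hk2 : Even k := by
            by_contra h
            exact hk ⟨fun h' => absurd h' h, fun h' => absurd h' (Nat.not_even_iff_odd.2 hp)⟩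
          rw [hp.neg_one_pow, hk2.neg_one_pow, mul_one]
      linear_combination (cm F (ph k) x) * h3

end Pool.Agent.Lib.BilH
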