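import Pool.Agent.Lib.MP_7bc51d_an_s.BGeom
import Pool.Agent.Lib.MP_7bc51d_an_s.BGlobal
import Pool.Agent.Lib.MP_7bc51d_an_s.DenseDefs
import Pool.Agent.Lib.MP_7bc51d_an_s.DenseErg45
import Pool.Agent.Lib.MP_7bc51d_an_s.ErgDefs

namespace Pool.Agent.Lib.Bil
end Pool.Agent.Lib.Bil
namespace Pool.Agent.Lib.BilD
end Pool.Agent.Lib.BilD

/-!
# Measurability, bounds and symmetries of the position gradient of the mollified function
-/

set_option autoImplicit false

namespace Pool.Agent.Lib.BilE.HB85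

open Complex MeasureTheory Set Filter Topology
open scoped ComplexConjugate
open Pool.Agent.Lib.Bil Pool.Agent.Lib.BilD

variable {n : ℕ} {v : Fin n → ℂ} {F : ℂ → ℝ → ℝ} {C e0 ε : ℝ}

theorem gx_hg (hF : Hg F) {r : ℝ} (hr : 0 < r) (y w : ℂ) :
    gx v F y ((r : ℂ) * w) = gx v F y w := by
  unfold gx
  congr 1
  · by_cases hy : y ∈ PP v
    · simp only [indicator_of_mem hy]
      rw [cr_smul_left, hF r hr]
    · simp only [indicator_of_notMem hy]
  · refine Finset.sum_congr rfl (fun s _ => ?_)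
    by_cases hy : y ∈ BilD.OO v s
    · simp only [indicator_of_mem hy]
      rw [rl_smul, cr_smul_left, hF r hr]
    · simp only [indicator_of_notMem hy]

theorem gx_rv (y w : ℂ) : gx v (rv F) y w = gx v F y (-w) := by
  unfold gx rv
  congr 1
  · by_cases hy : y ∈ PP v
    · simp only [indicator_of_mem hy, cr_neg_left]
    · simp only [indicator_of_notMem hy]
  · refine Finset.sum_congr rfl (fun s _ => ?_)
    by_cases hy : y ∈ BilD.OO v s
    · simp only [indicator_of_mem hy, rl_neg, cr_neg_left]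
    · simp only [indicator_of_notMem hy]

theorem gd_hg (hF : Hg F) {r : ℝ} (hr : 0 < r) (x w h : ℂ) :
    gd v F ε x ((r : ℂ) * w) h = gd v F ε x w h := by
  unfold gd
  simp only [gx_hg hF hr]

theorem gd_rv (x w h : ℂ) : gd v (rv F) ε x w h = gd v F ε x (-w) h := by
  unfold gd
  simp only [gx_rv]

/-- (HB) -/
theorem row : StHB := by
  intro n v C e0 _
  obtain ⟨B, hB, hb⟩ := Erg45.hq_bound (v := v)
  refine ⟨B, hB, fun F hF ε hε => ⟨Erg45.hq_meas2 hF, fun p => ⟨?_, ?_⟩, fun x w => ?_,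
    fun hg x w r hr => ?_⟩⟩
  · exact Erg45.hq_nonneg p.1 p.2
  · exact hb F hF ε hε p.1 p.2
  · simp only [hh, gd_rv]
  · simp only [hh, gd_hg hg hr]

/-! ### time reversal of line functions -/

end Pool.Agent.Lib.BilE.HB85
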