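import Pool.Agent.Lib.MP_7bc51d_an_s.BGeom
import Pool.Agent.Lib.MP_7bc51d_an_s.BGlobal
import Pool.Agent.Lib.MP_7bc51d_an_s.DenseDefs

namespace Pool.Agent.Lib.Bil
end Pool.Agent.Lib.Bil
namespace Pool.Agent.Lib.BilD
end Pool.Agent.Lib.BilD
namespace Pool.Agent.Lib.BilD.TI33
end Pool.Agent.Lib.BilD.TI33

/-!
Row HINV: the squared gradient of the mollified function is invariant under one step of the flow
away from the vertices.
-/

set_option autoImplicit false

namespace Pool.Agent.Lib.BilE.Hinv33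

open Complex MeasureTheory Set Filter Topology
open scoped ComplexConjugate
open Pool.Agent.Lib.Bil Pool.Agent.Lib.BilD Pool.Agent.Lib.BilD.TI33

variable {n : ℕ} {v : Fin n → ℂ}

theorem ae_ds (s : Fin n × Fin n) (he : ed v s ≠ 0) : ∀ᵐ y : ℂ, ds v s y ≠ 0 := by
  have h1 := (measurePreserving_sub_right volume (v s.1)).quasiMeasurePreserving.ae
    (ae_not_mem_line (ed v s))
  filter_upwards [h1] with y hy h0
  apply hy
  unfold ds at h0
  rw [div_eq_zero_iff] at h0
  obtain ⟨t, ht⟩ := (cr_eq_zero_iff he).1 (h0.resolve_right (norm_ne_zero_iff.2 he))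
  rw [Submodule.mem_span_singleton]
  exact ⟨t, by rw [real_smul]; exact ht.symm⟩

end Pool.Agent.Lib.BilE.Hinv33
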