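import Pool.Agent.Lib.MP_7bc51d_an_s.BPotential
import Pool.Agent.Lib.MP_7bc51d_an_s.DenseBasic
import Pool.Agent.Lib.MP_7bc51d_an_s.DenseDefs

namespace Pool.Agent.Lib.Bil
end Pool.Agent.Lib.Bil
namespace Pool.Agent.Lib.BilD
end Pool.Agent.Lib.BilD
namespace Pool.Agent.Lib.BilD.Lim89
end Pool.Agent.Lib.BilD.Lim89

/-!
# Small energy along a sequence of scales makes an angular mode constant
-/

set_option autoImplicit false

namespace Pool.Agent.Lib.BilE.Lim89

open Complex MeasureTheory Set Filter Topology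
open scoped ComplexConjugate
open Pool.Agent.Lib.Bil Pool.Agent.Lib.BilD Pool.Agent.Lib.BilD.Lim89

variable {n : ℕ} {v : Fin n → ℂ} {F : ℂ → ℝ → ℝ} {C e0 ε : ℝ} {p : ℕ} {L : ℂ →L[ℝ] ℝ}

theorem am_int (hG : Geo v C e0) (hF : LFS v F) (p : ℕ) : Integrable (am v F p) := by
  obtain ⟨M, hM0, hM⟩ := exists_bound hG.edn
  have h1 : IntegrableOn (am v F p) (Metric.closedBall 0 M) := by
    refine Measure.integrableOn_of_bounded (M := ((n : ℝ) ^ 2 + 1) * (volume BV).toReal)
      (isCompact_closedBall (0 : ℂ) M).measure_lt_top.ne (am_meas hF.lf p).aestronglyMeasurable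
      (Eventually.of_forall (fun x => am_bound hF p x))
  have h2 : Function.support (am v F p) ⊆ Metric.closedBall 0 M := by
    intro x hx
    by_contra hcon
    rw [mem_closedBall_zero_iff, not_le] at hcon
    exact hx (am_supp (F := F) hM p hcon)
  rwa [integrableOn_iff_integrable_of_support_subset h2] at h1

end Pool.Agent.Lib.BilE.Lim89
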