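import Pool.Agent.Lib.MP_7bc51d_an_s.DenseBasic
import Pool.Agent.Lib.MP_7bc51d_an_s.DenseDefs
import Pool.Agent.Lib.MP_7bc51d_an_s.DenseLim89

namespace Pool.Agent.Lib.Bil
end Pool.Agent.Lib.Bil
namespace Pool.Agent.Lib.BilD
end Pool.Agent.Lib.BilD
namespace Pool.Agent.Lib.BilD.Lim89
end Pool.Agent.Lib.BilD.Lim89

/-!
# Mollifications converge in the mean
-/

set_option autoImplicit false

namespace Pool.Agent.Lib.BilF.Mol89

open Complex MeasureTheory Set Filter Topology
open scoped ComplexConjugate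
open Pool.Agent.Lib.Bil Pool.Agent.Lib.BilD Pool.Agent.Lib.BilD.Lim89

/-- mollification of a complex function -/
noncomputable def M (ε : ℝ) (a : ℂ → ℂ) (x : ℂ) : ℂ := ∫ y, (et ε (x - y) : ℂ) * a y

variable {a b : ℂ → ℂ} {ε : ℝ}

theorem int_prod (ha : Integrable a) (hε : 0 < ε) :
    Integrable (fun p : ℂ × ℂ => (et ε (p.1 - p.2) : ℂ) * a p.2)
      ((volume : Measure ℂ).prod volume) := by
  have h1 : Integrable (fun p : ℂ × ℂ => (et ε p.1 : ℂ) * a p.2)
      ((volume : Measure ℂ).prod volume) :=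
    ((et_int hε).ofReal).mul_prod ha
  have h2 : MeasurePreserving (fun p : ℂ × ℂ => (p.1 - p.2, p.2))
      ((volume : Measure ℂ).prod volume) ((volume : Measure ℂ).prod volume) :=
    measurePreserving_sub_prod _ _
  have h3 := h2.integrable_comp_of_integrable h1
  exact h3

theorem sec_int (ha : Integrable a) (_ : 0 < ε) (x : ℂ) :
    Integrable (fun y => (et ε (x - y) : ℂ) * a y) := by
  refine ha.bdd_mul (c := (ε ^ 2)⁻¹) ?_ (Eventually.of_forall (fun y => ?_))
  · exact (continuous_ofReal.comp ((et_cont ε).comp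
      (continuous_const.sub continuous_id))).aestronglyMeasurable
  · rw [norm_real, Real.norm_eq_abs, abs_of_nonneg (et_nonneg ε _)]
    exact et_le ε _

theorem M_int (ha : Integrable a) (hε : 0 < ε) : Integrable (M ε a) :=
  (int_prod ha hε).integral_prod_left

theorem M_sub (ha : Integrable a) (hb : Integrable b) (hε : 0 < ε) (x : ℂ) :
    M ε (fun y => a y - b y) x = M ε a x - M ε b x := by
  unfold M
  rw [← integral_sub (sec_int ha hε x) (sec_int hb hε x)]
  refine integral_congr_ae (Eventually.of_forall (fun y => ?_))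
  simp only
  ring

/-- contraction -/
theorem con (ha : Integrable a) (hε : 0 < ε) : ∫ x, ‖M ε a x‖ ≤ Z0 * ∫ y, ‖a y‖ := by
  have h1 : ∀ x, ‖M ε a x‖ ≤ ∫ y, et ε (x - y) * ‖a y‖ := by
    intro x
    refine (norm_integral_le_integral_norm _).trans (le_of_eq ?_)
    refine integral_congr_ae (Eventually.of_forall (fun y => ?_))
    simp only
    rw [norm_mul, norm_real, Real.norm_eq_abs, abs_of_nonneg (et_nonneg ε _)]
  have hn : Integrable (fun p : ℂ × ℂ => et ε (p.1 - p.2) * ‖a p.2‖)
      ((volume : Measure ℂ).prod volume) := by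
    refine (int_prod ha hε).norm.congr (Eventually.of_forall (fun p => ?_))
    simp only
    rw [norm_mul, norm_real, Real.norm_eq_abs, abs_of_nonneg (et_nonneg ε _)]
  have h2 : ∫ x, ∫ y, et ε (x - y) * ‖a y‖ = Z0 * ∫ y, ‖a y‖ := by
    rw [integral_integral_swap hn, ← integral_const_mul]
    refine integral_congr_ae (Eventually.of_forall (fun y => ?_))
    simp only
    rw [integral_mul_const, et_total_sub hε]
  rw [← h2]
  exact integral_mono (M_int ha hε).norm hn.integral_prod_left h1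

/-- mollification of a constant -/
theorem M_const (hε : 0 < ε) (x c : ℂ) : ∫ y, (et ε (x - y) : ℂ) * c = (Z0 : ℂ) * c := by
  rw [integral_mul_const, integral_complex_ofReal, et_total_sub' hε]

/-- convergence for continuous functions with compact support -/
theorem mol_cont {φ : ℂ → ℂ} (hφ : Continuous φ) (hφc : HasCompactSupport φ) :
    ∀ η > 0, ∃ r0 > 0, ∀ ε, 0 < ε → ε < r0 → ∫ x, ‖M ε φ x - (Z0 : ℂ) * φ x‖ ≤ η := by
  intro η hη
  have hZ := Z0_pos
  obtain ⟨R, hR⟩ := hφc.isCompact.isBounded.subset_closedBall (0 : ℂ)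
  set R' : ℝ := |R| + 1 with hR'
  have hvol : volume (Metric.closedBall (0 : ℂ) R') < ⊤ :=
    (isCompact_closedBall (0 : ℂ) R').measure_lt_top
  set B : ℝ := (volume (Metric.closedBall (0 : ℂ) R')).toReal with hB
  have hB0 : 0 ≤ B := ENNReal.toReal_nonneg
  have huc : UniformContinuous φ := hφc.uniformContinuous_of_continuous hφ
  obtain ⟨r1, hr1, hr2⟩ := Metric.uniformContinuous_iff.1 huc (η / (Z0 * (B + 1)))
    (by positivity)
  refine ⟨min r1 1, lt_min hr1 one_pos, fun ε hε hε1 => ?_⟩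
  have hφi : Integrable φ := hφ.integrable_of_hasCompactSupport hφc
  have hz : ∀ y, R < ‖y‖ → φ y = 0 := by
    intro y hy
    apply image_eq_zero_of_notMem_tsupport
    intro hcon
    have := hR hcon
    rw [mem_closedBall_zero_iff] at this
    linarith
  have hpt : ∀ x, ‖M ε φ x - (Z0 : ℂ) * φ x‖ ≤
      (Metric.closedBall (0 : ℂ) R').indicator (fun _ => Z0 * (η / (Z0 * (B + 1)))) x := by
    intro x
    have e1 : M ε φ x - (Z0 : ℂ) * φ x = ∫ y, (et ε (x - y) : ℂ) * (φ y - φ x) := by
      have i1 := sec_int hφi hε x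
      have i2 : Integrable (fun y => (et ε (x - y) : ℂ) * φ x) :=
        ((((et_int_sub hε x).congr (Eventually.of_forall (fun y => et_sub_comm ε y x))
          ).ofReal).mul_const _)
      unfold M
      rw [← M_const hε x (φ x), ← integral_sub i1 i2]
      refine integral_congr_ae (Eventually.of_forall (fun y => ?_))
      simp only
      ring
    have e2 : ‖∫ y, (et ε (x - y) : ℂ) * (φ y - φ x)‖ ≤
        ∫ y, et ε (x - y) * (η / (Z0 * (B + 1))) := by
      have i3 : Integrable (fun y => et ε (x - y) * (η / (Z0 * (B + 1)))) :=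
        ((et_int_sub hε x).congr (Eventually.of_forall (fun y => et_sub_comm ε y x))).mul_const _
      refine norm_integral_le_of_norm_le i3 (Eventually.of_forall (fun y => ?_))
      rw [norm_mul, norm_real, Real.norm_eq_abs, abs_of_nonneg (et_nonneg ε _)]
      by_cases hy : ‖x - y‖ < ε
      · apply mul_le_mul_of_nonneg_left _ (et_nonneg ε _)
        have h3 : dist y x < r1 := by
          rw [dist_eq_norm, norm_sub_rev]
          exact hy.trans (hε1.trans_le (min_le_left _ _))
        have h4 := hr2 h3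
        rw [dist_eq_norm] at h4
        exact h4.le
      · rw [et_zero hε (not_lt.1 hy), zero_mul, zero_mul]
    rw [integral_mul_const, et_total_sub' hε] at e2
    rw [e1]
    by_cases hx : x ∈ Metric.closedBall (0 : ℂ) R'
    · rw [indicator_of_mem hx]
      exact e2
    · rw [indicator_of_notMem hx]
      have hx2 : R' < ‖x‖ := by
        rw [mem_closedBall_zero_iff, not_le] at hx
        exact hx
      have hle : R ≤ |R| := le_abs_self R
      have h5 : φ x = 0 := hz x (by linarith)
      have h6 : ∀ y, (et ε (x - y) : ℂ) * (φ y - φ x) = 0 := by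
        intro y
        by_cases hy : ‖x - y‖ < ε
        · have h7 : ‖x‖ ≤ ‖x - y‖ + ‖y‖ := by
            calc ‖x‖ = ‖(x - y) + y‖ := by rw [sub_add_cancel]
              _ ≤ _ := norm_add_le _ _
          have h8 : ε < 1 := hε1.trans_le (min_le_right _ _)
          have h9 : φ y = 0 := hz y (by linarith)
          rw [h5, h9, sub_zero, mul_zero]
        · rw [et_zero hε (not_lt.1 hy), ofReal_zero, zero_mul]
      simp only [h6, integral_zero, norm_zero, le_refl]
  have hi : Integrable ((Metric.closedBall (0 : ℂ) R').indicator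
      (fun _ => Z0 * (η / (Z0 * (B + 1))))) :=
    (integrableOn_const hvol.ne).integrable_indicator Metric.isClosed_closedBall.measurableSet
  have hl : Integrable (fun x => ‖M ε φ x - (Z0 : ℂ) * φ x‖) :=
    ((M_int hφi hε).sub (hφi.const_mul _)).norm
  have h1 := integral_mono hl hi hpt
  rw [integral_indicator Metric.isClosed_closedBall.measurableSet, setIntegral_const,
    smul_eq_mul, Measure.real, ← hB] at h1
  refine h1.trans ?_
  have e3 : B * (Z0 * (η / (Z0 * (B + 1)))) = η * (B / (B + 1)) := by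
    field_simp
  rw [e3]
  have h4 : B / (B + 1) ≤ 1 := by
    rw [div_le_one (by positivity)]; linarith
  calc η * (B / (B + 1)) ≤ η * 1 := mul_le_mul_of_nonneg_left h4 hη.le
    _ = η := mul_one _

/-- convergence in the mean -/
theorem mol (ha : Integrable a) :
    ∀ η > 0, ∃ r0 > 0, ∀ ε, 0 < ε → ε < r0 → ∫ x, ‖M ε a x - (Z0 : ℂ) * a x‖ ≤ η := by
  intro η hη
  have hZ := Z0_pos
  obtain ⟨φ, hφc, hφ1, hφ, hφi⟩ := ha.exists_hasCompactSupport_integral_sub_le
    (ε := η / (4 * Z0)) (by positivity)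
  obtain ⟨r0, hr0, h0⟩ := mol_cont hφ hφc (η / 2) (by positivity)
  refine ⟨r0, hr0, fun ε hε hε1 => ?_⟩
  have h1 := h0 ε hε hε1
  have hd : Integrable (fun y => a y - φ y) := ha.sub hφi
  have h2 := con hd hε
  have i1 : Integrable (fun x => ‖M ε (fun y => a y - φ y) x‖) := (M_int hd hε).norm
  have i2 : Integrable (fun x => ‖M ε φ x - (Z0 : ℂ) * φ x‖) :=
    ((M_int hφi hε).sub (hφi.const_mul _)).norm
  have i3 : Integrable (fun x => Z0 * ‖a x - φ x‖) := hd.norm.const_mul _
  have hpt : ∀ x, ‖M ε a x - (Z0 : ℂ) * a x‖ ≤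
      (‖M ε (fun y => a y - φ y) x‖ + ‖M ε φ x - (Z0 : ℂ) * φ x‖) + Z0 * ‖a x - φ x‖ := by
    intro x
    have e1 : M ε a x - (Z0 : ℂ) * a x = (M ε (fun y => a y - φ y) x +
        (M ε φ x - (Z0 : ℂ) * φ x)) - (Z0 : ℂ) * (a x - φ x) := by
      rw [M_sub ha hφi hε]
      ring
    rw [e1]
    refine (norm_sub_le _ _).trans ?_
    rw [norm_mul, norm_real, Real.norm_eq_abs, abs_of_pos hZ]
    have := norm_add_le (M ε (fun y => a y - φ y) x) (M ε φ x - (Z0 : ℂ) * φ x)
    linarith
  have hl : Integrable (fun x => ‖M ε a x - (Z0 : ℂ) * a x‖) :=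
    ((M_int ha hε).sub (ha.const_mul _)).norm
  have i12 : Integrable (fun x => ‖M ε (fun y => a y - φ y) x‖ + ‖M ε φ x - (Z0 : ℂ) * φ x‖) :=
    i1.add i2
  have i123 : Integrable (fun x => (‖M ε (fun y => a y - φ y) x‖ + ‖M ε φ x - (Z0 : ℂ) * φ x‖) +
      Z0 * ‖a x - φ x‖) := i12.add i3
  have h5 := integral_mono hl i123 hpt
  have e4 : ∫ x, ((‖M ε (fun y => a y - φ y) x‖ + ‖M ε φ x - (Z0 : ℂ) * φ x‖) +
      Z0 * ‖a x - φ x‖) = ((∫ x, ‖M ε (fun y => a y - φ y) x‖) +
        ∫ x, ‖M ε φ x - (Z0 : ℂ) * φ x‖) + Z0 * ∫ x, ‖a x - φ x‖ := by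
    rw [integral_add i12 i3, integral_add i1 i2, integral_const_mul]
  rw [e4] at h5
  have h6 : Z0 * ∫ x, ‖a x - φ x‖ ≤ η / 4 := by
    calc Z0 * ∫ x, ‖a x - φ x‖ ≤ Z0 * (η / (4 * Z0)) := mul_le_mul_of_nonneg_left hφ1 hZ.le
      _ = η / 4 := by field_simp
  linarith

end Pool.Agent.Lib.BilF.Mol89
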