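import Pool.Agent.Lib.MP_7bc51d_an_s.BCode
import Pool.Agent.Lib.MP_7bc51d_an_s.BGeom
import Pool.Agent.Lib.MP_7bc51d_an_s.BMink
import Pool.Agent.Lib.MP_7bc51d_an_s.BStep
import Pool.Agent.Lib.MP_7bc51d_an_s.BTraj
import Pool.Agent.Lib.MP_7bc51d_an_s.FullImg98

namespace Pool.Agent.Lib.Bil
end Pool.Agent.Lib.Bil

/-!
# Volume of the anisotropic neighbourhoods of the vertices (98)
-/

set_option autoImplicit false

namespace Pool.Agent.Lib.BilF.Img98

open Complex MeasureTheory Set Filter Topology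
open scoped ComplexConjugate ENNReal
open Pool.Agent.Lib.Bil

variable {n : ℕ} {v : Fin n → ℂ}

theorem vol_box (α β : ℝ) (hα : 0 ≤ α) :
    volume {z : ℂ | |z.re| < α ∧ |z.im| < β} = ENNReal.ofReal (4 * α * β) := by
  have h1 : {z : ℂ | |z.re| < α ∧ |z.im| < β} =
      Complex.measurableEquivRealProd ⁻¹' (Ioo (-α) α ×ˢ Ioo (-β) β) := by
    ext z
    simp only [mem_ofPred_eq, mem_preimage, mem_prod, mem_Ioo, abs_lt,
      Complex.measurableEquivRealProd_apply]
  rw [h1, Complex.volume_preserving_equiv_real_prod.measure_preimage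
    ((measurableSet_Ioo.prod measurableSet_Ioo).nullMeasurableSet), Measure.volume_eq_prod,
    Measure.prod_prod, Real.volume_Ioo, Real.volume_Ioo, ← ENNReal.ofReal_mul (by linarith)]
  congr 1
  ring

theorem vol_section {u : ℂ} (hu : u ≠ 0) (c : ℂ) (α β : ℝ) (hα : 0 ≤ α) :
    volume {y : ℂ | |dt u (c - y)| < α * ‖u‖ ∧ |cr u (c - y)| < β * ‖u‖} =
      ENNReal.ofReal (4 * α * β) := by
  have hn : 0 < ‖u‖ := norm_pos_iff.2 hu
  set e : ℂ := u / (‖u‖ : ℂ) with he
  have he1 : ‖e‖ = 1 := by
    rw [he, norm_div, norm_real, norm_norm, div_self hn.ne']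
  have hue : u = (‖u‖ : ℂ) * e := by
    have h0 : (‖u‖ : ℂ) ≠ 0 := by exact_mod_cast hn.ne'
    rw [he, mul_div_cancel₀ _ h0]
  have hee : e.re ^ 2 + e.im ^ 2 = 1 := by
    have := Complex.sq_norm e
    rw [he1, Complex.normSq_apply] at this
    nlinarith [this]
  have h1 : MeasurePreserving (fun z : ℂ => c - e * z) volume volume :=
    (Measure.measurePreserving_sub_left volume c).comp (mp_mul he1)
  have hm : MeasurableSet {y : ℂ | |dt u (c - y)| < α * ‖u‖ ∧ |cr u (c - y)| < β * ‖u‖} := by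
    apply IsOpen.measurableSet
    have c1 : Continuous (fun y : ℂ => |dt u (c - y)|) := by unfold dt; fun_prop
    have c2 : Continuous (fun y : ℂ => |cr u (c - y)|) := by unfold cr; fun_prop
    exact (isOpen_lt c1 continuous_const).inter (isOpen_lt c2 continuous_const)
  rw [← h1.measure_preimage hm.nullMeasurableSet, ← vol_box α β hα]
  congr 1
  ext z
  have e1 : dt u (c - (c - e * z)) = ‖u‖ * z.re := by
    have : c - (c - e * z) = e * z := by ring
    rw [this]
    nth_rewrite 1 [hue]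
    unfold dt
    simp only [mul_re, mul_im, ofReal_re, ofReal_im]
    linear_combination ‖u‖ * z.re * hee
  have e2 : cr u (c - (c - e * z)) = ‖u‖ * z.im := by
    have : c - (c - e * z) = e * z := by ring
    rw [this]
    nth_rewrite 1 [hue]
    unfold cr
    simp only [mul_re, mul_im, ofReal_re, ofReal_im]
    linear_combination ‖u‖ * z.im * hee
  simp only [mem_preimage, mem_ofPred_eq, e1, e2, abs_mul, abs_norm]
  rw [mul_comm α, mul_comm β, mul_lt_mul_iff_right₀ hn, mul_lt_mul_iff_right₀ hn]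

/-- The rectangles around the vertex position `c`. -/
def Rc (c : ℂ) (α β : ℝ) : Set (ℂ × ℂ) :=
  {p | ‖p.2‖ < 1 ∧ |dt p.2 (c - p.1)| < α * ‖p.2‖ ∧ |cr p.2 (c - p.1)| < β * ‖p.2‖}

theorem isOpen_Rc (c : ℂ) (α β : ℝ) : IsOpen (Rc c α β) := by
  have c0 : Continuous (fun p : ℂ × ℂ => ‖p.2‖) := by fun_prop
  have c1 : Continuous (fun p : ℂ × ℂ => |dt p.2 (c - p.1)|) := by unfold dt; fun_prop
  have c2 : Continuous (fun p : ℂ × ℂ => |cr p.2 (c - p.1)|) := by unfold cr; fun_prop
  exact (isOpen_lt c0 continuous_const).inter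
    ((isOpen_lt c1 (continuous_const.mul c0)).inter (isOpen_lt c2 (continuous_const.mul c0)))

theorem vol_Rc (c : ℂ) (α β : ℝ) (hα : 0 ≤ α) :
    volume (Rc c α β) ≤ ENNReal.ofReal (4 * Real.pi * α * β) := by
  rw [Measure.volume_eq_prod, Measure.prod_apply_symm (isOpen_Rc c α β).measurableSet]
  calc ∫⁻ u : ℂ, volume ((fun y : ℂ => (y, u)) ⁻¹' Rc c α β)
      ≤ ∫⁻ u : ℂ, (Metric.ball (0 : ℂ) 1).indicator (fun _ => ENNReal.ofReal (4 * α * β)) u := by
        apply lintegral_mono
        intro u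
        by_cases hu1 : ‖u‖ < 1
        · have hmem : u ∈ Metric.ball (0 : ℂ) 1 := by simpa using hu1
          simp only [indicator_of_mem hmem]
          by_cases hu : u = 0
          · have : (fun y : ℂ => (y, u)) ⁻¹' Rc c α β = ∅ := by
              ext y
              simp [Rc, hu, dt]
            rw [this, measure_empty]
            exact zero_le
          · rw [← vol_section hu c α β hα]
            apply measure_mono
            intro y hy
            exact hy.2
        · have : (fun y : ℂ => (y, u)) ⁻¹' Rc c α β = ∅ := by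
            ext y
            simp only [mem_preimage, Rc, mem_ofPred_eq, mem_empty_iff_false, iff_false]
            rintro ⟨h, _⟩
            exact hu1 h
          beta_reduce
          rw [this, measure_empty]
          exact zero_le
    _ = ENNReal.ofReal (4 * α * β) * volume (Metric.ball (0 : ℂ) 1) := by
        rw [lintegral_indicator Metric.isOpen_ball.measurableSet, lintegral_const,
          Measure.restrict_apply_univ]
    _ = ENNReal.ofReal (4 * α * β) * ENNReal.ofReal Real.pi := by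
        rw [Complex.volume_ball]
        congr 1
        simp only [ENNReal.ofReal_one, one_pow, one_mul]
        rw [← NNReal.coe_real_pi, ENNReal.ofReal_coe_nnreal]
    _ ≤ ENNReal.ofReal (4 * Real.pi * α * β) := by
        rw [← ENNReal.ofReal_mul' Real.pi_pos.le]
        apply le_of_eq
        congr 1
        ring

/-- Volume of the phase points which see an unfolded vertex in a rectangle. -/
theorem vol_see (hn : 3 ≤ n) (hv : ConvexIndependent ℝ v) (α β : ℝ) (hα : 0 ≤ α) :
    volume {p : ℂ × ℂ | p.1 ∈ PP v ∧ ‖p.2‖ < 1 ∧ ∃ (g : List (Fin n × Fin n)) (l : Fin n),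
      Rz v g p.1 p.2 ∧ |dt (Lo v g p.2) (v l - Fo v g p.1)| < α * ‖p.2‖ ∧
        |cr (Lo v g p.2) (v l - Fo v g p.1)| < β * ‖p.2‖} ≤
      ENNReal.ofReal (n * (4 * Real.pi * α * β)) := by
  have hY : MeasurableSet (⋃ l : Fin n, Rc (v l) α β) :=
    MeasurableSet.iUnion fun l => (isOpen_Rc (v l) α β).measurableSet
  calc _ ≤ volume {p : ℂ × ℂ | p.1 ∈ PP v ∧ ∃ g, Rz v g p.1 p.2 ∧
        Ph v g p ∈ ⋃ l : Fin n, Rc (v l) α β} := by
        apply measure_mono
        rintro p ⟨h1, h2, g, l, h3, h4, h5⟩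
        have hN := norm_Lo hv h3.val p.2
        refine ⟨h1, g, h3, mem_iUnion.2 ⟨l, ?_⟩⟩
        refine ⟨?_, ?_, ?_⟩
        · change ‖Lo v g p.2‖ < 1
          rw [hN]; exact h2
        · change |dt (Lo v g p.2) (v l - Fo v g p.1)| < α * ‖Lo v g p.2‖
          rw [hN]; exact h4
        · change |cr (Lo v g p.2) (v l - Fo v g p.1)| < β * ‖Lo v g p.2‖
          rw [hN]; exact h5
    _ ≤ volume (⋃ l : Fin n, Rc (v l) α β) := vol_words hn hv hY
    _ ≤ ∑' l : Fin n, volume (Rc (v l) α β) := measure_iUnion_le _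
    _ ≤ ∑' _l : Fin n, ENNReal.ofReal (4 * Real.pi * α * β) :=
        ENNReal.tsum_le_tsum fun l => vol_Rc (v l) α β hα
    _ = ENNReal.ofReal (n * (4 * Real.pi * α * β)) := by
        rw [tsum_fintype, Finset.sum_const, Finset.card_univ, Fintype.card_fin, nsmul_eq_mul,
          ENNReal.ofReal_mul (Nat.cast_nonneg n), ENNReal.ofReal_natCast]

end Pool.Agent.Lib.BilF.Img98
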