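import Pool.Agent.Lib.MP_7bc51d_an_s.BGeom
import Pool.Agent.Lib.MP_7bc51d_an_s.DenseDefs

namespace Pool.Agent.Lib.Bil
end Pool.Agent.Lib.Bil
namespace Pool.Agent.Lib.BilD
end Pool.Agent.Lib.BilD

/-!
# The anisotropic distance to the vertices (page 7bc51d_72_ERGODIC, part (2)): rows
-/

set_option autoImplicit false

namespace Pool.Agent.Lib.BilF

open Complex MeasureTheory Set Filter Topology
open scoped ComplexConjugate
open Pool.Agent.Lib.Bil Pool.Agent.Lib.BilD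

variable {n : ℕ}

/-- The properties of the anisotropic distance used by the analysis rows. -/
structure CutD (v : Fin n → ℂ) (C a b : ℝ) (D : ℂ → ℂ → ℝ) : Prop where
  meas : Measurable (fun p : ℂ × ℂ => D p.1 p.2)
  nn : ∀ x w, 0 ≤ D x w
  le : ∀ x w, D x w ≤ 1
  near : ∀ x w l, D x w ≤ b * ‖x - v l‖
  flow : ∀ x w, ∀ t : ℝ, x ∈ KK v → x + (t : ℂ) * w ∈ KK v →
    |D (x + (t : ℂ) * w) w - D x w| ≤ a * (|t| * ‖w‖)
  side : ∀ s ∈ SD v, ∀ τ ∈ Ioo (0 : ℝ) 1, ∀ w, cr (ed v s) w ≠ 0 →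
    D (v s.1 + (τ : ℂ) * ed v s) (rl (ed v s) w) = D (v s.1 + (τ : ℂ) * ed v s) w
  cross : ∀ x ∈ KK v, ∀ y ∈ KK v, ∀ w, w ≠ 0 →
    D y w ≤ D x w + b * (|cr w (x - y)| / ‖w‖) + C * a
  vol : ∀ r, 0 ≤ r → r ≤ 1 →
    volume {p : ℂ × ℂ | p.1 ∈ PP v ∧ ‖p.2‖ < 1 ∧ D p.1 p.2 < r} ≤
      ENNReal.ofReal (C * (r / b) * (r / a + 1))

end Pool.Agent.Lib.BilF
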