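import Pool.Agent.Lib.MP_7bc51d_an_s.BExit
import Pool.Agent.Lib.MP_7bc51d_an_s.BGeom
import Pool.Agent.Lib.MP_7bc51d_an_s.BGlobal
import Pool.Agent.Lib.MP_7bc51d_an_s.BPoly
import Pool.Agent.Lib.MP_7bc51d_an_s.BTraj
import Pool.Agent.Lib.MP_7bc51d_an_s.DenseDefs
import Pool.Agent.Lib.MP_7bc51d_an_s.FullCapDefs

namespace Pool.Agent.Lib.Bil
end Pool.Agent.Lib.Bil
namespace Pool.Agent.Lib.BilD
end Pool.Agent.Lib.BilD

/-!
# Extension of the anisotropic distance across the sides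
-/

set_option autoImplicit false

namespace Pool.Agent.Lib.BilF.Ext82

open Complex MeasureTheory Set Filter Topology
open scoped ComplexConjugate
open Pool.Agent.Lib.Bil Pool.Agent.Lib.BilD

variable {n : ℕ} {v : Fin n → ℂ}

theorem ed_ne (hv : ConvexIndependent ℝ v) {s : Fin n × Fin n} (hs : s ∈ SD v) : ed v s ≠ 0 :=
  v_sub_ne hv (mem_SD.1 hs).1

theorem rl_par {e w : ℂ} (he : e ≠ 0) (h : cr e w = 0) : rl e w = w := by
  obtain ⟨t, rfl⟩ := (cr_eq_zero_iff he).1 h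
  rw [rl_smul, rl_self he]

theorem RR_pt (hv : ConvexIndependent ℝ v) {s : Fin n × Fin n} (hs : s ∈ SD v) (τ : ℝ) :
    Rs v s (v s.1 + (τ : ℂ) * ed v s) = v s.1 + (τ : ℂ) * ed v s :=
  RR_line (ed_ne hv hs) τ

theorem side_all (hv : ConvexIndependent ℝ v) {C a b : ℝ} {D : ℂ → ℂ → ℝ} (h : CutD v C a b D)
    {s : Fin n × Fin n} (hs : s ∈ SD v) {τ : ℝ} (hτ : τ ∈ Ioo (0 : ℝ) 1) (w : ℂ) :
    D (v s.1 + (τ : ℂ) * ed v s) (rl (ed v s) w) = D (v s.1 + (τ : ℂ) * ed v s) w := by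
  by_cases hc : cr (ed v s) w = 0
  · rw [rl_par (ed_ne hv hs) hc]
  · exact h.side s hs τ hτ w hc

theorem pt_mem {s : Fin n × Fin n} {τ : ℝ} (hτ : τ ∈ Ioo (0 : ℝ) 1) :
    v s.1 + (τ : ℂ) * ed v s ∈ KK v := side_point_mem_KK hτ.1.le hτ.2.le

theorem cr_seg {x y c w : ℂ} (hc : c ∈ segment ℝ x y) :
    |cr w (x - c)| + |cr w (c - y)| = |cr w (x - y)| := by
  obtain ⟨p, q, hp, hq, hpq, rfl⟩ := hc
  have e1 : x - (p • x + q • y) = (q : ℂ) * (x - y) := by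
    simp only [Complex.real_smul]
    have : (p : ℂ) = 1 - q := eq_sub_of_add_eq (by exact_mod_cast hpq)
    rw [this]; ring
  have e2 : (p • x + q • y) - y = (p : ℂ) * (x - y) := by
    simp only [Complex.real_smul]
    have : (q : ℂ) = 1 - p := eq_sub_of_add_eq (by rw [add_comm]; exact_mod_cast hpq)
    rw [this]; ring
  rw [e1, e2, cr_smul_right, cr_smul_right, abs_mul, abs_mul, abs_of_nonneg hp, abs_of_nonneg hq,
    ← add_mul, add_comm q p, hpq, one_mul]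

/-- Comparison through a point of the side. -/
theorem ext_cross (hv : ConvexIndependent ℝ v) {C a b : ℝ} {D : ℂ → ℂ → ℝ} (h : CutD v C a b D)
    {s : Fin n × Fin n} (hs : s ∈ SD v) {τ : ℝ} (hτ : τ ∈ Ioo (0 : ℝ) 1) {x y w : ℂ}
    (hx : x ∈ KK v) (hy : Rs v s y ∈ KK v) (hw : w ≠ 0)
    (hc : v s.1 + (τ : ℂ) * ed v s ∈ segment ℝ x y) :
    |D (Rs v s y) (rl (ed v s) w) - D x w| ≤ b * (|cr w (x - y)| / ‖w‖) + 2 * C * a := by
  set c := v s.1 + (τ : ℂ) * ed v s with hcd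
  have he := ed_ne hv hs
  have hcK : c ∈ KK v := pt_mem hτ
  have hcc : Rs v s c = c := RR_pt hv hs τ
  have hn : ‖rl (ed v s) w‖ = ‖w‖ := norm_rl he w
  have hw' : rl (ed v s) w ≠ 0 := by
    rw [← norm_pos_iff, hn]; exact norm_pos_iff.2 hw
  have hcr : |cr (rl (ed v s) w) (c - Rs v s y)| = |cr w (c - y)| := by
    have e : c - Rs v s y = rl (ed v s) (c - y) := by
      conv_lhs => rw [← hcc]
      unfold Rs RR ed
      rw [show c - y = (c - v s.1) - (y - v s.1) by ring]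
      rw [sub_eq_add_neg (c - v s.1), rl_add, rl_neg]
      ring
    rw [e, cr_rl he, abs_neg]
  have hcr' : |cr (rl (ed v s) w) (Rs v s y - c)| = |cr w (c - y)| := by
    rw [← hcr, ← abs_neg, ← cr_neg_right, neg_sub]
  have hside := side_all hv h hs hτ w
  have hsum := cr_seg (w := w) hc
  have hx' : |cr w (c - x)| = |cr w (x - c)| := by
    rw [← abs_neg, ← cr_neg_right, neg_sub]
  have k1 := h.cross c hcK _ hy _ hw'
  have k2 := h.cross x hx c hcK w hw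
  have k3 := h.cross _ hy c hcK _ hw'
  have k4 := h.cross c hcK x hx w hw
  rw [hn, hcr] at k1
  rw [hn, hcr'] at k3
  rw [hx'] at k4
  rw [hside] at k1 k3
  have e3 : b * (|cr w (x - y)| / ‖w‖) = b * (|cr w (x - c)| / ‖w‖) + b * (|cr w (c - y)| / ‖w‖) := by
    rw [← hsum]; ring
  rw [e3, abs_le]
  constructor <;> linarith

/-- Comparison along the flow through a point of the side. -/
theorem ext_flow (hv : ConvexIndependent ℝ v) {C a b : ℝ} (ha : 0 ≤ a) {D : ℂ → ℂ → ℝ}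
    (h : CutD v C a b D)
    {s : Fin n × Fin n} (hs : s ∈ SD v) {τ : ℝ} (hτ : τ ∈ Ioo (0 : ℝ) 1) {x w : ℂ} {t : ℝ}
    (hx : x ∈ KK v) (hy : Rs v s (x + (t : ℂ) * w) ∈ KK v)
    (hc : v s.1 + (τ : ℂ) * ed v s ∈ segment ℝ x (x + (t : ℂ) * w)) :
    |D (Rs v s (x + (t : ℂ) * w)) (rl (ed v s) w) - D x w| ≤ a * (|t| * ‖w‖) := by
  set c := v s.1 + (τ : ℂ) * ed v s with hcd
  have he := ed_ne hv hs
  have hcK : c ∈ KK v := pt_mem hτ
  have hcc : Rs v s c = c := RR_pt hv hs τ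
  have hn : ‖rl (ed v s) w‖ = ‖w‖ := norm_rl he w
  have hside := side_all hv h hs hτ w
  obtain ⟨p, q, hp, hq, hpq, hcx⟩ := hc
  have e1 : c = x + ((q * t : ℝ) : ℂ) * w := by
    rw [← hcx]
    simp only [Complex.real_smul]
    have : (p : ℂ) = 1 - q := eq_sub_of_add_eq (by exact_mod_cast hpq)
    rw [this]; push_cast; ring
  have e2 : Rs v s (x + (t : ℂ) * w) = c + ((p * t : ℝ) : ℂ) * rl (ed v s) w := by
    have e3 : x + (t : ℂ) * w = c + ((p * t : ℝ) : ℂ) * w := by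
      rw [e1]
      have : (q : ℂ) = 1 - p := eq_sub_of_add_eq (by rw [add_comm]; exact_mod_cast hpq)
      push_cast; rw [this]; ring
    rw [e3]
    change RR v s.1 s.2 (c + ((p * t : ℝ) : ℂ) * w) = _
    rw [RR_add, rl_smul]
    change Rs v s c + _ = _
    rw [hcc]
    rfl
  have k1 := h.flow x w (q * t) hx (by rw [← e1]; exact hcK)
  have k2 := h.flow c (rl (ed v s) w) (p * t) hcK (by rw [← e2]; exact hy)
  rw [← e1] at k1
  rw [← e2, hn, hside] at k2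
  have e4 : a * (|t| * ‖w‖) = a * (|p * t| * ‖w‖) + a * (|q * t| * ‖w‖) := by
    rw [abs_mul, abs_mul, abs_of_nonneg hp, abs_of_nonneg hq]
    have e5 : a * (p * |t| * ‖w‖) + a * (q * |t| * ‖w‖) = (p + q) * (a * (|t| * ‖w‖)) := by ring
    rw [e5, hpq, one_mul]
  have k3 := abs_sub_le (D (Rs v s (x + (t : ℂ) * w)) (rl (ed v s) w)) (D c w) (D x w)
  linarith

end Pool.Agent.Lib.BilF.Ext82
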