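import Pool.Agent.Lib.MP_7bc51d_an_s.BGeom
import Pool.Agent.Lib.MP_7bc51d_an_s.DenseBasic
import Pool.Agent.Lib.MP_7bc51d_an_s.DenseDefs
import Pool.Agent.Lib.MP_7bc51d_an_s.FullDefs
import Pool.Agent.Lib.MP_7bc51d_an_s.FullGam21

namespace Pool.Agent.Lib.Bil
end Pool.Agent.Lib.Bil
namespace Pool.Agent.Lib.BilD
end Pool.Agent.Lib.BilD
namespace Pool.Agent.Lib.BilE
end Pool.Agent.Lib.BilE
namespace Pool.Agent.Lib.BilF
end Pool.Agent.Lib.BilF

/-!
# Rows SMOX, MODEX, BESX
-/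

set_option autoImplicit false

namespace Pool.Agent.Lib.BilF.Mode45

open Complex MeasureTheory Set Filter Topology
open scoped ComplexConjugate
open Pool.Agent.Lib.Bil Pool.Agent.Lib.BilD Pool.Agent.Lib.BilE Pool.Agent.Lib.BilF

variable {n : ℕ} {v : Fin n → ℂ} {G : ℂ → ℂ → ℝ} {ε : ℝ}

theorem gX_meas (hG : Measurable (fun p : ℂ × ℂ => G p.1 p.2)) :
    Measurable (fun p : ℂ × ℂ => gX v G p.1 p.2) := by
  unfold gX
  refine Measurable.add ?_ (Finset.measurable_sum _ (fun s _ => ?_))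
  · have e : (fun p : ℂ × ℂ => (PP v).indicator (fun x => G x p.2) p.1) =
        (PP v ×ˢ (univ : Set ℂ)).indicator (fun p : ℂ × ℂ => G p.1 p.2) := by
      funext p
      by_cases hp : p.1 ∈ PP v
      · rw [indicator_of_mem hp, indicator_of_mem (show p ∈ PP v ×ˢ (univ : Set ℂ) from
          ⟨hp, mem_univ _⟩)]
      · rw [indicator_of_notMem hp, indicator_of_notMem (fun h => hp h.1)]
    rw [e]
    exact hG.indicator (meas_PP.prod MeasurableSet.univ)
  · have e : (fun p : ℂ × ℂ => (BilD.OO v s).indicator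
        (fun x => G (Rs v s x) (rl (ed v s) p.2)) p.1) =
        (BilD.OO v s ×ˢ (univ : Set ℂ)).indicator
          (fun p : ℂ × ℂ => G (Rs v s p.1) (rl (ed v s) p.2)) := by
      funext p
      by_cases hp : p.1 ∈ BilD.OO v s
      · rw [indicator_of_mem hp, indicator_of_mem (show p ∈ BilD.OO v s ×ˢ (univ : Set ℂ) from
          ⟨hp, mem_univ _⟩)]
      · rw [indicator_of_notMem hp, indicator_of_notMem (fun h => hp h.1)]
    rw [e]
    refine Measurable.indicator ?_ ((meas_OO s).prod MeasurableSet.univ)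
    exact hG.comp (((cont_Rs s).measurable.comp measurable_fst).prodMk
      ((continuous_rl _).measurable.comp measurable_snd))

theorem abs_ind_le {s : Set ℂ} {f : ℂ → ℝ} (hf : ∀ x, |f x| ≤ 1) (x : ℂ) :
    |s.indicator f x| ≤ 1 := by
  by_cases hx : x ∈ s
  · rw [indicator_of_mem hx]; exact hf x
  · rw [indicator_of_notMem hx, abs_zero]; exact zero_le_one

theorem gX_bound (hG : ∀ x w, |G x w| ≤ 1) (x w : ℂ) : |gX v G x w| ≤ (n : ℝ) ^ 2 + 1 := by
  unfold gX
  refine (abs_add_le _ _).trans ?_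
  have h1 : |(PP v).indicator (fun x => G x w) x| ≤ 1 := abs_ind_le (fun x => hG x w) x
  have h2 : |∑ s ∈ SD v, (BilD.OO v s).indicator (fun x => G (Rs v s x) (rl (ed v s) w)) x| ≤
      (n : ℝ) ^ 2 := by
    refine (Finset.abs_sum_le_sum_abs _ _).trans ?_
    refine (Finset.sum_le_card_nsmul _ _ 1 (fun s _ => abs_ind_le (fun x => hG _ _) x)).trans ?_
    rw [nsmul_eq_mul, mul_one]
    have : (SD v).card ≤ n ^ 2 := by
      refine (Finset.card_le_univ _).trans (le_of_eq ?_)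
      rw [Fintype.card_prod, Fintype.card_fin, sq]
    exact_mod_cast this
  linarith

theorem gm (hG : AG G) : BilG.GM (gX v G) ((n : ℝ) ^ 2 + 1) :=
  ⟨gX_meas hG.meas, gX_bound hG.bd⟩

end Pool.Agent.Lib.BilF.Mode45
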