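import Pool.Agent.Lib.MP_7bc51d_an_s.BGeom
import Pool.Agent.Lib.MP_7bc51d_an_s.BPotential
import Pool.Agent.Lib.MP_7bc51d_an_s.BStep
import Pool.Agent.Lib.MP_7bc51d_an_s.BWords
import Pool.Agent.Lib.MP_7bc51d_an_s.DenseBasic
import Pool.Agent.Lib.MP_7bc51d_an_s.DenseDefs
import Pool.Agent.Lib.MP_7bc51d_an_s.DenseRefl5
import Pool.Agent.Lib.MP_7bc51d_an_s.ErgHinv33
import Pool.Agent.Lib.MP_7bc51d_an_s.FullDefs
import Pool.Agent.Lib.MP_7bc51d_an_s.FullEstA29
import Pool.Agent.Lib.MP_7bc51d_an_s.FullGam21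
import Pool.Agent.Lib.MP_7bc51d_an_s.FullMode45

namespace Pool.Agent.Lib.Bil
end Pool.Agent.Lib.Bil
namespace Pool.Agent.Lib.BilD
end Pool.Agent.Lib.BilD
namespace Pool.Agent.Lib.BilE
end Pool.Agent.Lib.BilE
namespace Pool.Agent.Lib.BilF
end Pool.Agent.Lib.BilF

/-!
# Row ESTX: energy along the flow
-/

set_option autoImplicit false

namespace Pool.Agent.Lib.BilF.EstX10

open Complex MeasureTheory Set Filter Topology
open scoped ComplexConjugate
open Pool.Agent.Lib.Bil Pool.Agent.Lib.BilD Pool.Agent.Lib.BilE Pool.Agent.Lib.BilF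

variable {n : ℕ} {v : Fin n → ℂ} {C e0 ε : ℝ}

theorem gX_PP (H : Geo v C e0) {y : ℂ} (hy : y ∈ PP v) (G : ℂ → ℂ → ℝ) (w : ℂ) :
    gX v G y w = G y w := by
  unfold gX
  rw [indicator_of_mem hy, Finset.sum_eq_zero, add_zero]
  intro s hs
  apply indicator_of_notMem
  intro h
  have h1 := (H.pp y).1 hy s hs
  have h2 := (H.pp (Rs v s y)).1 h s hs
  rw [Refl5.ds_Rs (H.edn s hs)] at h2
  linarith

/-- Formula for the extended function near a side. -/
theorem gX_near (H : Geo v C e0) {s : Fin n × Fin n} (hs : s ∈ SD v) (G : ℂ → ℂ → ℝ)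
    {y : ℂ} (w : ℂ) (h1 : ∀ t ∈ SD v, t ≠ s → 0 < ds v t y)
    (h2 : ∀ t ∈ SD v, t ≠ s → 0 < ds v t (Rs v s y)) :
    gX v G y w = (if 0 < ds v s y then G y w else 0) +
      (if ds v s y < 0 then G (Rs v s y) (rl (ed v s) w) else 0) := by
  have hP : y ∈ PP v ↔ 0 < ds v s y := by
    rw [H.pp]
    constructor
    · intro h; exact h s hs
    · intro h t ht
      by_cases hts : t = s
      · rw [hts]; exact h
      · exact h1 t ht hts
  have hO : y ∈ BilD.OO v s ↔ ds v s y < 0 := by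
    unfold BilD.OO
    rw [mem_ofPred_eq, H.pp]
    constructor
    · intro h
      have := h s hs
      rw [Refl5.ds_Rs (H.edn s hs)] at this
      linarith
    · intro h t ht
      by_cases hts : t = s
      · rw [hts, Refl5.ds_Rs (H.edn s hs)]; linarith
      · exact h2 t ht hts
  have hO' : ∀ t ∈ SD v, t ≠ s → y ∉ BilD.OO v t := by
    intro t ht hts h
    unfold BilD.OO at h
    rw [mem_ofPred_eq, H.pp] at h
    have := h t ht
    rw [Refl5.ds_Rs (H.edn t ht)] at this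
    have := h1 t ht hts
    linarith
  unfold gX
  congr 1
  · by_cases h : 0 < ds v s y
    · rw [indicator_of_mem (hP.2 h), if_pos h]
    · rw [indicator_of_notMem (fun h3 => h (hP.1 h3)), if_neg h]
  · rw [Finset.sum_eq_single s]
    · by_cases h : ds v s y < 0
      · rw [indicator_of_mem (hO.2 h), if_pos h]
      · rw [indicator_of_notMem (fun h3 => h (hO.1 h3)), if_neg h]
    · intro t ht hts
      rw [indicator_of_notMem (hO' t ht hts)]
    · intro h; exact absurd hs h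

/-- Product formula in a small ball about a good point. -/
theorem prod_near (H : Geo v C e0) (hε : 0 < ε) (hε0 : ε < e0) {x : ℂ} (hx : x ∈ Gd v C ε)
    {y : ℂ} (hy : ‖x - y‖ < ε) (X : ℂ → ℂ → ℝ) {F : ℂ → ℝ → ℝ} (hF : ∀ w Q, |F w Q| ≤ 1) (w : ℂ) :
    gX v (XF X F) y w = gX v X y w * gx v F y w ∧ |gx v F y w| ≤ 1 := by
  have hgx : gx v F y w = gX v (fun x w => F w (cr w x)) y w := gx_eq v F y w
  rcases H.dic ε hε hε0 x hx with h | ⟨s, hs, h⟩
  · have hyP : y ∈ PP v := by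
      rw [H.pp]
      intro s hs
      have h1 := h s hs
      have h2 := (abs_le.1 (Refl5.ds_sub_le (v := v) (s := s) x y)).2
      linarith
    rw [hgx, gX_PP H hyP, gX_PP H hyP, gX_PP H hyP]
    exact ⟨rfl, hF _ _⟩
  · obtain ⟨h1, h2⟩ := Refl5.Nr_ball H hε hs h hy
    rw [hgx, gX_near H hs _ w h1 h2, gX_near H hs _ w h1 h2, gX_near H hs _ w h1 h2]
    rcases lt_trichotomy (ds v s y) 0 with h3 | h3 | h3
    · rw [if_neg (not_lt.2 h3.le), if_neg (not_lt.2 h3.le), if_neg (not_lt.2 h3.le), if_pos h3,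
        if_pos h3, if_pos h3, zero_add, zero_add, zero_add]
      exact ⟨rfl, hF _ _⟩
    · rw [h3]
      simp
    · rw [if_pos h3, if_pos h3, if_pos h3, if_neg (not_lt.2 h3.le), if_neg (not_lt.2 h3.le),
        if_neg (not_lt.2 h3.le), add_zero, add_zero, add_zero]
      exact ⟨rfl, hF _ _⟩

theorem norm_nw {w : ℂ} (hw : w ≠ 0) : ‖nw w‖ = 1 := by
  unfold nw
  rw [norm_div, norm_real, norm_norm, div_self (norm_ne_zero_iff.2 hw)]

theorem nw_ne {w : ℂ} (hw : w ≠ 0) : nw w ≠ 0 := by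
  rw [← norm_ne_zero_iff, norm_nw hw]; exact one_ne_zero

theorem rl_nw {w : ℂ} (hw : w ≠ 0) (z : ℂ) : rl (nw w) z = rl w z := by
  have hn : (‖w‖ : ℂ) ≠ 0 := by simpa using hw
  have hc : conj w ≠ 0 := by simpa using hw
  unfold rl nw
  rw [map_div₀, conj_ofReal]
  field_simp

theorem AG_XF {X : ℂ → ℂ → ℝ} {F : ℂ → ℝ → ℝ} (hF : LF F)
    (hm : Measurable (fun p : ℂ × ℂ => X p.1 p.2)) (h0 : ∀ x w, 0 ≤ X x w)
    (h1 : ∀ x w, X x w ≤ 1) : AG (XF X F) := by
  refine ⟨?_, ?_⟩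
  · unfold XF
    refine hm.mul (hF.meas.comp (measurable_snd.prodMk ?_))
    fun_prop
  · intro x w
    unfold XF
    rw [abs_mul, abs_of_nonneg (h0 x w)]
    exact mul_le_one₀ (h1 x w) (abs_nonneg _) (hF.bd _ _)

/-- Pointwise estimate at good points. -/
theorem pt (H : Geo v C e0) (hε : 0 < ε) (hε0 : ε < e0) {F : ℂ → ℝ → ℝ} (hF : LFS v F)
    {X R : ℂ → ℂ → ℝ} {κ ν : ℝ} (hc : Cut v C ε X R κ ν) {x : ℂ} (hxP : x ∈ PP v)
    (hxk : ∀ k, C * ε ≤ ‖x - v k‖) {w : ℂ} (hw : w ≠ 0)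
    (hL : ∀ᵐ y : ℂ, ‖y - x‖ ≤ ε → gx v F (x - rl w (y - x)) w = gx v F y w) :
    |dX v (XF X F) ε x w (nw w)| ≤ BilG.KK0 * Real.pi / ε * (ν * R x w) := by
  have hAG : AG (XF X F) := AG_XF hF.lf hc.meas hc.x0 hc.x1
  have hgd : x ∈ Gd v C ε := ⟨fun s hs => ((H.pp x).1 hxP s hs).le, hxk⟩
  have hm : Measurable (fun y => gX v (XF X F) y w) :=
    (Mode45.gX_meas hAG.meas).comp (measurable_id.prodMk measurable_const)
  have hb : ∀ y, |gX v (XF X F) y w| ≤ (n : ℝ) ^ 2 + 1 := fun y => Mode45.gX_bound hAG.bd y w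
  have hmi : ∀ z, EstA29.mi (nw w) z = - rl w z := by
    intro z
    unfold EstA29.mi
    rw [rl_nw hw]
  have h1 := EstA29.along_le (B := BilG.KK0) (fun ε hε h k => BilG.KK0_bd hε h k) hm hb hε x
    (nw_ne hw)
  rw [norm_nw hw, mul_one] at h1
  have hR0 : 0 ≤ R x w := hc.r0 x w
  -- integrand
  have hsub : MeasurePreserving (fun z : ℂ => x - z) volume volume :=
    Measure.measurePreserving_sub_left volume x
  have a1 : ∀ᵐ z : ℂ, ‖z‖ ≤ ε → gx v F (x + rl w z) w = gx v F (x - z) w := by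
    filter_upwards [hsub.quasiMeasurePreserving.ae hL] with z hz hz1
    have h2 := hz (by rw [sub_sub_cancel_left, norm_neg]; exact hz1)
    rw [sub_sub_cancel_left] at h2
    have h3 : rl w (-z) = - rl w z := by
      unfold rl
      rw [map_neg, mul_neg]
    rw [h3, sub_neg_eq_add] at h2
    exact h2
  have a2 : ∀ᵐ z : ℂ, ∀ s ∈ SD v, ds v s (x - z) ≠ 0 := by
    rw [Filter.eventually_all_finset]
    intro s hs
    exact hsub.quasiMeasurePreserving.ae (BilE.Hinv33.ae_ds s (H.edn s hs))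
  have a3 : ∀ᵐ z : ℂ, ∀ s ∈ SD v, ds v s (x + rl w z) ≠ 0 := by
    rw [Filter.eventually_all_finset]
    intro s hs
    have hadd : MeasurePreserving (fun z : ℂ => x + z) volume volume :=
      measurePreserving_add_left volume x
    exact (mp_rl hw).quasiMeasurePreserving.ae
      (hadd.quasiMeasurePreserving.ae (BilE.Hinv33.ae_ds s (H.edn s hs)))
  have key : ∀ᵐ z : ℂ ∂(volume.restrict (Metric.ball (0 : ℂ) ε)),
      |gX v (XF X F) (x - z) w - gX v (XF X F) (x - EstA29.mi (nw w) z) w| ≤ ν * R x w := by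
    rw [ae_restrict_iff' measurableSet_ball]
    filter_upwards [a1, a2, a3] with z b1 b2 b3 hz
    rw [mem_ball_zero_iff] at hz
    rw [hmi, sub_neg_eq_add]
    have c1 : ‖x - (x - z)‖ < ε := by rw [sub_sub_cancel]; exact hz
    have c2 : ‖x - (x + rl w z)‖ < ε := by
      rw [sub_add_cancel_left, norm_neg, norm_rl hw]; exact hz
    obtain ⟨p1, q1⟩ := prod_near H hε hε0 hgd c1 X hF.lf.bd w
    obtain ⟨p2, q2⟩ := prod_near H hε hε0 hgd c2 X hF.lf.bd w
    rw [p1, p2, b1 hz.le, ← sub_mul, abs_mul]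
    obtain ⟨t, ht⟩ := EstA29.sub_mi hw z
    have e1 : x + rl w z = (x - z) + (t : ℂ) * w := by
      rw [← ht]
      unfold EstA29.mi
      ring
    have d1 := hc.par x hxP hxk w hw (x - z) t (by rw [norm_sub_rev]; exact c1.le)
      (by rw [← e1, norm_sub_rev]; exact c2.le) b2 (by rw [← e1]; exact b3)
    rw [← e1, abs_sub_comm] at d1
    calc _ ≤ ν * R x w * 1 := mul_le_mul d1 q1 (abs_nonneg _) ((abs_nonneg _).trans d1)
      _ = ν * R x w := mul_one _
  have h2 : ∫ z in Metric.ball (0 : ℂ) ε,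
      |gX v (XF X F) (x - z) w - gX v (XF X F) (x - EstA29.mi (nw w) z) w| ≤
        Real.pi * ε ^ 2 * (ν * R x w) := by
    have hvol : (volume : Measure ℂ).real (Metric.ball (0 : ℂ) ε) = Real.pi * ε ^ 2 := by
      rw [Measure.real, Complex.volume_ball, ENNReal.toReal_mul, ENNReal.toReal_pow,
        ENNReal.toReal_ofReal hε.le, mul_comm]
      rfl
    have hcst : IntegrableOn (fun _ : ℂ => ν * R x w) (Metric.ball 0 ε) :=
      integrableOn_const measure_ball_lt_top.ne
    have hint : IntegrableOn (fun z => |gX v (XF X F) (x - z) w -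
        gX v (XF X F) (x - EstA29.mi (nw w) z) w|) (Metric.ball 0 ε) := by
      refine hcst.mono' ?_ ?_
      · exact (((hm.comp (measurable_const.sub measurable_id)).sub
          (hm.comp (measurable_const.sub
            (EstA29.mp_mi (nw_ne hw)).measurable))).abs).aestronglyMeasurable
      · filter_upwards [key] with z hz
        rw [Real.norm_eq_abs, abs_abs]
        exact hz
    refine (integral_mono_ae hint hcst key).trans ?_
    rw [setIntegral_const, hvol, smul_eq_mul]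
  have hK := BilG.KK0_pos
  calc |dX v (XF X F) ε x w (nw w)| ≤ BilG.KK0 / ε ^ 3 * ∫ z in Metric.ball (0 : ℂ) ε,
      |gX v (XF X F) (x - z) w - gX v (XF X F) (x - EstA29.mi (nw w) z) w| := h1
    _ ≤ BilG.KK0 / ε ^ 3 * (Real.pi * ε ^ 2 * (ν * R x w)) := by
        apply mul_le_mul_of_nonneg_left h2 (by positivity)
    _ = _ := by field_simp

/-- (ESTX) -/
theorem row (hLine : StLine) (hZero : StZeroX) : StEstX := by
  have hK := BilG.KK0_pos
  have hpi := Real.pi_pos
  refine ⟨(BilG.KK0 * Real.pi) ^ 2, by positivity, ?_⟩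
  intro n v C e0 H F hF ε hε hε0 X R κ ν hκ hν hc
  have hAG : AG (XF X F) := AG_XF hF.lf hc.meas hc.x0 hc.x1
  have hVZ : VZ v (XF X F) (4 * C * ε) := by
    intro x hx w k hk
    unfold XF
    rw [hc.vz x hx w k hk, zero_mul]
  have hZ := (hZero n v C e0 H _ hAG ε hε hε0 hVZ).2.1
  have hgm := Mode45.gm (v := v) hAG
  obtain ⟨B, hB⟩ := hc.rb
  -- integrability on the phase space
  have hDDfin : volume (DD v) ≠ ⊤ := volume_DD_lt_top.ne
  have i1 : IntegrableOn (fun p : ℂ × ℂ => dX v (XF X F) ε p.1 p.2 (nw p.2) ^ 2) (DD v) := by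
    refine Measure.integrableOn_of_bounded
      (M := (((n : ℝ) ^ 2 + 1) * BilG.KK0 * Real.pi / ε) ^ 2) hDDfin
      ((BilG.sdir_meas2 hgm hε).pow_const 2).aestronglyMeasurable
      (Eventually.of_forall (fun p => ?_))
    rw [Real.norm_eq_abs, abs_of_nonneg (sq_nonneg _), ← sq_abs]
    exact pow_le_pow_left₀ (abs_nonneg _) (BilG.sdir_bound hgm hε p.1 p.2) 2
  have i2 : IntegrableOn (fun p : ℂ × ℂ => R p.1 p.2 ^ 2) (DD v) := by
    refine Measure.integrableOn_of_bounded (M := B ^ 2) hDDfin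
      (hc.rm.pow_const 2).aestronglyMeasurable (Eventually.of_forall (fun p => ?_))
    rw [Real.norm_eq_abs, abs_of_nonneg (sq_nonneg _)]
    exact pow_le_pow_left₀ (hc.r0 _ _) (hB _ _) 2
  have j1 : XE v (XF X F) ε = ∫ x in PP v, ∫ w in BV, dX v (XF X F) ε x w (nw w) ^ 2 := by
    unfold XE DD
    rw [Measure.volume_eq_prod]
    exact setIntegral_prod (fun p : ℂ × ℂ => dX v (XF X F) ε p.1 p.2 (nw p.2) ^ 2) i1
  have j2 : ∫ p in DD v, R p.1 p.2 ^ 2 = ∫ x in PP v, ∫ w in BV, R x w ^ 2 := by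
    unfold DD
    rw [Measure.volume_eq_prod]
    exact setIntegral_prod (fun p : ℂ × ℂ => R p.1 p.2 ^ 2) i2
  have k1 : IntegrableOn (fun x => ∫ w in BV, dX v (XF X F) ε x w (nw w) ^ 2) (PP v) := by
    have h := i1
    unfold IntegrableOn DD at h
    rw [Measure.volume_eq_prod, ← Measure.prod_restrict] at h
    exact h.integral_prod_left
  have k2 : IntegrableOn (fun x => ∫ w in BV, R x w ^ 2) (PP v) := by
    have h := i2
    unfold IntegrableOn DD at h
    rw [Measure.volume_eq_prod, ← Measure.prod_restrict] at h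
    exact h.integral_prod_left
  rw [j1, j2, ← integral_const_mul]
  refine setIntegral_mono_on k1 (k2.const_mul _) meas_PP ?_
  intro x hx
  rw [← integral_const_mul]
  have hfin : volume BV ≠ ⊤ := measure_ball_lt_top.ne
  have l1 : IntegrableOn (fun w => dX v (XF X F) ε x w (nw w) ^ 2) BV := by
    refine Measure.integrableOn_of_bounded
      (M := (((n : ℝ) ^ 2 + 1) * BilG.KK0 * Real.pi / ε) ^ 2) hfin
      (((BilG.sdir_meas2 hgm hε).comp (measurable_const.prodMk
        measurable_id)).pow_const 2).aestronglyMeasurable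
      (Eventually.of_forall (fun w => ?_))
    rw [Real.norm_eq_abs, abs_of_nonneg (sq_nonneg _), ← sq_abs]
    exact pow_le_pow_left₀ (abs_nonneg _) (BilG.sdir_bound hgm hε x w) 2
  have l2 : IntegrableOn (fun w => (BilG.KK0 * Real.pi) ^ 2 * ν ^ 2 / ε ^ 2 * R x w ^ 2) BV := by
    apply Integrable.const_mul
    refine Measure.integrableOn_of_bounded (M := B ^ 2) hfin
      ((hc.rm.comp (measurable_const.prodMk measurable_id)).pow_const 2).aestronglyMeasurable
      (Eventually.of_forall (fun w => ?_))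
    rw [Real.norm_eq_abs, abs_of_nonneg (sq_nonneg _)]
    exact pow_le_pow_left₀ (hc.r0 _ _) (hB _ _) 2
  refine integral_mono_ae l1 l2 ?_
  by_cases hxk : ∀ k, C * ε ≤ ‖x - v k‖
  · have hgd : x ∈ Gd v C ε := ⟨fun s hs => ((H.pp x).1 hx s hs).le, hxk⟩
    have hne : ∀ᵐ w : ℂ, w ≠ 0 := by simp [ae_iff, measure_singleton]
    apply ae_restrict_of_ae
    filter_upwards [hLine n v C e0 H F hF ε hε hε0 x hgd, hne] with w hw hw0
    have hp := pt H hε hε0 hF hc hx hxk hw0 hw
    have hq := pow_le_pow_left₀ (abs_nonneg _) hp 2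
    rw [sq_abs] at hq
    refine hq.trans (le_of_eq ?_)
    field_simp
  · push Not at hxk
    obtain ⟨k, hk⟩ := hxk
    apply ae_of_all
    intro w
    have hC := H.C1
    have hlt : ‖x - v k‖ < 3 * C * ε := by nlinarith
    have : dX v (XF X F) ε x w (nw w) = 0 := hZ x w (nw w) k hlt
    simp only
    rw [this]
    have h0 : (0 : ℝ) ^ 2 = 0 := by norm_num
    rw [h0]
    positivity

end Pool.Agent.Lib.BilF.EstX10
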