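import Pool.Agent.Lib.MP_7bc51d_an_s.BGeom
import Pool.Agent.Lib.MP_7bc51d_an_s.BGlobal
import Pool.Agent.Lib.MP_7bc51d_an_s.BLine
import Pool.Agent.Lib.MP_7bc51d_an_s.BLineFn
import Pool.Agent.Lib.MP_7bc51d_an_s.BSymm
import Pool.Agent.Lib.MP_7bc51d_an_s.DenseBasic
import Pool.Agent.Lib.MP_7bc51d_an_s.DenseDefs
import Pool.Agent.Lib.MP_7bc51d_an_s.DenseInv45
import Pool.Agent.Lib.MP_7bc51d_an_s.FullDefs

namespace Pool.Agent.Lib.Bil
end Pool.Agent.Lib.Bil
namespace Pool.Agent.Lib.BilD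
end Pool.Agent.Lib.BilD
namespace Pool.Agent.Lib.BilE
end Pool.Agent.Lib.BilE
namespace Pool.Agent.Lib.BilF
end Pool.Agent.Lib.BilF

/-!
# Row LINE
-/

set_option autoImplicit false

namespace Pool.Agent.Lib.BilF.Line45

open Complex MeasureTheory Set Filter Topology
open scoped ComplexConjugate
open Pool.Agent.Lib.Bil Pool.Agent.Lib.BilD Pool.Agent.Lib.BilE Pool.Agent.Lib.BilF

variable {n : ℕ} {v : Fin n → ℂ} {F : ℂ → ℝ → ℝ} {C e0 ε : ℝ}

theorem rl_chi {w : ℂ} (hw : w ≠ 0) (q r : ℝ) :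
    rl w (chi w (q, r)) = -bs w q + (r : ℂ) * w := by
  have hw' : conj w ≠ 0 := (map_ne_zero _).2 hw
  unfold chi bs rl
  simp only [map_add, map_mul, conj_ofReal, conj_I]
  field_simp

theorem mirror {w : ℂ} (hw : w ≠ 0) {x : ℂ} (Q r : ℝ) {q rx : ℝ} (hx : x = chi w (q, rx)) :
    x - rl w (chi w (Q, r) - x) = chi w (Q, 2 * rx - r) := by
  have e1 : chi w (Q, r) - x = chi w (Q - q, r - rx) := by
    rw [hx]
    unfold chi bs
    push_cast
    ring
  rw [e1, rl_chi hw, hx]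
  unfold chi bs
  push_cast
  ring

theorem exists_rx {w : ℂ} (hw : w ≠ 0) (x : ℂ) : ∃ q rx : ℝ, x = chi w (q, rx) := by
  have h : cr w (x - bs w (cr w x)) = 0 := by
    rw [cr_sub_right, cr_bs hw, sub_self]
  obtain ⟨t, ht⟩ := (cr_eq_zero_iff hw).1 h
  refine ⟨cr w x, t, ?_⟩
  unfold chi
  rw [← ht]
  ring

theorem norm_mirror {w : ℂ} (hw : w ≠ 0) (x y : ℂ) : ‖x - (x - rl w (y - x))‖ = ‖y - x‖ := by
  have : x - (x - rl w (y - x)) = rl w (y - x) := by ring
  rw [this, norm_rl hw]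

/-- From almost all lines to almost all points. -/
theorem of_lines {w : ℂ} (hw : w ≠ 0) {N : Set ℂ} (hN : MeasurableSet N)
    (h : ∀ᵐ Q : ℝ, ∀ᵐ r : ℝ, chi w (Q, r) ∉ N) : ∀ᵐ y : ℂ, y ∉ N := by
  rw [ae_iff]
  simp only [not_not]
  change volume N = 0
  rw [← (mp_chi hw).measure_preimage hN.nullMeasurableSet, Measure.volume_eq_prod,
    Measure.measure_prod_null ((mp_chi hw).measurable hN)]
  filter_upwards [h] with Q hQ
  rw [ae_iff] at hQ
  simp only [not_not] at hQ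
  exact hQ

theorem core (hF : LFS v F) (hε : 0 < ε) {x w : ℂ} (hw : w ≠ 0)
    (h : ∀ᵐ Q : ℝ, ∃ c : ℝ, ∀ᵐ r : ℝ, ‖x - chi w (Q, r)‖ ≤ 5 / 4 * ε →
      gx v F (chi w (Q, r)) w = c) :
    ∀ᵐ y : ℂ, ‖y - x‖ ≤ ε → gx v F (x - rl w (y - x)) w = gx v F y w := by
  obtain ⟨q, rx, hrx⟩ := exists_rx hw x
  have hg : Measurable (fun y => gx v F y w) := gx_meas_x hF.lf w
  have hm : Measurable (fun y : ℂ => x - rl w (y - x)) :=
    (continuous_const.sub ((continuous_rl w).comp (continuous_id.sub continuous_const))).measurable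
  have hN : MeasurableSet {y : ℂ | ‖y - x‖ ≤ ε ∧
      gx v F (x - rl w (y - x)) w ≠ gx v F y w} := by
    refine MeasurableSet.inter ?_ ?_
    · exact measurableSet_le (measurable_norm.comp (measurable_id.sub measurable_const))
        measurable_const
    · exact (measurableSet_eq_fun (hg.comp hm) hg).compl
  have key := of_lines hw hN ?_
  · filter_upwards [key] with y hy hn
    by_contra hne
    exact hy ⟨hn, hne⟩
  filter_upwards [h] with Q hQ
  obtain ⟨c, hc⟩ := hQ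
  have hc2 : ∀ᵐ r : ℝ, ‖x - chi w (Q, 2 * rx - r)‖ ≤ 5 / 4 * ε →
      gx v F (chi w (Q, 2 * rx - r)) w = c :=
    (Measure.measurePreserving_sub_left volume (2 * rx)).quasiMeasurePreserving.ae hc
  filter_upwards [hc, hc2] with r h1 h2
  rintro ⟨h3, h4⟩
  apply h4
  have n1 : ‖x - chi w (Q, r)‖ ≤ 5 / 4 * ε := by
    rw [norm_sub_rev]; linarith
  have n2 : ‖x - chi w (Q, 2 * rx - r)‖ ≤ 5 / 4 * ε := by
    rw [← mirror hw Q r hrx, norm_mirror hw]; linarith
  rw [mirror hw Q r hrx, h1 n1, h2 n2]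

/-- (LINE) -/
theorem row : StLine := by
  intro n v C e0 hg F hF ε hε hε0 x hx
  have hw0 : ∀ᵐ w : ℂ, w ≠ 0 := by simp [ae_iff, measure_singleton]
  rcases hg.dic ε hε hε0 x hx with h | ⟨s, hs, h⟩
  · filter_upwards [hw0] with w hw
    exact core hF hε hw (Eventually.of_forall (fun Q => Inv45.const_int hg F hε h hw Q))
  · have he := hg.edn s hs
    have hsym := hF.sym s hs
    unfold SymAt at hsym
    filter_upwards [hw0, hsym, ae_not_mem_line (ed v s)] with w hw h1 h2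
    refine core hF hε hw (Inv45.const_side hg hε hs h hw ?_ h1)
    intro h3
    apply h2
    obtain ⟨t, ht⟩ := (cr_eq_zero_iff he).1 h3
    rw [Submodule.mem_span_singleton]
    exact ⟨t, by rw [real_smul]; exact ht.symm⟩

end Pool.Agent.Lib.BilF.Line45
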