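import Pool.Agent.Lib.MP_7bc51d_an_s.DenseBasic
import Pool.Agent.Lib.MP_7bc51d_an_s.DenseDefs
import Pool.Agent.Lib.MP_7bc51d_an_s.DenseLim89

namespace Pool.Agent.Lib.Bil
end Pool.Agent.Lib.Bil
namespace Pool.Agent.Lib.BilD
end Pool.Agent.Lib.BilD
namespace Pool.Agent.Lib.BilD.Lim89
end Pool.Agent.Lib.BilD.Lim89

/-!
# Small energy of approximants makes a function constant

If an integrable function on a bounded convex open set of the plane is, for every `δ > 0`, within
`δ` (in mean) of a `C ^ 1` function whose energy on that set is at most `δ`, it is constant almost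
everywhere there.
-/

set_option autoImplicit false

namespace Pool.Agent.Lib.BilF.LimC22

open Complex MeasureTheory Set Filter Topology
open scoped ComplexConjugate Convolution
open Pool.Agent.Lib.Bil Pool.Agent.Lib.BilD Pool.Agent.Lib.BilD.Lim89

variable {P : Set ℂ} {a u : ℂ → ℂ} {g : ℂ → ℝ} {L : ℂ →L[ℝ] ℝ}

/-- energy density -/
noncomputable def ed2 (u : ℂ → ℂ) (x : ℂ) : ℝ := ‖dz u x‖ ^ 2 + ‖dzb u x‖ ^ 2

theorem ed2_nonneg (u : ℂ → ℂ) (x : ℂ) : 0 ≤ ed2 u x := by
  unfold ed2; positivity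

theorem ed2_cont (hu : ContDiff ℝ 1 u) : Continuous (ed2 u) := by
  have h2 : Continuous (fderiv ℝ u) := hu.continuous_fderiv one_ne_zero
  have h3 : Continuous (dz u) := by
    unfold dz
    exact ((h2.clm_apply continuous_const).sub
      (continuous_const.mul (h2.clm_apply continuous_const))).div_const 2
  have h4 : Continuous (dzb u) := by
    unfold dzb
    exact ((h2.clm_apply continuous_const).add
      (continuous_const.mul (h2.clm_apply continuous_const))).div_const 2
  unfold ed2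
  exact (h3.norm.pow 2).add (h4.norm.pow 2)

theorem fderiv_L (hu : ContDiff ℝ 1 u) (x h : ℂ) :
    fderiv ℝ (fun y => L (u y)) x h = L (fderiv ℝ u x h) := by
  have h1 : HasFDerivAt u (fderiv ℝ u x) x := (hu.differentiable one_ne_zero x).hasFDerivAt
  have h2 := (L.hasFDerivAt (x := u x)).comp x h1
  have h3 : fderiv ℝ (fun y => L (u y)) x = L.comp (fderiv ℝ u x) := h2.fderiv
  rw [h3]
  rfl

theorem fderiv_L_le (hu : ContDiff ℝ 1 u) (hL : ∀ z, |L z| ≤ ‖z‖) (x : ℂ) {h : ℂ}
    (hh : h = 1 ∨ h = I) : |fderiv ℝ (fun y => L (u y)) x h| ≤ 2 * √(ed2 u x) := by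
  rw [fderiv_L hu]
  refine (hL _).trans ?_
  have e1 : fderiv ℝ u x 1 = dz u x + dzb u x := by
    unfold dz dzb; ring
  have e2 : fderiv ℝ u x I = I * (dz u x - dzb u x) := by
    unfold dz dzb
    have hI : I * I = -1 := I_mul_I
    linear_combination (fderiv ℝ u x I) * hI
  have h1 : ‖fderiv ℝ u x h‖ ≤ ‖dz u x‖ + ‖dzb u x‖ := by
    rcases hh with rfl | rfl
    · rw [e1]; exact norm_add_le _ _
    · rw [e2, norm_mul, norm_I, one_mul]; exact norm_sub_le _ _
  refine h1.trans ?_
  have h2 : ‖dz u x‖ ≤ √(ed2 u x) := by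
    apply Real.le_sqrt_of_sq_le
    unfold ed2
    nlinarith [sq_nonneg ‖dzb u x‖]
  have h3 : ‖dzb u x‖ ≤ √(ed2 u x) := by
    apply Real.le_sqrt_of_sq_le
    unfold ed2
    nlinarith [sq_nonneg ‖dz u x‖]
  linarith

/-! ### mollification -/

/-- the mollification of a real function -/
noncomputable def mo (g : ℂ → ℝ) (d : ℝ) (x : ℂ) : ℝ := ∫ z, et d (x - z) * g z

theorem mo_eq (g : ℂ → ℝ) (d : ℝ) :
    mo g d = (g ⋆[ContinuousLinearMap.mul ℝ ℝ, volume] et d) := by
  funext x
  unfold mo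
  rw [convolution_def]
  refine integral_congr_ae (Eventually.of_forall (fun y => ?_))
  simp only [ContinuousLinearMap.mul_apply']
  ring

theorem mo_contDiff (hg : Integrable g) {d : ℝ} (hd : 0 < d) : ContDiff ℝ 1 (mo g d) := by
  rw [mo_eq]
  exact (et_compact hd).contDiff_convolution_right _ hg.locallyIntegrable
    ((et_contDiff d).of_le (WithTop.coe_le_coe.2 (le_top : (1 : ℕ∞) ≤ ⊤)))

theorem fderiv_mo (hg : Integrable g) {d : ℝ} (hd : 0 < d) (x h : ℂ) :
    fderiv ℝ (mo g d) x h = ∫ y, fderiv ℝ (et d) (x - y) h * g y := by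
  have hs1 : ContDiff ℝ 1 (et d) :=
    (et_contDiff d).of_le (WithTop.coe_le_coe.2 (le_top : (1 : ℕ∞) ≤ ⊤))
  have hc : HasCompactSupport (et d) := et_compact hd
  have h1 := hc.hasFDerivAt_convolution_right (ContinuousLinearMap.mul ℝ ℝ)
    hg.locallyIntegrable hs1 x
  rw [mo_eq, h1.fderiv, convolution_def]
  have hex : ConvolutionExistsAt g (fderiv ℝ (et d)) x
      ((ContinuousLinearMap.mul ℝ ℝ).precompR ℂ) volume := by
    apply HasCompactSupport.convolutionExists_right
    · exact hc.fderiv ℝ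
    · exact hg.locallyIntegrable
    · exact hs1.continuous_fderiv (by norm_num)
  rw [ContinuousLinearMap.integral_apply hex]
  apply integral_congr_ae
  refine Eventually.of_forall (fun y => ?_)
  simp only [ContinuousLinearMap.precompR_apply, ContinuousLinearMap.compL_apply,
    ContinuousLinearMap.comp_apply, ContinuousLinearMap.mul_apply']
  ring

/-! ### the weak derivative vanishes -/

/-- approximation in mean by `C ^ 1` functions of small energy -/
def SmallEn (P : Set ℂ) (a : ℂ → ℂ) : Prop :=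
  ∀ δ > 0, ∃ u : ℂ → ℂ, ContDiff ℝ 1 u ∧ (∫ x in P, (‖dz u x‖ ^ 2 + ‖dzb u x‖ ^ 2)) ≤ δ ∧
    (∫ x in P, ‖u x - a x‖) ≤ δ

theorem intOn (hPb : Bornology.IsBounded P) {q : ℂ → ℝ} (hq : Continuous q) :
    IntegrableOn q P := by
  obtain ⟨R, hR⟩ := hPb.subset_closedBall 0
  exact (hq.continuousOn.integrableOn_compact (isCompact_closedBall 0 R)).mono_set hR

theorem intOnC (hPb : Bornology.IsBounded P) {q : ℂ → ℂ} (hq : Continuous q) :
    IntegrableOn q P := by
  obtain ⟨R, hR⟩ := hPb.subset_closedBall 0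
  exact (hq.continuousOn.integrableOn_compact (isCompact_closedBall 0 R)).mono_set hR

/-- the bound of the derivative side -/
theorem stepA (hPm : MeasurableSet P) (hPb : Bornology.IsBounded P) (hu : ContDiff ℝ 1 u)
    (hL : ∀ z, |L z| ≤ ‖z‖) {x0 : ℂ} {d t : ℝ} (hd : 0 < d)
    (hsub : Metric.closedBall x0 d ⊆ P) {h : ℂ} (hh : h = 1 ∨ h = I) (ht : 0 < t) :
    |∫ y, fderiv ℝ (fun y => L (u y)) y h * ph d x0 y| ≤
      t * (∫ y in P, ph d x0 y ^ 2) + (1 / t) * ∫ y in P, ed2 u y := by
  have hi1 : IntegrableOn (fun y => t * ph d x0 y ^ 2) P :=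
    intOn hPb (continuous_const.mul (((ph_contDiff d x0).continuous).pow 2))
  have hi2 : IntegrableOn (fun y => (1 / t) * ed2 u y) P :=
    intOn hPb (continuous_const.mul (ed2_cont hu))
  have h1 : |∫ y, fderiv ℝ (fun y => L (u y)) y h * ph d x0 y| ≤
      ∫ y, P.indicator (fun y => t * ph d x0 y ^ 2 + (1 / t) * ed2 u y) y := by
    rw [← Real.norm_eq_abs]
    refine norm_integral_le_of_norm_le ((hi1.add hi2).integrable_indicator hPm)
      (Eventually.of_forall (fun y => ?_))
    by_cases hy : y ∈ Metric.closedBall x0 d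
    · rw [indicator_of_mem (hsub hy), Real.norm_eq_abs, abs_mul, abs_of_nonneg (ph_nonneg d x0 y)]
      have h1 := amgm (fderiv_L_le hu hL y hh) (ph_nonneg d x0 y) ht
      rwa [Real.sq_sqrt (ed2_nonneg u y)] at h1
    · rw [ph_zero hd hy, mul_zero, norm_zero]
      refine indicator_nonneg (fun z _ => ?_) y
      exact add_nonneg (mul_nonneg ht.le (sq_nonneg _))
        (mul_nonneg (by positivity) (ed2_nonneg _ _))
  rw [integral_indicator hPm, integral_add hi1 hi2, integral_const_mul,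
    integral_const_mul] at h1
  exact h1

theorem psi_zero {x0 : ℂ} {d : ℝ} (hd : 0 < d) {h y : ℂ} (hy : y ∉ Metric.closedBall x0 d) :
    fderiv ℝ (ph d x0) y h = 0 := by
  have h1 : ph d x0 =ᶠ[𝓝 y] fun _ => (0 : ℝ) := by
    have h2 : (Metric.closedBall x0 d)ᶜ ∈ 𝓝 y :=
      Metric.isClosed_closedBall.isOpen_compl.mem_nhds hy
    filter_upwards [h2] with z hz
    exact ph_zero hd hz
  rw [h1.fderiv_eq]
  simp

/-- the derivative of the mollification vanishes -/
theorem D0 (hPm : MeasurableSet P) (hPb : Bornology.IsBounded P) (ha : IntegrableOn a P)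
    (hE : SmallEn P a) (hL : ∀ z, |L z| ≤ ‖z‖) {x0 : ℂ} {d : ℝ} (hd : 0 < d)
    (hsub : Metric.closedBall x0 d ⊆ P) {h : ℂ} (hh : h = 1 ∨ h = I) :
    fderiv ℝ (mo (P.indicator (fun x => L (a x))) d) x0 h = 0 := by
  have hLa : IntegrableOn (fun x => L (a x)) P := L.integrable_comp ha
  have hg : Integrable (P.indicator (fun x => L (a x))) := hLa.integrable_indicator hPm
  have hcd : Continuous (fderiv ℝ (ph d x0)) := (ph_contDiff d x0).continuous_fderiv (by norm_num)
  obtain ⟨ψ, hψ⟩ : ∃ ψ : ℂ → ℝ, ψ = fun y => fderiv ℝ (ph d x0) y h := ⟨_, rfl⟩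
  have hψc : Continuous ψ := by rw [hψ]; exact hcd.clm_apply continuous_const
  have hψs : HasCompactSupport ψ := by rw [hψ]; exact (ph_compact hd x0).fderiv_apply ℝ h
  have hψ0 : ∀ y, y ∉ P → ψ y = 0 := by
    intro y hy
    rw [hψ]
    exact psi_zero hd (fun h => hy (hsub h))
  obtain ⟨B, hB⟩ := hψc.bounded_above_of_compact_support hψs
  have hB0 : 0 ≤ B := (norm_nonneg _).trans (hB 0)
  have hval : fderiv ℝ (mo (P.indicator (fun x => L (a x))) d) x0 h =
      - ∫ y in P, ψ y * L (a y) := by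
    rw [fderiv_mo hg hd, ← integral_neg, ← integral_indicator hPm]
    refine integral_congr_ae (Eventually.of_forall (fun y => ?_))
    by_cases hy : y ∈ P
    · simp only [indicator_of_mem hy, hψ, fderiv_ph]
      ring
    · simp only [indicator_of_notMem hy, mul_zero]
  have hS0 : 0 ≤ ∫ y in P, ph d x0 y ^ 2 := integral_nonneg (fun y => sq_nonneg _)
  obtain ⟨S, hS⟩ : ∃ S : ℝ, S = ∫ y in P, ph d x0 y ^ 2 := ⟨_, rfl⟩
  rw [← hS] at hS0
  have hkey : ∀ η : ℝ, 0 < η → |∫ y in P, ψ y * L (a y)| ≤ η := by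
    intro η hη
    obtain ⟨t, ht⟩ : ∃ t : ℝ, t = η / (4 * (S + 1)) := ⟨_, rfl⟩
    have ht0 : 0 < t := by rw [ht]; positivity
    obtain ⟨u, hu, hu1, hu2⟩ := hE (min (η / (4 * (B + 1))) (t * η / 4))
      (lt_min (by positivity) (by positivity))
    have hLu : ContDiff ℝ 1 (fun y => L (u y)) := L.contDiff.comp hu
    have i1 : IntegrableOn (fun y => ψ y * L (a y)) P := by
      refine hLa.bdd_mul (c := B) hψc.aestronglyMeasurable (Eventually.of_forall hB)
    have i2 : IntegrableOn (fun y => ψ y * L (u y)) P :=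
      intOn hPb (hψc.mul hLu.continuous)
    have i3 : IntegrableOn (fun y => ‖u y - a y‖) P :=
      ((intOnC hPb hu.continuous).sub ha).norm
    -- the approximation
    have e1 : |(∫ y in P, ψ y * L (a y)) - ∫ y in P, ψ y * L (u y)| ≤ η / 4 := by
      rw [← integral_sub i1 i2, ← Real.norm_eq_abs]
      have h1 : ‖∫ y in P, (ψ y * L (a y) - ψ y * L (u y))‖ ≤ ∫ y in P, B * ‖u y - a y‖ := by
        refine norm_integral_le_of_norm_le (i3.const_mul B) (Eventually.of_forall (fun y => ?_))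
        rw [← mul_sub, ← map_sub, norm_mul, Real.norm_eq_abs (L _), ← norm_sub_rev]
        exact mul_le_mul (hB y) (hL _) (abs_nonneg _) hB0
      rw [integral_const_mul] at h1
      refine h1.trans ?_
      have h2 : (∫ y in P, ‖u y - a y‖) ≤ η / (4 * (B + 1)) := hu2.trans (min_le_left _ _)
      calc B * ∫ y in P, ‖u y - a y‖ ≤ B * (η / (4 * (B + 1))) :=
            mul_le_mul_of_nonneg_left h2 hB0
        _ = η / 4 * (B / (B + 1)) := by field_simp
        _ ≤ η / 4 * 1 := by
            refine mul_le_mul_of_nonneg_left ?_ (by positivity)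
            rw [div_le_one (by positivity)]; linarith
        _ = η / 4 := mul_one _
    -- the derivative side
    have e2 : (∫ y in P, ψ y * L (u y)) = - ∫ y, fderiv ℝ (fun y => L (u y)) y h * ph d x0 y := by
      have h1 := K2 ((ph_contDiff d x0).of_le (by norm_num)) (ph_compact hd x0) hLu h
      rw [← h1, ← integral_indicator hPm]
      refine integral_congr_ae (Eventually.of_forall (fun y => ?_))
      by_cases hy : y ∈ P
      · simp only [indicator_of_mem hy, hψ]
      · have h2 := hψ0 y hy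
        simp only [indicator_of_notMem hy]
        rw [hψ] at h2
        simp only at h2
        rw [h2, zero_mul]
    have e3 := stepA hPm hPb hu hL hd hsub hh ht0
    rw [← hS] at e3
    have e4 : t * S ≤ η / 4 := by
      rw [ht, div_mul_eq_mul_div, div_le_div_iff₀ (by positivity) (by positivity)]
      nlinarith
    have e5 : 1 / t * ∫ y in P, ed2 u y ≤ η / 4 := by
      have h1 : (∫ y in P, ed2 u y) ≤ t * η / 4 := hu1.trans (min_le_right _ _)
      calc 1 / t * ∫ y in P, ed2 u y ≤ 1 / t * (t * η / 4) :=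
            mul_le_mul_of_nonneg_left h1 (by positivity)
        _ = η / 4 := by field_simp
    rw [e2] at e1
    rw [abs_le] at e1 e3 ⊢
    constructor <;> linarith [e1.1, e1.2, e3.1, e3.2]
  rw [hval]
  have h0 : (∫ y in P, ψ y * L (a y)) = 0 := by
    by_contra hne
    have hpos : 0 < |∫ y in P, ψ y * L (a y)| := abs_pos.2 hne
    have := hkey (|∫ y in P, ψ y * L (a y)| / 2) (by positivity)
    linarith
  rw [h0, neg_zero]

theorem fderiv_zero (hPm : MeasurableSet P) (hPb : Bornology.IsBounded P)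
    (ha : IntegrableOn a P) (hE : SmallEn P a) (hL : ∀ z, |L z| ≤ ‖z‖) {x0 : ℂ} {d : ℝ}
    (hd : 0 < d) (hsub : Metric.closedBall x0 d ⊆ P) :
    fderiv ℝ (mo (P.indicator (fun x => L (a x))) d) x0 = 0 := by
  have h1 := D0 hPm hPb ha hE hL hd hsub (h := 1) (Or.inl rfl)
  have h2 := D0 hPm hPb ha hE hL hd hsub (h := I) (Or.inr rfl)
  ext w
  have hw : w = w.re • (1 : ℂ) + w.im • I := by
    rw [real_smul, real_smul, mul_one]
    exact (re_add_im w).symm
  rw [hw, map_add, map_smul, map_smul, h1, h2]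
  simp

theorem convex_Pd (hPc : Convex ℝ P) (d : ℝ) :
    Convex ℝ {x : ℂ | Metric.closedBall x d ⊆ P} := by
  intro x hx y hy a b ha hb hab z hz
  have hz' : ‖z - (a • x + b • y)‖ ≤ d := by
    rw [← dist_eq_norm]; exact hz
  have h1 : x + (z - (a • x + b • y)) ∈ P := hx (by
    rw [Metric.mem_closedBall, dist_eq_norm]; simpa using hz')
  have h2 : y + (z - (a • x + b • y)) ∈ P := hy (by
    rw [Metric.mem_closedBall, dist_eq_norm]; simpa using hz')
  have h3 := hPc h1 h2 ha hb hab
  have h4 : a • (x + (z - (a • x + b • y))) + b • (y + (z - (a • x + b • y))) = z := by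
    rw [smul_add, smul_add]
    have : a • (z - (a • x + b • y)) + b • (z - (a • x + b • y)) = z - (a • x + b • y) := by
      rw [← add_smul, hab, one_smul]
    calc _ = a • x + b • y + (a • (z - (a • x + b • y)) + b • (z - (a • x + b • y))) := by abel
      _ = z := by rw [this]; abel
  rwa [h4] at h3

theorem mo_const (hPm : MeasurableSet P) (hPc : Convex ℝ P) (hPb : Bornology.IsBounded P)
    (ha : IntegrableOn a P) (hE : SmallEn P a) (hL : ∀ z, |L z| ≤ ‖z‖) {x y : ℂ} {d : ℝ}
    (hd : 0 < d) (hx : Metric.closedBall x d ⊆ P) (hy : Metric.closedBall y d ⊆ P) :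
    mo (P.indicator (fun x => L (a x))) d x = mo (P.indicator (fun x => L (a x))) d y := by
  have hLa : IntegrableOn (fun x => L (a x)) P := L.integrable_comp ha
  have hg : Integrable (P.indicator (fun x => L (a x))) := hLa.integrable_indicator hPm
  have h1 := (convex_Pd hPc d).norm_image_sub_le_of_norm_fderiv_le
    (f := mo (P.indicator (fun x => L (a x))) d) (C := 0)
    (fun z _ => (mo_contDiff hg hd).differentiable one_ne_zero z)
    (fun z hz => by rw [fderiv_zero hPm hPb ha hE hL hd hz, norm_zero]) hy hx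
  rw [zero_mul] at h1
  exact sub_eq_zero.1 (norm_le_zero_iff.1 h1)

theorem const_real (hPo : IsOpen P) (hPc : Convex ℝ P) (hPb : Bornology.IsBounded P)
    (ha : IntegrableOn a P) (hE : SmallEn P a) (hL : ∀ z, |L z| ≤ ‖z‖) :
    ∃ c : ℝ, ∀ᵐ x, x ∈ P → L (a x) = c := by
  rcases P.eq_empty_or_nonempty with hemp | hnon
  · exact ⟨0, Eventually.of_forall (fun x hx => by simp [hemp] at hx)⟩
  have hPm : MeasurableSet P := hPo.measurableSet
  have hLa : IntegrableOn (fun x => L (a x)) P := L.integrable_comp ha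
  obtain ⟨g, hgd⟩ : ∃ g : ℂ → ℝ, g = P.indicator (fun x => L (a x)) := ⟨_, rfl⟩
  have hgi : Integrable g := by rw [hgd]; exact hLa.integrable_indicator hPm
  have hleb : ∀ᵐ x : ℂ, Tendsto (fun d => mo g d x) (𝓝[>] 0) (𝓝 (Z0 * g x)) := by
    filter_upwards [IsUnifLocDoublingMeasure.ae_tendsto_average_norm_sub
      (μ := (volume : Measure ℂ)) hgi.locallyIntegrable 1] with x hx
    have h1 := hx (fun _ : ℝ => x) (fun d : ℝ => d) (l := 𝓝[>] 0) tendsto_id (by
      filter_upwards [self_mem_nhdsWithin] with d hd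
      rw [one_mul]
      exact Metric.mem_closedBall_self (le_of_lt hd))
    have h2 := h1.const_mul Real.pi
    rw [mul_zero] at h2
    rw [tendsto_iff_norm_sub_tendsto_zero]
    refine squeeze_zero' (Eventually.of_forall (fun d => norm_nonneg _)) ?_ h2
    filter_upwards [self_mem_nhdsWithin] with d hd
    rw [Real.norm_eq_abs]
    exact leb_est hgi x hd
  have hne : (volume P) ≠ 0 := (hPo.measure_pos volume hnon).ne'
  obtain ⟨x1, hx1, hx1P⟩ : ∃ x1,
      Tendsto (fun d => mo g d x1) (𝓝[>] 0) (𝓝 (Z0 * g x1)) ∧ x1 ∈ P := by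
    by_contra hcon
    push Not at hcon
    apply hne
    have h3 : volume {x | ¬ Tendsto (fun d => mo g d x) (𝓝[>] 0) (𝓝 (Z0 * g x))} = 0 := hleb
    exact measure_mono_null (fun x hx h => hcon x h hx) h3
  refine ⟨g x1, ?_⟩
  filter_upwards [hleb] with x hx hxP
  obtain ⟨d1, hd1, hd1s⟩ := Metric.nhds_basis_closedBall.mem_iff.1 (hPo.mem_nhds hxP)
  obtain ⟨d2, hd2, hd2s⟩ := Metric.nhds_basis_closedBall.mem_iff.1 (hPo.mem_nhds hx1P)
  have h4 : ∀ᶠ d in 𝓝[>] (0 : ℝ), mo g d x = mo g d x1 := by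
    have h5 : Ioo (0 : ℝ) (min d1 d2) ∈ 𝓝[>] (0 : ℝ) := Ioo_mem_nhdsGT (lt_min hd1 hd2)
    filter_upwards [h5] with d hd
    have a1 : d ≤ d1 := (hd.2.trans_le (min_le_left _ _)).le
    have a2 : d ≤ d2 := (hd.2.trans_le (min_le_right _ _)).le
    rw [hgd]
    exact mo_const hPm hPc hPb ha hE hL hd.1
      ((Metric.closedBall_subset_closedBall a1).trans hd1s)
      ((Metric.closedBall_subset_closedBall a2).trans hd2s)
  have h6 : Z0 * g x = Z0 * g x1 := tendsto_nhds_unique (hx.congr' h4) hx1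
  have h7 : g x = g x1 := mul_left_cancel₀ Z0_pos.ne' h6
  rw [← h7, hgd, indicator_of_mem hxP]

/-- a function approximated in mean by `C ^ 1` functions of small energy is constant -/
theorem const_of_energy (hPo : IsOpen P) (hPc : Convex ℝ P) (hPb : Bornology.IsBounded P)
    (ha : IntegrableOn a P) (hE : SmallEn P a) : ∃ c : ℂ, ∀ᵐ x, x ∈ P → a x = c := by
  obtain ⟨c1, h1⟩ := const_real (L := reCLM) hPo hPc hPb ha hE (fun z => abs_re_le_norm z)
  obtain ⟨c2, h2⟩ := const_real (L := imCLM) hPo hPc hPb ha hE (fun z => abs_im_le_norm z)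
  refine ⟨(c1 : ℂ) + (c2 : ℂ) * I, ?_⟩
  filter_upwards [h1, h2] with x hx1 hx2 hxP
  have e1 : (a x).re = c1 := hx1 hxP
  have e2 : (a x).im = c2 := hx2 hxP
  rw [← e1, ← e2]
  exact (re_add_im _).symm

end Pool.Agent.Lib.BilF.LimC22
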