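import Pool.Agent.Lib.MP_7bc51d_an_s.BGeom
import Pool.Agent.Lib.MP_7bc51d_an_s.BLineFn
import Pool.Agent.Lib.MP_7bc51d_an_s.BPairing
import Pool.Agent.Lib.MP_7bc51d_an_s.MargRigid

namespace Pool.Agent.Lib.Bil
end Pool.Agent.Lib.Bil

set_option autoImplicit false

namespace Pool.Agent.Lib.BilM

open Complex MeasureTheory Set Filter
open scoped ComplexConjugate Topology ENNReal
open Pool.Agent.Lib.Bil

variable {n : ℕ} {v : Fin n → ℂ}

theorem bs_hom {r : ℝ} (hr : 0 < r) (w : ℂ) (Q : ℝ) : bs ((r : ℂ) * w) (r * Q) = bs w Q := by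
  by_cases hw : w = 0
  · simp [hw, bs]
  have h := (esq_pos hw).ne'
  have hr' := hr.ne'
  unfold bs
  have h1 : ((r : ℂ) * w).re ^ 2 + ((r : ℂ) * w).im ^ 2 = r ^ 2 * (w.re ^ 2 + w.im ^ 2) := by
    simp only [mul_re, mul_im, ofReal_re, ofReal_im]
    ring
  rw [h1]
  have h2 : r * Q / (r ^ 2 * (w.re ^ 2 + w.im ^ 2)) = (Q / (w.re ^ 2 + w.im ^ 2)) / r := by
    field_simp
  rw [h2]
  push_cast
  have hrc : (r : ℂ) ≠ 0 := by exact_mod_cast hr'
  field_simp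

theorem FA_hom {A : Set (ℂ × ℂ)}
    (hcone : ∀ x w : ℂ, ∀ c : ℝ, 0 < c → ((x, w) ∈ A ↔ (x, (c : ℂ) * w) ∈ A)) :
    HomF (FA v A) := by
  intro r hr w Q
  have h : ((r : ℂ) * w, r * Q) ∈ Lset v A ↔ (w, Q) ∈ Lset v A := by
    unfold Lset
    simp only [mem_ofPred_eq, bs_hom hr]
    have hS : {s : ℝ | bs w Q + (s : ℂ) * ((r : ℂ) * w) ∈ PP v ∧
        (bs w Q + (s : ℂ) * ((r : ℂ) * w), (r : ℂ) * w) ∉ A} = (fun s : ℝ => s * r) ⁻¹'
        {s : ℝ | bs w Q + (s : ℂ) * w ∈ PP v ∧ (bs w Q + (s : ℂ) * w, w) ∉ A} := by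
      ext s
      simp only [mem_ofPred_eq, mem_preimage]
      have e1 : (s : ℂ) * ((r : ℂ) * w) = ((s * r : ℝ) : ℂ) * w := by push_cast; ring
      rw [e1, hcone (bs w Q + ((s * r : ℝ) : ℂ) * w) w r hr]
    rw [hS, Real.volume_preimage_mul_right hr.ne']
    rw [mul_eq_zero]
    constructor
    · rintro (h | h)
      · rw [ENNReal.ofReal_eq_zero] at h
        exact absurd (abs_pos.2 (inv_ne_zero hr.ne')) (not_lt.2 h)
      · exact h
    · intro h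
      exact Or.inr h
  unfold FA
  by_cases h1 : (w, Q) ∈ Lset v A
  · rw [indicator_of_mem h1, indicator_of_mem (h.2 h1)]; rfl
  · rw [indicator_of_notMem h1, indicator_of_notMem (fun h2 => h1 (h.1 h2))]

end Pool.Agent.Lib.BilM
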