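import Pool.Agent.Lib.MP_7bc51d_an_s.BGeom
import Pool.Agent.Lib.MP_7bc51d_an_s.BPoly
import Pool.Agent.Lib.MP_7bc51d_an_s.BPotential
import Pool.Agent.Lib.MP_7bc51d_an_s.BSymm
import Pool.Agent.Lib.MP_7bc51d_an_s.BUniform
import Pool.Agent.Lib.MP_7bc51d_an_s.ModeCorner
import Pool.Agent.Lib.MP_7bc51d_an_s.ModeFourier
import Pool.Agent.Lib.MP_7bc51d_an_s.ModeHolo
import Pool.Agent.Lib.MP_7bc51d_an_s.ModeLadder
import Pool.Agent.Lib.MP_7bc51d_an_s.ModeNeumann

namespace Pool.Agent.Lib.Bil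
end Pool.Agent.Lib.Bil

set_option autoImplicit false

namespace Pool.Agent.Lib.BilH

open Complex MeasureTheory Set Filter
open scoped ComplexConjugate Topology ENNReal Real
open Pool.Agent.Lib.Bil

variable {n : ℕ} {v : Fin n → ℂ}

theorem real_of_ratio {a b : ℂ} {s t : ℝ} {c : ℂ} (hc : c ≠ 0) {k : ℕ} (hb : b ≠ 0)
    (h1 : c * a ^ k = s * I) (h2 : c * b ^ k = t * I) : ((a / b) ^ k).im = 0 := by
  have hb' : b ^ k ≠ 0 := pow_ne_zero _ hb
  have ht : t ≠ 0 := by
    rintro rfl
    rw [ofReal_zero, zero_mul] at h2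
    exact (mul_ne_zero hc hb') h2
  have htc : (t : ℂ) ≠ 0 := by exact_mod_cast ht
  have hI : (I : ℂ) ≠ 0 := I_ne_zero
  have h3 : (a / b) ^ k = ((s / t : ℝ) : ℂ) := by
    rw [div_pow]
    push_cast
    have h4 : c * a ^ k * (t * I) = c * b ^ k * (s * I) := by
      rw [h1, h2]; ring
    field_simp
    have h5 : (c * I) * (a ^ k * t) = (c * I) * (b ^ k * s) := by linear_combination h4
    have h6 := mul_left_cancel₀ (mul_ne_zero hc hI) h5
    linear_combination h6
  rw [h3, ofReal_im]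

/-- Side condition of irrationality. -/
def IrrPair (v : Fin n → ℂ) : Prop :=
  ∃ i j k l, IsSide v i j ∧ IsSide v k l ∧
    ∀ m : ℕ, 0 < m → (((v j - v i) / (v l - v k)) ^ m).im ≠ 0

theorem ladder_up (hn : 3 ≤ n) (hv : ConvexIndependent ℝ v) (hirr : IrrPair v)
    {F : ℂ → ℝ → ℝ} (hF : LF F) (hh : Hom0 F)
    (hs : ∀ i j, IsSide v i j → SymAt F (v i) (v j - v i)) {k : ℕ}
    (h0 : ∀ᵐ x : ℂ, x ∈ PP v → cm F (ph k) x = 0) :
    ∀ᵐ x : ℂ, x ∈ PP v → cm F (ph (k + 2)) x = 0 := by
  have hpot := pot_gm hF (k + 1)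
  have hB : ∀ᵐ x : ℂ, x ∈ PP v → cm F (fun w => w * ph (k + 1) w) x = 0 := by
    filter_upwards [h0] with x hx hxP
    rw [cm_shift hh, hx hxP, mul_zero]
  have hd := hpot.holo isOpen_PP hB
  have hL := lines_gm hF hv hs (k + 1)
  obtain ⟨c, hc⟩ := neumann hn hv hpot.cont hd (fun x _ => hpot.deriv_le x) hL
  obtain ⟨i, j, i', j', h1, h2, hm⟩ := hirr
  have key : ∀ {i j : Fin n}, IsSide v i j → ∃ s : ℝ, c * (v j - v i) ^ (k + 2) = s * I := by
    intro i j hij
    obtain ⟨t, ht⟩ := neumann_side hn hv hpot.cont hd hL hc hij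
    refine ⟨t * (Complex.normSq (v j - v i)) ^ (k + 1), ?_⟩
    have h3 : (((Complex.normSq (v j - v i)) : ℝ) : ℂ) = conj (v j - v i) * (v j - v i) :=
      Complex.normSq_eq_conj_mul_self
    push_cast
    rw [h3]
    have h4 : c * (v j - v i) ^ (k + 2) = (c * (v j - v i)) * (v j - v i) ^ (k + 1) := by ring
    rw [h4, ht, mul_pow]
    ring
  have hc0 : c = 0 := by
    by_contra hcon
    obtain ⟨s, hs1⟩ := key h1
    obtain ⟨t, ht1⟩ := key h2
    exact hm (k + 2) (by omega) (real_of_ratio hcon (v_sub_ne hv h2.1) hs1 ht1)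
  filter_upwards [hpot.AB isOpen_PP hd hc, hB] with x hx hx' hxP
  have h3 := hx hxP
  rw [hx' hxP, hc0, mul_zero, sub_zero] at h3
  exact h3

theorem ladder_down (hn : 3 ≤ n) (hv : ConvexIndependent ℝ v) (hirr : IrrPair v)
    {F : ℂ → ℝ → ℝ} (hF : LF F) (hh : Hom0 F)
    (hs : ∀ i j, IsSide v i j → SymAt F (v i) (v j - v i)) {k : ℕ}
    (h0 : ∀ᵐ x : ℂ, x ∈ PP v → cm F (ph (k + 2)) x = 0) :
    ∃ c : ℝ, (k ≠ 0 → c = 0) ∧ ∀ᵐ x : ℂ, x ∈ PP v → cm F (ph k) x = c := by
  have hpot := (pot_gm hF (k + 1)).conj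
  have hB : ∀ᵐ x : ℂ, x ∈ PP v → conj (cm F (ph (k + 1 + 1)) x) = 0 := by
    filter_upwards [h0] with x hx hxP
    rw [hx hxP, map_zero]
  have hd := hpot.holo isOpen_PP hB
  have hL := lines_gm_conj hF hv hs (k + 1)
  obtain ⟨c, hc⟩ := neumann hn hv hpot.cont hd (fun x _ => hpot.deriv_le x) hL
  obtain ⟨i, j, i', j', h1, h2, hm⟩ := hirr
  have key : ∀ {i j : Fin n}, IsSide v i j → ∃ s : ℝ, c = s * I * (v j - v i) ^ k := by
    intro i j hij
    obtain ⟨t, ht⟩ := neumann_side hn hv hpot.cont hd hL hc hij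
    refine ⟨t, ?_⟩
    have hne := v_sub_ne hv hij.1
    apply mul_right_cancel₀ hne
    rw [ht, pow_succ]
    ring
  have hk4 : ((k : ℂ) + 4) ≠ 0 := by
    have : ((k + 4 : ℕ) : ℂ) ≠ 0 := by exact_mod_cast (by omega : k + 4 ≠ 0)
    push_cast at this
    exact this
  have hk2 : ((k : ℂ) + 2) ≠ 0 := by
    have : ((k + 2 : ℕ) : ℂ) ≠ 0 := by exact_mod_cast (by omega : k + 2 ≠ 0)
    push_cast at this
    exact this
  have hval : ∀ᵐ x : ℂ, x ∈ PP v →
      cm F (ph k) x = (((k : ℂ) + 4) / ((k : ℂ) + 2)) * conj (2 * I * c) := by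
    filter_upwards [hpot.AB isOpen_PP hd hc, hB] with x hx hx' hxP
    have h3 := hx hxP
    rw [hx' hxP, sub_zero] at h3
    have h4 : cm F (fun w => w * ph (k + 1) w) x = conj (2 * I * c) := by
      rw [← h3, conj_conj]
    rw [cm_shift hh] at h4
    rw [← h4]
    field_simp
  by_cases hk : k = 0
  · subst hk
    obtain ⟨s, hs1⟩ := key h1
    rw [pow_zero, mul_one] at hs1
    refine ⟨-4 * s, fun h => absurd rfl h, ?_⟩
    filter_upwards [hval] with x hx hxP
    rw [hx hxP, hs1]
    have hI : I * I = -1 := I_mul_I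
    rw [map_mul, map_mul, map_mul, conj_I, conj_ofReal]
    have h2 : (starRingEnd ℂ) 2 = 2 := by
      have : ((2 : ℝ) : ℂ) = 2 := by norm_num
      rw [← this, conj_ofReal]
    rw [h2]
    push_cast
    linear_combination (4 * (s : ℂ)) * hI
  · have hc0 : c = 0 := by
      by_contra hcon
      obtain ⟨s, hs1⟩ := key h1
      obtain ⟨t, ht1⟩ := key h2
      have hne1 := v_sub_ne hv h1.1
      have hne2 := v_sub_ne hv h2.1
      apply hm k (Nat.pos_of_ne_zero hk)
      have hs0 : s ≠ 0 := by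
        rintro rfl
        apply hcon
        rw [hs1]; simp
      have hsc : (s : ℂ) ≠ 0 := by exact_mod_cast hs0
      have hI : (I : ℂ) ≠ 0 := I_ne_zero
      have h5 : ((v j - v i) / (v j' - v i')) ^ k = ((t / s : ℝ) : ℂ) := by
        rw [div_pow]
        have hp := pow_ne_zero k hne2
        rw [div_eq_iff hp]
        push_cast
        have h6 : (s : ℂ) * I * (v j - v i) ^ k = t * I * (v j' - v i') ^ k := by
          rw [← hs1, ← ht1]
        field_simp
        have h7 : I * (s * (v j - v i) ^ k) = I * (t * (v j' - v i') ^ k) := by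
          linear_combination h6
        have h8 := mul_left_cancel₀ hI h7
        linear_combination h8
      rw [h5, ofReal_im]
    refine ⟨0, fun _ => rfl, ?_⟩
    filter_upwards [hval] with x hx hxP
    rw [hx hxP, hc0]
    simp

/-- A vanishing mode kills all modes of the same parity (the mean excepted). -/
theorem all_modes (hn : 3 ≤ n) (hv : ConvexIndependent ℝ v) (hirr : IrrPair v)
    {F : ℂ → ℝ → ℝ} (hF : LF F) (hh : Hom0 F)
    (hs : ∀ i j, IsSide v i j → SymAt F (v i) (v j - v i)) {p : ℕ}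
    (h0 : ∃ c : ℝ, (p ≠ 0 → c = 0) ∧ ∀ᵐ x : ℂ, x ∈ PP v → cm F (ph p) x = c) :
    ∃ c : ℝ, (¬ Even p → c = 0) ∧ ∀ᵐ x : ℂ, x ∈ PP v →
      cm F (ph (if Even p then 0 else 1)) x = c := by
  induction p using Nat.strong_induction_on with
  | _ p ih =>
    by_cases hp0 : p = 0
    · subst hp0
      obtain ⟨c, _, hc⟩ := h0
      refine ⟨c, fun h => absurd (Even.zero) h, ?_⟩
      simpa using hc
    by_cases hp1 : p = 1
    · subst hp1
      obtain ⟨c, hc1, hc⟩ := h0
      have : ¬ Even 1 := by decide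
      rw [if_neg this]
      exact ⟨c, fun _ => hc1 (by omega), hc⟩
    obtain ⟨q, rfl⟩ : ∃ q, p = q + 2 := ⟨p - 2, by omega⟩
    obtain ⟨c, hc1, hc⟩ := h0
    have hc0 := hc1 (by omega)
    subst hc0
    have h1 := ladder_down hn hv hirr hF hh hs (k := q) (by
      filter_upwards [hc] with x hx hxP
      rw [hx hxP, ofReal_zero])
    have h2 := ih q (by omega) h1
    have hpar : Even (q + 2) ↔ Even q := by
      rw [Nat.even_add]; simp
    simp only [hpar]
    exact h2

theorem modes_vanish (hn : 3 ≤ n) (hv : ConvexIndependent ℝ v) (hirr : IrrPair v)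
    {F : ℂ → ℝ → ℝ} (hF : LF F) (hh : Hom0 F)
    (hs : ∀ i j, IsSide v i j → SymAt F (v i) (v j - v i)) {p : ℕ}
    (h0 : ∀ᵐ x : ℂ, x ∈ PP v → cm F (ph p) x = 0) (m : ℕ) :
    ∀ᵐ x : ℂ, x ∈ PP v → cm F (ph (p + 2 * m)) x = 0 := by
  induction m with
  | zero => simpa using h0
  | succ m ih =>
    have := ladder_up hn hv hirr hF hh hs ih
    have e : p + 2 * m + 2 = p + 2 * (m + 1) := by ring
    rw [e] at this
    exact this

/-- Rigidity: one angular mode determines the part of the same parity, up to a constant. -/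
theorem mode_rigid (hn : 3 ≤ n) (hv : ConvexIndependent ℝ v) (hirr : IrrPair v)
    {F : ℂ → ℝ → ℝ} (hF : LF F) (hh : Hom0 F)
    (hs : ∀ i j, IsSide v i j → SymAt F (v i) (v j - v i)) {p : ℕ}
    (h0 : ∃ c : ℝ, (p ≠ 0 → c = 0) ∧ ∀ᵐ x : ℂ, x ∈ PP v → cm F (ph p) x = c) :
    ∃ c : ℝ, ∀ᵐ x : ℂ, x ∈ PP v → ∀ᵐ w : ℂ,
      F w (cr w x) + (-1) ^ p * F (-w) (cr (-w) x) = c := by
  obtain ⟨c, hc1, hc⟩ := all_modes hn hv hirr hF hh hs h0
  by_cases hp : Even p
  · rw [if_pos hp] at hc
    -- subtract the constant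
    obtain ⟨x0, hx0P⟩ := PP_nonempty hn hv
    have hπ : 0 < (volume BV).toReal := by rw [vol_BV]; exact Real.pi_pos
    set V : ℝ := (volume BV).toReal with hV
    have hex : ∃ x ∈ PP v, cm F (ph 0) x = c := by
      by_contra hcon
      have hpos := isOpen_PP (v := v) |>.measure_pos volume ⟨x0, hx0P⟩
      apply hpos.ne'
      apply measure_mono_null _ hc
      intro x hx hx'
      exact hcon ⟨x, hx, hx' hx⟩
    obtain ⟨x1, hx1, hx1c⟩ := hex
    have hcV : |c| ≤ V := by
      have h1 := cm_norm hF (φ := ph 0) (C := 1) (fun w hw => ph_norm 0 hw) x1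
      rw [hx1c, norm_real, Real.norm_eq_abs, one_mul] at h1
      exact h1
    set m : ℝ := c / V with hm
    have hm1 : |m| ≤ 1 := by
      rw [hm, abs_div, abs_of_pos hπ, div_le_one hπ]; exact hcV
    set F' : ℂ → ℝ → ℝ := fun w Q => (F w Q - m) / 2 with hF'def
    have hF' : LF F' := by
      constructor
      · exact (hF.meas.sub_const m).div_const 2
      · intro w Q
        rw [hF'def]
        simp only
        rw [abs_div, abs_two, div_le_one (by norm_num)]
        have h1 := hF.bd w Q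
        have h2 := abs_sub (F w Q) m
        linarith
    have hh' : Hom0 F' := by
      intro r hr w Q
      rw [hF'def]
      simp only
      rw [hh r hr]
    have hs' : ∀ i j, IsSide v i j → SymAt F' (v i) (v j - v i) := by
      intro i j hij
      filter_upwards [hs i j hij] with w hw
      filter_upwards [hw] with τ hτ hτI
      rw [hF'def]
      simp only
      rw [hτ hτI]
    have h0' : ∀ᵐ x : ℂ, x ∈ PP v → cm F' (ph 0) x = 0 := by
      filter_upwards [hc] with x hx hxP
      have hi := cm_int hF (ph_meas 0) (C := 1) (fun w hw => ph_norm 0 hw) x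
      have hi2 : IntegrableOn (fun w : ℂ => ph 0 w) BV :=
        cintOn_ball (ph_meas 0) (C := 1) (fun w hw => ph_norm 0 hw)
      have h1 : cm F' (ph 0) x = (cm F (ph 0) x - m * ∫ w in BV, ph 0 w) / 2 := by
        unfold cm
        rw [← integral_const_mul, ← integral_sub hi (hi2.const_mul _), ← integral_div]
        apply integral_congr_ae
        refine Eventually.of_forall (fun w => ?_)
        simp only [hF'def]
        push_cast
        ring
      have h2 : ∫ w in BV, ph 0 w = (V : ℂ) := by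
        unfold ph
        simp only [pow_zero]
        rw [setIntegral_const, real_smul, mul_one]
        rfl
      rw [h1, h2, hx hxP, hm]
      push_cast
      have : (V : ℂ) ≠ 0 := by exact_mod_cast hπ.ne'
      field_simp
      ring
    have hall : ∀ᵐ x : ℂ, ∀ k : ℕ, x ∈ PP v → cm F' (ph (0 + 2 * k)) x = 0 := by
      rw [ae_all_iff]
      intro k
      exact modes_vanish hn hv hirr hF' hh' hs' h0' k
    refine ⟨2 * m, ?_⟩
    filter_upwards [hall] with x hx hxP
    have h1 := parity_complete hF' hh' p (x := x) (by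
      intro k hk
      obtain ⟨r, hr⟩ := hk.2 hp
      have := hx r hxP
      have e : 0 + 2 * r = k := by omega
      rw [e] at this
      exact this)
    filter_upwards [h1] with w hw
    rw [hp.neg_one_pow, one_mul] at hw ⊢
    simp only [hF'def] at hw
    linarith
  · rw [if_neg hp] at hc
    have hc0 := hc1 hp
    subst hc0
    have hall : ∀ᵐ x : ℂ, ∀ k : ℕ, x ∈ PP v → cm F (ph (1 + 2 * k)) x = 0 := by
      rw [ae_all_iff]
      intro k
      apply modes_vanish hn hv hirr hF hh hs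
      filter_upwards [hc] with x hx hxP
      rw [hx hxP, ofReal_zero]
    refine ⟨0, ?_⟩
    filter_upwards [hall] with x hx hxP
    apply parity_complete hF hh p
    intro k hk
    have hko : ¬ Even k := fun h => hp (hk.1 h)
    rw [Nat.not_even_iff_odd] at hko
    obtain ⟨r, hr⟩ := hko
    have := hx r hxP
    have e : 1 + 2 * r = k := by omega
    rw [e] at this
    exact this

end Pool.Agent.Lib.BilH
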