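import Pool.Agent.Lib.MP_7bc51d_an_s.BGeom
import Pool.Agent.Lib.MP_7bc51d_an_s.BHyp
import Pool.Agent.Lib.MP_7bc51d_an_s.BLineFn
import Pool.Agent.Lib.MP_7bc51d_an_s.BLocalConst
import Pool.Agent.Lib.MP_7bc51d_an_s.BPoly
import Pool.Agent.Lib.MP_7bc51d_an_s.BPotential
import Pool.Agent.Lib.MP_7bc51d_an_s.BSymm
import Pool.Agent.Lib.MP_7bc51d_an_s.BWords
import Pool.Agent.Lib.MP_7bc51d_an_s.MargFrac
import Pool.Agent.Lib.MP_7bc51d_an_s.MargMarg
import Pool.Agent.Lib.MP_7bc51d_an_s.ModeFourier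
import Pool.Agent.Lib.MP_7bc51d_an_s.ModeLadder
import Pool.Agent.Lib.MP_7bc51d_an_s.ModeModes

namespace Pool.Agent.Lib.Bil
end Pool.Agent.Lib.Bil
namespace Pool.Agent.Lib.BilM
end Pool.Agent.Lib.BilM

set_option autoImplicit false

namespace Pool.Agent.Lib.BilH

open Complex MeasureTheory Set Filter
open scoped ComplexConjugate Topology ENNReal Real
open Pool.Agent.Lib.Bil
open Pool.Agent.Lib.BilM

variable {n : ℕ} {v : Fin n → ℂ}

/-- Angular moment of a set at a position. -/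
noncomputable def mode (A : Set (ℂ × ℂ)) (k : ℕ) (x : ℂ) : ℂ :=
  ∫ w in Metric.ball (0 : ℂ) 1, A.indicator (fun p : ℂ × ℂ => conj p.2 ^ k) (x, w)

theorem mode_eq {A : Set (ℂ × ℂ)} (hA : MeasurableSet A) (hch : ∀ᵐ w, ChordAt v A w) :
    ∀ᵐ x : ℂ, x ∈ PP v → ∀ k : ℕ, mode A k x = cm (FA v A) (ph k) x := by
  have h1 := ae_prod_FA hA hch
  have h2 := Measure.ae_ae_of_ae_prod h1
  filter_upwards [h2] with x hx hxP k
  unfold mode cm
  apply integral_congr_ae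
  apply ae_restrict_of_ae
  filter_upwards [hx] with w hw
  have h3 : FA v A w (cr w x) = A.indicator (1 : ℂ × ℂ → ℝ) (x, w) := hw hxP
  rw [h3]
  by_cases hm : (x, w) ∈ A
  · rw [indicator_of_mem hm, indicator_of_mem hm]
    simp [ph]
  · rw [indicator_of_notMem hm, indicator_of_notMem hm]
    simp

theorem neg_snd_mp : MeasurePreserving (fun p : ℂ × ℂ => (p.1, -p.2))
    ((volume : Measure ℂ).prod volume) ((volume : Measure ℂ).prod volume) :=
  (MeasurePreserving.id volume).prod (Measure.measurePreserving_neg (volume : Measure ℂ))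

theorem ae_prod_parity {F : ℂ → ℝ → ℝ} (hF : LF F) {k : ℕ} {c : ℝ}
    (hc : ∀ᵐ x : ℂ, x ∈ PP v → ∀ᵐ w : ℂ, F w (cr w x) + (-1) ^ k * F (-w) (cr (-w) x) = c) :
    ∀ᵐ p ∂((volume : Measure ℂ).prod (volume : Measure ℂ)), p.1 ∈ PP v →
      F p.2 (cr p.2 p.1) + (-1) ^ k * F (-p.2) (cr (-p.2) p.1) = c := by
  have hPm : MeasurableSet {p : ℂ × ℂ | p.1 ∈ PP v} :=
    isOpen_PP.measurableSet.preimage measurable_fst
  have hm1 := meas_F_swap hF
  have hm2 : Measurable (fun p : ℂ × ℂ => F (-p.2) (cr (-p.2) p.1)) := by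
    have h2 : Measurable (fun p : ℂ × ℂ => (p.1, -p.2)) :=
      measurable_fst.prodMk measurable_snd.neg
    exact hm1.comp h2
  have hm : MeasurableSet {p : ℂ × ℂ | p.1 ∈ PP v →
      F p.2 (cr p.2 p.1) + (-1) ^ k * F (-p.2) (cr (-p.2) p.1) = c} :=
    hPm.imp (measurableSet_eq_fun (hm1.add (hm2.const_mul _)) measurable_const)
  rw [Measure.ae_prod_iff_ae_ae hm]
  filter_upwards [hc] with x hx
  by_cases hxP : x ∈ PP v
  · filter_upwards [hx hxP] with w hw _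
    exact hw
  · exact Eventually.of_forall (fun w h => absurd h hxP)

theorem cm_sub {F G H : ℂ → ℝ → ℝ} (hF : LF F) (hG : LF G) (k : ℕ) (x : ℂ)
    (hH : ∀ w Q, H w Q = F w Q - G w Q) :
    cm H (ph k) x = cm F (ph k) x - cm G (ph k) x := by
  unfold cm
  rw [← integral_sub (cm_int hF (ph_meas k) (C := 1) (fun w hw => ph_norm k hw) x)
    (cm_int hG (ph_meas k) (C := 1) (fun w hw => ph_norm k hw) x)]
  apply integral_congr_ae
  refine Eventually.of_forall (fun w => ?_)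
  simp only [hH]
  push_cast
  ring

theorem mode_sets (hn : 3 ≤ n) (hv : ConvexIndependent ℝ v) (hirr : IrrPair v)
    {A B : Set (ℂ × ℂ)} (hA : MeasurableSet A) (hB : MeasurableSet B)
    (hconeA : ∀ x w : ℂ, ∀ c : ℝ, 0 < c → ((x, w) ∈ A ↔ (x, (c : ℂ) * w) ∈ A))
    (hconeB : ∀ x w : ℂ, ∀ c : ℝ, 0 < c → ((x, w) ∈ B ↔ (x, (c : ℂ) * w) ∈ B))
    (HA : ∀ᵐ p ∂(volume : Measure (ℂ × ℂ)), HypAt v A p)
    (HB : ∀ᵐ p ∂(volume : Measure (ℂ × ℂ)), HypAt v B p) {k : ℕ}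
    (h0 : ∃ c : ℝ, (k ≠ 0 → c = 0) ∧ ∀ᵐ x : ℂ, x ∈ PP v → mode A k x - mode B k x = c) :
    ∃ c : ℝ, ∀ᵐ p : ℂ × ℂ, p.1 ∈ PP v →
      (A.indicator (1 : ℂ × ℂ → ℝ) p - B.indicator 1 p) +
        (-1) ^ k * (A.indicator (1 : ℂ × ℂ → ℝ) (p.1, -p.2) - B.indicator 1 (p.1, -p.2)) = c := by
  have hIA : Inv v A := inv_of_hyp hv HA
  have hIB : Inv v B := inv_of_hyp hv HB
  have hchA := chord_of_hyp (v := v) HA
  have hchB := chord_of_hyp (v := v) HB
  have hFA := LF_FA (v := v) hA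
  have hFB := LF_FA (v := v) hB
  have hsA : ∀ i j, IsSide v i j → SymAt (FA v A) (v i) (v j - v i) := fun i j hij =>
    symAt_FA hn hv hIA hchA hij
  have hsB : ∀ i j, IsSide v i j → SymAt (FA v B) (v i) (v j - v i) := fun i j hij =>
    symAt_FA hn hv hIB hchB hij
  set F : ℂ → ℝ → ℝ := fun w Q => FA v A w Q - FA v B w Q with hFdef
  have hF01 : ∀ (D : Set (ℂ × ℂ)) w Q, FA v D w Q = 0 ∨ FA v D w Q = 1 := by
    intro D w Q
    unfold FA
    by_cases h : (w, Q) ∈ Lset v D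
    · rw [indicator_of_mem h]; right; rfl
    · rw [indicator_of_notMem h]; left; rfl
  have hF : LF F := by
    constructor
    · exact hFA.meas.sub hFB.meas
    · intro w Q
      rw [hFdef]
      simp only
      rcases hF01 A w Q with h | h <;> rcases hF01 B w Q with h' | h' <;> rw [h, h'] <;> norm_num
  have hhom : Hom0 F := by
    intro r hr w Q
    rw [hFdef]
    simp only
    rw [FA_hom hconeA r hr, FA_hom hconeB r hr]
  have hs : ∀ i j, IsSide v i j → SymAt F (v i) (v j - v i) := by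
    intro i j hij
    filter_upwards [hsA i j hij, hsB i j hij] with w k1 k2
    filter_upwards [k1, k2] with τ k3 k4 hτ
    rw [hFdef]
    simp only
    rw [k3 hτ, k4 hτ]
  have h1 : ∃ c : ℝ, (k ≠ 0 → c = 0) ∧ ∀ᵐ x : ℂ, x ∈ PP v → cm F (ph k) x = c := by
    obtain ⟨c, hc0, hc⟩ := h0
    refine ⟨c, hc0, ?_⟩
    filter_upwards [hc, mode_eq hA hchA, mode_eq hB hchB] with x g1 g2 g3 hxP
    rw [← g1 hxP, g2 hxP k, g3 hxP k]
    exact cm_sub hFA hFB k x (fun _ _ => rfl)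
  obtain ⟨c, hc⟩ := mode_rigid hn hv hirr hF hhom hs h1
  refine ⟨c, ?_⟩
  have s1 := ae_prod_parity hF hc
  have s2 := ae_prod_FA hA hchA
  have s3 := ae_prod_FA hB hchB
  have s4 := neg_snd_mp.quasiMeasurePreserving.ae s2
  have s5 := neg_snd_mp.quasiMeasurePreserving.ae s3
  change ∀ᵐ p ∂((volume : Measure ℂ).prod (volume : Measure ℂ)), _
  filter_upwards [s1, s2, s3, s4, s5] with p k1 k2 k3 k4 k5 hp
  have k4' : FA v A (-p.2) (cr (-p.2) p.1) = A.indicator (1 : ℂ × ℂ → ℝ) (p.1, -p.2) := k4 hp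
  have k5' : FA v B (-p.2) (cr (-p.2) p.1) = B.indicator (1 : ℂ × ℂ → ℝ) (p.1, -p.2) := k5 hp
  rw [← k2 hp, ← k3 hp, ← k4', ← k5']
  exact k1 hp

end Pool.Agent.Lib.BilH
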