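import Pool.Agent.Lib.MP_7bc51d_an_s.BGeom
import Pool.Agent.Lib.MP_7bc51d_an_s.BPoly
import Pool.Agent.Lib.MP_7bc51d_an_s.BPotential
import Pool.Agent.Lib.MP_7bc51d_an_s.BWords
import Pool.Agent.Lib.MP_7bc51d_an_s.DenseDefs
import Pool.Agent.Lib.MP_7bc51d_an_s.DenseGeo40
import Pool.Agent.Lib.MP_7bc51d_an_s.DenseLim89
import Pool.Agent.Lib.MP_7bc51d_an_s.ErgConst1
import Pool.Agent.Lib.MP_7bc51d_an_s.ErgDefs
import Pool.Agent.Lib.MP_7bc51d_an_s.ErgLim89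
import Pool.Agent.Lib.MP_7bc51d_an_s.ErgMass12
import Pool.Agent.Lib.MP_7bc51d_an_s.FullDefs
import Pool.Agent.Lib.MP_7bc51d_an_s.FullLimC22
import Pool.Agent.Lib.MP_7bc51d_an_s.FullTop16

namespace Pool.Agent.Lib.Bil
end Pool.Agent.Lib.Bil
namespace Pool.Agent.Lib.BilD
end Pool.Agent.Lib.BilD
namespace Pool.Agent.Lib.BilE
end Pool.Agent.Lib.BilE
namespace Pool.Agent.Lib.BilF
end Pool.Agent.Lib.BilF

/-!
# Choice of the parameters, limits, constancy of the lowest modes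
-/

set_option autoImplicit false

namespace Pool.Agent.Lib.BilF.Small16

open Complex MeasureTheory Set Filter Topology
open scoped ComplexConjugate
open Pool.Agent.Lib.Bil Pool.Agent.Lib.BilD Pool.Agent.Lib.BilE Pool.Agent.Lib.BilF

variable {n : ℕ} {v : Fin n → ℂ}

theorem AG_XF {X : ℂ → ℂ → ℝ} {F : ℂ → ℝ → ℝ} (hF : LFS v F)
    (hm : Measurable (fun p : ℂ × ℂ => X p.1 p.2)) (h0 : ∀ x w, 0 ≤ X x w)
    (h1 : ∀ x w, X x w ≤ 1) : AG (XF X F) where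
  meas := by
    have hcr : Measurable (fun p : ℂ × ℂ => cr p.1 p.2) := continuous_cr.measurable
    have h2 : Measurable (fun p : ℂ × ℂ => F p.2 (cr p.2 p.1)) :=
      hF.lf.meas.comp (measurable_snd.prodMk (hcr.comp (measurable_snd.prodMk measurable_fst)))
    exact hm.mul h2
  bd := by
    intro x w
    unfold XF
    rw [abs_mul, abs_of_nonneg (h0 x w)]
    exact mul_le_one₀ (h1 x w) (abs_nonneg _) (hF.lf.bd w _)

/-- Row SMALLX: choice of the parameters. -/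
theorem small (hTel : StTelX) (hCut : StCut) (hX : StEstX) (hT : StEstT) : StSmallX := by
  intro n v C e0 hn hv hG F hF p η hη
  obtain ⟨C5, hC5, hTel⟩ := hTel
  obtain ⟨K1, hK1, hX⟩ := hX
  obtain ⟨K2, hK2, hT⟩ := hT
  obtain ⟨K3, hK3, hCut⟩ := hCut n v C e0 hn hv hG
  -- the number of levels
  set Q : ℝ := C5 * ((2 * K1 + K2) * K3 ^ 3) with hQ
  have hQ0 : 0 < Q := by rw [hQ]; positivity
  obtain ⟨m, hm⟩ := exists_nat_gt (2 * Q / η)
  have hm0 : (0 : ℝ) < m := lt_of_le_of_lt (by positivity) hm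
  have hm1 : 1 ≤ m := by
    have : 0 < m := by exact_mod_cast hm0
    omega
  have hmK : Q / m ≤ η / 2 := by
    rw [div_lt_iff₀ hη] at hm
    rw [div_le_iff₀ hm0]
    nlinarith
  -- the smallest radius
  set T : ℝ := min 1 (η / K3) with hTdef
  have hT0 : 0 < T := lt_min one_pos (by positivity)
  have hT1 : T ≤ 1 := min_le_left _ _
  have hT2 : K3 * T ^ 2 ≤ η := by
    have h1 : T ≤ η / K3 := min_le_right _ _
    have h2 : T ^ 2 ≤ T := by nlinarith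
    have h3 : T * K3 ≤ η := by rwa [le_div_iff₀ hK3] at h1
    nlinarith
  have h8 : (1 : ℝ) ≤ 8 ^ (m + 1) := one_le_pow₀ (by norm_num)
  have h80 : (0 : ℝ) < 8 ^ (m + 1) := by positivity
  set r0 : ℝ := T / 8 ^ (m + 1) with hr0def
  have hr0 : 0 < r0 := by rw [hr0def]; positivity
  have hr8 : 8 ^ (m + 1) * r0 = T := by rw [hr0def]; field_simp
  have hr1 : r0 ≤ 1 := by
    rw [hr0def, div_le_one h80]
    linarith
  obtain ⟨e1, he1, hEs⟩ := hCut m r0 hm1 hr0 hr1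
  obtain ⟨r2, hr2, hMs⟩ := Mass12.row n v C e0 hG F hF (η * r0 ^ 2 / (2 * (C5 * K2)))
    (by positivity)
  obtain ⟨ε, hε0, hε⟩ := exists_between (show (0 : ℝ) < min (min e1 e0) (min r2 (min r0 η)) from
    lt_min (lt_min he1 hG.e0p) (lt_min hr2 (lt_min hr0 hη)))
  have hεe1 : ε < e1 := hε.trans_le ((min_le_left _ _).trans (min_le_left _ _))
  have hεe0 : ε < e0 := hε.trans_le ((min_le_left _ _).trans (min_le_right _ _))
  have hεr2 : ε < r2 := hε.trans_le ((min_le_right _ _).trans (min_le_left _ _))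
  have hεr0 : ε < r0 := hε.trans_le ((min_le_right _ _).trans ((min_le_right _ _).trans
    (min_le_left _ _)))
  have hεη : ε < η := hε.trans_le ((min_le_right _ _).trans ((min_le_right _ _).trans
    (min_le_right _ _)))
  obtain ⟨X, R, hc, hR, hvol⟩ := hEs ε hε0 hεe1
  refine ⟨ε, X, hε0, hεη, hc.meas, hc.x0, hc.x1, ?_, ?_⟩
  · refine hvol.trans ?_
    rw [hr8]
    exact hT2
  · set N : ℕ := ⌈r0 ^ 2 / ε ^ 2⌉₊ with hNdef
    have hq : 1 < r0 ^ 2 / ε ^ 2 := by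
      rw [one_lt_div (by positivity)]
      exact pow_lt_pow_left₀ hεr0 hε0.le two_ne_zero
    have hN1 : r0 ^ 2 / ε ^ 2 ≤ N := Nat.le_ceil _
    have hN2 : (N : ℝ) ≤ 2 * (r0 ^ 2 / ε ^ 2) := by
      have := Nat.ceil_lt_add_one (show (0 : ℝ) ≤ r0 ^ 2 / ε ^ 2 by positivity)
      linarith
    have hN : 1 ≤ N := by
      have : (0 : ℝ) < N := by linarith
      have : 0 < N := by exact_mod_cast this
      omega
    have hN0 : (0 : ℝ) < N := by linarith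
    have hAG := AG_XF hF hc.meas hc.x0 hc.x1
    have hVZ : VZ v (XF X F) (4 * C * ε) := by
      intro x hx w k hk
      unfold XF
      rw [hc.vz x hx w k hk, zero_mul]
    refine (hTel n v C e0 hn hv hG (XF X F) hAG ε hε0 hεe0 hVZ p N hN).trans ?_
    have hM0 := hMs ε hε0 hεr2
    have hκ : 0 ≤ K3 * r0 := by positivity
    have hν : 0 ≤ K3 * ε ^ 2 / r0 := by positivity
    have b1 := hX n v C e0 hG F hF ε hε0 hεe0 X R _ _ hκ hν hc
    have b2 := hT n v C e0 hG F hF ε hε0 hεe0 X R _ _ hκ hν hc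
    have c1 : XE v (XF X F) ε ≤ K1 * K3 ^ 3 * ε ^ 2 / (r0 ^ 2 * m) := by
      refine b1.trans ?_
      calc K1 * (K3 * ε ^ 2 / r0) ^ 2 / ε ^ 2 * ∫ p in DD v, R p.1 p.2 ^ 2
          ≤ K1 * (K3 * ε ^ 2 / r0) ^ 2 / ε ^ 2 * (K3 / m) := by gcongr
        _ = K1 * K3 ^ 3 * ε ^ 2 / (r0 ^ 2 * m) := by field_simp
    have c2 : TE v (XF X F) ε ≤ K2 * (K3 ^ 3 * r0 ^ 2 / (ε ^ 2 * m) + Me v F ε) := by
      refine b2.trans ?_
      calc K2 * ((K3 * r0) ^ 2 / ε ^ 2 * (∫ p in DD v, R p.1 p.2 ^ 2) + Me v F ε)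
          ≤ K2 * ((K3 * r0) ^ 2 / ε ^ 2 * (K3 / m) + Me v F ε) := by gcongr
        _ = K2 * (K3 ^ 3 * r0 ^ 2 / (ε ^ 2 * m) + Me v F ε) := by field_simp
    have hXE0 : 0 ≤ XE v (XF X F) ε := integral_nonneg (fun q => sq_nonneg _)
    have hTE0 : 0 ≤ TE v (XF X F) ε :=
      integral_nonneg (fun q => add_nonneg (sq_nonneg _) (sq_nonneg _))
    have a1 : (N : ℝ) * XE v (XF X F) ε ≤ 2 * K1 * K3 ^ 3 / m := by
      calc (N : ℝ) * XE v (XF X F) ε
          ≤ (2 * (r0 ^ 2 / ε ^ 2)) * (K1 * K3 ^ 3 * ε ^ 2 / (r0 ^ 2 * m)) :=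
            mul_le_mul hN2 c1 hXE0 (by positivity)
        _ = 2 * K1 * K3 ^ 3 / m := by field_simp
    have a2 : TE v (XF X F) ε / N ≤ K2 * K3 ^ 3 / m + K2 * (ε ^ 2 * Me v F ε) / r0 ^ 2 := by
      calc TE v (XF X F) ε / N
          ≤ TE v (XF X F) ε / (r0 ^ 2 / ε ^ 2) :=
            div_le_div_of_nonneg_left hTE0 (by linarith) hN1
        _ ≤ (K2 * (K3 ^ 3 * r0 ^ 2 / (ε ^ 2 * m) + Me v F ε)) / (r0 ^ 2 / ε ^ 2) := by gcongr
        _ = K2 * K3 ^ 3 / m + K2 * (ε ^ 2 * Me v F ε) / r0 ^ 2 := by field_simp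
    have a3 : C5 * (K2 * (ε ^ 2 * Me v F ε) / r0 ^ 2) ≤ η / 2 := by
      calc C5 * (K2 * (ε ^ 2 * Me v F ε) / r0 ^ 2)
          ≤ C5 * (K2 * (η * r0 ^ 2 / (2 * (C5 * K2))) / r0 ^ 2) := by gcongr
        _ = η / 2 := by field_simp
    calc C5 * (N * XE v (XF X F) ε + TE v (XF X F) ε / N)
        ≤ C5 * (2 * K1 * K3 ^ 3 / m + (K2 * K3 ^ 3 / m +
            K2 * (ε ^ 2 * Me v F ε) / r0 ^ 2)) := by gcongr
      _ = Q / m + C5 * (K2 * (ε ^ 2 * Me v F ε) / r0 ^ 2) := by rw [hQ]; ring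
      _ ≤ η := by linarith

/-- Row LIMX. -/
theorem limX (hSmo : StSmoX) (hConv : StConv) : StLimX := by
  intro n v C e0 hn hv hG F hF p h
  have hZ0 : (0 : ℝ) < ∫ y, et 1 y := Pool.Agent.Lib.BilD.Lim89.Z0_pos
  have key : ∃ c : ℂ, ∀ᵐ x, x ∈ PP v → (((∫ y, et 1 y : ℝ)) : ℂ) * am v F p x = c := by
    refine Pool.Agent.Lib.BilF.LimC22.const_of_energy isOpen_PP convex_PP isBounded_PP
      ((Pool.Agent.Lib.BilE.Lim89.am_int hG hF p).const_mul _).integrableOn ?_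
    intro η hη
    obtain ⟨δ, hδ, hC⟩ := hConv n v C e0 hG F hF p η hη
    obtain ⟨ε, X, hε0, hε, hXm, hX0, hX1, hvol, hEN⟩ := h (min η δ) (lt_min hη hδ)
    refine ⟨uX v (XF X F) p ε, ((hSmo n v C e0 hG (XF X F) (AG_XF hF hXm hX0 hX1) ε hε0
      p).1).of_le (by norm_num), hEN.trans (min_le_left _ _), ?_⟩
    exact hC ε hε0 (hε.trans_le (min_le_right _ _)) X hXm hX0 hX1 (hvol.trans (min_le_right _ _))
  obtain ⟨c, hc⟩ := key
  have hZ : (((∫ y, et 1 y : ℝ)) : ℂ) ≠ 0 := by exact_mod_cast hZ0.ne'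
  refine ⟨c / (((∫ y, et 1 y : ℝ)) : ℂ), ?_⟩
  filter_upwards [hc] with x hx hxP
  rw [eq_div_iff hZ, mul_comm]
  exact hx hxP

/-- Row CONSTF. -/
theorem constF (hSmall : StSmallX) (hLim : StLimX) : BilF.StConstF := by
  intro n v hn hv F hF _ p _
  obtain ⟨C, e0, hG⟩ := Geo40.row n hn v hv
  obtain ⟨c, hc⟩ := hLim n v C e0 hn hv hG F hF p (hSmall n v C e0 hn hv hG F hF p)
  refine ⟨c, ?_⟩
  filter_upwards [hc] with x hx hxP
  rw [← Const1.am_PP hG p hxP]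
  exact hx hxP

/-- Everything above the analysis rows. -/
theorem ae_ergodic (hTel : StTelX) (hCut : StCut) (hX : StEstX) (hT : StEstT) (hSmo : StSmoX)
    (hConv : StConv) : BilX.Top16.StConstF :=
  constF (small hTel hCut hX hT) (limX hSmo hConv)

end Pool.Agent.Lib.BilF.Small16
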