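import Pool.Agent.Lib.MP_7bc51d_an_s.BGeom
import Pool.Agent.Lib.MP_7bc51d_an_s.DenseBasic
import Pool.Agent.Lib.MP_7bc51d_an_s.DenseDefs
import Pool.Agent.Lib.MP_7bc51d_an_s.DenseEI17
import Pool.Agent.Lib.MP_7bc51d_an_s.DenseTel
import Pool.Agent.Lib.MP_7bc51d_an_s.FullLadder96

namespace Pool.Agent.Lib.Bil
end Pool.Agent.Lib.Bil
namespace Pool.Agent.Lib.BilD
end Pool.Agent.Lib.BilD

/-!
# Velocity averaging on the polygon: energy of the lowest mode (helper96)
-/

set_option autoImplicit false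

namespace Pool.Agent.Lib.BilF

open Complex MeasureTheory Set Filter Topology Finset
open scoped ComplexConjugate
open Pool.Agent.Lib.Bil Pool.Agent.Lib.BilD

variable {n : ℕ} {v : Fin n → ℂ}

/-- the energies of `dz` and `dzb` agree, if the side condition holds everywhere -/
theorem energy_eq96 (hn : 3 ≤ n) (hv : ConvexIndependent ℝ v) {u : ℂ → ℂ} (hu : ContDiff ℝ 2 u)
    (hside : ∀ s ∈ SD v, ∀ t ∈ Ioo (0 : ℝ) 1,
      (conj (u (v s.1 + (t : ℂ) * ed v s)) *
        fderiv ℝ u (v s.1 + (t : ℂ) * ed v s) (ed v s)).im = 0) :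
    ∫ x in PP v, ‖dz u x‖ ^ 2 = ∫ x in PP v, ‖dzb u x‖ ^ 2 := by
  have h := ei17 n hn v hv u (fun _ => 1) hu contDiff_const (fun s hs t ht => by
    rw [one_mul]; exact hside s hs t ht)
  have hJ : ∀ x, Jf (fun _ => (1 : ℝ)) u x = 0 := by
    intro x
    unfold Jf
    simp
  simp only [one_mul, hJ, integral_zero, mul_zero] at h
  linarith

/-- (TELX) velocity averaging: `u j` are the modes `p + 2 j` of a function whose derivative along
the flow has square integral `B` and whose gradient has square integral `A`. -/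
theorem telx96 (hn : 3 ≤ n) (hv : ConvexIndependent ℝ v) {u : ℕ → ℂ → ℂ}
    (hu : ∀ j, ContDiff ℝ 2 (u j))
    (hside : ∀ j, ∀ s ∈ SD v, ∀ t ∈ Ioo (0 : ℝ) 1,
      (conj (u j (v s.1 + (t : ℂ) * ed v s)) *
        fderiv ℝ (u j) (v s.1 + (t : ℂ) * ed v s) (ed v s)).im = 0)
    {A B : ℂ → ℝ} (hA : IntegrableOn A (PP v)) (hB : IntegrableOn B (PP v))
    {N : ℕ} (hN : 1 ≤ N)
    (hbes : ∀ x ∈ PP v, ∑ j ∈ Finset.range N, ‖fderiv ℝ (u j) x‖ ^ 2 ≤ A x)
    (hsrc : ∀ x ∈ PP v, ∑ j ∈ Finset.range N, ‖dz (u j) x + dzb (u (j + 1)) x‖ ^ 2 ≤ B x) :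
    ∫ x in PP v, (‖dz (u 0) x‖ ^ 2 + ‖dzb (u 0) x‖ ^ 2) ≤
      4 * (N * (∫ x in PP v, B x) + (∫ x in PP v, A x) / N) := by
  have cz : ∀ j, Continuous (dz (u j)) := fun j => Tel74.dz_cont (hu j)
  have czb : ∀ j, Continuous (dzb (u j)) := fun j => Tel74.dzb_cont (hu j)
  have iz : ∀ j, IntegrableOn (fun x => ‖dz (u j) x‖ ^ 2) (PP v) := fun j =>
    Tel74.intOn_cont ((cz j).norm.pow 2)
  have izb : ∀ j, IntegrableOn (fun x => ‖dzb (u j) x‖ ^ 2) (PP v) := fun j =>
    Tel74.intOn_cont ((czb j).norm.pow 2)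
  have iS : ∀ j, IntegrableOn (fun x => ‖dz (u j) x + dzb (u (j + 1)) x‖ ^ 2) (PP v) := fun j =>
    Tel74.intOn_cont (((cz j).add (czb (j + 1))).norm.pow 2)
  have hDE : ∀ j, ∫ x in PP v, ‖dz (u j) x‖ ^ 2 = ∫ x in PP v, ‖dzb (u j) x‖ ^ 2 := fun j =>
    energy_eq96 hn hv (hu j) (hside j)
  have key := ladder96 (d := fun j => ∫ x in PP v, ‖dz (u j) x‖ ^ 2)
    (g := fun j => ∫ x in PP v, ‖dz (u j) x + dzb (u (j + 1)) x‖ ^ 2)
    (G := ∫ x in PP v, B x) (E := ∫ x in PP v, A x) (N := N) hN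
    (fun j => integral_nonneg fun x => by positivity)
    (fun j => integral_nonneg fun x => by positivity)
    (fun j _ => by
      have h1 := l2_tri96 (μ := volume.restrict (PP v)) (a := fun x => ‖dz (u j) x‖)
        (b := fun x => ‖dz (u j) x + dzb (u (j + 1)) x‖) (c := fun x => ‖dzb (u (j + 1)) x‖)
        (iz j) (iS j) (izb (j + 1)) (Eventually.of_forall fun x => by
          rw [abs_of_nonneg (norm_nonneg _)]
          have h2 : dz (u j) x = (dz (u j) x + dzb (u (j + 1)) x) - dzb (u (j + 1)) x := by ring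
          calc ‖dz (u j) x‖ = ‖(dz (u j) x + dzb (u (j + 1)) x) - dzb (u (j + 1)) x‖ := by rw [← h2]
            _ ≤ _ := norm_sub_le _ _)
      rw [← hDE (j + 1)] at h1
      exact h1)
    (by
      rw [← integral_finsetSum _ (fun j _ => iS j)]
      exact setIntegral_mono_on (integrable_finsetSum _ (fun j _ => iS j)) hB meas_PP hsrc)
    (by
      rw [← integral_finsetSum _ (fun j _ => iz j)]
      refine setIntegral_mono_on (integrable_finsetSum _ (fun j _ => iz j)) hA meas_PP ?_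
      intro x hx
      refine (Finset.sum_le_sum fun j _ => ?_).trans (hbes x hx)
      exact pow_le_pow_left₀ (norm_nonneg _) (Tel74.dz_le x) 2)
  rw [integral_add (iz 0) (izb 0), ← hDE 0]
  linarith

end Pool.Agent.Lib.BilF
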