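import Pool.Agent.Lib.MP_7bc51d_an_s.BGeom
import Pool.Agent.Lib.MP_7bc51d_an_s.BPotential
import Pool.Agent.Lib.MP_7bc51d_an_s.BWords
import Pool.Agent.Lib.MP_7bc51d_an_s.DenseBasic
import Pool.Agent.Lib.MP_7bc51d_an_s.DenseDefs
import Pool.Agent.Lib.MP_7bc51d_an_s.FullDefs
import Pool.Agent.Lib.MP_7bc51d_an_s.FullGam21
import Pool.Agent.Lib.MP_7bc51d_an_s.FullTelx96

namespace Pool.Agent.Lib.Bil
end Pool.Agent.Lib.Bil
namespace Pool.Agent.Lib.BilD
end Pool.Agent.Lib.BilD
namespace Pool.Agent.Lib.BilF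
end Pool.Agent.Lib.BilF

/-!
# Row TELX: velocity averaging (helper96)
-/

set_option autoImplicit false

namespace Pool.Agent.Lib.BilF.TelX96

open Complex MeasureTheory Set Filter Topology
open scoped ComplexConjugate
open Pool.Agent.Lib.Bil Pool.Agent.Lib.BilD Pool.Agent.Lib.BilF

variable {n : ℕ} {v : Fin n → ℂ}

/-- the extended function is measurable and bounded -/
theorem gX_GM {G : ℂ → ℂ → ℝ} (hG : AG G) :
    BilG.GM (gX v G) (1 + ((SD v).card : ℝ)) := by
  constructor
  · unfold gX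
    refine Measurable.add ?_ ?_
    · have h1 : Measurable ((Prod.fst ⁻¹' PP v : Set (ℂ × ℂ)).indicator
          (fun p : ℂ × ℂ => G p.1 p.2)) := hG.meas.indicator (measurable_fst meas_PP)
      exact h1
    · refine Finset.measurable_fun_sum _ fun s _ => ?_
      have h1 : Measurable (fun p : ℂ × ℂ => G (Rs v s p.1) (rl (ed v s) p.2)) :=
        hG.meas.comp (((cont_Rs s).measurable.comp measurable_fst).prodMk
          ((continuous_rl _).measurable.comp measurable_snd))
      have h2 : Measurable ((Prod.fst ⁻¹' (BilD.OO v s) : Set (ℂ × ℂ)).indicator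
          (fun p : ℂ × ℂ => G (Rs v s p.1) (rl (ed v s) p.2))) :=
        h1.indicator (measurable_fst (meas_OO s))
      exact h2
  · intro x w
    unfold gX
    refine (abs_add_le _ _).trans (add_le_add ?_ ?_)
    · by_cases hx : x ∈ PP v
      · rw [indicator_of_mem hx]; exact hG.bd x w
      · rw [indicator_of_notMem hx, abs_zero]; exact zero_le_one
    · refine (Finset.abs_sum_le_sum_abs _ _).trans ?_
      have h3 : ∀ s ∈ SD v, |(BilD.OO v s).indicator
          (fun x => G (Rs v s x) (rl (ed v s) w)) x| ≤ (1 : ℝ) := by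
        intro s _
        by_cases hx : x ∈ BilD.OO v s
        · rw [indicator_of_mem hx]; exact hG.bd _ _
        · rw [indicator_of_notMem hx, abs_zero]; exact zero_le_one
      refine (Finset.sum_le_sum h3).trans (le_of_eq ?_)
      simp

/-- Fubini on the phase space for bounded measurable functions -/
theorem fub96 {f : ℂ × ℂ → ℝ} (hf : Measurable f) {B : ℝ} (hB : ∀ p, |f p| ≤ B) :
    IntegrableOn (fun x => ∫ w in BV, f (x, w)) (PP v) ∧
      ∫ x in PP v, ∫ w in BV, f (x, w) = ∫ p in DD v, f p := by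
  have hfin : (volume : Measure (ℂ × ℂ)) (PP v ×ˢ BV) < ⊤ := by
    rw [Measure.volume_eq_prod, Measure.prod_prod]
    exact ENNReal.mul_lt_top vol_PP_lt BilD.vol_BV
  have hi : IntegrableOn f (PP v ×ˢ BV) ((volume : Measure ℂ).prod volume) := by
    rw [← Measure.volume_eq_prod]
    exact Measure.integrableOn_of_bounded (M := B) hfin.ne hf.aestronglyMeasurable
      (Eventually.of_forall fun p => by rw [Real.norm_eq_abs]; exact hB p)
  have h1 := setIntegral_prod f hi
  constructor
  · have h2 : Integrable f ((volume.restrict (PP v)).prod (volume.restrict BV)) := by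
      rw [Measure.prod_restrict]; exact hi
    exact h2.integral_prod_left
  · rw [← h1, Measure.volume_eq_prod]
    rfl

theorem row (hSide : StSideX) : StTelX := by
  refine ⟨8 * Real.pi, by positivity, ?_⟩
  intro n v C e0 hn hv hGeo G hG ε hε hεe hVZ m N hN
  have hΓ := gX_GM (v := v) hG
  have hu : ∀ j, ContDiff ℝ 2 (uX v G (m + 2 * j) ε) := fun j =>
    (BilG.smo hΓ hε (m + 2 * j)).1
  -- the two densities
  set M : ℝ := (1 + ((SD v).card : ℝ)) * BilG.KK0 * Real.pi / ε with hM
  have hM0 : 0 ≤ M := by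
    have := BilG.KK0_pos
    positivity
  have hb : ∀ x w h : ℂ, ‖h‖ ≤ 1 → |dX v G ε x w h| ≤ M := by
    intro x w h hh
    have h1 := BilG.gG_bound hΓ hε x w h
    calc |dX v G ε x w h| ≤ M * ‖h‖ := h1
      _ ≤ M * 1 := mul_le_mul_of_nonneg_left hh hM0
      _ = M := mul_one M
  have hbn : ∀ x w : ℂ, |dX v G ε x w (nw w)| ≤ M := fun x w => BilG.sdir_bound hΓ hε x w
  have m1 : Measurable (fun p : ℂ × ℂ => dX v G ε p.1 p.2 1 ^ 2 + dX v G ε p.1 p.2 I ^ 2) :=
    ((BilG.gG_meas2 (ε := ε) hΓ 1).pow_const 2).add ((BilG.gG_meas2 (ε := ε) hΓ I).pow_const 2)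
  have m2 : Measurable (fun p : ℂ × ℂ => dX v G ε p.1 p.2 (nw p.2) ^ 2) :=
    (BilG.sdir_meas2 hΓ hε).pow_const 2
  have sqb : ∀ {a : ℝ}, |a| ≤ M → a ^ 2 ≤ M ^ 2 := fun {a} h => by
    rw [← sq_abs]; exact pow_le_pow_left₀ (abs_nonneg _) h 2
  have f1 := fub96 (v := v) m1 (B := 2 * M ^ 2) (fun p => by
    rw [abs_of_nonneg (by positivity)]
    have a1 := sqb (hb p.1 p.2 1 (by simp))
    have a2 := sqb (hb p.1 p.2 I (by simp))
    linarith)
  have f2 := fub96 (v := v) m2 (B := M ^ 2) (fun p => by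
    rw [abs_of_nonneg (by positivity)]
    exact sqb (hbn p.1 p.2))
  have key := telx96 hn hv (u := fun j => uX v G (m + 2 * j) ε) hu
    (fun j s hs t ht => hSide n v C e0 hGeo hv G hG ε hε hεe hVZ s hs t ht (m + 2 * j))
    (A := fun x => 2 * Real.pi * ∫ w in BV, (dX v G ε x w 1 ^ 2 + dX v G ε x w I ^ 2))
    (B := fun x => Real.pi * ∫ w in BV, dX v G ε x w (nw w) ^ 2)
    (f1.1.const_mul _) (f2.1.const_mul _) hN
    (fun x _ => by
      have h1 := BilG.bes hΓ hε x ((Finset.range N).image fun j => m + 2 * j)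
      rw [Finset.sum_image (fun a _ b _ h => by simpa using h)] at h1
      exact h1)
    (fun x _ => by
      have h1 := BilG.besx hΓ hε x ((Finset.range N).image fun j => m + 2 * j + 1)
      rw [Finset.sum_image (fun a _ b _ h => by simpa using h)] at h1
      refine (Finset.sum_le_sum fun j _ => ?_).trans h1
      have h2 := BilG.mode hΓ hε (m + 2 * j) x
      have h3 : m + 2 * (j + 1) = m + 2 * j + 2 := by ring
      change ‖dz (BilG.uG (gX v G) (m + 2 * j) ε) x +
        dzb (BilG.uG (gX v G) (m + 2 * (j + 1)) ε) x‖ ^ 2 ≤ _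
      rw [h3, h2])
  have e1 : ∫ x in PP v, 2 * Real.pi * ∫ w in BV, (dX v G ε x w 1 ^ 2 + dX v G ε x w I ^ 2) =
      2 * Real.pi * TE v G ε := by
    rw [integral_const_mul]
    exact congrArg (2 * Real.pi * ·) f1.2
  have e2 : ∫ x in PP v, Real.pi * ∫ w in BV, dX v G ε x w (nw w) ^ 2 =
      Real.pi * XE v G ε := by
    rw [integral_const_mul]
    exact congrArg (Real.pi * ·) f2.2
  rw [e1, e2] at key
  have hXE : 0 ≤ XE v G ε := integral_nonneg fun p => by positivity
  have hN0 : (0 : ℝ) < N := by exact_mod_cast hN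
  have key2 : EN v G m ε ≤ 4 * (N * (Real.pi * XE v G ε) + 2 * Real.pi * TE v G ε / N) := key
  have hpos : 0 ≤ (N : ℝ) * (Real.pi * XE v G ε) := by positivity
  calc EN v G m ε ≤ _ := key2
    _ ≤ 8 * Real.pi * (N * XE v G ε + TE v G ε / N) := by
        have : 8 * Real.pi * (N * XE v G ε + TE v G ε / N) -
            4 * (N * (Real.pi * XE v G ε) + 2 * Real.pi * TE v G ε / N) =
            4 * (N * (Real.pi * XE v G ε)) := by ring
        linarith

end Pool.Agent.Lib.BilF.TelX96
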