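import Pool.Agent.Lib.MP_7bc51d_an_s.FullCapDefs
import Pool.Agent.Lib.MP_7bc51d_an_s.FullConvX89
import Pool.Agent.Lib.MP_7bc51d_an_s.FullCutD5
import Pool.Agent.Lib.MP_7bc51d_an_s.FullCutRow3
import Pool.Agent.Lib.MP_7bc51d_an_s.FullDefs
import Pool.Agent.Lib.MP_7bc51d_an_s.FullEstT22
import Pool.Agent.Lib.MP_7bc51d_an_s.FullEstX10
import Pool.Agent.Lib.MP_7bc51d_an_s.FullLine45
import Pool.Agent.Lib.MP_7bc51d_an_s.FullRow27
import Pool.Agent.Lib.MP_7bc51d_an_s.FullSmall16
import Pool.Agent.Lib.MP_7bc51d_an_s.FullSmo21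
import Pool.Agent.Lib.MP_7bc51d_an_s.FullTelX96
import Pool.Agent.Lib.MP_7bc51d_an_s.FullTop16

namespace Pool.Agent.Lib.Bil
end Pool.Agent.Lib.Bil
namespace Pool.Agent.Lib.BilD
end Pool.Agent.Lib.BilD
namespace Pool.Agent.Lib.BilE
end Pool.Agent.Lib.BilE
namespace Pool.Agent.Lib.BilF
end Pool.Agent.Lib.BilF

/-!
# Ergodicity of irrational convex polygons: assembly
-/

set_option autoImplicit false

namespace Pool.Agent.Lib.BilF.All16

open Complex MeasureTheory Set Filter Topology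
open scoped ComplexConjugate
open Pool.Agent.Lib.Bil Pool.Agent.Lib.BilD Pool.Agent.Lib.BilE Pool.Agent.Lib.BilF

theorem const_of_cut (hCut : StCut) : BilX.Top16.StConstF :=
  Small16.ae_ergodic (TelX96.row (Row27.sideX Smo21.smoX)) hCut
    (EstX10.row Line45.row Row27.zeroX) (EstT22.row Row27.zeroX) Smo21.smoX ConvX89.row

theorem cut : StCut := CutRow3.row (fun _ hn _ hv => by
  obtain ⟨C, hC, h⟩ := CutD5.cutD hn hv
  exact ⟨C, hC, fun a b ha hb => ⟨_, h a b ha hb⟩⟩)

/-- Both lowest modes of an invariant function of a convex polygon are constant. -/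
theorem const : BilX.Top16.StConstF := const_of_cut cut

end Pool.Agent.Lib.BilF.All16
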