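import Pool.Agent.Lib.MP_7bc51d_an_s.BGeom
import Pool.Agent.Lib.MP_7bc51d_an_s.DenseBasic
import Pool.Agent.Lib.MP_7bc51d_an_s.DenseDefs
import Pool.Agent.Lib.MP_7bc51d_an_s.FullDefs
import Pool.Agent.Lib.MP_7bc51d_an_s.FullGam21

namespace Pool.Agent.Lib.Bil
end Pool.Agent.Lib.Bil
namespace Pool.Agent.Lib.BilD
end Pool.Agent.Lib.BilD
namespace Pool.Agent.Lib.BilE
end Pool.Agent.Lib.BilE
namespace Pool.Agent.Lib.BilG
end Pool.Agent.Lib.BilG

/-!
# Rows SMOX, MODEX, BESX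
-/

set_option autoImplicit false

namespace Pool.Agent.Lib.BilF.Smo21

open Complex MeasureTheory Set Filter Topology
open scoped ComplexConjugate
open Pool.Agent.Lib.Bil Pool.Agent.Lib.BilD Pool.Agent.Lib.BilE Pool.Agent.Lib.BilG

variable {n : ℕ} {v : Fin n → ℂ} {G : ℂ → ℂ → ℝ} {ε : ℝ}

theorem gX_meas (hG : AG G) : Measurable (fun p : ℂ × ℂ => gX v G p.1 p.2) := by
  unfold gX
  apply Measurable.add
  · have h1 : Measurable (fun p : ℂ × ℂ => G p.1 p.2) := hG.meas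
    exact h1.indicator (measurable_fst meas_PP)
  · apply Finset.measurable_fun_sum
    intro s _
    have h2 : Measurable (fun p : ℂ × ℂ => rl (ed v s) p.2) :=
      (continuous_rl (ed v s)).measurable.comp measurable_snd
    have h3 : Measurable (fun p : ℂ × ℂ => Rs v s p.1) := (cont_Rs s).measurable.comp measurable_fst
    have h1 : Measurable (fun p : ℂ × ℂ => G (Rs v s p.1) (rl (ed v s) p.2)) :=
      hG.meas.comp (h3.prodMk h2)
    exact h1.indicator (measurable_fst (meas_OO s))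

theorem gX_bd (hG : AG G) (x w : ℂ) : |gX v G x w| ≤ (n : ℝ) ^ 2 + 1 := by
  unfold gX
  have h2 : ∀ (S : Set ℂ) (g : ℂ → ℝ), (∀ y, |g y| ≤ 1) → |S.indicator g x| ≤ 1 := by
    intro S g hg
    by_cases h : x ∈ S
    · rw [indicator_of_mem h]; exact hg x
    · rw [indicator_of_notMem h, abs_zero]; exact zero_le_one
  have h3 : |∑ s ∈ SD v, (BilD.OO v s).indicator
      (fun x => G (Rs v s x) (rl (ed v s) w)) x| ≤ ∑ s ∈ SD v, (1 : ℝ) :=
    (Finset.abs_sum_le_sum_abs _ _).trans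
      (Finset.sum_le_sum (fun s _ => h2 _ _ (fun y => hG.bd _ _)))
  have h4 : ∑ s ∈ SD v, (1 : ℝ) ≤ (n : ℝ) ^ 2 := by
    rw [Finset.sum_const, nsmul_eq_mul, mul_one]
    have : (SD v).card ≤ n ^ 2 := by
      calc (SD v).card ≤ Fintype.card (Fin n × Fin n) := Finset.card_le_univ _
        _ = n ^ 2 := by simp [sq]
    exact_mod_cast this
  have h5 := h2 (PP v) (fun x => G x w) (fun y => hG.bd _ _)
  have h6 := abs_add_le ((PP v).indicator (fun x => G x w) x)
    (∑ s ∈ SD v, (BilD.OO v s).indicator (fun x => G (Rs v s x) (rl (ed v s) w)) x)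
  linarith

theorem gm (hG : AG G) : GM (gX v G) ((n : ℝ) ^ 2 + 1) := ⟨gX_meas hG, gX_bd hG⟩

/-- (SMOX) -/
theorem smoX : StSmoX := by
  intro n v C e0 _ G hG ε hε m
  exact smo (gm (v := v) hG) hε m

end Pool.Agent.Lib.BilF.Smo21
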